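import Pool.Agent.MP_9a3194_co.Basic

open Finset
open scoped symmDiff

namespace Pool.Agent.MP_9a3194_co

namespace Str

variable {V : Type} [Fintype V] [DecidableEq V] {S : Str V}

/-- the offset of the switched window -/
def off_Flip (y : V → Bool) (z : V → ℤ) (g : V) : ℕ := if (z g = 1 ↔ y g = true) then 0 else 5

/-- the points of a window of length three, shifted by `s` -/
def Q_Flip (S : Str V) (G : Finset V) (y : V → Bool) (z : V → ℤ) (s : ℕ) (v : V) : Prop :=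
  ∃ g ∈ G, z g ≠ 0 ∧ ∃ n, off_Flip y z g + s ≤ n ∧ n ≤ off_Flip y z g + s + 2 ∧ (S.π ^ n) g = v

omit [Fintype V] [DecidableEq V] in
theorem off_le_Flip (y : V → Bool) (z : V → ℤ) (g : V) : off_Flip y z g ≤ 5 := by
  unfold off_Flip
  split_ifs <;> omega

omit [Fintype V] [DecidableEq V] in
theorem pow_succ_Flip (n : ℕ) (g : V) : (S.π ^ (n + 1)) g = S.π ((S.π ^ n) g) := by
  rw [pow_succ', Equiv.Perm.mul_apply]

omit [Fintype V] [DecidableEq V] in
theorem Q_succ_Flip {G : Finset V} {y : V → Bool} {z : V → ℤ} (s : ℕ) (v : V) :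
    Q_Flip S G y z (s + 1) (S.π v) ↔ Q_Flip S G y z s v := by
  constructor
  · rintro ⟨g, hg, hz, n, h1, h2, h3⟩
    obtain ⟨m, rfl⟩ : ∃ m, n = m + 1 := ⟨n - 1, by omega⟩
    rw [pow_succ_Flip] at h3
    exact ⟨g, hg, hz, m, by omega, by omega, S.π.injective h3⟩
  · rintro ⟨g, hg, hz, n, h1, h2, h3⟩
    exact ⟨g, hg, hz, n + 1, by omega, by omega, by rw [pow_succ_Flip, h3]⟩

omit [Fintype V] [DecidableEq V] in
theorem Q_pred_Flip {G : Finset V} {y : V → Bool} {z : V → ℤ} (s : ℕ) (v : V) :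
    Q_Flip S G y z s (S.π⁻¹ v) ↔ Q_Flip S G y z (s + 1) v := by
  rw [← Q_succ_Flip]
  simp

theorem Q_iff_Flip {k R r l : ℕ} {y : V → Bool} {F G : Finset V} {cell : V → V}
    (h : S.Cfg k R r l y F G cell) {z : V → ℤ} {s : ℕ} (hs : s ≤ 2) {g : V} (hg : g ∈ G)
    (hz : z g ≠ 0) {n : ℕ} (hn : n < 10) :
    Q_Flip S G y z s ((S.π ^ n) g) ↔ off_Flip y z g + s ≤ n ∧ n ≤ off_Flip y z g + s + 2 := by
  constructor
  · rintro ⟨g', hg', -, m, h1, h2, h3⟩
    have := off_le_Flip y z g'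
    obtain ⟨rfl, rfl⟩ := h.injP g' hg' g hg m (by omega) n hn h3
    exact ⟨h1, h2⟩
  · rintro ⟨h1, h2⟩
    exact ⟨g, hg, hz, n, h1, h2, rfl⟩

omit [Fintype V] [DecidableEq V] in
theorem Q_pos_Flip {G : Finset V} {y : V → Bool} {z : V → ℤ} {s : ℕ} (hs : s ≤ 2) {v : V}
    (h : Q_Flip S G y z s v) :
    ∃ g ∈ G, z g ≠ 0 ∧ ∃ i ≤ 4, (S.π ^ (off_Flip y z g + i)) g = v := by
  obtain ⟨g, hg, hz, n, h1, h2, h3⟩ := h
  exact ⟨g, hg, hz, n - off_Flip y z g, by omega, by rwa [Nat.add_sub_cancel' (by omega)]⟩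

theorem notF_Flip {k R r l : ℕ} {y : V → Bool} {F G : Finset V} {cell : V → V}
    (h : S.Cfg k R r l y F G cell) {g : V} (hg : g ∈ G) {n : ℕ} (hn : n < 10) :
    (S.π ^ n) g ∉ F := fun hF => (h.far _ hF g hg).1 (S.mem_Om.2 ⟨n, hn, Or.inl rfl⟩)

theorem y_succ_Flip {k R r l : ℕ} {y : V → Bool} {F G : Finset V} {cell : V → V}
    (h : S.Cfg k R r l y F G cell) {g : V} (hg : g ∈ G) {n : ℕ} (hn : n < 10) :
    y ((S.π ^ (n + 1)) g) = !y ((S.π ^ n) g) := by
  rw [pow_succ_Flip]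
  exact Bool.eq_not.2 (h.col.alt _ (notF_Flip h hg hn)).1

/-- switching the controllers -/
theorem flip {k R r l : ℕ} {y : V → Bool} {F G : Finset V} {cell : V → V}
    (h : S.Cfg k R r l y F G cell) (hr : 2 * k ≤ r) (z : V → ℤ)
    (hz : ∀ g, z g = 0 ∨ g ∈ G ∧ (z g = 1 ∨ z g = -1)) :
    ∃ (y' : V → Bool) (Fc : Finset V) (src : V → Finset V), S.Col k y' (F ∪ Fc) ∧ Disjoint F Fc ∧
      Fc ⊆ S.tube G 10 ∧ (∀ a ∈ F, y' a = y a) ∧
      (∀ g ∈ G, (src g).card = 4 ∧ src g ⊆ S.tube {g} 10) ∧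
      ∀ φ : V → ℝ, ∑ a ∈ Fc, sgn (y' a) / 2 * φ a =
        2 * ∑ g, (z g : ℝ) * ((∑ a ∈ src g, φ a) / 4) := by
  classical
  have ho := off_le_Flip y z
  obtain ⟨y', hy1, hy0⟩ : ∃ y' : V → Bool, (∀ v, Q_Flip S G y z 1 v → y' v = !y v) ∧
      ∀ v, ¬ Q_Flip S G y z 1 v → y' v = y v :=
    ⟨fun v => if Q_Flip S G y z 1 v then !y v else y v, fun v hv => if_pos hv,
      fun v hv => if_neg hv⟩
  obtain ⟨src, hsrc⟩ : ∃ src : V → Finset V, ∀ g, src g =
      ({0, 1, 3, 4} : Finset ℕ).image fun i => (S.π ^ (off_Flip y z g + i)) g := ⟨_, fun _ => rfl⟩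
  have msrc : ∀ g v, v ∈ src g ↔ ∃ i, (i = 0 ∨ i = 1 ∨ i = 3 ∨ i = 4) ∧
      (S.π ^ (off_Flip y z g + i)) g = v := by
    intro g v
    simp only [hsrc, mem_image, mem_insert, mem_singleton]
  obtain ⟨Fc, hFc⟩ : ∃ Fc : Finset V, Fc = (G.filter fun g => z g ≠ 0).biUnion src := ⟨_, rfl⟩
  have mFc : ∀ v, v ∈ Fc ↔ ∃ g ∈ G, z g ≠ 0 ∧ ∃ i, (i = 0 ∨ i = 1 ∨ i = 3 ∨ i = 4) ∧
      (S.π ^ (off_Flip y z g + i)) g = v := by
    intro v
    simp only [hFc, mem_biUnion, mem_filter, msrc, and_assoc]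
  have hQt : ∀ s ≤ 2, ∀ v, Q_Flip S G y z s v → ∃ g ∈ G, ∃ n < 10, (S.π ^ n) g = v := by
    intro s hs v hv
    obtain ⟨g, hg, -, i, hi, hv⟩ := Q_pos_Flip hs hv
    exact ⟨g, hg, _, by have := ho g; omega, hv⟩
  have hQF : ∀ s ≤ 2, ∀ a ∈ F, ¬ Q_Flip S G y z s a := by
    intro s hs a ha hq
    obtain ⟨g, hg, n, hn, rfl⟩ := hQt s hs a hq
    exact notF_Flip h hg hn ha
  have hcol : ∀ g ∈ G, z g ≠ 0 → ∀ i, (i = 0 ∨ i = 1 ∨ i = 3 ∨ i = 4) →
      y' ((S.π ^ (off_Flip y z g + i)) g) = y ((S.π ^ off_Flip y z g) g) := by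
    intro g hg hzg i hi
    have := ho g
    have hq := fun n hn => Q_iff_Flip h (z := z) (s := 1) (by omega) hg hzg (n := n) hn
    have e1 := y_succ_Flip h hg (n := off_Flip y z g) (by omega)
    have e2 := y_succ_Flip h hg (n := off_Flip y z g + 1) (by omega)
    have e3 := y_succ_Flip h hg (n := off_Flip y z g + 2) (by omega)
    have e4 := y_succ_Flip h hg (n := off_Flip y z g + 3) (by omega)
    rcases hi with rfl | rfl | rfl | rfl
    · rw [hy0 _ fun hh => by have := (hq _ (by omega)).1 hh; omega]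
      rfl
    · rw [hy1 _ ((hq _ (by omega)).2 (by omega)), e1, Bool.not_not]
    · rw [hy1 _ ((hq _ (by omega)).2 (by omega)), e3, e2, e1]
      simp only [Bool.not_not]
    · rw [hy0 _ fun hh => by have := (hq _ (by omega)).1 hh; omega, e4, e3, e2, e1]
      simp only [Bool.not_not]
  have h5 : ∀ g ∈ G, y ((S.π ^ 5) g) = !y g := by
    intro g hg
    have e0 := y_succ_Flip h hg (n := 0) (by omega)
    have e1 := y_succ_Flip h hg (n := 1) (by omega)
    have e2 := y_succ_Flip h hg (n := 2) (by omega)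
    have e3 := y_succ_Flip h hg (n := 3) (by omega)
    have e4 := y_succ_Flip h hg (n := 4) (by omega)
    rw [e4, e3, e2, e1, e0]
    simp
  have hFt : Fc ⊆ S.tube G 10 := by
    intro v hv
    obtain ⟨g, hg, -, i, hi, hv⟩ := (mFc v).1 hv
    exact S.mem_tube.2 ⟨g, hg, _, by have := ho g; omega, hv⟩
  refine ⟨y', Fc, src, ⟨?_, ?_, ?_⟩, ?_, hFt, fun a ha => hy0 a (hQF 1 (by omega) a ha), ?_, ?_⟩
  · intro v hv
    rw [mem_union, not_or] at hv
    have ha := h.col.alt v hv.1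
    by_cases hq : Q_Flip S G y z 0 v ∨ Q_Flip S G y z 1 v ∨ Q_Flip S G y z 2 v
    · have h1 : ∃ g ∈ G, z g ≠ 0 ∧ ∃ i ≤ 4, (S.π ^ (off_Flip y z g + i)) g = v := by
        rcases hq with hq | hq | hq <;> exact Q_pos_Flip (by omega) hq
      obtain ⟨g, hg, hzg, i, hi, rfl⟩ := h1
      have h2 : i = 2 := by
        by_contra h2
        exact hv.2 ((mFc _).2 ⟨g, hg, hzg, i, by omega, rfl⟩)
      subst h2
      have := ho g
      rw [hy1 _ ((Q_succ_Flip 0 _).2 ((Q_iff_Flip h (by omega) hg hzg (by omega)).2 (by omega))),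
        hy1 _ ((Q_pred_Flip 1 _).2 ((Q_iff_Flip h (by omega) hg hzg (by omega)).2 (by omega))),
        hy1 _ ((Q_iff_Flip h (by omega) hg hzg (by omega)).2 (by omega))]
      exact ⟨fun e => ha.1 (Bool.not_inj e), fun e => ha.2 (Bool.not_inj e)⟩
    · rw [not_or, not_or] at hq
      rw [hy0 _ fun hh => hq.1 ((Q_succ_Flip 0 _).1 hh),
        hy0 _ fun hh => hq.2.2 ((Q_pred_Flip 1 _).1 hh), hy0 _ hq.2.1]
      exact ha
  · intro a ha
    rcases mem_union.1 ha with ha | ha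
    · rw [hy0 _ fun hh => hQF 0 (by omega) a ha ((Q_succ_Flip 0 _).1 hh),
        hy0 _ fun hh => hQF 2 (by omega) a ha ((Q_pred_Flip 1 _).1 hh)]
      exact h.col.src a ha
    · obtain ⟨g, hg, hzg, i, hi, rfl⟩ := (mFc a).1 ha
      have := ho g
      have hn : off_Flip y z g + i < 10 := by omega
      have ha := h.col.alt _ (notF_Flip h hg hn)
      have e : y (S.π ((S.π ^ (off_Flip y z g + i)) g)) =
          y (S.π⁻¹ ((S.π ^ (off_Flip y z g + i)) g)) := by
        rw [Bool.eq_not.2 ha.1, Bool.eq_not.2 ha.2]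
      have q0 := (Q_succ_Flip 0 _).trans (Q_iff_Flip h (z := z) (s := 0) (by omega) hg hzg hn)
      have q2 := (Q_pred_Flip 1 _).trans (Q_iff_Flip h (z := z) (s := 2) (by omega) hg hzg hn)
      by_cases hi1 : i ≤ 1
      · rw [hy1 _ (q0.2 (by omega)), hy0 _ fun hh => by have := q2.1 hh; omega, e]
        exact Bool.not_ne_self _
      · rw [hy0 _ fun hh => by have := q0.1 hh; omega, hy1 _ (q2.2 (by omega)), e]
        exact (Bool.not_ne_self _).symm
  · intro a ha w hw1 hw2 hw3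
    rcases mem_union.1 ha with ha | ha
    · rw [hy0 a (hQF 1 (by omega) a ha), hy0]
      · exact h.col.good a ha w hw1 hw2 hw3
      · intro hq
        obtain ⟨g, hg, n, hn, e⟩ := hQt 1 (by omega) _ hq
        exact (h.far a ha g hg).2 w hw2.le (S.mem_Om.2 ⟨n, hn, Or.inl e⟩)
    · have ht := h.injK.2 a (hFt ha) w (by omega)
      obtain ⟨g, hg, hzg, i, hi, rfl⟩ := (mFc a).1 ha
      rw [hcol g hg hzg i hi, hy0 _ fun hq => ht (S.mem_tube.2 (hQt 1 (by omega) _ hq))]
      by_cases hc : z g = 1 ↔ y g = true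
      · have e : off_Flip y z g = 0 := if_pos hc
        rw [e, pow_zero, Equiv.Perm.one_apply, zero_add]
        exact (h.pat g hg).1 i (by simp only [mem_insert, mem_singleton]; omega) w hw1 hw2 hw3
      · have e : off_Flip y z g = 5 := if_neg hc
        rw [e, h5 g hg]
        exact (h.pat g hg).2 (5 + i) (by simp only [mem_insert, mem_singleton]; omega)
          w hw1 hw2 hw3
  · rw [disjoint_left]
    intro a ha hc
    obtain ⟨g, hg, n, hn, rfl⟩ := S.mem_tube.1 (hFt hc)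
    exact notF_Flip h hg hn ha
  · intro g hg
    have := ho g
    refine ⟨?_, fun v hv => ?_⟩
    · rw [hsrc, card_image_of_injOn]
      · rfl
      · intro i hi j hj e
        simp only [coe_insert, coe_singleton, Set.mem_insert_iff, Set.mem_singleton_iff] at hi hj
        have := (h.injP g hg g hg _ (by omega) _ (by omega) e).2
        omega
    · obtain ⟨i, hi, hv⟩ := (msrc g v).1 hv
      exact S.mem_tube.2 ⟨g, mem_singleton_self g, _, by omega, hv⟩
  · intro φ
    rw [hFc, sum_biUnion, mul_sum]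
    · refine sum_subset_zero_on_sdiff (subset_univ _) ?_ ?_
      · intro g hg
        have h0 : z g = 0 := by
          by_contra h0
          rcases hz g with h1 | h1
          · exact h0 h1
          · exact (mem_sdiff.1 hg).2 (mem_filter.2 ⟨h1.1, h0⟩)
        simp [h0]
      · intro g hg
        obtain ⟨hg, hzg⟩ := mem_filter.1 hg
        have e : ∀ a ∈ src g, sgn (y' a) / 2 * φ a = (z g : ℝ) / 2 * φ a := by
          intro a ha
          obtain ⟨i, hi, rfl⟩ := (msrc g a).1 ha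
          rw [hcol g hg hzg i hi]
          congr 2
          have h1 : z g = 1 ∨ z g = -1 := ((hz g).resolve_left hzg).2
          by_cases hc : z g = 1 ↔ y g = true
          · have e : off_Flip y z g = 0 := if_pos hc
            rw [e, pow_zero, Equiv.Perm.one_apply]
            rcases h1 with h1 | h1 <;> cases hy : y g <;> simp_all [sgn]
          · have e : off_Flip y z g = 5 := if_neg hc
            rw [e, h5 g hg]
            rcases h1 with h1 | h1 <;> cases hy : y g <;> simp_all [sgn]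
        rw [sum_congr rfl e, ← mul_sum]
        ring
    · intro g hg g' hg' hne
      obtain ⟨hg, -⟩ := mem_filter.1 (mem_coe.1 hg)
      obtain ⟨hg', -⟩ := mem_filter.1 (mem_coe.1 hg')
      rw [Function.onFun, disjoint_left]
      intro v hv hv'
      obtain ⟨i, hi, e⟩ := (msrc g v).1 hv
      obtain ⟨j, hj, e'⟩ := (msrc g' v).1 hv'
      have := ho g
      have := ho g'
      exact hne (h.injP g hg g' hg' _ (by omega) _ (by omega) (e.trans e'.symm)).1

end Str

end Pool.Agent.MP_9a3194_co
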