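import Pool.Agent.MP_9a3194_co.Basic

open Finset
open scoped symmDiff

namespace Pool.Agent.MP_9a3194_co

namespace Str

variable {V : Type} {S : Str V} {J : Finset V} {lo hi : ℕ}

private theorem le_Seg {v : V} {i : ℕ} (h : (S.π⁻¹ ^ i) v ∈ J) : S.idx J v ≤ i :=
  Nat.sInf_le h

private theorem inv_pow_Seg (i : ℕ) (v : V) : (S.π⁻¹ ^ i) ((S.π ^ i) v) = v := by
  rw [inv_pow]; simp

private theorem inv_succ_Seg (i : ℕ) (v : V) : (S.π⁻¹ ^ (i + 1)) (S.π v) = (S.π⁻¹ ^ i) v := by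
  rw [pow_succ]; simp

private theorem pow_add_Seg (i j : ℕ) (v : V) :
    (S.π ^ (i + j)) v = (S.π ^ i) ((S.π ^ j) v) := by
  rw [pow_add]; rfl

theorem Mark.idx_lt (h : S.Mark J lo hi) (v : V) : S.idx J v < hi := by
  obtain ⟨i, h1, h2⟩ := h.2 v
  exact (le_Seg h2).trans_lt h1
theorem Mark.seg_mem (h : S.Mark J lo hi) (v : V) : S.seg J v ∈ J := by
  obtain ⟨i, -, h2⟩ := h.2 v
  exact Nat.sInf_mem (s := {i | (S.π⁻¹ ^ i) v ∈ J}) ⟨i, h2⟩
theorem pow_seg (v : V) : (S.π ^ S.idx J v) (S.seg J v) = v := by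
  rw [seg, inv_pow]; simp
theorem idx_mem {x : V} (hx : x ∈ J) : S.idx J x = 0 ∧ S.seg J x = x := by
  have h : S.idx J x = 0 := Nat.le_zero.1 (le_Seg (by simpa using hx))
  exact ⟨h, by rw [seg, h]; simp⟩
theorem Mark.idx_pow (h : S.Mark J lo hi) {x : V} (hx : x ∈ J) {i : ℕ} (hi' : i < lo) :
    S.idx J ((S.π ^ i) x) = i ∧ S.seg J ((S.π ^ i) x) = x := by
  have h1 : S.idx J ((S.π ^ i) x) = i := by
    refine le_antisymm (le_Seg (by rwa [inv_pow_Seg])) (not_lt.1 fun hlt => ?_)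
    have h2 := h.seg_mem ((S.π ^ i) x)
    rw [seg] at h2
    obtain ⟨n, hn⟩ := Nat.exists_eq_add_of_le hlt.le
    set j := S.idx J ((S.π ^ i) x)
    rw [hn, pow_add_Seg, inv_pow_Seg] at h2
    exact h.1 x hx n (by omega) (by omega) h2
  exact ⟨h1, by rw [seg, h1, inv_pow_Seg]⟩
theorem Mark.idx_succ (h : S.Mark J lo hi) {v : V} (hv : S.π v ∉ J) :
    S.idx J (S.π v) = S.idx J v + 1 ∧ S.seg J (S.π v) = S.seg J v := by
  have h1 : S.idx J (S.π v) = S.idx J v + 1 := by
    refine le_antisymm (le_Seg (by rw [inv_succ_Seg]; exact h.seg_mem v)) ?_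
    have h2 := h.seg_mem (S.π v)
    rw [seg] at h2
    rcases hj : S.idx J (S.π v) with _ | j
    · rw [hj] at h2
      exact absurd (by simpa using h2) hv
    · rw [hj, inv_succ_Seg] at h2
      exact Nat.succ_le_succ (le_Seg h2)
  exact ⟨h1, by rw [seg, h1, inv_succ_Seg, seg]⟩
theorem Mark.y0_succ (h : S.Mark J lo hi) (ω : V → Bool) {v : V} (hv : S.π v ∉ J) :
    S.y0 J ω (S.π v) = !S.y0 J ω v := by
  obtain ⟨h1, h2⟩ := h.idx_succ hv
  rw [y0, y0, h1, h2]
  by_cases ho : Odd (S.idx J v) <;> simp [Nat.odd_add_one, ho]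
/-- two vertices of one segment differ by a short shift -/
theorem Mark.same_seg (h : S.Mark J lo hi) {u v : V} (he : S.seg J u = S.seg J v) :
    ∃ n < hi, (S.π ^ n) u = v ∨ (S.π ^ n) v = u := by
  have hu := pow_seg (S := S) (J := J) u
  have hv := pow_seg (S := S) (J := J) v
  have hu' := h.idx_lt u
  have hv' := h.idx_lt v
  rcases le_total (S.idx J u) (S.idx J v) with hle | hle
  · obtain ⟨n, hn⟩ := Nat.exists_eq_add_of_le' hle
    refine ⟨n, by omega, Or.inl ?_⟩
    rw [hn, pow_add_Seg, ← he, hu] at hv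
    exact hv
  · obtain ⟨n, hn⟩ := Nat.exists_eq_add_of_le' hle
    refine ⟨n, by omega, Or.inr ?_⟩
    rw [hn, pow_add_Seg, he, hv] at hu
    exact hu
theorem Mark.card_seg [Fintype V] [DecidableEq V] (h : S.Mark J lo hi) (x : V) :
    (univ.filter fun v => S.seg J v = x).card ≤ hi := by
  rw [← card_range hi]
  refine card_le_card_of_injOn (S.idx J) (fun v _ => by simpa using h.idx_lt v) ?_
  intro u hu v hv huv
  have hu' : S.seg J u = x := (mem_filter.1 hu).2
  have hv' : S.seg J v = x := (mem_filter.1 hv).2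
  rw [← pow_seg (S := S) (J := J) u, ← pow_seg (S := S) (J := J) v, hu', hv', huv]
theorem Mark.part [Fintype V] [DecidableEq V] {l : ℕ} (h : S.Mark J l (6 * l)) :
    S.Part J (S.seg J) l := by
  refine ⟨h.seg_mem, fun g hg => (idx_mem hg).2, fun g hg X hu hv => ?_, fun g hg => ?_,
    fun g _ => h.card_seg g⟩
  · by_contra hc
    have key : ∀ n u, S.seg J u = g → S.idx J u = n → (u ∈ X ↔ g ∈ X) := by
      intro n
      induction n with
      | zero =>
        intro u h1 h2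
        have h3 := pow_seg (S := S) (J := J) u
        rw [h1, h2] at h3
        have h4 : g = u := by simpa using h3
        rw [h4]
      | succ n ih =>
        intro u h1 h2
        obtain ⟨v, rfl⟩ := S.π.surjective u
        have hJ : S.π v ∉ J := fun hJ => by
          rw [(idx_mem hJ).1] at h2
          omega
        obtain ⟨h3, h4⟩ := h.idx_succ hJ
        rw [← ih v (h4 ▸ h1) (by omega)]
        by_contra h5
        refine hc ⟨(v, 1), S.mem_bd.2 fun h6 => h5 h6.symm, ?_, ?_⟩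
        · exact mem_filter.2 ⟨mem_univ _, h4 ▸ h1⟩
        · exact mem_filter.2 ⟨mem_univ _, h1⟩
    obtain ⟨u, hu1, hu2⟩ := hu
    obtain ⟨v, hv1, hv2⟩ := hv
    exact hv2 ((key _ v (mem_filter.1 hv1).2 rfl).2 ((key _ u (mem_filter.1 hu1).2 rfl).1 hu2))
  · conv_lhs => rw [← card_range l]
    refine card_le_card_of_injOn (fun i => (S.π ^ i) g) (fun i hi => ?_) ?_
    · have := (h.idx_pow hg (i := i) (by simpa using hi)).2
      simpa using this
    · intro i hi j hj hij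
      have h1 := (h.idx_pow hg (i := i) (by simpa using hi)).1
      have h2 := (h.idx_pow hg (i := j) (by simpa using hj)).1
      have h3 : (S.π ^ i) g = (S.π ^ j) g := hij
      rw [← h1, ← h2, h3]

private theorem junction_Seg (h : S.Mark J lo hi) {v : V} (hv : S.π v ∈ J) :
    lo ≤ S.idx J v + 1 := by
  by_contra hlt
  refine h.1 _ (h.seg_mem v) (S.idx J v + 1) (by omega) (by omega) ?_
  rw [add_comm, pow_add_Seg, pow_seg]
  simpa using hv

/-- repairing the junctions of the segments -/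
theorem colF [Fintype V] [DecidableEq V] {W R k : ℕ} (hJ : S.Mark J lo hi) (hW : W ≤ lo)
    (hH : S.HInj (S.tube J W) R) (hk : 2 * k ≤ R) (ω : V → Bool)
    (hp : ∀ x ∈ J, ∃ t, t + 10 ≤ W ∧ S.Pat k (S.y0 J ω) ((S.π ^ t) x)) :
    ∃ (y : V → Bool) (F : Finset V), S.Col k y F ∧ F ⊆ S.tube J W ∧
      ∀ v ∉ S.tube J W, y v = S.y0 J ω v := by
  choose! t ht hpat using hp
  set z := S.y0 J ω with hz
  have htv : ∀ v, t (S.seg J v) + 10 ≤ W := fun v => ht _ (hJ.seg_mem v)
  obtain ⟨m, hm⟩ : ∃ m : V → Prop, ∀ x, m x ↔ z (S.π⁻¹ x) = z x := ⟨_, fun _ => Iff.rfl⟩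
  classical
  obtain ⟨y, hy⟩ : ∃ y : V → Bool, ∀ v, y v =
    xor (z v) (decide (m (S.seg J v) ∧ S.idx J v ≤ t (S.seg J v) + 3)) := ⟨_, fun _ => rfl⟩
  obtain ⟨F, hF⟩ : ∃ F : Finset V, ∀ v, v ∈ F ↔ m (S.seg J v) ∧
      (S.idx J v = t (S.seg J v) + 3 ∨ S.idx J v = t (S.seg J v) + 4) :=
    ⟨univ.filter fun v => m (S.seg J v) ∧
      (S.idx J v = t (S.seg J v) + 3 ∨ S.idx J v = t (S.seg J v) + 4), fun v => by simp⟩
  have key : ∀ v, y (S.π v) = y v ↔ m (S.seg J v) ∧ S.idx J v = t (S.seg J v) + 3 := by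
    intro v
    by_cases hv : S.π v ∈ J
    · have h1 := junction_Seg hJ hv
      have h2 := htv v
      obtain ⟨h3, h4⟩ := idx_mem (S := S) hv
      have h5 : ¬ S.idx J v ≤ t (S.seg J v) + 3 := by omega
      have h6 : ¬ S.idx J v = t (S.seg J v) + 3 := by omega
      have h7 := hm (S.π v)
      rw [show S.π⁻¹ (S.π v) = v by simp] at h7
      rw [hy, hy, h3, h4]
      simp only [h5, h6, h7, and_false, iff_false, Nat.zero_le, and_true]
      cases z v <;> cases z (S.π v) <;> simp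
    · obtain ⟨h1, h2⟩ := hJ.idx_succ hv
      rw [hy, hy, h1, h2, hz, hJ.y0_succ ω hv]
      by_cases h3 : m (S.seg J v)
      · rcases lt_trichotomy (S.idx J v) (t (S.seg J v) + 3) with h4 | h4 | h4
        · have h5 : S.idx J v + 1 ≤ t (S.seg J v) + 3 := h4
          simp [h3, h5, h4.le, h4.ne]
        · simp [h3, h4]
        · have h5 : ¬ S.idx J v + 1 ≤ t (S.seg J v) + 3 := by omega
          simp [h3, h5, h4.not_ge, h4.ne']
      · simp [h3]
  have key2 : ∀ v, y v = y (S.π⁻¹ v) ↔ m (S.seg J v) ∧ S.idx J v = t (S.seg J v) + 4 := by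
    intro v
    obtain ⟨u, rfl⟩ := S.π.surjective v
    rw [show S.π⁻¹ (S.π u) = u by simp, key]
    by_cases hv : S.π u ∈ J
    · have h1 := junction_Seg hJ hv
      have h2 := htv u
      have h3 := (idx_mem (S := S) hv).1
      constructor
      · rintro ⟨-, h4⟩
        omega
      · rintro ⟨-, h4⟩
        omega
    · obtain ⟨h1, h2⟩ := hJ.idx_succ hv
      rw [h1, h2]
      exact and_congr_right fun _ => by omega
  have htube : ∀ v, S.idx J v < W → v ∈ S.tube J W := fun v hv =>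
    S.mem_tube.2 ⟨_, hJ.seg_mem v, _, hv, pow_seg v⟩
  have hsub : F ⊆ S.tube J W := fun v hv => htube v (by
    have h1 := ((hF v).1 hv).2
    have h2 := htv v
    omega)
  have hout : ∀ v ∉ S.tube J W, y v = z v := by
    intro v hv
    have h1 : ¬ S.idx J v ≤ t (S.seg J v) + 3 := fun h => hv (htube v (by
      have h2 := htv v
      omega))
    rw [hy]
    simp [h1]
  refine ⟨y, F, ⟨fun v hv => ⟨fun h => ?_, fun h => ?_⟩, fun a ha h => ?_, fun a ha => ?_⟩,
    hsub, hout⟩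
  · exact hv ((hF v).2 ⟨((key v).1 h).1, Or.inl ((key v).1 h).2⟩)
  · exact hv ((hF v).2 ⟨((key2 v).1 h.symm).1, Or.inr ((key2 v).1 h.symm).2⟩)
  · obtain ⟨h1, h2 | h2⟩ := (hF a).1 ha
    · have h3 := ((key2 a).1 (((key a).2 ⟨h1, h2⟩).symm.trans h)).2
      omega
    · have h3 := ((key a).1 (h.trans ((key2 a).2 ⟨h1, h2⟩).symm)).2
      omega
  · obtain ⟨h1, h2⟩ := (hF a).1 ha
    have hx := hJ.seg_mem a
    have h3 := htv a
    have h4 := pow_seg (S := S) (J := J) a
    obtain ⟨h5, h6⟩ := hJ.idx_pow hx (i := t (S.seg J a)) (by omega)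
    have h7 : y a = z ((S.π ^ t (S.seg J a)) (S.seg J a)) := by
      rw [hy, hz, y0, y0, h5, h6]
      rcases h2 with h2 | h2
      · rw [h2]
        by_cases ho : Odd (t (S.seg J a)) <;> simp [h1, ho, Nat.odd_add, parity_simps]
      · rw [h2]
        by_cases ho : Odd (t (S.seg J a)) <;> simp [h1, ho, Nat.odd_add, parity_simps]
    have h8 : S.Good k z a (z ((S.π ^ t (S.seg J a)) (S.seg J a))) := by
      rcases h2 with h2 | h2
      · have h9 := (hpat _ hx).1 3 (by simp)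
        rwa [← pow_add_Seg, add_comm, ← h2, h4] at h9
      · have h9 := (hpat _ hx).1 4 (by simp)
        rwa [← pow_add_Seg, add_comm, ← h2, h4] at h9
    intro w hw1 hw2 hw3
    rw [h7, hout _ (hH.2 a (hsub ha) w (by omega))]
    exact h8 w hw1 hw2 hw3

end Str

end Pool.Agent.MP_9a3194_co
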