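import Pool.Agent.MP_9a3194_co.Words
import Pool.Agent.MP_9a3194_co.Seg
import Pool.Agent.MP_3fd310_co.GHaxell

open Finset
open scoped symmDiff

namespace Pool.Agent.MP_9a3194_co

namespace Str

variable {V : Type} [Fintype V] [DecidableEq V] {S : Str V}

private theorem pow_add_Hit {V : Type} (π : Equiv.Perm V) (i j : ℕ) (v : V) :
    (π ^ (i + j)) v = (π ^ i) ((π ^ j) v) := by
  rw [pow_add, Equiv.Perm.mul_apply]

private theorem pow_inv_Hit {V : Type} (π : Equiv.Perm V) (i j : ℕ) (v : V) :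
    (π ^ i) ((π⁻¹ ^ (i + j)) v) = (π⁻¹ ^ j) v := by
  rw [pow_add_Hit, inv_pow π i]
  simp

private theorem mark_Hit {c n : ℕ} (hG : S.Gir c) (hc : n ≤ c) (hn : 0 < n) :
    ∃ J : Finset V, S.Mark J n (2 * n) := by
  classical
  obtain ⟨J, hJ, hmax⟩ := exists_max_image
    (univ.filter fun J : Finset V => ∀ x ∈ J, ∀ i, 0 < i → i < n → (S.π ^ i) x ∉ J) card
    ⟨∅, by simp⟩
  simp only [mem_filter, mem_univ, true_and] at hJ hmax
  refine ⟨J, hJ, fun v => ?_⟩
  by_contra hv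
  push Not at hv
  have hu : (S.π⁻¹ ^ n) v ∉ J := hv n (by omega)
  have h1 := hmax (insert ((S.π⁻¹ ^ n) v) J) (by
    intro x hx i hi hin hm
    rcases mem_insert.1 hx with rfl | hx
    · rcases mem_insert.1 hm with hm | hm
      · have := hG.pow_inj (i := i) (j := 0) (by omega) (by omega) hm
        omega
      · obtain ⟨j, rfl⟩ := Nat.exists_eq_add_of_le hin.le
        rw [pow_inv_Hit] at hm
        exact hv j (by omega) hm
    · rcases mem_insert.1 hm with hm | hm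
      · refine hv (i + n) (by omega) ?_
        rw [pow_add_Hit, ← hm, inv_pow]
        simpa using hx
      · exact hJ x hx i hi hin hm)
  rw [card_insert_of_notMem hu] at h1
  omega

/-- conflict free marks with controlled gaps -/
theorem hit {c W Δ : ℕ} (hG : S.Gir c) (hc : 2 * ((2 * Δ + 1) * W) ≤ c) (A : V → Prop)
    (hA : ∀ v, ∃ i < W, A ((S.π ^ i) v)) (conf : V → V → Prop)
    (hs : ∀ x x', conf x x' → conf x' x)
    (hd : ∀ x, ∀ s : Finset V, (∀ x' ∈ s, conf x x') → s.card ≤ Δ) :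
    ∃ J : Finset V, (∀ x ∈ J, A x) ∧ (∀ x ∈ J, ∀ x' ∈ J, x ≠ x' → ¬ conf x x') ∧
      S.Mark J ((2 * Δ + 1) * W) (6 * ((2 * Δ + 1) * W)) := by
  classical
  rcases Nat.eq_zero_or_pos W with rfl | hW
  · refine ⟨∅, by simp, by simp, by simp, fun v => ?_⟩
    obtain ⟨i, hi, -⟩ := hA v
    omega
  obtain ⟨b, hb⟩ : ∃ b, b = (2 * Δ + 1) * W := ⟨_, rfl⟩
  rw [← hb] at hc ⊢
  have hb0 : 0 < b := by rw [hb]; positivity
  obtain ⟨J0, hJ0⟩ := mark_Hit hG hc (by omega)
  have huq : ∀ x ∈ J0, ∀ x' ∈ J0, ∀ i j, i < 2 * b → j < 2 * b →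
      (S.π ^ i) x = (S.π ^ j) x' → x = x' ∧ i = j := by
    intro x hx x' hx' i j hi hj he
    have h1 := hJ0.idx_pow hx hi
    have h2 := hJ0.idx_pow hx' hj
    rw [he] at h1
    exact ⟨h1.2.symm.trans h2.2, h1.1.symm.trans h2.1⟩
  let pt : {p : J0 × Fin b // A ((S.π ^ (p.2 : ℕ)) p.1)} → V :=
    fun p => (S.π ^ (p.1.2 : ℕ)) p.1.1
  have hpt : Function.Injective pt := by
    intro p q he
    have h1 := huq _ p.1.1.2 _ q.1.1.2 _ _ (by have := p.1.2.2; omega)
      (by have := q.1.2.2; omega) he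
    exact Subtype.ext (Prod.ext (Subtype.ext h1.1) (Fin.ext h1.2))
  obtain ⟨T, hT, hTc⟩ := Pool.Agent.MP_3fd310_co.Gen.haxell_stmt J0
    {p : J0 × Fin b // A ((S.π ^ (p.2 : ℕ)) p.1)} (fun p => p.1.1)
    (fun p q => conf (pt p) (pt q)) Δ (fun p q => hs _ _)
    (fun p s h => by
      rw [← card_image_of_injective s hpt]
      refine hd (pt p) _ fun x hx => ?_
      obtain ⟨q, hq, rfl⟩ := mem_image.1 hx
      exact h q hq)
    (fun x => by
      choose f hf hfA using fun m : Fin (2 * Δ + 1) => hA ((S.π ^ ((m : ℕ) * W)) x)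
      have hlt : ∀ m : Fin (2 * Δ + 1), f m + (m : ℕ) * W < b := fun m => by
        have h1 : ((m : ℕ) + 1) * W ≤ (2 * Δ + 1) * W := Nat.mul_le_mul_right _ m.2
        have h2 := hf m
        rw [add_mul, one_mul] at h1
        omega
      refine ⟨univ.image fun m : Fin (2 * Δ + 1) =>
        ⟨(x, ⟨f m + (m : ℕ) * W, hlt m⟩), by rw [pow_add_Hit]; exact hfA m⟩, ?_, ?_⟩
      · rw [card_image_of_injective]
        · simp
        · intro m m' he
          have h1 : f m + (m : ℕ) * W = f m' + (m' : ℕ) * W :=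
            congrArg (fun p : {p : J0 × Fin b // A ((S.π ^ (p.2 : ℕ)) p.1)} => (p.1.2 : ℕ)) he
          have h2 := congrArg (· / W) h1
          simp only [Nat.add_mul_div_right _ _ hW, Nat.div_eq_of_lt (hf m),
            Nat.div_eq_of_lt (hf m'), zero_add] at h2
          exact Fin.ext h2
      · intro p hp
        obtain ⟨m, -, rfl⟩ := mem_image.1 hp
        rfl)
  refine ⟨univ.image fun x => pt (T x), ?_, ?_, ?_, ?_⟩
  · intro y hy
    obtain ⟨x, -, rfl⟩ := mem_image.1 hy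
    exact (T x).2
  · intro y hy y' hy' hne
    obtain ⟨x, -, rfl⟩ := mem_image.1 hy
    obtain ⟨x', -, rfl⟩ := mem_image.1 hy'
    exact hTc x x' fun e => hne (by rw [e])
  · intro y hy j hj hjb hm
    obtain ⟨x, -, rfl⟩ := mem_image.1 hy
    obtain ⟨x', -, he⟩ := mem_image.1 hm
    have h0 := (T x).1.2.2
    have h0' := (T x').1.2.2
    have h1 := huq _ (T x').1.1.2 _ (T x).1.1.2 (T x').1.2 (j + (T x).1.2)
      (by omega) (by omega)
      (by rw [pow_add_Hit]; exact he)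
    have h2 : x' = x := by
      rw [← hT x', ← hT x]
      exact Subtype.ext h1.1
    have h3 := h1.2
    rw [h2] at h3
    omega
  · intro v
    obtain ⟨i, hi, hx⟩ := hJ0.2 ((S.π⁻¹ ^ b) v)
    rw [← pow_add_Hit] at hx
    have h0 := (T ⟨_, hx⟩).1.2.2
    refine ⟨i + b - (T ⟨_, hx⟩).1.2, by omega, mem_image.2 ⟨⟨_, hx⟩, mem_univ _, ?_⟩⟩
    have h1 : ((T ⟨_, hx⟩).1.1 : V) = (S.π⁻¹ ^ (i + b)) v := congrArg Subtype.val (hT ⟨_, hx⟩)
    have h2 := pow_inv_Hit S.π (T ⟨_, hx⟩).1.2 (i + b - (T ⟨_, hx⟩).1.2) v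
    rw [Nat.add_sub_cancel' (by omega)] at h2
    exact (congrArg _ h1).trans h2

end Str

end Pool.Agent.MP_9a3194_co
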