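import Pool.Agent.MP_9a3194_co.Defs

open Finset
open scoped symmDiff

namespace Pool.Agent.MP_9a3194_co

/-- length of the windows for controllers -/
def W2 (k r M : ℕ) : ℕ := M * (10 * (10 * M) * 4 ^ (r + 2 * k + 2) + 11)

/-- minimal length of a segment -/
def loJ (M R : ℕ) : ℕ := (2 * (10 * M * (10 * M) * 4 ^ (2 * R + 2)) + 1) * 1

/-- minimal size of a cell -/
def lc (k r M : ℕ) : ℕ := (2 * (10 * 10 * 4 ^ (2 * r + 2)) + 1) * W2 k r M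

theorem ev_Num (K : ℝ) (n : ℕ) {c : ℝ} (hc : 1 < c) :
    ∀ᶠ R : ℕ in Filter.atTop, K * (R : ℝ) ^ n ≤ c ^ R := by
  have h := (tendsto_pow_const_div_const_pow_of_one_lt n hc).const_mul K
  rw [mul_zero] at h
  refine (h.eventually_le_const one_pos).mono fun R hR => ?_
  rwa [← mul_div_assoc, div_le_one (by positivity)] at hR

theorem W2_le_Num (k r : ℕ) {M : ℕ} (hM : 0 < M) :
    W2 k r M ≤ (100 * 4 ^ (r + 2 * k + 2) + 11) * M ^ 2 := by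
  have h : M * 11 ≤ M * (11 * M) := Nat.mul_le_mul_left _ (by omega)
  unfold W2
  nlinarith

theorem loJ_le_Num (R : ℕ) {M : ℕ} (hM : 0 < M) : loJ M R ≤ 3201 * (M ^ 2 * 16 ^ R) := by
  have h : 0 < M ^ 2 * 16 ^ R := by positivity
  have e : 4 ^ (2 * R + 2) = 16 * 16 ^ R := by rw [pow_add, pow_mul]; ring
  unfold loJ
  rw [e]
  nlinarith

theorem le_lc_Num (k r M : ℕ) : M ≤ lc k r M := by
  have h : M ≤ W2 k r M := Nat.le_mul_of_pos_right _ (by omega)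
  exact h.trans (Nat.le_mul_of_pos_left _ (by omega))

theorem num (k r l₀ : ℕ) (A : ℝ) : ∃ R M : ℕ, 0 < M ∧ r + 2 * k + 6 ≤ R ∧ l₀ ≤ lc k r M ∧
    A * (lc k r M : ℝ) ^ 2 ≤ 2 ^ R ∧
    (8 * (6 * loJ M R : ℕ) * (W2 k r M : ℝ) ^ 2 * (1 + 4 ^ k) ^ 2 : ℝ) *
      (1 - 1 / 2 ^ (8 * 4 ^ k)) ^ M ≤ 1 := by
  have h2 : (0 : ℝ) < 2 ^ (8 * 4 ^ k) := by positivity
  have hq0 : (0 : ℝ) ≤ 1 - 1 / 2 ^ (8 * 4 ^ k) := by
    rw [sub_nonneg, div_le_one h2]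
    exact one_le_pow₀ one_le_two
  have hq1 : (1 : ℝ) - 1 / 2 ^ (8 * 4 ^ k) < 1 := sub_lt_self _ (by positivity)
  generalize (1 : ℝ) - 1 / 2 ^ (8 * 4 ^ k) = q at hq0 hq1 ⊢
  obtain ⟨L, hL⟩ := exists_pow_lt_of_lt_one (by norm_num : (0 : ℝ) < 1 / 64) hq1
  have hL0 : 0 < L := by
    rcases L.eq_zero_or_pos with rfl | h
    · norm_num at hL
    · exact h
  obtain ⟨a, ha⟩ : ∃ a : ℕ, a = 100 * 4 ^ (r + 2 * k + 2) + 11 := ⟨_, rfl⟩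
  obtain ⟨b, hb⟩ : ∃ b : ℕ, b = 2 * (10 * 10 * 4 ^ (2 * r + 2)) + 1 := ⟨_, rfl⟩
  obtain ⟨R, h1, h3, h4⟩ := ((ev_Num (|A| * (b * a * L ^ 2) ^ 2) 4 one_lt_two).and
    ((ev_Num (48 * 3201 * a ^ 2 * (1 + 4 ^ k) ^ 2 * L ^ 6) 6 (by norm_num : (1 : ℝ) < 4)).and
      (Filter.eventually_ge_atTop (r + 2 * k + 6 + l₀)))).exists
  have hM : 0 < L * R := Nat.mul_pos hL0 (by omega)
  have hW : (W2 k r (L * R) : ℝ) ≤ a * (L * R) ^ 2 := by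
    have := W2_le_Num k r hM
    rw [← ha] at this
    exact_mod_cast this
  refine ⟨R, L * R, hM, by omega, ?_, ?_, ?_⟩
  · exact (by omega : l₀ ≤ R).trans ((Nat.le_mul_of_pos_left _ hL0).trans (le_lc_Num k r _))
  · have e : (lc k r (L * R) : ℝ) ≤ b * (a * (L * R) ^ 2) := by
      rw [lc, ← hb, Nat.cast_mul]
      exact mul_le_mul_of_nonneg_left hW (Nat.cast_nonneg b)
    refine le_trans ?_ h1
    calc A * (lc k r (L * R) : ℝ) ^ 2 ≤ |A| * (b * (a * (L * R) ^ 2)) ^ 2 :=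
          mul_le_mul (le_abs_self A) (pow_le_pow_left₀ (Nat.cast_nonneg _) e 2) (by positivity)
            (abs_nonneg A)
      _ = _ := by ring
  · have e1 : ((6 * loJ (L * R) R : ℕ) : ℝ) ≤ 6 * (3201 * ((L * R) ^ 2 * 16 ^ R)) := by
      exact_mod_cast Nat.mul_le_mul_left 6 (loJ_le_Num R hM)
    have e2 : q ^ (L * R) ≤ (1 / 64) ^ R := by
      rw [pow_mul]
      exact pow_le_pow_left₀ (by positivity) hL.le R
    have e3 : (4 : ℝ) ^ R * (16 ^ R * (1 / 64) ^ R) = 1 := by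
      rw [← mul_pow, ← mul_pow]
      norm_num
    calc (8 * (6 * loJ (L * R) R : ℕ) * (W2 k r (L * R) : ℝ) ^ 2 * (1 + 4 ^ k) ^ 2 : ℝ) *
          q ^ (L * R)
        ≤ 8 * (6 * (3201 * ((L * R) ^ 2 * 16 ^ R))) * (a * (L * R) ^ 2) ^ 2 * (1 + 4 ^ k) ^ 2 *
          (1 / 64) ^ R := by gcongr
      _ = 48 * 3201 * a ^ 2 * (1 + 4 ^ k) ^ 2 * L ^ 6 * R ^ 6 * (16 ^ R * (1 / 64) ^ R) := by ring
      _ ≤ 4 ^ R * (16 ^ R * (1 / 64) ^ R) := mul_le_mul_of_nonneg_right h3 (by positivity)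
      _ = 1 := e3

end Pool.Agent.MP_9a3194_co
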