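import Pool.Agent.MP_9a3194_co.Defs
import Pool.Agent.MP_ee574f_co.LLL

open Finset
open scoped symmDiff

namespace Pool.Agent.MP_9a3194_co

open Pool.Agent.MP_ee574f_co

private theorem step_Cnt {ι : Type} [Fintype ι] [DecidableEq ι] (S : Finset ι) (n : ℕ)
    (hS : S.card ≤ n) (P Q : (ι → Bool) → Prop)
    (hP : ∀ ω ω' : ι → Bool, (∀ i ∉ S, ω' i = ω i) → P ω → P ω')
    (hQ : ∀ ω : ι → Bool, ∃ ω', (∀ i ∉ S, ω' i = ω i) ∧ Q ω') :
    (LLL.cnt (fun ω => ¬ Q ω ∧ P ω) : ℝ) ≤ (1 - 1 / 2 ^ n) * LLL.cnt P := by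
  classical
  choose rep hrep hok using hQ
  have h1 : LLL.cnt P ≤ LLL.cnt (fun ω => Q ω ∧ P ω) * 2 ^ S.card := by
    have e : 2 ^ S.card = (univ : Finset (S → Bool)).card := by simp
    unfold LLL.cnt
    rw [e, ← card_product]
    refine card_le_card_of_injOn (fun ω => (rep ω, fun i : S => ω i)) ?_ ?_
    · intro ω hω
      simp only [coe_product, coe_filter, mem_univ, true_and, Set.mem_prod, Set.mem_ofPred_eq,
        coe_univ, Set.mem_univ, and_true] at hω ⊢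
      exact ⟨hok ω, hP ω _ (hrep ω) hω⟩
    · intro u _ v _ h
      simp only [Prod.mk.injEq] at h
      funext i
      by_cases hi : i ∈ S
      · exact congrFun h.2 ⟨i, hi⟩
      · rw [← hrep u i hi, ← hrep v i hi, h.1]
  have h4 : 2 ^ S.card ≤ 2 ^ n := Nat.pow_le_pow_right (by norm_num) hS
  have h5 := h1.trans (Nat.mul_le_mul_left _ h4)
  have h2 := LLL.cnt_split P Q
  have h5' : (LLL.cnt P : ℝ) ≤ LLL.cnt (fun ω => Q ω ∧ P ω) * 2 ^ n := by exact_mod_cast h5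
  have h2' : (LLL.cnt P : ℝ) = LLL.cnt (fun ω => Q ω ∧ P ω) +
      LLL.cnt (fun ω => ¬ Q ω ∧ P ω) := by exact_mod_cast h2
  have hpos : (0 : ℝ) < 2 ^ n := by positivity
  have h6 : 1 / 2 ^ n * (LLL.cnt P : ℝ) ≤ LLL.cnt (fun ω => Q ω ∧ P ω) := by
    rw [one_div, inv_mul_le_iff₀ hpos]
    linarith
  linarith

/-- blocks that can be repaired on private coordinates rarely all fail -/
theorem cnt_blocks {ι α : Type} [Fintype ι] [DecidableEq ι] [DecidableEq α] (T : Finset α)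
    (priv : α → Finset ι) (ok : α → (ι → Bool) → Prop) (n : ℕ) (hn : ∀ t ∈ T, (priv t).card ≤ n)
    (h1 : ∀ s ∈ T, ∀ t ∈ T, s ≠ t → ∀ ω ω' : ι → Bool, (∀ i ∉ priv s, ω i = ω' i) →
      ok t ω → ok t ω')
    (h2 : ∀ t ∈ T, ∀ ω : ι → Bool, ∃ ω', (∀ i ∉ priv t, ω' i = ω i) ∧ ok t ω') :
    (LLL.cnt (fun ω : ι → Bool => ∀ t ∈ T, ¬ ok t ω) : ℝ) ≤
      (1 - 1 / 2 ^ n) ^ T.card * Fintype.card (ι → Bool) := by
  induction T using Finset.induction_on with
  | empty =>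
    have := LLL.cnt_mono (P := fun ω : ι → Bool => ∀ t ∈ (∅ : Finset α), ¬ ok t ω)
      (Q := fun _ => True) (fun _ _ => trivial)
    rw [LLL.cnt_true] at this
    simpa using (by exact_mod_cast this :
      (LLL.cnt (fun ω : ι → Bool => ∀ t ∈ (∅ : Finset α), ¬ ok t ω) : ℝ) ≤
        Fintype.card (ι → Bool))
  | insert s U hs ih =>
    have ih' := ih (fun t ht => hn t (mem_insert_of_mem ht))
      (fun a ha b hb => h1 a (mem_insert_of_mem ha) b (mem_insert_of_mem hb))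
      (fun t ht => h2 t (mem_insert_of_mem ht))
    have hstep := step_Cnt (priv s) n (hn s (mem_insert_self _ _))
      (fun ω => ∀ t ∈ U, ¬ ok t ω) (ok s)
      (fun ω ω' h hω t ht hok => hω t ht (h1 s (mem_insert_self _ _) t (mem_insert_of_mem ht)
        (fun e => hs (e ▸ ht)) ω' ω h hok))
      (h2 s (mem_insert_self _ _))
    have h3 : LLL.cnt (fun ω : ι → Bool => ∀ t ∈ insert s U, ¬ ok t ω) ≤
        LLL.cnt (fun ω => ¬ ok s ω ∧ ∀ t ∈ U, ¬ ok t ω) :=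
      LLL.cnt_mono fun ω h => ⟨h s (mem_insert_self _ _), fun t ht => h t (mem_insert_of_mem ht)⟩
    have h3' : (LLL.cnt (fun ω : ι → Bool => ∀ t ∈ insert s U, ¬ ok t ω) : ℝ) ≤
        LLL.cnt (fun ω => ¬ ok s ω ∧ ∀ t ∈ U, ¬ ok t ω) := by exact_mod_cast h3
    have hc : (0 : ℝ) ≤ 1 - 1 / 2 ^ n := by
      have : (1 : ℝ) / 2 ^ n ≤ 1 := by
        rw [div_le_one (by positivity)]
        exact one_le_pow₀ (by norm_num)
      linarith
    rw [card_insert_of_notMem hs, pow_succ]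
    calc _ ≤ _ := h3'
      _ ≤ _ := hstep
      _ ≤ (1 - 1 / 2 ^ n) * ((1 - 1 / 2 ^ n) ^ U.card * Fintype.card (ι → Bool)) :=
          mul_le_mul_of_nonneg_left ih' hc
      _ = _ := by ring

end Pool.Agent.MP_9a3194_co
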