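import Pool.Agent.MP_9a3194_co.Ball
import Pool.Agent.MP_9a3194_co.Hit
import Pool.Agent.MP_9a3194_co.Pat
import Pool.Agent.MP_9a3194_co.Num

open Finset
open scoped symmDiff

namespace Pool.Agent.MP_9a3194_co

/-- the configuration exists when the girth is large -/
theorem cfg (k r l₀ : ℕ) (A : ℝ) : ∃ R l c : ℕ, 2 * k ≤ R ∧ l₀ ≤ l ∧ A * (l : ℝ) ^ 2 ≤ 2 ^ R ∧
    ∀ {V : Type} [Fintype V] [DecidableEq V] (S : Str V), S.Gir c →
      ∃ (y : V → Bool) (F G : Finset V) (cell : V → V), S.Cfg k R r l y F G cell := by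
  obtain ⟨R, M, hM, hR, hl, hA, hn⟩ := num k r l₀ A
  refine ⟨R, lc k r M, 2 * (W2 k r M + 2 * k + 1) + 2 * (6 * loJ M R) + 2 * (10 * M + R + 1) +
    2 * lc k r M + 2 * (10 + r + 1) + 1, by omega, hl, hA, fun {V} _ _ S hG => ?_⟩
  have hW : 11 * M ≤ W2 k r M := by
    rw [W2, mul_add]
    omega
  have hlo : 10 * M ≤ loJ M R := by
    have h1 := Nat.le_mul_self (10 * M)
    have h2 := Nat.le_mul_of_pos_right (10 * M * (10 * M)) (pow_pos four_pos (2 * R + 2))
    rw [loJ]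
    omega
  obtain ⟨J, -, hJ, hm⟩ := Str.hit (W := 1) (Δ := 10 * M * (10 * M) * 4 ^ (2 * R + 2)) hG
    (show 2 * loJ M R ≤ _ by omega) (fun _ => True) (fun _ => ⟨0, one_pos, trivial⟩)
    (S.TN (10 * M) (10 * M) (2 * R + 2)) (fun _ _ => Str.TN.symm) fun _ _ => Str.card_TN
  change S.Mark J (loJ M R) (6 * loJ M R) at hm
  have hH := (Str.hinj_tube hG (by omega) hJ).1
  choose T hT1 hT2 hT3 hT4 using Str.free (ρ := r + 2 * k + 2) (M := M) hG
    (show W2 k r M ≤ _ by omega) (by omega) hJ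
  obtain ⟨ω, hω⟩ := Str.pat (k := k) (W := W2 k r M) hG (by omega) hm
    (fun h => if h.2 then T h.1 else (range M).image (10 * ·)) hM
    (fun h t ht => by
      split_ifs at ht
      · exact hT2 _ t ht
      · obtain ⟨i, hi, rfl⟩ := mem_image.1 ht
        have := mem_range.1 hi
        omega)
    (fun h t ht t' ht' hlt => by
      split_ifs at ht ht'
      · exact hT3 _ t ht t' ht' hlt
      · obtain ⟨i, -, rfl⟩ := mem_image.1 ht
        obtain ⟨j, -, rfl⟩ := mem_image.1 ht'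
        omega)
    (fun h => by
      split_ifs
      · exact hT1 _
      · rw [card_image_of_injective _ (mul_right_injective₀ (by norm_num)), card_range]) hn
  obtain ⟨y, F, hc, hF, hy⟩ := Str.colF hm hlo hH (show 2 * k ≤ R by omega) ω fun x _ => by
    obtain ⟨t, ht, h⟩ := hω (x, false)
    obtain ⟨i, hi, rfl⟩ := mem_image.1 ht
    have := mem_range.1 hi
    exact ⟨_, by omega, h⟩
  obtain ⟨G, hA', hG', hm'⟩ := Str.hit (W := W2 k r M) (Δ := 10 * 10 * 4 ^ (2 * r + 2)) hG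
    (show 2 * lc k r M ≤ _ by omega)
    (fun g => S.Pat k (S.y0 J ω) g ∧ ∀ x ∈ J, ¬S.TN 10 (10 * M) (r + 2 * k + 2) g x)
    (fun v => by
      obtain ⟨t, ht, h⟩ := hω (v, true)
      exact ⟨t, (Nat.lt_add_of_pos_right (by norm_num)).trans_le (hT2 v t ht), h, hT4 v t ht⟩)
    (S.TN 10 10 (2 * r + 2)) (fun _ _ => Str.TN.symm) fun _ _ => Str.card_TN
  have hK := Str.hinj_tube hG (by omega) hG'
  have key : ∀ g ∈ G, ∀ i < 10, ∀ v ∈ S.tube J (10 * M), ∀ ρ, S.Near ρ ((S.π ^ i) g) v →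
      r + 2 * k + 2 < ρ := fun g hg i hi v hv ρ h => by
    obtain ⟨x, hx, j, hj, rfl⟩ := S.mem_tube.1 hv
    exact not_le.1 fun hρ => (hA' g hg).2 x hx ⟨i, hi, j, hj, h.mono hρ⟩
  refine ⟨y, F, G, S.seg G, hc, hH.mono hF le_rfl, fun g hg => ?_, hK.1, hK.2,
    fun a ha g hg => ⟨fun h => ?_, fun w hw h => ?_⟩, hm'.part⟩
  · have h0 : y g = S.y0 J ω g := hy g fun h =>
      absurd (key g hg 0 (by norm_num) g h 0 (Str.Near.refl 0 g)) (Nat.not_lt_zero _)
    have h1 : ∀ i < 10, ∀ x, S.Good k (S.y0 J ω) ((S.π ^ i) g) x → S.Good k y ((S.π ^ i) g) x :=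
      fun i hi x h w h2 h3 h4 => by
        rw [hy _ fun h5 => absurd (key g hg i hi _ h5 _ (Str.near_tip _ w)) (by omega)]
        exact h w h2 h3 h4
    rw [Str.Pat, h0]
    refine ⟨fun i hi => h1 i ?_ _ ((hA' g hg).1.1 i hi), fun i hi => h1 i ?_ _ ((hA' g hg).1.2 i hi)⟩
    all_goals
      simp only [mem_insert, mem_singleton] at hi
      omega
  · obtain ⟨i, hi, h1⟩ := Str.near_Om h
    exact absurd (key g hg i hi a (hF ha) _ h1) (by omega)
  · obtain ⟨i, hi, h1⟩ := Str.near_Om h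
    exact absurd (key g hg i hi a (hF ha) _ (h1.trans (Str.near_tip a w).symm)) (by omega)

end Pool.Agent.MP_9a3194_co
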