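import Pool.Agent.MP_9a3194_co.Basic

open Finset
open scoped symmDiff

namespace Pool.Agent.MP_9a3194_co

theorem card_words_Om (r : ℕ) : ((range (r + 1)).biUnion Wd).card + 1 = 2 * 2 ^ r := by
  rw [card_biUnion]
  · simp only [card_Wd]
    induction r with
    | zero => simp
    | succ r ih => rw [sum_range_succ, pow_succ]; omega
  · intro i _ j _ hij
    rw [Function.onFun, disjoint_left]
    intro w h1 h2
    exact hij ((mem_Wd.1 h1).symm.trans (mem_Wd.1 h2))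

theorem dir_cases_Om (d e : Fin 3) : e = rd d ∨ e = kid d true ∨ e = kid d false := by
  revert d e
  decide

namespace Str

variable {V : Type} [Fintype V] [DecidableEq V] {S : Str V} {G : Finset V} {r : ℕ}

omit [Fintype V] in
theorem dart_mem_Om {g a : V} (ha : a ∈ S.tube {g} 10) {w : List Bool} (hw : w.length ≤ r) :
    (S.dart a w).1 ∈ S.Om r g ∧ S.tip a w ∈ S.Om r g := by
  obtain ⟨x, hx, i, hi, rfl⟩ := S.mem_tube.1 ha
  rw [mem_singleton.1 hx]
  refine ⟨?_, S.mem_Om.2 ⟨i, hi, Or.inr ⟨w, hw, rfl⟩⟩⟩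
  cases w with
  | nil => exact S.mem_Om.2 ⟨i, hi, Or.inl rfl⟩
  | cons β w =>
    exact S.mem_Om.2 ⟨i, hi, Or.inr ⟨w, by simp only [List.length_cons] at hw; omega, rfl⟩⟩

omit [Fintype V] in
theorem pow_mem_tube_Om {J : Finset V} {g : V} (hg : g ∈ J) {i : ℕ} (hi : i < 10) :
    (S.π ^ i) g ∈ S.tube J 10 := S.mem_tube.2 ⟨g, hg, i, hi, rfl⟩

omit [Fintype V] in
theorem card_Om (hK : S.HInj (S.tube G 10) r)
    (hP : ∀ g ∈ G, ∀ g' ∈ G, ∀ i < 10, ∀ j < 10, (S.π ^ i) g = (S.π ^ j) g' → g = g' ∧ i = j)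
    {g : V} (hg : g ∈ G) : (S.Om r g).card = 20 * 2 ^ r := by
  have h1 : (S.tube {g} 10).card = 10 := by
    rw [tube, card_image_of_injOn, card_product, card_singleton, card_range]
    rintro ⟨x, i⟩ hx ⟨x', j⟩ hx' h
    simp only [coe_product, coe_singleton, coe_range, Set.mem_prod, Set.mem_singleton_iff,
      Set.mem_Iio] at hx hx'
    obtain ⟨rfl, hi⟩ := hx
    obtain ⟨h2, hj⟩ := hx'
    subst h2
    exact Prod.ext rfl (hP _ hg _ hg i hi j hj h).2
  have hw : ∀ w ∈ (range (r + 1)).biUnion Wd, w.length ≤ r := fun w hw => by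
    obtain ⟨j, hj, h⟩ := mem_biUnion.1 hw
    rw [mem_Wd.1 h]
    exact Nat.lt_succ_iff.1 (mem_range.1 hj)
  rw [Om, card_union_of_disjoint, h1, card_image_of_injOn, card_product, card_range]
  · have := card_words_Om r
    omega
  · rintro ⟨i, w⟩ hx ⟨j, w'⟩ hx' h
    obtain ⟨hi, h2⟩ := mem_product.1 (mem_coe.1 hx)
    obtain ⟨hj, h3⟩ := mem_product.1 (mem_coe.1 hx')
    have hi' := mem_range.1 hi
    have hj' := mem_range.1 hj
    obtain ⟨h4, h5⟩ := hK.1 _ (pow_mem_tube_Om hg hi') _ (pow_mem_tube_Om hg hj') w w'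
      (hw w h2) (hw w' h3) h
    exact Prod.ext (hP _ hg _ hg i hi' j hj' h4).2 h5
  · rw [disjoint_left]
    intro v hv hv'
    obtain ⟨⟨i, w⟩, hx, rfl⟩ := mem_image.1 hv'
    obtain ⟨hi, h2⟩ := mem_product.1 hx
    obtain ⟨x, hx', j, hj, h3⟩ := S.mem_tube.1 hv
    refine hK.2 _ (pow_mem_tube_Om hg (mem_range.1 hi)) w (hw w h2) ?_
    rw [← h3, mem_singleton.1 hx']
    exact pow_mem_tube_Om hg hj

theorem conn_Om (g : V) : S.Conn (S.Om r g) := by
  intro X hu hv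
  by_contra hn
  have h0 : ∀ d : Dt V, d.1 ∈ S.Om r g → S.hd d ∈ S.Om r g → (d.1 ∈ X ↔ S.hd d ∈ X) :=
    fun d h1 h2 => by
      by_contra h3
      exact hn ⟨d, S.mem_bd.2 h3, h1, h2⟩
  have h1 : ∀ i < 10, ((S.π ^ i) g ∈ X ↔ g ∈ X) := fun i hi => by
    induction i with
    | zero => rfl
    | succ i ih =>
      have h2 : S.hd ((S.π ^ i) g, 1) = (S.π ^ (i + 1)) g := by
        rw [pow_succ']
        rfl
      rw [← ih (by omega), ← h2]
      refine (h0 ((S.π ^ i) g, 1) (S.mem_Om.2 ⟨i, by omega, Or.inl rfl⟩) ?_).symm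
      rw [h2]
      exact S.mem_Om.2 ⟨i + 1, hi, Or.inl rfl⟩
  have h2 : ∀ a ∈ S.tube {g} 10, ∀ w : List Bool, w.length ≤ r → (S.tip a w ∈ X ↔ a ∈ X) :=
    fun a ha w hw => by
      induction w with
      | nil => exact (h0 _ (dart_mem_Om ha hw).1 (dart_mem_Om ha hw).2).symm
      | cons β w ih =>
        rw [← ih (by simp only [List.length_cons] at hw; omega)]
        exact (h0 _ (dart_mem_Om ha hw).1 (dart_mem_Om ha hw).2).symm
  have h3 : ∀ v ∈ S.Om r g, (v ∈ X ↔ g ∈ X) := fun v hv => by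
    obtain ⟨i, hi, rfl | ⟨w, hw, rfl⟩⟩ := S.mem_Om.1 hv
    · exact h1 i hi
    · exact (h2 _ (pow_mem_tube_Om (mem_singleton_self g) hi) w hw).trans (h1 i hi)
  obtain ⟨u, hu, hu'⟩ := hu
  obtain ⟨v, hv, hv'⟩ := hv
  exact hv' ((h3 v hv).2 ((h3 u hu).1 hu'))

theorem out_Om (g : V) : S.out (S.Om r g) ⊆ {(g, 2), ((S.π ^ 9) g, 1)} ∪
    (range 10 ×ˢ Wd (r + 1)).image fun p => S.dart ((S.π ^ p.1) g) p.2 := by
  rintro ⟨v, e⟩ hd
  obtain ⟨h1, h2⟩ := S.mem_out.1 hd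
  obtain ⟨i, hi, h3 | ⟨w, hw, h3⟩⟩ := S.mem_Om.1 h1
  · change _ = v at h3
    subst h3
    have ha := pow_mem_tube_Om (S := S) (mem_singleton_self g) hi
    refine mem_union_left _ ?_
    rw [mem_insert, mem_singleton]
    fin_cases e
    · exact absurd (dart_mem_Om (w := []) ha (Nat.zero_le r)).2 h2
    · by_cases h4 : i = 9
      · subst h4
        exact Or.inr rfl
      · refine absurd (S.mem_Om.2 ⟨i + 1, by omega, Or.inl ?_⟩) h2
        rw [pow_succ']
        rfl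
    · cases i with
      | zero => exact Or.inl rfl
      | succ i =>
        refine absurd (S.mem_Om.2 ⟨i, by omega, Or.inl ?_⟩) h2
        rw [pow_succ']
        exact (S.π.symm_apply_apply _).symm
  · change _ = v at h3
    subst h3
    have ha := pow_mem_tube_Om (S := S) (mem_singleton_self g) hi
    have h4 : ∀ β, e = kid (dir w) β → (S.tip ((S.π ^ i) g) w, e) ∈
        (range 10 ×ˢ Wd (r + 1)).image fun p => S.dart ((S.π ^ p.1) g) p.2 := fun β he => by
      have h5 : (S.tip ((S.π ^ i) g) w, e) = S.dart ((S.π ^ i) g) (β :: w) := by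
        rw [he, dart, dart_snd]
        rfl
      rw [h5] at h2 ⊢
      refine mem_image.2 ⟨(i, β :: w), mem_product.2 ⟨mem_range.2 hi, mem_Wd.2 ?_⟩, rfl⟩
      by_contra h6
      simp only [List.length_cons] at h6
      exact h2 (dart_mem_Om ha (w := β :: w) (by simp only [List.length_cons]; omega)).2
    refine mem_union_right _ ?_
    rcases dir_cases_Om (dir w) e with he | he | he
    · refine absurd ?_ h2
      have h5 : S.hd (S.tip ((S.π ^ i) g) w, e) = (S.dart ((S.π ^ i) g) w).1 := by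
        rw [he, ← S.dart_snd ((S.π ^ i) g) w]
        exact S.hd_rv _
      rw [h5]
      exact (dart_mem_Om ha hw).1
    · exact h4 _ he
    · exact h4 _ he

theorem om_trees (hK : S.HInj (S.tube G 10) r)
    (hP : ∀ g ∈ G, ∀ g' ∈ G, ∀ i < 10, ∀ j < 10, (S.π ^ i) g = (S.π ^ j) g' → g = g' ∧ i = j) :
    S.Trees G (S.Om r) (20 * 2 ^ r) where
  mem g _ := S.mem_Om.2 ⟨0, by omega, Or.inl rfl⟩
  conn g _ := conn_Om g
  card g hg := card_Om hK hP hg
  disj g hg g' hg' hne := by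
    rw [disjoint_left]
    intro v hv hv'
    obtain ⟨i, hi, h1 | ⟨w, hw, h1⟩⟩ := S.mem_Om.1 hv <;>
      obtain ⟨j, hj, h2 | ⟨w', hw', h2⟩⟩ := S.mem_Om.1 hv'
    · exact hne (hP g hg g' hg' i hi j hj (h1.trans h2.symm)).1
    · exact hK.2 _ (pow_mem_tube_Om hg' hj) w' hw' (h2 ▸ h1 ▸ pow_mem_tube_Om hg hi)
    · exact hK.2 _ (pow_mem_tube_Om hg hi) w hw (h1 ▸ h2 ▸ pow_mem_tube_Om hg' hj)
    · exact hne (hP g hg g' hg' i hi j hj (hK.1 _ (pow_mem_tube_Om hg hi) _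
        (pow_mem_tube_Om hg' hj) w w' hw hw' (h1.trans h2.symm)).1).1
  bdy g _ := by
    have h1 := (card_le_card (out_Om (S := S) (r := r) g)).trans (card_union_le _ _)
    have h2 := card_image_le (s := range 10 ×ˢ Wd (r + 1))
      (f := fun p => S.dart ((S.π ^ p.1) g) p.2)
    have h3 : ({(g, 2), ((S.π ^ 9) g, 1)} : Finset (Dt V)).card ≤ 2 := card_le_two
    rw [card_product, card_range, card_Wd, pow_succ] at h2
    rw [b_eq]
    omega

omit [Fintype V] in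
theorem sum_le_Om (hK : S.HInj (S.tube G 10) r) (k : ℕ) {a : V} (ha : a ∈ S.tube G 10)
    (p : List Bool → Prop) [DecidablePred p] (Y : Finset V)
    (hY : ∀ w : List Bool, w.length = r → p w → S.tip a w ∈ Y) :
    ∑ w ∈ Wd r, (if p w then amt k w else 0) ≤
      (20 * 2 ^ k : ℝ) * Y.card / (20 * 2 ^ r : ℕ) := by
  have h1 : ((Wd r).filter p).card ≤ Y.card := by
    refine card_le_card_of_injOn (S.tip a) (fun w hw => ?_) fun w hw w' hw' h => ?_
    · obtain ⟨h2, h3⟩ := mem_filter.1 (mem_coe.1 hw)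
      exact hY w (mem_Wd.1 h2) h3
    · exact (hK.1 a ha a ha w w' (mem_Wd.1 (mem_filter.1 (mem_coe.1 hw)).1).le
        (mem_Wd.1 (mem_filter.1 (mem_coe.1 hw')).1).le h).2
  rw [← sum_filter]
  refine (sum_le_card_nsmul _ _ ((2 : ℝ) ^ k / 2 ^ r) fun w hw => ?_).trans ?_
  · have := amt_le k w
    rwa [mem_Wd.1 (mem_filter.1 hw).1] at this
  · rw [nsmul_eq_mul]
    have h2 : (((Wd r).filter p).card : ℝ) ≤ Y.card := by exact_mod_cast h1
    calc (((Wd r).filter p).card : ℝ) * (2 ^ k / 2 ^ r) ≤ Y.card * (2 ^ k / 2 ^ r) := by gcongr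
      _ = _ := by
        push_cast
        field_simp

omit [Fintype V] in
theorem nu_bounds (hK : S.HInj (S.tube G 10) r) (k : ℕ) {g : V} (hg : g ∈ G) {a : V}
    (ha : a ∈ S.tube {g} 10) (X : Finset V) :
    0 ≤ S.nu k r a X ∧ S.nu k r a X ≤ 1 ∧
      S.nu k r a X ≤ (20 * 2 ^ k : ℝ) * (S.Om r g ∩ X).card / (20 * 2 ^ r : ℕ) ∧
      1 - S.nu k r a X ≤ (20 * 2 ^ k : ℝ) * (S.Om r g \ X).card / (20 * 2 ^ r : ℕ) := by
  have ha' : a ∈ S.tube G 10 := by
    obtain ⟨x, hx, i, hi, rfl⟩ := S.mem_tube.1 ha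
    rw [mem_singleton.1 hx]
    exact pow_mem_tube_Om hg hi
  have h1 : 1 - S.nu k r a X = ∑ w ∈ Wd r, if S.tip a w ∉ X then amt k w else 0 := by
    rw [← sum_amt k r, nu, ← sum_sub_distrib]
    refine sum_congr rfl fun w _ => ?_
    by_cases h : S.tip a w ∈ X <;> simp [h]
  refine ⟨sum_nonneg fun w _ => ?_, ?_, ?_, ?_⟩
  · split_ifs
    · exact amt_nonneg k w
    · exact le_rfl
  · rw [← sub_nonneg, h1]
    refine sum_nonneg fun w _ => ?_
    split_ifs
    · exact le_rfl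
    · exact amt_nonneg k w
  · exact sum_le_Om hK k ha' _ _ fun w hw h => mem_inter.2 ⟨(dart_mem_Om ha hw.le).2, h⟩
  · rw [h1]
    exact sum_le_Om hK k ha' _ _ fun w hw h => mem_sdiff.2 ⟨(dart_mem_Om ha hw.le).2, h⟩

end Str

end Pool.Agent.MP_9a3194_co
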