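import Pool.Agent.MP_9a3194_co.Basic

open Finset
open scoped symmDiff

namespace Pool.Agent.MP_9a3194_co

theorem deep_Push {k : ℕ} (x : Bool) {w : List Bool} (hw : 2 * k < w.length) :
    |sgn x / 2 * amt k w| ≤ 1 / 2 ^ (k + 2) := by
  rw [abs_mul, abs_div, abs_sgn, abs_of_nonneg (amt_nonneg k w), abs_two]
  have h1 : (2 : ℝ) ^ k / 2 ^ w.length ≤ 2 ^ k / 2 ^ (2 * k + 1) := by
    gcongr
    · exact one_le_two
    · exact hw
  have h2 : (1 : ℝ) / 2 * (2 ^ k / 2 ^ (2 * k + 1)) = 1 / 2 ^ (k + 2) := by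
    field_simp
    ring
  linarith [amt_le k w]

namespace Str

variable {V : Type} [DecidableEq V] {S : Str V}

theorem fib_Push (e : Dt V) (v : V) (c : ℝ) :
    ∑ i : Fin 3, (if e = (v, i) then c else 0) = if e.1 = v then c else 0 := by
  obtain ⟨u, j⟩ := e
  by_cases h : u = v
  · simp [h]
  · simp [h]

theorem tele_Push (k : ℕ) (a v : V) (c : ℝ) (ρ : ℕ) :
    ∑ j ∈ range (ρ + 1), ∑ w ∈ Wd j, (if (S.dart a w).1 = v then c * amt k w else 0) -
      ∑ j ∈ range (ρ + 1), ∑ w ∈ Wd j, (if S.tip a w = v then c * amt k w else 0) =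
      (if a = v then c else 0) - ∑ w ∈ Wd ρ, if S.tip a w = v then c * amt k w else 0 := by
  induction ρ with
  | zero => simp [Wd, dart, amt]
  | succ ρ ih =>
    have h : ∑ w ∈ Wd (ρ + 1), (if (S.dart a w).1 = v then c * amt k w else 0) =
        ∑ w ∈ Wd ρ, if S.tip a w = v then c * amt k w else 0 := by
      rw [sum_Wd_succ]
      refine sum_congr rfl fun w _ => ?_
      rw [dart_cons_fst, dart_cons_fst, ← amt_split k w]
      split_ifs
      · ring
      · ring
    rw [sum_range_succ _ (ρ + 1), sum_range_succ _ (ρ + 1), h]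
    linarith

omit [DecidableEq V] in
theorem norev_Push {ρ : ℕ} {F : Finset V} (hF : S.HInj F ρ) {a a' : V} (ha : a ∈ F)
    (ha' : a' ∈ F) {w w' : List Bool} (hw : w.length ≤ ρ) (hw' : w'.length ≤ ρ) :
    S.dart a w ≠ S.rv (S.dart a' w') := by
  intro h
  have h1 : (S.dart a w).1 = S.tip a' w' := by rw [h]; rfl
  have h2 : S.tip a w = (S.dart a' w').1 := by rw [tip, h, hd_rv]
  cases w' with
  | nil => exact hF.2 a ha w hw (h2 ▸ ha')
  | cons β' u' =>
    cases w with
    | nil => exact hF.2 a' ha' _ hw' (h1 ▸ ha)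
    | cons β u =>
      simp only [List.length_cons] at hw hw'
      have h3 := (hF.1 a ha a' ha' _ u' (by simpa using hw) (by omega) h2).2
      have h4 := (hF.1 a ha a' ha' u _ (by omega) (by simpa using hw') h1).2
      have h5 := congrArg List.length h3
      have h6 := congrArg List.length h4
      simp only [List.length_cons] at h5 h6
      omega

/-- the charge carried by a dart in the forward direction -/
noncomputable def fwd_Push (S : Str V) (k ρ : ℕ) (F : Finset V) (s : V → ℝ) (d : Dt V) : ℝ :=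
  ∑ a ∈ F, ∑ j ∈ range (ρ + 1), ∑ w ∈ Wd j, if S.dart a w = d then s a * amt k w else 0

theorem fwd_zero_Push (k : ℕ) {ρ : ℕ} {F : Finset V} (s : V → ℝ) {d : Dt V}
    (h : ¬ ∃ a ∈ F, ∃ w : List Bool, w.length ≤ ρ ∧ S.dart a w = d) :
    fwd_Push S k ρ F s d = 0 := by
  refine sum_eq_zero fun a ha => sum_eq_zero fun j hj => sum_eq_zero fun w hw => if_neg fun e => ?_
  rw [mem_range] at hj
  exact h ⟨a, ha, w, by rw [mem_Wd.1 hw]; omega, e⟩

theorem fwd_val_Push (k : ℕ) {ρ : ℕ} {F : Finset V} (hF : S.HInj F ρ) (s : V → ℝ) {a : V}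
    (ha : a ∈ F) {w : List Bool} (hw : w.length ≤ ρ) :
    fwd_Push S k ρ F s (S.dart a w) = s a * amt k w := by
  have key : ∀ a' ∈ F, ∀ j ∈ range (ρ + 1), ∀ w' ∈ Wd j, S.dart a' w' = S.dart a w →
      a' = a ∧ w' = w := fun a' ha' j hj w' hw' e => by
    rw [mem_range] at hj
    exact hF.1 a' ha' a ha w' w (by rw [mem_Wd.1 hw']; omega) hw (congrArg S.hd e)
  rw [fwd_Push, sum_eq_single_of_mem a ha, sum_eq_single_of_mem w.length
    (mem_range.2 (by omega)), sum_eq_single_of_mem w (mem_Wd.2 rfl), if_pos rfl]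
  · exact fun w' hw' hne => if_neg fun e => hne (key a ha _ (mem_range.2 (by omega)) w' hw' e).2
  · refine fun j hj hne => sum_eq_zero fun w' hw' => if_neg fun e => hne ?_
    rw [← (key a ha j hj w' hw' e).2, mem_Wd.1 hw']
  · exact fun a' ha' hne => sum_eq_zero fun j hj => sum_eq_zero fun w' hw' =>
      if_neg fun e => hne (key a' ha' j hj w' hw' e).1

theorem fwd_out_Push (k ρ : ℕ) (F : Finset V) (s : V → ℝ) (v : V) :
    ∑ i, fwd_Push S k ρ F s (v, i) = ∑ a ∈ F, ∑ j ∈ range (ρ + 1), ∑ w ∈ Wd j,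
      if (S.dart a w).1 = v then s a * amt k w else 0 := by
  unfold fwd_Push
  rw [sum_comm]
  refine sum_congr rfl fun a _ => ?_
  rw [sum_comm]
  refine sum_congr rfl fun j _ => ?_
  rw [sum_comm]
  exact sum_congr rfl fun w _ => fib_Push _ _ _

theorem fwd_in_Push (k ρ : ℕ) (F : Finset V) (s : V → ℝ) (v : V) :
    ∑ i, fwd_Push S k ρ F s (S.rv (v, i)) = ∑ a ∈ F, ∑ j ∈ range (ρ + 1), ∑ w ∈ Wd j,
      if S.tip a w = v then s a * amt k w else 0 := by
  unfold fwd_Push
  rw [sum_comm]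
  refine sum_congr rfl fun a _ => ?_
  rw [sum_comm]
  refine sum_congr rfl fun j _ => ?_
  rw [sum_comm]
  refine sum_congr rfl fun w _ => ?_
  refine Eq.trans (sum_congr rfl fun i _ => if_congr ?_ rfl rfl)
    (fib_Push (S.rv (S.dart a w)) v _)
  exact ⟨fun e => by rw [e, rv_rv], fun e => by rw [← e, rv_rv]⟩

/-- pushing charges along the hanging trees -/
theorem push (k : ℕ) {ρ : ℕ} {F : Finset V} (hF : S.HInj F ρ) (s : V → ℝ) :
    ∃ f : Dt V → ℝ, S.Anti f ∧
      (∀ v, dv f v = (if v ∈ F then s v else 0) -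
        ∑ a ∈ F, ∑ w ∈ Wd ρ, if S.tip a w = v then s a * amt k w else 0) ∧
      ∀ d, f d = 0 ∨ ∃ a ∈ F, ∃ w : List Bool, w.length ≤ ρ ∧
        (d = S.dart a w ∧ f d = s a * amt k w ∨
          d = S.rv (S.dart a w) ∧ f d = -(s a * amt k w)) := by
  refine ⟨fun d => fwd_Push S k ρ F s d - fwd_Push S k ρ F s (S.rv d), fun d => ?_,
    fun v => ?_, fun d => ?_⟩
  · simp only [rv_rv]
    ring
  · rw [dv, sum_sub_distrib, fwd_out_Push, fwd_in_Push, ← sum_sub_distrib,
      sum_congr rfl fun a _ => tele_Push k a v (s a) ρ, sum_sub_distrib, sum_ite_eq']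
  · by_cases h1 : ∃ a ∈ F, ∃ w : List Bool, w.length ≤ ρ ∧ S.dart a w = d
    · obtain ⟨a, ha, w, hw, rfl⟩ := h1
      refine Or.inr ⟨a, ha, w, hw, Or.inl ⟨rfl, ?_⟩⟩
      have h2 : fwd_Push S k ρ F s (S.rv (S.dart a w)) = 0 :=
        fwd_zero_Push k s fun ⟨a', ha', w', hw', e⟩ => norev_Push hF ha' ha hw' hw e
      simp only [h2, fwd_val_Push k hF s ha hw, sub_zero]
    · by_cases h2 : ∃ a ∈ F, ∃ w : List Bool, w.length ≤ ρ ∧ S.dart a w = S.rv d
      · obtain ⟨a, ha, w, hw, e⟩ := h2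
        refine Or.inr ⟨a, ha, w, hw, Or.inr ⟨by rw [e, rv_rv], ?_⟩⟩
        simp only [fwd_zero_Push k s h1, ← e, fwd_val_Push k hF s ha hw, zero_sub]
      · left
        simp only [fwd_zero_Push k s h1, fwd_zero_Push k s h2, sub_zero]

omit [DecidableEq V] in
theorem edge_good {k : ℕ} {y : V → Bool} {a : V} {x : Bool} (h : S.Good k y a x) (w : List Bool) :
    |S.base y (S.dart a w) + sgn x / 2 * amt k w| ≤ 1 / 2 + 1 / 2 ^ (k + 2) := by
  have hp : (0 : ℝ) ≤ 1 / 2 ^ (k + 2) := by positivity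
  have h1 := amt_le_one k w
  have h2 := amt_nonneg k w
  by_cases h0 : dir w = 0
  · rw [base, if_pos ((S.dart_snd a w).trans h0), zero_add, abs_mul, abs_div, abs_sgn,
      abs_of_nonneg h2, abs_two]
    linarith
  by_cases ha : amt k w = 0
  · rw [ha, mul_zero, add_zero]
    linarith [S.abs_base_le y (S.dart a w)]
  by_cases hl : 2 * k < w.length
  · exact (abs_add_le _ _).trans (add_le_add (S.abs_base_le _ _) (deep_Push x hl))
  have ho : ¬ Even w.length := fun he => h0 (dir_eq_zero he (not_lt.1 hl) ha)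
  cases w with
  | nil => exact absurd rfl h0
  | cons β u =>
    rw [List.length_cons] at hl
    rw [List.length_cons, Nat.even_add_one, not_not] at ho
    have hu : amt k u ≠ 0 := fun e => by
      have h3 := amt_split k u
      have h4 := amt_nonneg k (true :: u)
      have h5 := amt_nonneg k (false :: u)
      apply ha
      cases β <;> linarith
    have h3 := sgn_of_ne (h u ho (by omega) hu)
    rw [base, if_neg (by rwa [dart_snd]), dart_cons_fst, h3]
    generalize y (S.hd (S.dart a (β :: u))) = z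
    rw [abs_le]
    cases x <;> cases z <;> simp only [sgn, if_true, Bool.false_eq_true, if_false] <;>
      constructor <;> linarith

theorem edge_deep {k : ℕ} (x : Bool) {w : List Bool} (hw : 2 * k < w.length) :
    |sgn x / 2 * amt k w| ≤ 1 / 2 ^ (k + 2) := deep_Push x hw

/-- the leaf charges are small -/
theorem leaf_le (k : ℕ) {ρ : ℕ} {F : Finset V} (hF : S.HInj F ρ) (s : V → ℝ)
    (hs : ∀ a, |s a| ≤ 1) (v : V) :
    |∑ a ∈ F, ∑ w ∈ Wd ρ, if S.tip a w = v then s a * amt k w else 0| ≤ 2 ^ k / 2 ^ ρ := by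
  by_cases h : ∃ a ∈ F, ∃ w ∈ Wd ρ, S.tip a w = v
  · obtain ⟨a, ha, w, hw, rfl⟩ := h
    have key : ∀ a' ∈ F, ∀ w' ∈ Wd ρ, S.tip a' w' = S.tip a w → a' = a ∧ w' = w :=
      fun a' ha' w' hw' e => hF.1 a' ha' a ha w' w (mem_Wd.1 hw').le (mem_Wd.1 hw).le e
    rw [sum_eq_single_of_mem a ha, sum_eq_single_of_mem w hw, if_pos rfl, abs_mul,
      abs_of_nonneg (amt_nonneg k w), ← mem_Wd.1 hw]
    · exact (mul_le_of_le_one_left (amt_nonneg k w) (hs a)).trans (amt_le k w)
    · exact fun w' hw' hne => if_neg fun e => hne (key a ha w' hw' e).2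
    · exact fun a' ha' hne => sum_eq_zero fun w' hw' => if_neg fun e => hne (key a' ha' w' hw' e).1
  · rw [sum_eq_zero fun a ha => sum_eq_zero fun w hw => if_neg fun e => h ⟨a, ha, w, hw, e⟩,
      abs_zero]
    positivity

theorem leaf_sum (k ρ : ℕ) (F : Finset V) (s : V → ℝ) (X : Finset V) :
    ∑ v ∈ X, ∑ a ∈ F, ∑ w ∈ Wd ρ, (if S.tip a w = v then s a * amt k w else 0) =
      ∑ a ∈ F, s a * S.nu k ρ a X := by
  rw [sum_comm]
  refine sum_congr rfl fun a _ => ?_
  rw [sum_comm, nu, mul_sum]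
  refine sum_congr rfl fun w _ => ?_
  rw [sum_ite_eq, mul_ite, mul_zero]

theorem nu_univ [Fintype V] (k ρ : ℕ) (a : V) : S.nu k ρ a univ = 1 := by
  simp only [nu, mem_univ, if_true, sum_amt]

end Str

end Pool.Agent.MP_9a3194_co
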