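import Pool.Agent.MP_9a3194_co.Sign
import Pool.Agent.MP_9a3194_co.Net
import Pool.Agent.MP_9a3194_co.Push
import Pool.Agent.MP_9a3194_co.Om
import Pool.Agent.MP_9a3194_co.Flip

open Finset
open scoped symmDiff

namespace Pool.Agent.MP_9a3194_co

theorem even_Bal {V : Type} [Fintype V] (S : Str V) (hμ : ∀ v, S.μ v ≠ v) (y : V → Bool) :
    ∃ m : ℤ, ∑ v, sgn (y v) = 2 * m := by
  classical
  have h0 : ∑ _v : V, (1 : ZMod 2) = 0 :=
    Finset.sum_involution (fun v _ => S.μ v) (fun _ _ => by decide) (fun v _ _ => hμ v)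
      (fun _ _ => mem_univ _) (fun v _ => S.μμ v)
  rw [sum_const, card_univ, nsmul_eq_mul, mul_one, ZMod.natCast_eq_zero_iff_even] at h0
  obtain ⟨n, hn⟩ := h0
  refine ⟨(n : ℤ) - ((univ.filter fun v => y v = false).card : ℤ), ?_⟩
  have e : ∀ v, sgn (y v) = 1 - 2 * (if y v = false then (1 : ℝ) else 0) := fun v => by
    cases y v <;> simp [sgn]
    norm_num
  simp only [e]
  rw [sum_sub_distrib, ← mul_sum, sum_boole, sum_const, card_univ, hn]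
  push_cast
  simp only [nsmul_eq_mul]
  push_cast
  ring

theorem edge_Bal {V : Type} {S : Str V} {k : ℕ} {y : V → Bool} {a : V} (h : S.Good k y a (y a))
    {w : List Bool} {d : Dt V} {x : ℝ}
    (hd : d = S.dart a w ∧ x = sgn (y a) / 2 * amt k w ∨
      d = S.rv (S.dart a w) ∧ x = -(sgn (y a) / 2 * amt k w)) :
    |S.base y d + x| ≤ 1 / 2 + 1 / 2 ^ (k + 2) := by
  rcases hd with ⟨rfl, rfl⟩ | ⟨rfl, rfl⟩
  · exact Str.edge_good h w
  · rw [S.base_anti y, ← neg_add, abs_neg]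
    exact Str.edge_good h w

theorem bound_Bal {V : Type} [Fintype V] [DecidableEq V] {S : Str V} {k R r l : ℕ}
    {y y' : V → Bool} {F G Fc : Finset V} {cell : V → V} (h : S.Cfg k R r l y F G cell)
    (hc : S.Col k y' (F ∪ Fc)) (hFc : Fc ⊆ S.tube G 10) (hy : ∀ a ∈ F, y' a = y a)
    {d : Dt V} {x₁ x₂ : ℝ}
    (h1 : x₁ = 0 ∨ ∃ a ∈ F, ∃ w : List Bool, w.length ≤ R ∧
      (d = S.dart a w ∧ x₁ = sgn (y a) / 2 * amt k w ∨
        d = S.rv (S.dart a w) ∧ x₁ = -(sgn (y a) / 2 * amt k w)))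
    (h2 : x₂ = 0 ∨ ∃ a ∈ Fc, ∃ w : List Bool, w.length ≤ r ∧
      (d = S.dart a w ∧ x₂ = sgn (y' a) / 2 * amt k w ∨
        d = S.rv (S.dart a w) ∧ x₂ = -(sgn (y' a) / 2 * amt k w))) :
    |S.base y' d + x₁ + x₂| ≤ 1 / 2 + 2 / 2 ^ (k + 2) := by
  have hp : (0 : ℝ) < 1 / 2 ^ (k + 2) := by positivity
  have e2 : (2 : ℝ) / 2 ^ (k + 2) = 1 / 2 ^ (k + 2) + 1 / 2 ^ (k + 2) := by ring
  have hb2 : |S.base y' d + x₂| ≤ 1 / 2 + 1 / 2 ^ (k + 2) := by
    rcases h2 with rfl | ⟨a, ha, w, -, hd⟩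
    · rw [add_zero]
      linarith [S.abs_base_le y' d]
    · exact edge_Bal (hc.good a (mem_union_right _ ha)) hd
  have hsm : |x₁| ≤ 1 / 2 ^ (k + 2) → |S.base y' d + x₁ + x₂| ≤ 1 / 2 + 2 / 2 ^ (k + 2) := by
    intro hx
    have e : S.base y' d + x₁ + x₂ = (S.base y' d + x₂) + x₁ := by ring
    rw [e, e2]
    linarith [abs_add_le (S.base y' d + x₂) x₁]
  rcases h1 with rfl | ⟨a, ha, w, -, hd⟩
  · exact hsm (by rw [abs_zero]; exact hp.le)
  · by_cases hw : w.length ≤ 2 * k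
    · have hx2 : x₂ = 0 := by
        rcases h2 with h2 | ⟨a', ha', w', hw', hd'⟩
        · exact h2
        · exfalso
          obtain ⟨g, hg, i, hi, hgi⟩ := S.mem_tube.1 (hFc ha')
          have ha'' : a' ∈ S.tube {g} 10 := S.mem_tube.2 ⟨g, mem_singleton_self g, i, hi, hgi⟩
          obtain ⟨k1, k2⟩ := Str.dart_mem_Om (r := r) ha'' hw'
          have k3 : d.1 ∈ S.Om r g ∧ S.hd d ∈ S.Om r g := by
            rcases hd' with ⟨hd', -⟩ | ⟨hd', -⟩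
            · rw [hd']
              exact ⟨k1, k2⟩
            · rw [hd', S.hd_rv, S.rv_fst]
              exact ⟨k2, k1⟩
          refine (h.far a ha g hg).2 w hw ?_
          rcases hd with ⟨hd, -⟩ | ⟨hd, -⟩
          · rw [hd] at k3
            exact k3.2
          · rw [hd, S.rv_fst] at k3
            exact k3.1
      rw [← hy a ha] at hd
      have := edge_Bal (hc.good a (mem_union_left _ ha)) hd
      rw [hx2, add_zero, e2]
      linarith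
    · refine hsm ?_
      have := Str.edge_deep (k := k) (y a) (not_le.1 hw)
      rcases hd with ⟨-, hd⟩ | ⟨-, hd⟩
      · rw [hd]
        exact this
      · rw [hd, abs_neg]
        exact this

theorem avg_Bal {V : Type} {s : Finset V} (hs : s.card = 4) {φ : V → ℝ} {P Q : ℝ}
    (h : ∀ a ∈ s, 0 ≤ φ a ∧ φ a ≤ 1 ∧ φ a ≤ P ∧ 1 - φ a ≤ Q) :
    0 ≤ (∑ a ∈ s, φ a) / 4 ∧ (∑ a ∈ s, φ a) / 4 ≤ 1 ∧ (∑ a ∈ s, φ a) / 4 ≤ P ∧
      1 - (∑ a ∈ s, φ a) / 4 ≤ Q := by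
  have e1 := sum_nonneg fun a ha => (h a ha).1
  have e2 := sum_le_card_nsmul s φ 1 fun a ha => (h a ha).2.1
  have e3 := sum_le_card_nsmul s φ P fun a ha => (h a ha).2.2.1
  have e4 := card_nsmul_le_sum s φ (1 - Q) fun a ha => by linarith [(h a ha).2.2.2]
  rw [hs, nsmul_eq_mul] at e2 e3 e4
  push_cast at e2 e3 e4
  refine ⟨by linarith, by linarith, by linarith, by linarith⟩

/-- almost half balanced colourings -/
theorem bal {δ : ℝ} (hδ : 0 < δ) : ∃ c : ℕ, ∀ {V : Type} [Fintype V] [DecidableEq V] (S : Str V),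
    c ≤ Fintype.card V → S.Iso c → (∀ v, S.μ v ≠ v) ∧ ∃ y : V → Bool, ∑ v, sgn (y v) = 0 ∧
      ∀ X : Finset V, ∑ v ∈ X, sgn (y v) ≤ (1 / 4 + δ) * S.b X := by
  obtain ⟨k, hk⟩ : ∃ k : ℕ, (1 : ℝ) / 2 ^ (k + 2) ≤ δ / 2 := by
    obtain ⟨n, hn⟩ := exists_pow_lt_of_lt_one hδ (by norm_num : (1 / 2 : ℝ) < 1)
    refine ⟨n, ?_⟩
    rw [one_div_pow] at hn
    have e : (1 : ℝ) / 2 ^ (n + 2) = 1 / 2 ^ n / 4 := by
      rw [pow_add]
      field_simp
      norm_num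
    rw [e]
    linarith
  have hK : (1 : ℝ) ≤ 20 * 2 ^ k := by
    have : (1 : ℝ) ≤ 2 ^ k := one_le_pow₀ (by norm_num)
    linarith
  obtain ⟨ω₀, l₀, A, hA, hsign⟩ := sign (half_pos hδ) hK
  obtain ⟨r, hr, hrω⟩ : ∃ r : ℕ, 2 * k ≤ r ∧ ω₀ ≤ 20 * 2 ^ r := by
    refine ⟨2 * k + ω₀, by omega, ?_⟩
    have := Nat.lt_two_pow_self (n := 2 * k + ω₀)
    omega
  obtain ⟨R, l, c₀, -, hl, hAl, hcfg⟩ := cfg k r l₀ (2 ^ k * A)
  refine ⟨2 * (c₀ + 2) + 1 + 20 * 2 ^ r + 2 + ⌈A * (l : ℝ) ^ 2⌉₊ + 1, ?_⟩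
  intro V _ _ S hV hI
  have hG : S.Gir (c₀ + 2) := (hI.mono (by omega)).gir (by omega)
  have hμ : ∀ v, S.μ v ≠ v := hG.mu_ne (by omega)
  refine ⟨hμ, ?_⟩
  obtain ⟨y, F, G, cell, h⟩ := hcfg S (hG.mono (by omega))
  have hs : ∀ (y : V → Bool) (a : V), |sgn (y a) / 2| ≤ 1 := fun y a => by
    rw [abs_div, abs_sgn]
    norm_num
  obtain ⟨f₁, hf₁, hd₁, he₁⟩ := Str.push k h.injF fun a => sgn (y a) / 2
  obtain ⟨q, hq⟩ : ∃ q : V → ℝ, q = fun v => ∑ a ∈ F, ∑ w ∈ Wd R,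
    if S.tip a w = v then sgn (y a) / 2 * amt k w else 0 := ⟨_, rfl⟩
  obtain ⟨m, hm⟩ := even_Bal S hμ y
  have hqm : ∑ v, q v = 2 * m := by
    rw [← hm, hq, Str.leaf_sum k R F (fun a => sgn (y a) / 2) univ,
      sum_congr rfl fun v _ => h.col.dv_base v, sum_add_distrib,
      S.sum_dv_univ (S.base_anti y), zero_add, sum_ite_mem, univ_inter]
    exact sum_congr rfl fun a _ => by rw [Str.nu_univ, mul_one]
  have hqp : ∀ v, |q v| ≤ 2 ^ k / 2 ^ R := fun v => by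
    rw [hq]
    exact Str.leaf_le k h.injF _ (hs y) v
  obtain ⟨z, hz, hz0, hzX⟩ := hsign S _ (20 * 2 ^ r) l G (S.Om r) cell q (2 ^ k / 2 ^ R) m hrω hl
    (by omega) (by
      have := Nat.le_ceil (A * (l : ℝ) ^ 2)
      have h2 : (0 : ℝ) ≤ ((2 * (c₀ + 2) + 1 + 20 * 2 ^ r + 2 : ℕ) : ℝ) := Nat.cast_nonneg _
      rw [Nat.cast_add, Nat.cast_add _ ⌈A * (l : ℝ) ^ 2⌉₊, Nat.cast_one]
      linarith) hV hI h.part (Str.om_trees h.injK h.injP) hqp (by
      rw [div_mul_eq_mul_div, div_mul_eq_mul_div, div_le_one (by positivity)]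
      exact hAl) hqm
  obtain ⟨y', Fc, src, hc, hdj, hFc, hy, hsrc, hφ⟩ := Str.flip h hr z hz
  obtain ⟨f₂, hf₂, hd₂, he₂⟩ := Str.push k (h.injK.mono hFc le_rfl) fun a => sgn (y' a) / 2
  obtain ⟨f, hf⟩ : ∃ f : Dt V → ℝ, f = fun d => S.base y' d + f₁ d + f₂ d := ⟨_, rfl⟩
  have hfa : S.Anti f := fun d => by
    simp only [hf]
    rw [S.base_anti y' d, hf₁ d, hf₂ d]
    ring
  have hfb : ∀ d, |f d| ≤ 1 / 2 + 2 / 2 ^ (k + 2) := fun d => by
    simp only [hf]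
    exact bound_Bal h hc hFc hy (he₁ d) (he₂ d)
  have hpt : ∀ v, sgn (y' v) = dv f v + q v + ∑ a ∈ Fc, ∑ w ∈ Wd r,
      if S.tip a w = v then sgn (y' a) / 2 * amt k w else 0 := fun v => by
    have e : dv f v = dv (S.base y') v + dv f₁ v + dv f₂ v := by
      simp only [hf, dv, sum_add_distrib]
    have e1 := hc.dv_base v
    have e2 : (if v ∈ F ∪ Fc then sgn (y' v) / 2 else 0) =
        (if v ∈ F then sgn (y v) / 2 else 0) + if v ∈ Fc then sgn (y' v) / 2 else 0 := by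
      by_cases h1 : v ∈ F
      · rw [if_pos (mem_union_left _ h1), if_pos h1, if_neg (disjoint_left.1 hdj h1), hy v h1,
          add_zero]
      · by_cases h2 : v ∈ Fc
        · rw [if_pos (mem_union_right _ h2), if_neg h1, if_pos h2, zero_add]
        · rw [if_neg (fun h3 => (mem_union.1 h3).elim h1 h2), if_neg h1, if_neg h2, add_zero]
    rw [e, hd₁ v, hd₂ v]
    simp only [hq]
    linarith
  have hX : ∀ X : Finset V, ∑ v ∈ X, sgn (y' v) = ∑ v ∈ X, dv f v +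
      (∑ v ∈ X, q v + 2 * ∑ g, (z g : ℝ) * ((∑ a ∈ src g, S.nu k r a X) / 4)) := fun X => by
    rw [sum_congr rfl fun v _ => hpt v, sum_add_distrib, sum_add_distrib,
      Str.leaf_sum k r Fc (fun a => sgn (y' a) / 2) X, hφ fun a => S.nu k r a X, add_assoc]
  refine ⟨y', ?_, fun X => ?_⟩
  · rw [hX univ, S.sum_dv_univ hfa, zero_add, ← hz0]
    congr 2
    refine sum_congr rfl fun g _ => ?_
    rcases hz g with h0 | ⟨hg, -⟩
    · rw [h0]
      simp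
    · simp only [Str.nu_univ]
      rw [sum_const, (hsrc g hg).1]
      norm_num
  · have e1 := (le_abs_self _).trans (S.abs_sum_dv_le hfa hfb X)
    have e2 := hzX X (fun g => (∑ a ∈ src g, S.nu k r a X) / 4) fun g hg =>
      avg_Bal (hsrc g hg).1 fun a ha => Str.nu_bounds h.injK k hg ((hsrc g hg).2 ha) X
    have hb : (0 : ℝ) ≤ S.b X := Nat.cast_nonneg _
    have e3 := mul_le_mul_of_nonneg_right hk hb
    have e4 : (1 / 2 + 2 / 2 ^ (k + 2) : ℝ) / 2 * S.b X =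
        1 / 4 * S.b X + 1 / 2 ^ (k + 2) * S.b X := by ring
    rw [hX X]
    linarith

end Pool.Agent.MP_9a3194_co
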