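import Pool.Agent.MP_9a3194_co.Words

open Finset
open scoped symmDiff

namespace Pool.Agent.MP_9a3194_co

namespace Str

variable {V : Type} {S : Str V}

theorem Near.refl (ρ : ℕ) (u : V) : S.Near ρ u u := ⟨[], Nat.zero_le _, rfl⟩

theorem Near.symm {ρ : ℕ} {u v : V} (h : S.Near ρ u v) : S.Near ρ v u := by
  obtain ⟨w, hw, rfl⟩ := h
  exact ⟨w.reverse.map rd, by simpa using hw, act_rev u w⟩

theorem Near.trans {ρ ρ' : ℕ} {u v x : V} (h : S.Near ρ u v) (h' : S.Near ρ' v x) :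
    S.Near (ρ + ρ') u x := by
  obtain ⟨w, hw, rfl⟩ := h
  obtain ⟨w', hw', rfl⟩ := h'
  exact ⟨w ++ w', by rw [List.length_append]; omega, act_append u w w'⟩

theorem Near.mono {ρ ρ' : ℕ} {u v : V} (h : S.Near ρ u v) (hρ : ρ ≤ ρ') : S.Near ρ' u v := by
  obtain ⟨w, hw, e⟩ := h
  exact ⟨w, hw.trans hρ, e⟩

theorem near_pow_Ball (v : V) {i j n : ℕ} (hi : i ≤ j) (hj : j ≤ i + n) :
    S.Near n ((S.π ^ i) v) ((S.π ^ j) v) := by
  refine ⟨List.replicate (j - i) 1, by rw [List.length_replicate]; omega, ?_⟩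
  rw [act_rep_one, ← Equiv.Perm.mul_apply, ← pow_add, Nat.sub_add_cancel hi]

theorem near_pow (v : V) {i j n : ℕ} (hi : i ≤ j + n) (hj : j ≤ i + n) :
    S.Near n ((S.π ^ i) v) ((S.π ^ j) v) := by
  rcases le_total i j with h | h
  · exact near_pow_Ball v h hj
  · exact (near_pow_Ball v h hi).symm

theorem near_tip (a : V) (w : List Bool) : S.Near (w.length + 1) a (S.tip a w) :=
  ⟨dirs w, (length_dirs w).le, act_dirs a w⟩

theorem near_Om [DecidableEq V] {r : ℕ} {g v : V} (h : v ∈ S.Om r g) :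
    ∃ i < 10, S.Near (r + 1) ((S.π ^ i) g) v := by
  obtain ⟨i, hi, rfl | ⟨w, hw, rfl⟩⟩ := S.mem_Om.1 h
  · exact ⟨i, hi, Near.refl _ _⟩
  · exact ⟨i, hi, (near_tip _ w).mono (by omega)⟩

theorem card_near {ρ : ℕ} {u : V} {s : Finset V} (h : ∀ v ∈ s, S.Near ρ u v) :
    s.card ≤ 4 ^ ρ := by
  classical
  induction ρ generalizing u s with
  | zero =>
    rw [pow_zero]
    refine card_le_one.2 fun a ha b hb => ?_
    obtain ⟨w, hw, rfl⟩ := h a ha
    obtain ⟨w', hw', rfl⟩ := h b hb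
    rw [List.length_eq_zero_iff.1 (Nat.le_zero.1 hw), List.length_eq_zero_iff.1 (Nat.le_zero.1 hw')]
  | succ ρ ih =>
    have h1 : s ⊆ insert u (univ.biUnion fun d : Fin 3 =>
        s.filter fun v => S.Near ρ (S.step u d) v) := by
      intro v hv
      obtain ⟨w, hw, e⟩ := h v hv
      cases w with
      | nil => exact mem_insert.2 (Or.inl e.symm)
      | cons d w =>
        refine mem_insert_of_mem (mem_biUnion.2 ⟨d, mem_univ _, mem_filter.2 ⟨hv, w, ?_, e⟩⟩)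
        simpa using hw
    have h2 : (univ.biUnion fun d : Fin 3 =>
        s.filter fun v => S.Near ρ (S.step u d) v).card ≤ 3 * 4 ^ ρ := by
      refine (card_biUnion_le_card_mul _ _ (4 ^ ρ) fun d _ =>
        ih fun v hv => (mem_filter.1 hv).2).trans_eq ?_
      rw [card_univ, Fintype.card_fin]
    have h3 := (card_le_card h1).trans (card_insert_le _ _)
    have h4 : 0 < 4 ^ ρ := by positivity
    rw [pow_succ]
    omega

theorem TN.symm {κ κ' ρ : ℕ} {x x' : V} (h : S.TN κ κ' ρ x x') : S.TN κ' κ ρ x' x := by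
  obtain ⟨i, hi, j, hj, h⟩ := h
  exact ⟨j, hj, i, hi, h.symm⟩

theorem card_TN {κ κ' ρ : ℕ} {x : V} {s : Finset V} (h : ∀ x' ∈ s, S.TN κ κ' ρ x x') :
    s.card ≤ κ * κ' * 4 ^ ρ := by
  classical
  have h1 : s ⊆ (range κ ×ˢ range κ').biUnion fun p =>
      s.filter fun x' => S.Near ρ ((S.π ^ p.1) x) ((S.π ^ p.2) x') := by
    intro x' hx'
    obtain ⟨i, hi, j, hj, hn⟩ := h x' hx'
    exact mem_biUnion.2 ⟨(i, j), mem_product.2 ⟨mem_range.2 hi, mem_range.2 hj⟩,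
      mem_filter.2 ⟨hx', hn⟩⟩
  refine (card_le_card h1).trans
    ((card_biUnion_le_card_mul _ _ (4 ^ ρ) fun p _ => ?_).trans_eq ?_)
  · rw [← card_image_of_injective _ (S.π ^ p.2).injective]
    refine card_near (S := S) (u := (S.π ^ p.1) x) fun v hv => ?_
    obtain ⟨x', hx', rfl⟩ := mem_image.1 hv
    exact (mem_filter.1 hx').2
  · rw [card_product, card_range, card_range]

/-- far apart arcs carry disjoint trees -/
theorem hinj_tube [DecidableEq V] {c κ ρ : ℕ} (hG : S.Gir c) (hc : 2 * (κ + ρ + 1) < c)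
    {J : Finset V} (hJ : ∀ x ∈ J, ∀ x' ∈ J, x ≠ x' → ¬ S.TN κ κ (2 * ρ + 2) x x') :
    S.HInj (S.tube J κ) ρ ∧ ∀ x ∈ J, ∀ x' ∈ J, ∀ i < κ, ∀ j < κ,
      (S.π ^ i) x = (S.π ^ j) x' → x = x' ∧ i = j := by
  refine ⟨⟨fun a ha a' ha' w w' hw hw' he => ?_, fun a ha w hw hm => ?_⟩,
    fun x hx x' hx' i hi j hj he => ?_⟩
  · obtain ⟨x, hx, i, hi, rfl⟩ := S.mem_tube.1 ha
    obtain ⟨x', hx', j, hj, rfl⟩ := S.mem_tube.1 ha'
    by_cases hxx : x = x'
    · subst hxx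
      obtain ⟨h1, h2⟩ := hG.tip_inj (by omega) he
      exact ⟨by rw [h1], h2⟩
    · refine (hJ x hx x' hx' hxx ⟨i, hi, j, hj, ?_⟩).elim
      have h1 := near_tip (S := S) ((S.π ^ i) x) w
      rw [he] at h1
      exact (h1.trans (near_tip _ w').symm).mono (by omega)
  · obtain ⟨x, hx, i, hi, rfl⟩ := S.mem_tube.1 ha
    obtain ⟨x', hx', j, hj, he⟩ := S.mem_tube.1 hm
    by_cases hxx : x = x'
    · subst hxx
      exact hG.tip_ne_pow (by omega) he.symm
    · refine hJ x hx x' hx' hxx ⟨i, hi, j, hj, ?_⟩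
      rw [he]
      exact (near_tip _ w).mono (by omega)
  · by_cases hxx : x = x'
    · subst hxx
      exact ⟨rfl, hG.pow_inj (by omega) (by omega) he⟩
    · refine (hJ x hx x' hx' hxx ⟨i, hi, j, hj, ?_⟩).elim
      rw [he]
      exact Near.refl _ _

theorem window_Ball {c W ρ R a : ℕ} (hG : S.Gir c) (hc : a + 10 * W * 4 ^ ρ < c)
    (hρ : 2 * ρ + 10 ≤ 2 * R + 2) {J : Finset V}
    (hJ : ∀ x ∈ J, ∀ x' ∈ J, x ≠ x' → ¬ S.TN W W (2 * R + 2) x x') (v : V) :
    ∃ s ≤ 10 * W * 4 ^ ρ, ∀ x ∈ J, ¬ S.TN 10 W ρ ((S.π ^ (a + s)) v) x := by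
  classical
  by_contra hcon
  push Not at hcon
  obtain ⟨x₀, hx₀, h₀⟩ := hcon 0 (Nat.zero_le _)
  have h1 : ∀ s ≤ 10 * W * 4 ^ ρ, S.TN 10 W ρ ((S.π ^ (a + s)) v) x₀ := by
    intro s
    induction s with
    | zero => exact fun _ => h₀
    | succ s ih =>
      intro hs
      obtain ⟨x, hx, h⟩ := hcon (s + 1) hs
      by_cases hxx : x₀ = x
      · rwa [hxx]
      · obtain ⟨i, hi, j, hj, hn⟩ := ih (by omega)
        obtain ⟨i', hi', j', hj', hn'⟩ := h
        rw [← Equiv.Perm.mul_apply, ← pow_add] at hn hn'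
        refine (hJ x₀ hx₀ x hx hxx ⟨j, hj, j', hj', ?_⟩).elim
        exact ((hn.symm.trans (near_pow (n := 10) v (by omega) (by omega))).trans hn').mono
          (by omega)
  have h2 : ((range (10 * W * 4 ^ ρ + 1)).image fun s => (S.π ^ (a + s)) v).card ≤
      W * 10 * 4 ^ ρ := by
    refine card_TN (S := S) (x := x₀) fun y hy => ?_
    obtain ⟨s, hs, rfl⟩ := mem_image.1 hy
    exact (h1 s (Nat.lt_succ_iff.1 (mem_range.1 hs))).symm
  rw [card_image_of_injOn, card_range, mul_comm W 10] at h2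
  · omega
  · intro s hs s' hs' he
    have h3 := mem_range.1 (mem_coe.1 hs)
    have h4 := mem_range.1 (mem_coe.1 hs')
    have := hG.pow_inj (by omega) (by omega) he
    omega

/-- every long arc has many places far from a sparse family of arcs -/
theorem free {c W ρ R M : ℕ} (hG : S.Gir c) (hc : M * (10 * W * 4 ^ ρ + 11) ≤ c)
    (hρ : 2 * ρ + 10 ≤ 2 * R + 2) {J : Finset V}
    (hJ : ∀ x ∈ J, ∀ x' ∈ J, x ≠ x' → ¬ S.TN W W (2 * R + 2) x x') (v : V) :
    ∃ T : Finset ℕ, M ≤ T.card ∧ (∀ t ∈ T, t + 10 ≤ M * (10 * W * 4 ^ ρ + 11)) ∧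
      (∀ t ∈ T, ∀ t' ∈ T, t < t' → t + 10 ≤ t') ∧
      ∀ t ∈ T, ∀ x ∈ J, ¬ S.TN 10 W ρ ((S.π ^ t) v) x := by
  set N := 10 * W * 4 ^ ρ with hN
  have hstep : ∀ m m' : ℕ, m < m' → m * (N + 11) + (N + 11) ≤ m' * (N + 11) := fun m m' h => by
    rw [← add_one_mul]
    exact Nat.mul_le_mul_right _ h
  have h1 : ∀ m, ∃ s ≤ N, m < M → ∀ x ∈ J, ¬ S.TN 10 W ρ ((S.π ^ (m * (N + 11) + s)) v) x := by
    intro m
    by_cases hm : m < M
    · have := hstep m M hm
      obtain ⟨s, hs, h⟩ := window_Ball (a := m * (N + 11)) hG (by omega) hρ hJ v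
      exact ⟨s, hs, fun _ => h⟩
    · exact ⟨0, Nat.zero_le _, fun h => absurd h hm⟩
  choose s hs h using h1
  have hlt : ∀ m m', m < m' → m * (N + 11) + s m + 10 < m' * (N + 11) + s m' := fun m m' hm => by
    have := hstep m m' hm
    have := hs m
    omega
  refine ⟨(range M).image fun m => m * (N + 11) + s m, ?_, ?_, ?_, ?_⟩
  · rw [card_image_of_injective, card_range]
    refine StrictMono.injective fun m m' hm => ?_
    have := hlt m m' hm
    omega
  · intro t ht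
    obtain ⟨m, hm, rfl⟩ := mem_image.1 ht
    have := hstep m M (mem_range.1 hm)
    have := hs m
    omega
  · intro t ht t' ht' htt
    obtain ⟨m, -, rfl⟩ := mem_image.1 ht
    obtain ⟨m', -, rfl⟩ := mem_image.1 ht'
    rcases lt_trichotomy m m' with hm | rfl | hm
    · exact (hlt m m' hm).le
    · omega
    · have := hlt m' m hm
      omega
  · intro t ht
    obtain ⟨m, hm, rfl⟩ := mem_image.1 ht
    exact h m (mem_range.1 hm)

end Str

end Pool.Agent.MP_9a3194_co
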