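import Pool.Agent.MP_9a3194_co.Defs

open Finset
open scoped symmDiff

namespace Pool.Agent.MP_9a3194_co

theorem rd_rd (i : Fin 3) : rd (rd i) = i := by
  fin_cases i <;> rfl

theorem sgn_not (x : Bool) : sgn (!x) = -sgn x := by
  cases x <;> simp [sgn]

theorem sgn_of_ne {x y : Bool} (h : x ≠ y) : sgn x = -sgn y := by
  cases x <;> cases y <;> simp_all [sgn]

theorem abs_sgn (x : Bool) : |sgn x| = 1 := by
  cases x <;> simp [sgn]

theorem mem_Wd {j : ℕ} {w : List Bool} : w ∈ Wd j ↔ w.length = j := by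
  induction j generalizing w with
  | zero => simp [Wd]
  | succ j ih =>
    cases w with
    | nil => simp [Wd]
    | cons β w => cases β <;> simp [Wd, ih]

theorem Wd_disj_Basic (j : ℕ) :
    Disjoint ((Wd j).image (List.cons true)) ((Wd j).image (List.cons false)) := by
  simp only [disjoint_left, mem_image]
  rintro _ ⟨w, -, rfl⟩ ⟨w', -, h⟩
  simp at h

theorem card_Wd (j : ℕ) : (Wd j).card = 2 ^ j := by
  induction j with
  | zero => rfl
  | succ j ih =>
    rw [Wd, card_union_of_disjoint (Wd_disj_Basic j),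
      card_image_of_injective _ List.cons_injective, card_image_of_injective _ List.cons_injective,
      ih, pow_succ]
    omega

theorem sum_Wd_succ (j : ℕ) (f : List Bool → ℝ) :
    ∑ w ∈ Wd (j + 1), f w = ∑ w ∈ Wd j, (f (true :: w) + f (false :: w)) := by
  rw [Wd, sum_union (Wd_disj_Basic j), sum_image List.cons_injective.injOn,
    sum_image List.cons_injective.injOn, sum_add_distrib]

theorem amt_nonneg (k : ℕ) (w : List Bool) : 0 ≤ amt k w := by
  induction w with
  | nil => simp [amt]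
  | cons β w ih =>
    rw [amt]
    split_ifs
    · exact ih
    · exact le_rfl
    · positivity

theorem amt_split (k : ℕ) (w : List Bool) : amt k (true :: w) + amt k (false :: w) = amt k w := by
  rw [amt, amt]
  split_ifs <;> simp_all

theorem amt_le_one (k : ℕ) (w : List Bool) : amt k w ≤ 1 := by
  induction w with
  | nil => simp [amt]
  | cons β w ih =>
    rw [amt]
    split_ifs
    · exact ih
    · exact zero_le_one
    · linarith [amt_nonneg k w]

theorem amt_le_Basic (k : ℕ) (w : List Bool) :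
    amt k w ≤ 2 ^ min k (w.length / 2) / 2 ^ w.length := by
  induction w with
  | nil => simp [amt]
  | cons β w ih =>
    rw [amt, List.length_cons]
    split_ifs with h1 h2
    · have h3 : min k ((w.length + 1) / 2) = min k (w.length / 2) + 1 := by
        obtain ⟨⟨m, hm⟩, h4⟩ := h1
        omega
      rw [h3, pow_succ, pow_succ, mul_div_mul_right _ _ two_ne_zero]
      exact ih
    · positivity
    · rw [pow_succ, ← div_div]
      refine div_le_div_of_nonneg_right (ih.trans ?_) zero_le_two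
      gcongr
      · exact one_le_two
      · omega

theorem amt_le (k : ℕ) (w : List Bool) : amt k w ≤ 2 ^ k / 2 ^ w.length := by
  refine (amt_le_Basic k w).trans ?_
  gcongr
  · exact one_le_two
  · exact min_le_left _ _

theorem sum_amt (k j : ℕ) : ∑ w ∈ Wd j, amt k w = 1 := by
  induction j with
  | zero => simp [Wd, amt]
  | succ j ih => rw [sum_Wd_succ, ← ih]; exact sum_congr rfl fun w _ => amt_split k w

theorem dir_eq_zero {k : ℕ} {w : List Bool} (he : Even w.length) (hl : w.length ≤ 2 * k)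
    (ha : amt k w ≠ 0) : dir w = 0 := by
  induction w using List.twoStepInduction with
  | nil => rfl
  | singleton β => simp at he
  | cons_cons β β' w ih _ =>
    simp only [List.length_cons] at he hl
    have he' : Even w.length := by
      rw [Nat.even_add_one, Nat.even_add_one, not_not] at he
      exact he
    have h1 : Odd (β' :: w).length ∧ (β' :: w).length < 2 * k :=
      ⟨he'.add_one, by simp only [List.length_cons]; omega⟩
    rw [amt, if_pos h1] at ha
    cases β with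
    | false => simp at ha
    | true =>
      rw [if_pos rfl, amt, if_neg fun h => (Nat.not_odd_iff_even.2 he') h.1] at ha
      have h2 := ih he' (by omega) fun h => ha (by rw [h, zero_div])
      rw [dir, dir, h2]
      cases β' <;> rfl


section
variable {V : Type} [DecidableEq V] (Ω X Y : Finset V)

theorem two_mino_le : 2 * mino Ω X ≤ Ω.card := by
  have := card_inter_add_card_sdiff Ω X
  unfold mino
  omega

theorem mino_tri : mino Ω X ≤ mino Ω (Y ∆ X) + mino Ω Y := by
  have h1 : Ω ∩ X ⊆ Ω ∩ (Y ∆ X) ∪ Ω ∩ Y := fun v => by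
    simp only [mem_inter, mem_union, mem_symmDiff]; tauto
  have h2 : Ω \ X ⊆ Ω ∩ (Y ∆ X) ∪ Ω \ Y := fun v => by
    simp only [mem_inter, mem_union, mem_symmDiff, mem_sdiff]; tauto
  have h3 : Ω \ X ⊆ Ω \ (Y ∆ X) ∪ Ω ∩ Y := fun v => by
    simp only [mem_inter, mem_union, mem_symmDiff, mem_sdiff]; tauto
  have h4 : Ω ∩ X ⊆ Ω \ (Y ∆ X) ∪ Ω \ Y := fun v => by
    simp only [mem_inter, mem_union, mem_symmDiff, mem_sdiff]; tauto
  have h5 := (card_le_card h1).trans (card_union_le _ _)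
  have h6 := (card_le_card h2).trans (card_union_le _ _)
  have h7 := (card_le_card h3).trans (card_union_le _ _)
  have h8 := (card_le_card h4).trans (card_union_le _ _)
  unfold mino
  omega

theorem mino_symmDiff (h : Ω ⊆ X ∨ Disjoint Ω X) : mino Ω (Y ∆ X) = mino Ω Y := by
  rcases h with h | h
  · have h1 : Ω ∩ (Y ∆ X) = Ω \ Y := by
      ext v
      have := @h v
      simp only [mem_inter, mem_symmDiff, mem_sdiff]; tauto
    have h2 : Ω \ (Y ∆ X) = Ω ∩ Y := by
      ext v
      have := @h v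
      simp only [mem_inter, mem_symmDiff, mem_sdiff]; tauto
    rw [mino, mino, h1, h2, min_comm]
  · have h1 : Ω ∩ (Y ∆ X) = Ω ∩ Y := by
      ext v
      have := @disjoint_left.1 h v
      simp only [mem_inter, mem_symmDiff]; tauto
    have h2 : Ω \ (Y ∆ X) = Ω \ Y := by
      ext v
      have := @disjoint_left.1 h v
      simp only [mem_symmDiff, mem_sdiff]; tauto
    rw [mino, mino, h1, h2]

theorem mino_eq_zero (h : Ω ⊆ X ∨ Disjoint Ω X) : mino Ω X = 0 := by
  rcases h with h | h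
  · rw [mino, sdiff_eq_empty_iff_subset.2 h, card_empty, Nat.min_zero]
  · rw [mino, disjoint_iff_inter_eq_empty.1 h, card_empty, Nat.zero_min]


end

namespace Str

variable {V : Type} (S : Str V)

@[simp] theorem step_zero (v : V) : S.step v 0 = S.μ v := rfl
@[simp] theorem step_one (v : V) : S.step v 1 = S.π v := rfl
@[simp] theorem step_two (v : V) : S.step v 2 = S.π⁻¹ v := rfl
theorem step_step (v : V) (i : Fin 3) : S.step (S.step v i) (rd i) = v := by
  fin_cases i
  · exact S.μμ v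
  · exact S.π.symm_apply_apply v
  · exact S.π.apply_symm_apply v

theorem rv_fst (d : Dt V) : (S.rv d).1 = S.hd d := rfl
theorem hd_rv (d : Dt V) : S.hd (S.rv d) = d.1 := S.step_step d.1 d.2

theorem rv_rv (d : Dt V) : S.rv (S.rv d) = d := Prod.ext (S.hd_rv d) (rd_rd d.2)

theorem dart_snd (a : V) (w : List Bool) : (S.dart a w).2 = dir w := by
  induction w with
  | nil => rfl
  | cons β w ih => rw [dart, dir, ih]

theorem dart_cons_fst (a : V) (β : Bool) (w : List Bool) : (S.dart a (β :: w)).1 = S.tip a w := rfl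
theorem base_anti (y : V → Bool) : S.Anti (S.base y) := by
  intro d
  have h : (S.rv d).2 = 0 ↔ d.2 = 0 := by
    change rd d.2 = 0 ↔ _
    generalize d.2 = i
    fin_cases i <;> simp [rd]
  simp only [base, h, hd_rv, rv_fst]
  split_ifs
  · simp
  · ring

theorem abs_base_le (y : V → Bool) (d : Dt V) : |S.base y d| ≤ 1 / 2 := by
  unfold base
  split_ifs
  · simp
  · generalize y d.1 = a
    generalize y (S.hd d) = a'
    cases a <;> cases a' <;> simp [sgn] <;> norm_num [abs_le]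

theorem Gir.mono {S : Str V} {c c' : ℕ} (h : S.Gir c) (hc : c' ≤ c) : S.Gir c' := fun v w h1 h2 h3 => h v w h1 h2 (h3.trans_le hc)

theorem HInj.mono {S : Str V} {F F' : Finset V} {ρ ρ' : ℕ} (h : S.HInj F ρ) (hF : F' ⊆ F)
    (hρ : ρ' ≤ ρ) : S.HInj F' ρ' :=
  ⟨fun a ha a' ha' w w' hw hw' => h.1 a (hF ha) a' (hF ha') w w' (hw.trans hρ) (hw'.trans hρ),
    fun a ha w hw hm => h.2 a (hF ha) w (hw.trans hρ) (hF hm)⟩


variable [DecidableEq V]

theorem mem_tube {J : Finset V} {κ : ℕ} {v : V} :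
    v ∈ S.tube J κ ↔ ∃ x ∈ J, ∃ i < κ, (S.π ^ i) x = v := by
  simp only [tube, mem_image, mem_product, mem_range, Prod.exists]
  exact ⟨fun ⟨x, i, ⟨h1, h2⟩, h3⟩ => ⟨x, h1, i, h2, h3⟩, fun ⟨x, h1, i, h2, h3⟩ => ⟨x, i, ⟨h1, h2⟩, h3⟩⟩

theorem mem_Om {r : ℕ} {g v : V} : v ∈ S.Om r g ↔ ∃ i < 10, (S.π ^ i) g = v ∨
    ∃ w : List Bool, w.length ≤ r ∧ S.tip ((S.π ^ i) g) w = v := by
  simp only [Om, mem_union, mem_tube, mem_singleton, mem_image, mem_product, mem_range,
    mem_biUnion, mem_Wd, Prod.exists]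
  constructor
  · rintro (⟨x, rfl, i, hi, h⟩ | ⟨i, w, ⟨hi, j, hj, hw⟩, h⟩)
    · exact ⟨i, hi, Or.inl h⟩
    · exact ⟨i, hi, Or.inr ⟨w, by omega, h⟩⟩
  · rintro ⟨i, hi, h | ⟨w, hw, h⟩⟩
    · exact Or.inl ⟨g, rfl, i, hi, h⟩
    · exact Or.inr ⟨i, w, ⟨hi, w.length, by omega, rfl⟩, h⟩


variable [Fintype V]

theorem mem_bd {X : Finset V} {d : Dt V} : d ∈ S.bd X ↔ ¬ (d.1 ∈ X ↔ S.hd d ∈ X) := by
  simp only [bd, mem_filter, mem_univ, true_and]

theorem mem_out {X : Finset V} {d : Dt V} : d ∈ S.out X ↔ d.1 ∈ X ∧ S.hd d ∉ X := by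
  simp only [out, mem_filter, mem_univ, true_and]

theorem rv_mem_bd {X : Finset V} {d : Dt V} : S.rv d ∈ S.bd X ↔ d ∈ S.bd X := by
  rw [mem_bd, mem_bd, hd_rv, rv_fst]
  exact not_congr Iff.comm

theorem bd_compl (X : Finset V) : S.bd Xᶜ = S.bd X := by
  ext d
  simp only [mem_bd, mem_compl, not_iff_not]

theorem bd_symmDiff (X Y : Finset V) : S.bd (X ∆ Y) = S.bd X ∆ S.bd Y := by
  ext d
  simp only [mem_bd, mem_symmDiff]
  tauto

theorem b_compl (X : Finset V) : S.b Xᶜ = S.b X := by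
  rw [b, b, bd_compl]

theorem b_empty : S.b ∅ = 0 := by
  simp [b, bd]

theorem b_univ : S.b univ = 0 := by
  simp [b, bd]

theorem b_eq (X : Finset V) : S.b X = 2 * (S.out X).card := by
  have hi : Function.Injective S.rv := Function.LeftInverse.injective S.rv_rv
  have h1 : S.bd X = S.out X ∪ (S.out X).image S.rv := by
    ext d
    have h2 : d ∈ (S.out X).image S.rv ↔ S.rv d ∈ S.out X := by
      rw [mem_image]
      exact ⟨fun ⟨e, he, h⟩ => by rwa [← h, rv_rv], fun h => ⟨_, h, S.rv_rv d⟩⟩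
    rw [mem_union, h2, mem_bd, mem_out, mem_out, hd_rv, rv_fst]
    tauto
  have h2 : Disjoint (S.out X) ((S.out X).image S.rv) := by
    rw [disjoint_left]
    intro d hd hd'
    obtain ⟨e, he, rfl⟩ := mem_image.1 hd'
    exact (S.mem_out.1 he).2 (S.mem_out.1 hd).1
  rw [b, h1, card_union_of_disjoint h2, card_image_of_injective _ hi, two_mul]

theorem b_le (X : Finset V) : S.b X ≤ 6 * X.card := by
  have h : S.out X ⊆ X ×ˢ univ := fun d hd => mem_product.2 ⟨(S.mem_out.1 hd).1, mem_univ _⟩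
  have h1 := card_le_card h
  rw [card_product, card_univ, Fintype.card_fin] at h1
  rw [b_eq]
  omega

theorem b_symmDiff_le (X Y : Finset V) : S.b (X ∆ Y) ≤ S.b X + S.b Y := by
  rw [b, bd_symmDiff]
  exact (card_le_card symmDiff_subset_union).trans (card_union_le _ _)

theorem b_le_add (X Y : Finset V) : S.b X ≤ S.b Y + 6 * (X ∆ Y).card := by
  have h1 := S.b_symmDiff_le Y (X ∆ Y)
  have h2 := S.b_le (X ∆ Y)
  rw [symmDiff_comm X Y, symmDiff_symmDiff_cancel_left, symmDiff_comm Y X] at h1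
  omega

theorem sum_dv {f : Dt V → ℝ} (hf : S.Anti f) (X : Finset V) :
    ∑ v ∈ X, dv f v = ∑ d ∈ S.out X, f d := by
  have h1 : ∑ v ∈ X, dv f v = ∑ d ∈ X ×ˢ univ, f d := by
    rw [sum_product]
    rfl
  have h2 : ∑ d ∈ (X ×ˢ univ).filter (fun d => S.hd d ∈ X), f d = 0 := by
    have h3 : ∑ d ∈ (X ×ˢ univ).filter (fun d => S.hd d ∈ X), f d =
        ∑ d ∈ (X ×ˢ univ).filter (fun d => S.hd d ∈ X), -f d := by
      refine sum_nbij' S.rv S.rv (fun d hd => ?_) (fun d hd => ?_) (fun d _ => S.rv_rv d)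
        (fun d _ => S.rv_rv d) fun d _ => by rw [hf, neg_neg]
      all_goals
        simp only [mem_filter, mem_product, mem_univ, and_true, hd_rv, rv_fst] at hd ⊢
        exact hd.symm
    rw [sum_neg_distrib] at h3
    linarith
  rw [h1, ← sum_filter_add_sum_filter_not _ fun d => S.hd d ∈ X, h2, zero_add]
  refine sum_congr ?_ fun _ _ => rfl
  ext d
  simp only [mem_filter, mem_product, mem_univ, and_true, mem_out]

theorem abs_sum_dv_le {f : Dt V → ℝ} (hf : S.Anti f) {κ : ℝ} (h : ∀ d, |f d| ≤ κ) (X : Finset V) :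
    |∑ v ∈ X, dv f v| ≤ κ / 2 * S.b X := by
  rw [S.sum_dv hf, b_eq]
  refine (abs_sum_le_sum_abs _ _).trans ((sum_le_card_nsmul _ _ κ fun d _ => h d).trans_eq ?_)
  rw [nsmul_eq_mul]
  push_cast
  ring

theorem sum_dv_univ {f : Dt V → ℝ} (hf : S.Anti f) : ∑ v, dv f v = 0 := by
  rw [S.sum_dv hf]
  simp [out]

/-- disjoint connected sets that are cut by `X` -/
theorem touch (G : Finset V) (Ω : V → Finset V) (hc : ∀ g ∈ G, S.Conn (Ω g))
    (hdj : ∀ g ∈ G, ∀ g' ∈ G, g ≠ g' → Disjoint (Ω g) (Ω g')) (X : Finset V)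
    (h : ∀ g ∈ G, (∃ u ∈ Ω g, u ∈ X) ∧ ∃ v ∈ Ω g, v ∉ X) : G.card ≤ S.b X := by
  have h1 : ∀ g, ∃ d : Dt V, g ∈ G → d ∈ S.bd X ∧ d.1 ∈ Ω g := fun g => by
    by_cases hg : g ∈ G
    · obtain ⟨d, h2, h3, -⟩ := hc g hg X (h g hg).1 (h g hg).2
      exact ⟨d, fun _ => ⟨h2, h3⟩⟩
    · exact ⟨(g, 0), fun h2 => absurd h2 hg⟩
  choose d hd using h1
  refine card_le_card_of_injOn d (fun g hg => (hd g hg).1) fun g hg g' hg' he => ?_
  by_contra hne
  exact disjoint_left.1 (hdj g hg g' hg' hne) (hd g hg).2 (he ▸ (hd g' hg').2)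

theorem Iso.mono {S : Str V} {c c' : ℕ} (h : S.Iso c) (hc : c' ≤ c) : S.Iso c' := fun X h1 h2 =>
  (Nat.mul_le_mul_left 2 (min_le_min_right _ hc)).trans (h X h1 h2)

theorem Iso.b_pos {S : Str V} {c : ℕ} (h : S.Iso c) (hc : 0 < c) {X : Finset V} (hX : X.Nonempty)
    (hX' : Xᶜ.Nonempty) : 0 < S.b X := by
  have := h X hX hX'
  omega

theorem Col.dv_base {S : Str V} {k : ℕ} {y : V → Bool} {F : Finset V} (h : S.Col k y F) (v : V) :
    sgn (y v) = dv (S.base y) v + if v ∈ F then sgn (y v) / 2 else 0 := by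
  have h0 : dv (S.base y) v =
      (sgn (y v) - sgn (y (S.π v))) / 4 + (sgn (y v) - sgn (y (S.π⁻¹ v))) / 4 := by
    rw [dv, Fin.sum_univ_three]
    simp [base, hd]
  rw [h0]
  split_ifs with hv
  · rw [sgn_of_ne (h.src v hv)]
    ring
  · rw [sgn_of_ne (h.alt v hv).1, sgn_of_ne (h.alt v hv).2]
    ring


end Str

end Pool.Agent.MP_9a3194_co
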