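import Pool.Agent.MP_9a3194_co.Kar

open Finset
open scoped symmDiff

namespace Pool.Agent.MP_9a3194_co

variable {V : Type} [Fintype V] [DecidableEq V] (S : Str V)

/-- the class of a vertex -/
def cls_Bor (lab : V → V) (v : V) : Finset V := univ.filter fun u => lab u = lab v

/-- the weight of a cut -/
noncomputable def wt_Bor (lab : V → V) (U : Finset V) : ℝ :=
  Real.exp (-∑ d ∈ S.bd U, (2 + 8 / √((cls_Bor lab d.1).card : ℝ)))

theorem mem_cls_Bor {lab : V → V} {u v : V} : u ∈ cls_Bor lab v ↔ lab u = lab v := by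
  simp [cls_Bor]

theorem one_le_Bor (lab : V → V) (v : V) : 1 ≤ (cls_Bor lab v).card :=
  card_pos.2 ⟨v, mem_cls_Bor.2 rfl⟩

theorem sat_card_Bor {lab : V → V} {U : Finset V} (h : Sat lab U) {v : V} :
    (v ∈ U → (cls_Bor lab v).card ≤ U.card) ∧ (v ∈ Uᶜ → (cls_Bor lab v).card ≤ Uᶜ.card) :=
  ⟨fun hv => card_le_card fun u hu => (h u v (mem_cls_Bor.1 hu)).2 hv,
    fun hv => card_le_card fun u hu => mem_compl.2 fun hu' =>
      mem_compl.1 hv ((h u v (mem_cls_Bor.1 hu)).1 hu')⟩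

theorem num_Bor {p d k : ℕ} (hp : 1 ≤ p) (hpd : p ≤ d) (hk : k < d) :
    (d : ℝ) ≤ ((d : ℝ) - k) * Real.exp (k * (2 / √(p : ℝ))) := by
  have hp' : (1 : ℝ) ≤ p := by exact_mod_cast hp
  have hpd' : (p : ℝ) ≤ d := by exact_mod_cast hpd
  have hk' : (k : ℝ) + 1 ≤ d := by exact_mod_cast hk
  have hk0 : (0 : ℝ) ≤ k := k.cast_nonneg
  have hr : 1 ≤ √(d : ℝ) := Real.one_le_sqrt.2 (by linarith)
  have hrr : √(d : ℝ) * √(d : ℝ) = d := Real.mul_self_sqrt (by linarith)
  have h1 : k * (2 / √(d : ℝ)) ≤ k * (2 / √(p : ℝ)) := by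
    have : 0 < √(p : ℝ) := Real.sqrt_pos.2 (by linarith)
    gcongr
  refine le_trans ?_ (mul_le_mul_of_nonneg_left (Real.exp_le_exp.2 h1) (by linarith))
  set r := √(d : ℝ)
  by_cases h : 2 * (k : ℝ) ≤ d
  · have h2 : k * (2 / (d : ℝ)) ≤ k * (2 / r) := by
      gcongr
      nlinarith
    have h3 := Real.add_one_le_exp (k * (2 / r))
    have h4 : ((d : ℝ) - k) * (k * (2 / (d : ℝ)) + 1) = d + k * (d - 2 * k) / d := by
      have : (d : ℝ) ≠ 0 := by linarith
      field_simp
      ring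
    have h5 : 0 ≤ (k : ℝ) * (d - 2 * k) / d :=
      div_nonneg (mul_nonneg hk0 (by linarith)) (by linarith)
    nlinarith
  · have h2 : r ≤ k * (2 / r) := by
      rw [← mul_div_assoc, le_div_iff₀ (by linarith)]
      linarith
    have h3 : r ≤ Real.exp (r / 2) := by
      have a := Real.add_one_le_exp (r / 2 - 1)
      have b := Real.add_one_le_exp 1
      have e : Real.exp (r / 2) = Real.exp (r / 2 - 1) * Real.exp 1 := by
        rw [← Real.exp_add, sub_add_cancel]
      nlinarith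
    have h4 : (d : ℝ) ≤ Real.exp (k * (2 / r)) := by
      refine le_trans ?_ (Real.exp_le_exp.2 h2)
      rw [← hrr, ← add_halves r, Real.exp_add, add_halves]
      exact mul_le_mul h3 h3 (by linarith) (by linarith)
    nlinarith

theorem gain_Bor {p q : ℕ} (hp : 1 ≤ p) (h : 2 * p ≤ q) :
    2 / √(p : ℝ) ≤ 8 / √(p : ℝ) - 8 / √(q : ℝ) := by
  have hp' : (1 : ℝ) ≤ p := by exact_mod_cast hp
  have hq : (2 : ℝ) * p ≤ q := by exact_mod_cast h
  have h0 : 0 < √(p : ℝ) := Real.sqrt_pos.2 (by linarith)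
  have h1 : 4 / 3 * √(p : ℝ) ≤ √(q : ℝ) := by
    refine Real.le_sqrt_of_sq_le ?_
    rw [mul_pow, Real.sq_sqrt (by linarith)]
    linarith
  have h2 : 8 / √(q : ℝ) ≤ 8 / (4 / 3 * √(p : ℝ)) := by gcongr
  have h3 : 8 / (4 / 3 * √(p : ℝ)) = 8 / √(p : ℝ) - 2 / √(p : ℝ) := by
    field_simp
    norm_num
  linarith

/-- merging the class of `w` into the class of `v` -/
def mrg_Bor (lab : V → V) (v w : V) : V → V := fun u => if lab u = lab w then lab v else lab u

theorem cls_mrg_Bor (lab : V → V) (v w u : V) : cls_Bor lab u ⊆ cls_Bor (mrg_Bor lab v w) u :=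
  fun x hx => mem_cls_Bor.2 (by simp only [mrg_Bor, mem_cls_Bor.1 hx])

theorem wt_mrg_Bor {lab : V → V} {v w : V} (hw : lab w ≠ lab v)
    (hm : (cls_Bor lab v).card ≤ (cls_Bor lab w).card) (U : Finset V) :
    wt_Bor S lab U * Real.exp (((S.out (cls_Bor lab v)).filter (· ∈ S.bd U)).card *
      (2 / √((cls_Bor lab v).card : ℝ))) ≤ wt_Bor S (mrg_Bor lab v w) U := by
  rw [wt_Bor, wt_Bor, ← Real.exp_add, Real.exp_le_exp, ← nsmul_eq_mul, ← sum_const]
  have h1 : ∑ d ∈ (S.out (cls_Bor lab v)).filter (· ∈ S.bd U),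
      2 / √((cls_Bor lab v).card : ℝ) ≤ ∑ d ∈ S.bd U,
        (8 / √((cls_Bor lab d.1).card : ℝ) - 8 / √((cls_Bor (mrg_Bor lab v w) d.1).card : ℝ)) := by
    refine le_trans (sum_le_sum fun d hd => ?_)
      (sum_le_sum_of_subset_of_nonneg (fun d hd => (mem_filter.1 hd).2) fun d _ _ => ?_)
    · have h2 : lab d.1 = lab v := mem_cls_Bor.1 (S.mem_out.1 (mem_filter.1 hd).1).1
      have h3 : cls_Bor lab d.1 = cls_Bor lab v := by simp only [cls_Bor, h2]
      rw [h3]
      refine gain_Bor (one_le_Bor _ _) ?_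
      have h4 : cls_Bor lab v ∪ cls_Bor lab w ⊆ cls_Bor (mrg_Bor lab v w) d.1 := by
        refine union_subset (h3 ▸ cls_mrg_Bor lab v w d.1) fun x hx => mem_cls_Bor.2 ?_
        simp [mrg_Bor, mem_cls_Bor.1 hx, h2]
      have h5 := card_le_card h4
      rw [card_union_of_disjoint (disjoint_left.2 fun x hx hx' =>
        hw ((mem_cls_Bor.1 hx').symm.trans (mem_cls_Bor.1 hx)))] at h5
      omega
    · have h2 : (0 : ℝ) < (cls_Bor lab d.1).card := by exact_mod_cast one_le_Bor _ _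
      have h3 := card_le_card (cls_mrg_Bor lab v w d.1)
      rw [sub_nonneg]
      gcongr
  rw [sum_sub_distrib] at h1
  rw [sum_add_distrib, sum_add_distrib]
  linarith

open Classical in
theorem ind_Bor {c s N₀ : ℕ} (hI : S.Iso c) (hc : s + 2 ≤ c) (hs : 3 ≤ s)
    (hV : s ≤ Fintype.card V) (hN : 1 ≤ N₀) (n : ℕ) : ∀ lab : V → V, (univ.image lab).card = n →
    (n : ℝ) ≤ N₀ * Real.exp (s / 2) →
    ∑ U ∈ univ.filter (fun U => Sat lab U ∧ S.Big s U), wt_Bor S lab U ≤ 2 ^ N₀ + 1 := by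
  induction n using Nat.strong_induction_on with
  | _ n ih =>
  intro lab hn hb
  obtain ⟨v, -, hv⟩ := exists_min_image univ (fun v => (cls_Bor lab v).card)
    (card_pos.1 (by rw [card_univ]; omega))
  by_cases hp : s ≤ (cls_Bor lab v).card
  · refine le_trans ?_ (karger S s N₀ hs hN lab (hn ▸ hb) fun U hU h1 h2 => ?_)
    · refine le_trans (sum_le_sum fun U _ => ?_) (sum_le_sum_of_subset_of_nonneg
        (fun U hU => mem_filter.2 ⟨mem_univ _, (mem_filter.1 hU).2.1⟩)
        fun _ _ _ => (Real.exp_pos _).le)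
      rw [wt_Bor, Real.exp_le_exp, neg_mul, neg_le_neg_iff, Str.b, mul_comm, ← nsmul_eq_mul,
        ← sum_const]
      exact sum_le_sum fun d _ => le_add_of_nonneg_right (by positivity)
    · have h3 := hI U h1 h2
      obtain ⟨x, hx⟩ := h1
      obtain ⟨y, hy⟩ := h2
      have h4 := (sat_card_Bor hU).1 hx
      have h5 := (sat_card_Bor hU).2 hy
      have h6 := hv x (mem_univ _)
      have h7 := hv y (mem_univ _)
      omega
  set P := cls_Bor lab v with hP
  have hP1 : 1 ≤ P.card := one_le_Bor _ _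
  have hPc : Pᶜ.Nonempty := card_pos.1 (by rw [card_compl]; omega)
  have hd : P.card + 2 ≤ (S.out P).card := by
    have h3 := hI P (card_pos.1 hP1) hPc
    obtain ⟨y, hy⟩ := hPc
    have h4 : Sat lab P := fun a b hab => by rw [hP, mem_cls_Bor, mem_cls_Bor, hab]
    have h5 := (sat_card_Bor h4).2 hy
    have h6 := hv y (mem_univ _)
    rw [S.b_eq] at h3
    omega
  have hne : ∀ e ∈ S.out P, lab (S.hd e) ≠ lab v := fun e he h =>
    (S.mem_out.1 he).2 (mem_cls_Bor.2 h)
  have key : ∀ U ∈ univ.filter (fun U => Sat lab U ∧ S.Big s U),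
      (S.out P).card * wt_Bor S lab U ≤
        ∑ e ∈ S.out P, if e ∈ S.bd U then 0 else wt_Bor S (mrg_Bor lab v (S.hd e)) U := by
    intro U hU
    have hk : ((S.out P).filter (· ∈ S.bd U)).card < (S.out P).card := by
      refine card_lt_card (filter_ssubset.2 ?_)
      by_contra! h
      refine (mem_filter.1 hU).2.2 P (card_pos.1 hP1) (by omega) fun d hd => ?_
      by_cases h1 : d.1 ∈ P
      · exact h d (S.mem_out.2 ⟨h1, fun h2 => S.mem_bd.1 hd (iff_of_true h1 h2)⟩)
      · refine S.rv_mem_bd.1 (h _ (S.mem_out.2 ⟨?_, by rwa [S.hd_rv]⟩))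
        by_contra h2
        exact S.mem_bd.1 hd (iff_of_false h1 h2)
    have h1 := num_Bor hP1 (by omega) hk
    have h2 : ((S.out P).card : ℝ) - ((S.out P).filter (· ∈ S.bd U)).card =
        ((S.out P).filter fun e => ¬ e ∈ S.bd U).card := by
      rw [← card_filter_add_card_filter_not (s := S.out P) (· ∈ S.bd U)]
      push_cast
      ring
    rw [h2] at h1
    refine le_trans (mul_le_mul_of_nonneg_right h1 (Real.exp_pos _).le) ?_
    rw [mul_assoc, ← nsmul_eq_mul, ← sum_const, sum_ite, sum_const_zero, zero_add]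
    refine sum_le_sum fun e he => ?_
    rw [mul_comm]
    exact wt_mrg_Bor S (hne e (mem_filter.1 he).1) (hv _ (mem_univ _)) U
  have h1 := sum_le_sum key
  rw [← mul_sum, sum_comm] at h1
  have hpos : (0 : ℝ) < (S.out P).card := by exact_mod_cast (by omega : 0 < (S.out P).card)
  refine le_of_mul_le_mul_left (h1.trans ?_) hpos
  rw [← nsmul_eq_mul, ← sum_const]
  refine sum_le_sum fun e he => ?_
  have h2 : (univ.image (mrg_Bor lab v (S.hd e))).card < n := by
    rw [← hn]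
    refine card_lt_card ⟨fun x hx => ?_, fun h => ?_⟩
    · obtain ⟨u, -, rfl⟩ := mem_image.1 hx
      unfold mrg_Bor
      split_ifs <;> exact mem_image_of_mem _ (mem_univ _)
    · obtain ⟨u, -, hu⟩ := mem_image.1 (h (mem_image_of_mem lab (mem_univ (S.hd e))))
      unfold mrg_Bor at hu
      split_ifs at hu with h3
      · exact hne e he hu.symm
      · exact h3 hu
  refine le_trans ?_ (ih _ h2 _ rfl (le_trans (by exact_mod_cast h2.le) hb))
  rw [sum_ite, sum_const_zero, zero_add]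
  refine sum_le_sum_of_subset_of_nonneg (fun U hU => ?_) fun _ _ _ => (Real.exp_pos _).le
  obtain ⟨hU, h3⟩ := mem_filter.1 hU
  obtain ⟨h4, h5⟩ := (mem_filter.1 hU).2
  refine mem_filter.2 ⟨mem_univ _, fun a b hab => ?_, h5⟩
  rw [S.mem_bd, not_not] at h3
  have h6 : v ∈ U ↔ S.hd e ∈ U := (h4 _ _ (mem_cls_Bor.1 (S.mem_out.1 he).1)).symm.trans h3
  unfold mrg_Bor at hab
  split_ifs at hab with ha hb hb
  · exact h4 a b (ha.trans hb.symm)
  · exact (h4 a _ ha).trans (h6.symm.trans (h4 _ _ hab))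
  · exact (h4 a _ hab).trans (h6.trans (h4 _ _ hb.symm))
  · exact h4 a b hab

open Classical in
/-- few cuts both sides of which have only large pieces -/
theorem boruvka {c s N₀ : ℕ} (hI : S.Iso c) (hc : s + 2 ≤ c) (hs : 3 ≤ s)
    (hV : s ≤ Fintype.card V) (hN : 1 ≤ N₀) (W : Finset V)
    (hn : (W.card + 1 : ℝ) ≤ N₀ * Real.exp (s / 2)) :
    ∑ U ∈ W.powerset.filter (S.Big s), Real.exp (-10 * S.b U) ≤ 2 ^ N₀ + 1 := by
  obtain ⟨v, hv⟩ : ∃ v : V, v ∈ W → ∀ u, u ∈ W := by
    by_cases h : ∀ u, u ∈ W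
    · obtain ⟨v⟩ : Nonempty V := Fintype.card_pos_iff.1 (by omega)
      exact ⟨v, fun _ => h⟩
    · push Not at h
      obtain ⟨v, hv⟩ := h
      exact ⟨v, fun h => absurd h hv⟩
  have h1 : (univ.image fun u => if u ∈ W then u else v).card ≤ W.card + 1 := by
    refine le_trans (card_le_card fun x hx => ?_) (card_insert_le v W)
    obtain ⟨u, -, rfl⟩ := mem_image.1 hx
    split_ifs with h
    · exact mem_insert_of_mem h
    · exact mem_insert_self _ _
  refine le_trans ?_ (ind_Bor S hI hc hs hV hN _ (fun u => if u ∈ W then u else v) rfl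
    (le_trans (by exact_mod_cast h1) hn))
  refine le_trans (sum_le_sum fun U _ => ?_) (sum_le_sum_of_subset_of_nonneg (fun U hU => ?_)
    fun _ _ _ => (Real.exp_pos _).le)
  · rw [wt_Bor, Real.exp_le_exp, neg_mul, neg_le_neg_iff, Str.b, mul_comm, ← nsmul_eq_mul,
      ← sum_const]
    refine sum_le_sum fun d _ => ?_
    have h2 : 1 ≤ √((cls_Bor (fun u => if u ∈ W then u else v) d.1).card : ℝ) :=
      Real.one_le_sqrt.2 (by exact_mod_cast one_le_Bor _ _)
    have h3 := div_le_self (by norm_num : (0 : ℝ) ≤ 8) h2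
    linarith
  · obtain ⟨h2, h3⟩ := mem_filter.1 hU
    have h4 := mem_powerset.1 h2
    refine mem_filter.2 ⟨mem_univ _, fun a b hab => ?_, h3⟩
    beta_reduce at hab
    split_ifs at hab with ha hb hb
    · rw [hab]
    · exact absurd (hv (hab ▸ ha) b) hb
    · exact absurd (hv (hab ▸ hb) a) ha
    · exact iff_of_false (fun h => ha (h4 h)) fun h => hb (h4 h)

end Pool.Agent.MP_9a3194_co
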