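import Pool.Agent.MP_9a3194_co.Defs

open Finset
open scoped symmDiff

namespace Pool.Agent.MP_9a3194_co

variable {V : Type} [Fintype V] [DecidableEq V] (G : SimpleGraph V) [DecidableRel G.Adj]

private theorem forest_edges_GPet {W : Type} [Fintype W] [Nonempty W] (H : SimpleGraph W)
    [Fintype H.edgeSet] (ha : H.IsAcyclic) : H.edgeFinset.card + 1 ≤ Fintype.card W := by
  classical
  obtain ⟨F, hHF, -, hF⟩ :=
    (SimpleGraph.connected_top (V := W)).exists_isTree_le_of_le_of_isAcyclic le_top ha
  rw [← hF.card_edgeFinset]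
  exact Nat.add_le_add_right (card_le_card (SimpleGraph.edgeFinset_mono hHF)) 1

private theorem card_inter_GPet (X Y : Finset V) :
    (G.interedges X Y).card = ∑ v ∈ X, (Y.filter fun w => G.Adj v w).card := by
  have : G.interedges X Y = (X ×ˢ Y).filter fun e => G.Adj e.1 e.2 := by
    ext e
    simp [SimpleGraph.mem_interedges_iff, and_assoc]
  rw [this, card_filter, sum_product]
  refine sum_congr rfl fun v _ => ?_
  rw [card_filter]

private theorem split_deg_GPet (X : Finset V) (v : V) :
    (X.filter fun w => G.Adj v w).card + (Xᶜ.filter fun w => G.Adj v w).card = G.degree v := by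
  rw [← card_union_of_disjoint (disjoint_filter_filter disjoint_compl_right), ← filter_union,
    union_compl, ← SimpleGraph.card_neighborFinset_eq_degree]
  congr 1
  ext w
  simp

/-- an acyclic part of a cubic graph has a large cut -/
theorem forest_cut (h : G.IsRegularOfDegree 3) (X : Finset V) (hX : X.Nonempty)
    (ha : (G.induce (X : Set V)).IsAcyclic) : X.card + 2 ≤ (G.interedges X Xᶜ).card := by
  classical
  haveI : Nonempty (X : Set V) := ⟨⟨hX.choose, hX.choose_spec⟩⟩
  have h1 := forest_edges_GPet (G.induce (X : Set V)) ha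
  have h2 := (G.induce (X : Set V)).sum_degrees_eq_twice_card_edges
  have hc : Fintype.card (X : Set V) = X.card := by simp
  have h3 : ∑ v : (X : Set V), (G.induce (X : Set V)).degree v
      = ∑ v ∈ X, (X.filter fun w => G.Adj v w).card := by
    rw [← sum_coe_sort X]
    refine Fintype.sum_equiv (Equiv.refl _) _ _ fun v => ?_
    rw [← SimpleGraph.card_neighborFinset_eq_degree]
    refine card_bij (fun w _ => (w : V)) ?_ ?_ ?_
    · intro w hw
      rw [SimpleGraph.mem_neighborFinset] at hw
      exact mem_filter.2 ⟨w.2, hw⟩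
    · intro a _ b _ hab
      exact Subtype.ext hab
    · intro w hw
      obtain ⟨hw1, hw2⟩ := mem_filter.1 hw
      exact ⟨⟨w, hw1⟩, (SimpleGraph.mem_neighborFinset _ _ _).2 hw2, rfl⟩
  have h4 : ∑ v ∈ X, (X.filter fun w => G.Adj v w).card
      + ∑ v ∈ X, (Xᶜ.filter fun w => G.Adj v w).card = 3 * X.card := by
    rw [← sum_add_distrib, sum_congr rfl fun v _ => (split_deg_GPet G X v).trans (h v)]
    simp [mul_comm]
  rw [card_inter_GPet]
  omega

private theorem even_card_GPet (h : G.IsRegularOfDegree 3) : Even (Fintype.card V) := by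
  have h2 := G.sum_degrees_eq_twice_card_edges
  rw [sum_congr rfl fun v _ => h v] at h2
  simp only [sum_const, card_univ, smul_eq_mul] at h2
  rw [Nat.even_iff]
  omega

private theorem no_violator_GPet (h : G.IsRegularOfDegree 3)
    (h3 : ∀ X : Finset V, X.Nonempty → Xᶜ.Nonempty → 3 ≤ (G.interedges X Xᶜ).card)
    (u : Set V) : ¬ G.IsTutteViolator u := by
  classical
  unfold SimpleGraph.IsTutteViolator
  rw [not_lt]
  set H := ((⊤ : G.Subgraph).deleteVerts u).coe with hH
  let XC : H.ConnectedComponent → Finset V := fun c =>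
    (Subtype.val '' c.supp).toFinset
  have hmem : ∀ c x, x ∈ XC c ↔ ∃ hx : x ∈ ((⊤ : G.Subgraph).deleteVerts u).verts,
      H.connectedComponentMk ⟨x, hx⟩ = c := by
    intro c x
    simp only [XC, Set.mem_toFinset, Set.mem_image, SimpleGraph.ConnectedComponent.mem_supp_iff]
    constructor
    · rintro ⟨y, hy, rfl⟩
      exact ⟨y.2, hy⟩
    · rintro ⟨hx, hc⟩
      exact ⟨⟨x, hx⟩, hc, rfl⟩
  have hcard : ∀ c, (XC c).card = c.supp.ncard := by
    intro c
    rw [← Set.ncard_image_of_injective c.supp Subtype.val_injective, Set.ncard_eq_toFinset_card']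
  let O : Finset H.ConnectedComponent := H.oddComponents.toFinset
  let U : Finset V := u.toFinset
  have hsub : ∀ c, G.interedges (XC c) (XC c)ᶜ ⊆ G.interedges univ U := by
    intro c e he
    rw [SimpleGraph.mem_interedges_iff] at he ⊢
    obtain ⟨h1, h2, hadj⟩ := he
    refine ⟨mem_univ _, ?_, hadj⟩
    by_contra hu
    have hu' : e.2 ∉ u := by simpa [U] using hu
    obtain ⟨hx, hc⟩ := (hmem c _).1 h1
    have hy : e.2 ∈ ((⊤ : G.Subgraph).deleteVerts u).verts := by
      simp [hu']
    apply mem_compl.1 h2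
    refine (hmem c _).2 ⟨hy, ?_⟩
    rw [← hc]
    refine (SimpleGraph.ConnectedComponent.connectedComponentMk_eq_of_adj ?_).symm
    have hx' : e.1 ∉ u := by simpa using hx
    simp [hH, SimpleGraph.Subgraph.deleteVerts_adj, hx', hu', hadj]
  have h3' : ∀ c ∈ O, 3 ≤ (G.interedges (XC c) (XC c)ᶜ).card := by
    intro c hc
    have hodd : Odd (XC c).card := by
      rw [hcard]
      simpa [O] using hc
    refine h3 _ (card_pos.1 hodd.pos) ?_
    rw [nonempty_iff_ne_empty]
    intro he
    rw [compl_eq_empty_iff] at he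
    rw [he, card_univ] at hodd
    exact (Nat.not_odd_iff_even.2 (even_card_GPet G h)) hodd
  have hdisj : ∀ c ∈ O, ∀ d ∈ O, c ≠ d →
      Disjoint (G.interedges (XC c) (XC c)ᶜ) (G.interedges (XC d) (XC d)ᶜ) := by
    intro c _ d _ hcd
    rw [disjoint_left]
    intro e h1 h2
    rw [SimpleGraph.mem_interedges_iff] at h1 h2
    obtain ⟨_, hc⟩ := (hmem c _).1 h1.1
    obtain ⟨_, hd⟩ := (hmem d _).1 h2.1
    exact hcd (hc.symm.trans hd)
  have hU : (G.interedges univ U).card = 3 * U.card := by
    have : (G.interedges univ U).card = (G.interedges U univ).card :=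
      haveI : Std.Symm G.Adj := ⟨fun _ _ hh => hh.symm⟩
      Rel.card_interedges_comm (r := G.Adj) _ _
    rw [this, card_inter_GPet]
    have : ∀ v ∈ U, ((univ : Finset V).filter fun w => G.Adj v w).card = 3 := by
      intro v _
      rw [← h v, ← SimpleGraph.card_neighborFinset_eq_degree]
      congr 1
      ext w
      simp
    rw [sum_congr rfl this]
    simp [mul_comm]
  have hle : 3 * O.card ≤ 3 * U.card := by
    calc 3 * O.card = ∑ _c ∈ O, 3 := by simp [mul_comm]
      _ ≤ ∑ c ∈ O, (G.interedges (XC c) (XC c)ᶜ).card := sum_le_sum h3'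
      _ = (O.biUnion fun c => G.interedges (XC c) (XC c)ᶜ).card := (card_biUnion hdisj).symm
      _ ≤ (G.interedges univ U).card := card_le_card (biUnion_subset.2 fun c _ => hsub c)
      _ = 3 * U.card := hU
  rw [Set.ncard_eq_toFinset_card', Set.ncard_eq_toFinset_card']
  exact Nat.le_of_mul_le_mul_left hle (by norm_num)

/-- Petersen's theorem -/
theorem petersen (h : G.IsRegularOfDegree 3)
    (h3 : ∀ X : Finset V, X.Nonempty → Xᶜ.Nonempty → 3 ≤ (G.interedges X Xᶜ).card) :
    ∃ μ : V → V, (∀ v, μ (μ v) = v) ∧ ∀ v, G.Adj v (μ v) := by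
  obtain ⟨M, hM⟩ := (SimpleGraph.tutte (G := G)).2 (no_violator_GPet G h h3)
  rw [SimpleGraph.Subgraph.isPerfectMatching_iff] at hM
  choose μ hμ hu using hM
  exact ⟨μ, fun v => (hu (μ v) v (hμ v).symm).symm, fun v => (hμ v).adj_sub⟩

end Pool.Agent.MP_9a3194_co
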