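import Pool.Agent.MP_9a3194_co.Basic

open Finset
open scoped symmDiff

namespace Pool.Agent.MP_9a3194_co

private theorem orient_GStr {V : Type} [Fintype V] [DecidableEq V] (N : V → Finset V)
    (hc : ∀ v, (N v).card = 2) (hs : ∀ v w, w ∈ N v → v ∈ N w) (hl : ∀ v, v ∉ N v) :
    ∃ p : V → V, Function.Injective p ∧ (∀ v, p v ∈ N v) ∧ ∀ v, p (p v) ≠ v := by
  obtain ⟨e, he, hm⟩ := (Finset.all_card_le_biUnion_card_iff_exists_injective
    fun v => (N v).image fun w => s(v, w)).1 fun A => by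
      refine Nat.le_of_mul_le_mul_right (c := 2) (card_mul_le_card_mul
        (fun v x => x ∈ (N v).image fun w => s(v, w)) (fun v hv => ?_) fun x _ => ?_) two_pos
      · have h1 : ((N v).image fun w => s(v, w)).card = 2 := by
          rw [card_image_of_injective _ fun w w' h => Sym2.congr_right.1 h, hc]
        rw [← h1]
        exact card_le_card fun x hx =>
          mem_bipartiteAbove _ |>.2 ⟨mem_biUnion.2 ⟨v, hv, hx⟩, hx⟩
      · induction x using Sym2.ind with
        | h a b =>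
          refine le_trans (card_le_card (t := {a, b}) fun v hv => ?_) card_le_two
          obtain ⟨w, -, hw⟩ := mem_image.1 ((mem_bipartiteBelow _).1 hv).2
          have h1 : v ∈ s(a, b) := hw ▸ Sym2.mem_mk_left v w
          simpa using h1
  choose p hp hpe using fun v => mem_image.1 (hm v)
  have h1 : ∀ v, p (p v) ≠ v := fun v h => by
    have h2 : e (p v) = e v := by rw [← hpe, ← hpe, h, Sym2.eq_swap]
    exact hl v (by simpa only [he h2] using hp v)
  refine ⟨p, fun u u' h => ?_, hp, h1⟩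
  by_contra hne
  have h2 : ({u, u'} : Finset V) = N (p u) := by
    refine eq_of_subset_of_card_le (fun x hx => ?_) (by rw [hc, card_pair hne])
    rcases mem_insert.1 hx with rfl | hx
    · exact hs _ _ (hp x)
    · rw [mem_singleton.1 hx, h]
      exact hs _ _ (hp u')
  have h3 := hp (p u)
  rw [← h2] at h3
  rcases mem_insert.1 h3 with h4 | h4
  · exact h1 u h4
  · rw [h] at h4
    exact h1 u' (mem_singleton.1 h4)

private theorem nbr_GStr {V : Type} [Fintype V] [DecidableEq V] (G : SimpleGraph V)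
    [DecidableRel G.Adj] (S : Str V) (ha : ∀ u v, G.Adj u v ↔ ∃ i, S.step u i = v) (u : V) :
    G.neighborFinset u = univ.image (S.step u) := by
  ext v
  simp [ha]

variable {V : Type} [Fintype V] [DecidableEq V] (G : SimpleGraph V) [DecidableRel G.Adj]

/-- orienting the 2-factor -/
theorem exists_str (h : G.IsRegularOfDegree 3) (μ : V → V) (hμ : ∀ v, μ (μ v) = v)
    (ha : ∀ v, G.Adj v (μ v)) :
    ∃ S : Str V, (∀ u, Function.Injective (S.step u)) ∧
      ∀ u v, G.Adj u v ↔ ∃ i, S.step u i = v := by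
  obtain ⟨p, hp, hN, hpp⟩ := orient_GStr (fun v => (G.neighborFinset v).erase (μ v))
    (fun v => by
      rw [card_erase_of_mem ((G.mem_neighborFinset _ _).2 (ha v)), G.card_neighborFinset_eq_degree,
        h.degree_eq v])
    (fun v w hw => by
      rw [mem_erase, SimpleGraph.mem_neighborFinset] at hw ⊢
      exact ⟨fun e => hw.1 (by rw [e, hμ]), hw.2.symm⟩)
    (fun v hv => G.irrefl ((G.mem_neighborFinset _ _).1 (mem_of_mem_erase hv)))
  obtain ⟨π, hπ⟩ : ∃ π : Equiv.Perm V, ∀ v, π v = p v :=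
    ⟨Equiv.ofBijective p (Finite.injective_iff_bijective.1 hp), fun _ => rfl⟩
  simp only [← hπ, mem_erase, SimpleGraph.mem_neighborFinset] at hN hpp
  have h1 : ∀ u, π (π⁻¹ u) = u := fun u => π.apply_symm_apply u
  have h2 : ∀ u, π⁻¹ u ≠ μ u := fun u e => (hN (π⁻¹ u)).1 (by rw [h1, e, hμ])
  have h3 : ∀ u, π⁻¹ u ≠ π u := fun u e => hpp u (by rw [← e, h1])
  have h4 : ∀ u, G.Adj u (π⁻¹ u) := fun u => by
    have h5 := (hN (π⁻¹ u)).2
    rw [h1] at h5
    exact h5.symm
  have hi : ∀ u, Function.Injective ((⟨π, μ, hμ⟩ : Str V).step u) := by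
    intro u i j hij
    fin_cases i <;> fin_cases j
    · rfl
    · exact absurd hij.symm (hN u).1
    · exact absurd hij.symm (h2 u)
    · exact absurd hij (hN u).1
    · rfl
    · exact absurd hij.symm (h3 u)
    · exact absurd hij (h2 u)
    · exact absurd hij (h3 u)
    · rfl
  refine ⟨⟨π, μ, hμ⟩, hi, fun u v => ?_⟩
  have h5 : univ.image ((⟨π, μ, hμ⟩ : Str V).step u) = G.neighborFinset u := by
    refine eq_of_subset_of_card_le (fun x hx => ?_) ?_
    · obtain ⟨i, -, rfl⟩ := mem_image.1 hx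
      rw [SimpleGraph.mem_neighborFinset]
      fin_cases i
      · exact ha u
      · exact (hN u).2
      · exact h4 u
    · rw [card_image_of_injective _ (hi u), G.card_neighborFinset_eq_degree, h.degree_eq u]
      simp
  rw [← SimpleGraph.mem_neighborFinset, ← h5]
  simp

theorem b_eq_inter (S : Str V) (hi : ∀ u, Function.Injective (S.step u))
    (ha : ∀ u v, G.Adj u v ↔ ∃ i, S.step u i = v) (X : Finset V) :
    S.b X = 2 * (G.interedges X Xᶜ).card := by
  rw [S.b_eq]
  congr 1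
  refine card_bij (fun d _ => (d.1, S.hd d)) (fun d hd => ?_) (fun d _ d' _ h => ?_) fun x hx => ?_
  · obtain ⟨h1, h2⟩ := S.mem_out.1 hd
    exact G.mem_interedges_iff.2 ⟨h1, mem_compl.2 h2, (ha _ _).2 ⟨d.2, rfl⟩⟩
  · obtain ⟨u, i⟩ := d
    obtain ⟨u', j⟩ := d'
    obtain ⟨h1, h2⟩ := Prod.ext_iff.1 h
    obtain rfl : u = u' := h1
    exact Prod.ext rfl (hi u h2)
  · obtain ⟨h1, h2, h3⟩ := G.mem_interedges_iff.1 hx
    obtain ⟨i, h4⟩ := (ha _ _).1 h3
    have h5 : S.hd (x.1, i) = x.2 := h4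
    exact ⟨(x.1, i), S.mem_out.2 ⟨h1, by rw [h5]; exact mem_compl.1 h2⟩, Prod.ext rfl h5⟩

omit [DecidableEq V] in
theorem flow_transfer (S : Str V) (hi : ∀ u, Function.Injective (S.step u))
    (ha : ∀ u v, G.Adj u v ↔ ∃ i, S.step u i = v) (P : ℤ → Prop) (f : Dt V → ℤ)
    (h1 : ∀ d, f (S.rv d) = -f d) (h2 : ∀ d, P (f d)) (h3 : ∀ v, ∑ i, f (v, i) = 0) :
    ∃ g : V → V → ℤ, (∀ u v, g v u = -g u v) ∧ (∀ u v, G.Adj u v → P (g u v)) ∧
      ∀ u, ∑ v ∈ G.neighborFinset u, g u v = 0 := by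
  classical
  obtain ⟨g, hg, hg0⟩ : ∃ g : V → V → ℤ, (∀ u i, g u (S.step u i) = f (u, i)) ∧
      ∀ u v, ¬ G.Adj u v → g u v = 0 := by
    refine ⟨fun u v => ∑ i, if S.step u i = v then f (u, i) else 0, fun u i => ?_,
      fun u v h => sum_eq_zero fun i _ => if_neg fun e => h ((ha u v).2 ⟨i, e⟩)⟩
    simp only [(hi u).eq_iff, sum_ite_eq', mem_univ, if_true]
  refine ⟨g, fun u v => ?_, fun u v h => ?_, fun u => ?_⟩
  · by_cases h : G.Adj u v
    · obtain ⟨i, rfl⟩ := (ha u v).1 h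
      have h4 := hg (S.step u i) (rd i)
      rw [S.step_step] at h4
      rw [h4, hg]
      exact h1 (u, i)
    · rw [hg0 u v h, hg0 v u fun e => h e.symm, neg_zero]
  · obtain ⟨i, rfl⟩ := (ha u v).1 h
    rw [hg]
    exact h2 _
  · rw [nbr_GStr G S ha u, sum_image fun i _ j _ e => hi u e]
    simp only [hg]
    exact h3 u

end Pool.Agent.MP_9a3194_co
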