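import Pool.Agent.MP_9a3194_co.Basic

open Finset
open scoped symmDiff

namespace Pool.Agent.MP_9a3194_co

variable {V : Type} [Fintype V] [DecidableEq V] (S : Str V)

omit [Fintype V] [DecidableEq V] in
private theorem rv_ne_Hof (hμ : ∀ v, S.μ v ≠ v) (d : Dt V) : S.rv d ≠ d := by
  obtain ⟨v, i⟩ := d
  intro h
  have h1 : S.step v i = v := congrArg Prod.fst h
  have h2 : rd i = i := congrArg Prod.snd h
  fin_cases i
  · exact hμ v h1
  · exact absurd h2 (by decide)
  · exact absurd h2 (by decide)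

private theorem sum_id_Hof (c : ℤ) (φ : Dt V → ℤ) (hφ : ∀ d, φ (S.rv d) = c - φ d)
    (X : Finset V) :
    2 * ∑ v ∈ X, ∑ i, φ (v, i) = 3 * c * X.card + ∑ d ∈ S.out X, (2 * φ d - c) := by
  have hA : S.Anti (fun d => 2 * (φ d : ℝ) - c) := by
    intro d
    simp only [hφ d]
    push_cast
    ring
  have h1 := S.sum_dv hA X
  have h2 : ∀ v, dv (fun d => 2 * (φ d : ℝ) - c) v = 2 * ∑ i, (φ (v, i) : ℝ) - 3 * c := by
    intro v
    simp only [dv, Fin.sum_univ_three]
    ring
  simp only [h2, Finset.sum_sub_distrib, Finset.sum_const, nsmul_eq_mul, ← Finset.mul_sum] at h1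
  have h3 : ((2 * ∑ v ∈ X, ∑ i, φ (v, i) : ℤ) : ℝ) =
      ((3 * c * X.card + ∑ d ∈ S.out X, (2 * φ d - c) : ℤ) : ℝ) := by
    push_cast
    simp only [Finset.sum_sub_distrib, Finset.sum_const, nsmul_eq_mul, ← Finset.mul_sum]
    linarith
  exact_mod_cast h3

private theorem grow_Hof (lo hi : ℤ) (φ : Dt V → ℤ) (hφ : ∀ d, φ (S.rv d) = lo + hi - φ d)
    (hb : ∀ d, lo ≤ φ d ∧ φ d ≤ hi) (v0 : V) :
    ∃ X : Finset V, v0 ∈ X ∧ (∀ d ∈ S.out X, φ d = hi) ∧ ∀ w ∈ X, ∃ ψ : Dt V → ℤ,
      (∀ d, ψ (S.rv d) = lo + hi - ψ d) ∧ (∀ d, lo ≤ ψ d ∧ ψ d ≤ hi) ∧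
      ∀ v, ∑ i, ψ (v, i) =
        ∑ i, φ (v, i) + (if v = v0 then 1 else 0) - (if v = w then 1 else 0) := by
  classical
  let P : Finset V → Prop := fun X => v0 ∈ X ∧ ∀ w ∈ X, ∃ ψ : Dt V → ℤ,
      (∀ d, ψ (S.rv d) = lo + hi - ψ d) ∧ (∀ d, lo ≤ ψ d ∧ ψ d ≤ hi) ∧
      (∀ d : Dt V, ¬ (d.1 ∈ X ∧ S.hd d ∈ X) → ψ d = φ d) ∧
      ∀ v, ∑ i, ψ (v, i) =
        ∑ i, φ (v, i) + (if v = v0 then 1 else 0) - (if v = w then 1 else 0)
  have hP0 : P {v0} := by
    refine ⟨Finset.mem_singleton_self _, fun w hw => ⟨φ, hφ, hb, fun _ _ => rfl, fun v => ?_⟩⟩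
    rw [Finset.mem_singleton.1 hw]
    ring
  obtain ⟨X, hX, hmax⟩ := Finset.exists_max_image (univ.filter P) Finset.card
    ⟨{v0}, Finset.mem_filter.2 ⟨Finset.mem_univ _, hP0⟩⟩
  obtain ⟨hv0, hX⟩ := (Finset.mem_filter.1 hX).2
  refine ⟨X, hv0, ?_, fun w hw => ?_⟩
  swap
  · obtain ⟨ψ, h1, h2, -, h4⟩ := hX w hw
    exact ⟨ψ, h1, h2, h4⟩
  intro e he
  by_contra hne
  have hlt : φ e < hi := lt_of_le_of_ne (hb e).2 hne
  obtain ⟨he1, he2⟩ := S.mem_out.1 he
  have hre : S.rv e ≠ e := by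
    intro h
    apply he2
    rw [← S.rv_fst, h]
    exact he1
  have hP1 : P (insert (S.hd e) X) := by
    refine ⟨Finset.mem_insert_of_mem hv0, fun w hw => ?_⟩
    rcases Finset.mem_insert.1 hw with rfl | hw
    · obtain ⟨ψ, h1, h2, h3, h4⟩ := hX e.1 he1
      have hψe : ψ e = φ e := h3 e (fun h => he2 h.2)
      refine ⟨fun d => ψ d + (if d = e then 1 else 0) - (if d = S.rv e then 1 else 0),
        fun d => ?_, fun d => ?_, fun d hd => ?_, fun v => ?_⟩
      · have a1 : (S.rv d = e) ↔ d = S.rv e :=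
          ⟨fun h => by rw [← h, S.rv_rv], fun h => by rw [h, S.rv_rv]⟩
        have a2 : (S.rv d = S.rv e) ↔ d = e :=
          ⟨fun h => by rw [← S.rv_rv d, h, S.rv_rv], fun h => by rw [h]⟩
        simp only [a1, a2, h1 d]
        ring
      · by_cases a1 : d = e
        · subst a1
          simp only [if_true, if_neg hre.symm]
          have := h2 d
          omega
        · by_cases a2 : d = S.rv e
          · subst a2
            simp only [if_true, if_neg a1, h1 e]
            have := h2 e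
            omega
          · simp only [if_neg a1, if_neg a2]
            have := h2 d
            omega
      · have a1 : d ≠ e := by
          rintro rfl
          exact hd ⟨Finset.mem_insert_of_mem he1, Finset.mem_insert_self _ _⟩
        have a2 : d ≠ S.rv e := by
          rintro rfl
          refine hd ⟨Finset.mem_insert_self _ _, ?_⟩
          rw [S.hd_rv]
          exact Finset.mem_insert_of_mem he1
        simp only [if_neg a1, if_neg a2]
        rw [h3 d (fun h => hd ⟨Finset.mem_insert_of_mem h.1, Finset.mem_insert_of_mem h.2⟩)]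
        ring
      · have key : ∀ e' : Dt V, ∑ i : Fin 3, (if (v, i) = e' then (1 : ℤ) else 0) =
            if v = e'.1 then 1 else 0 := by
          rintro ⟨u, j⟩
          by_cases hu : v = u
          · subst hu
            simp
          · simp [hu]
        have k2 : ∑ i : Fin 3, (if (v, i) = S.rv e then (1 : ℤ) else 0) =
            if v = S.hd e then 1 else 0 := key (S.rv e)
        simp only [Finset.sum_sub_distrib, Finset.sum_add_distrib, key e, k2, h4 v]
        ring
    · obtain ⟨ψ, h1, h2, h3, h4⟩ := hX w hw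
      exact ⟨ψ, h1, h2, fun d hd => h3 d
        (fun h => hd ⟨Finset.mem_insert_of_mem h.1, Finset.mem_insert_of_mem h.2⟩), h4⟩
  have := hmax _ (Finset.mem_filter.2 ⟨Finset.mem_univ _, hP1⟩)
  rw [Finset.card_insert_of_notMem he2] at this
  omega

omit [Fintype V] [DecidableEq V] in
private theorem sum_sgn_Hof (y : V → Bool) (a : ℤ) (X : Finset V) :
    ((2 * ∑ v ∈ X, (if y v then 2 * a else a) : ℤ) : ℝ) =
      3 * a * X.card + a * ∑ v ∈ X, sgn (y v) := by
  have h1 : ∀ v, 2 * (((if y v then 2 * a else a : ℤ)) : ℝ) = 3 * a + a * sgn (y v) := by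
    intro v
    cases y v
    · simp [sgn]
      ring
    · simp [sgn]
      ring
  rw [Int.cast_mul, Int.cast_sum, Int.cast_ofNat, Finset.mul_sum, Finset.mul_sum]
  simp only [h1, Finset.sum_add_distrib, Finset.sum_const, nsmul_eq_mul]
  ring

/-- integral Hoffman theorem on darts -/
theorem hof (hμ : ∀ v, S.μ v ≠ v) (lo hi : ℤ) (h : lo ≤ hi) (β : V → ℤ)
    (htot : 2 * ∑ v, β v = 3 * (lo + hi) * Fintype.card V)
    (hcut : ∀ X : Finset V,
      2 * ∑ v ∈ X, β v ≤ 3 * (lo + hi) * X.card + (hi - lo) * (S.out X).card) :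
    ∃ φ : Dt V → ℤ, (∀ d, φ (S.rv d) = lo + hi - φ d) ∧ (∀ d, lo ≤ φ d ∧ φ d ≤ hi) ∧
      ∀ v, ∑ i, φ (v, i) = β v := by
  classical
  have step : ∀ n : ℕ, ∀ φ : Dt V → ℤ, (∀ d, φ (S.rv d) = lo + hi - φ d) →
      (∀ d, lo ≤ φ d ∧ φ d ≤ hi) → ∑ v, (∑ i, φ (v, i) - β v).natAbs = n →
      ∃ φ : Dt V → ℤ, (∀ d, φ (S.rv d) = lo + hi - φ d) ∧ (∀ d, lo ≤ φ d ∧ φ d ≤ hi) ∧
        ∀ v, ∑ i, φ (v, i) = β v := by
    intro n
    induction n using Nat.strong_induction_on with
    | _ n ih =>
      intro φ hφ hb hn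
      by_cases hex : ∃ v0, ∑ i, φ (v0, i) < β v0
      · obtain ⟨v0, hv0⟩ := hex
        obtain ⟨X, hX0, hout, hX⟩ := grow_Hof S lo hi φ hφ hb v0
        by_cases hw : ∃ w ∈ X, β w < ∑ i, φ (w, i)
        · obtain ⟨w, hwX, hw⟩ := hw
          obtain ⟨ψ, h1, h2, h4⟩ := hX w hwX
          have hne : v0 ≠ w := by
            rintro rfl
            omega
          refine ih _ ?_ ψ h1 h2 rfl
          rw [← hn]
          refine Finset.sum_lt_sum (fun v _ => ?_) ⟨v0, Finset.mem_univ _, ?_⟩
          · rw [h4 v]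
            by_cases a1 : v = v0
            · subst a1
              simp only [if_true, if_neg hne]
              omega
            · by_cases a2 : v = w
              · subst a2
                simp only [if_true, if_neg a1]
                omega
              · simp only [if_neg a1, if_neg a2]
                omega
          · rw [h4 v0]
            simp only [if_true, if_neg hne]
            omega
        · exfalso
          push Not at hw
          have h1 : ∑ v ∈ X, ∑ i, φ (v, i) < ∑ v ∈ X, β v :=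
            Finset.sum_lt_sum hw ⟨v0, hX0, hv0⟩
          have h2 := sum_id_Hof S (lo + hi) φ hφ X
          have h3 : ∑ d ∈ S.out X, (2 * φ d - (lo + hi)) = (hi - lo) * (S.out X).card := by
            rw [Finset.sum_congr rfl (g := fun _ => hi - lo) (fun d hd => by rw [hout d hd]; ring)]
            simp only [Finset.sum_const, nsmul_eq_mul]
            ring
          have h4 := hcut X
          rw [h3] at h2
          linarith
      · push Not at hex
        refine ⟨φ, hφ, hb, ?_⟩
        have h2 := sum_id_Hof S (lo + hi) φ hφ univ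
        have h3 : S.out univ = ∅ := by
          ext d
          simp [S.mem_out]
        rw [h3, Finset.sum_empty, Finset.card_univ] at h2
        have h4 : ∑ v, β v = ∑ v, ∑ i, φ (v, i) := by linarith
        intro v
        exact ((Finset.sum_eq_sum_iff_of_le (fun v _ => hex v)).1 h4 v (Finset.mem_univ _)).symm
  let e := Fintype.equivFin (Dt V)
  refine step _ (fun d => if e d < e (S.rv d) then lo else hi) (fun d => ?_) (fun d => ?_) rfl
  · have hne : e (S.rv d) ≠ e d := fun hh => rv_ne_Hof S hμ d (e.injective hh)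
    simp only [S.rv_rv]
    rcases lt_or_gt_of_ne hne with h1 | h1
    · rw [if_pos h1, if_neg (not_lt.2 h1.le)]
      ring
    · rw [if_neg (not_lt.2 h1.le), if_pos h1]
      ring
  · split_ifs
    · exact ⟨le_rfl, h⟩
    · exact ⟨h, le_rfl⟩

/-- a balanced colouring gives a `(p, q)`-flow -/
theorem flow_of_bal (hμ : ∀ v, S.μ v ≠ v) (p q : ℕ) (hp : 0 < p) (hq : 2 * q ≤ p) (y : V → Bool)
    (h0 : ∑ v, sgn (y v) = 0)
    (hc : ∀ X : Finset V, (p : ℝ) * ∑ v ∈ X, sgn (y v) ≤ ((p : ℝ) - 2 * q) / 2 * S.b X) :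
    ∃ f : Dt V → ℤ, (∀ d, f (S.rv d) = -f d) ∧ (∀ d, (q : ℤ) ≤ |f d| ∧ |f d| ≤ p - q) ∧
      ∀ v, ∑ i, f (v, i) = 0 := by
  have hpq : (2 * q : ℤ) ≤ p := by exact_mod_cast hq
  have hpR : (0 : ℝ) < p := by exact_mod_cast hp
  have hc' : ∀ X : Finset V,
      (p : ℝ) * ∑ v ∈ X, sgn (y v) ≤ ((p : ℝ) - 2 * q) * (S.out X).card := by
    intro X
    have := hc X
    rw [S.b_eq] at this
    push_cast at this
    linarith
  obtain ⟨φ, a1, a2, a3⟩ := hof S hμ q (p - q) (by omega) (fun v => if y v then 2 * p else p)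
    (by
      have := sum_sgn_Hof y (p : ℤ) univ
      rw [h0, Finset.card_univ] at this
      have h2 : ((2 * ∑ v, (if y v then 2 * (p : ℤ) else p) : ℤ) : ℝ) =
          ((3 * ((q : ℤ) + (p - q)) * Fintype.card V : ℤ) : ℝ) := by
        rw [this]
        push_cast
        ring
      exact_mod_cast h2)
    (fun X => by
      have := sum_sgn_Hof y (p : ℤ) X
      have h1 := hc' X
      have h2 : ((2 * ∑ v ∈ X, (if y v then 2 * (p : ℤ) else p) : ℤ) : ℝ) ≤
          ((3 * ((q : ℤ) + (p - q)) * X.card + (p - q - q) * (S.out X).card : ℤ) : ℝ) := by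
        rw [this]
        push_cast
        linarith
      exact_mod_cast h2)
  obtain ⟨z, b1, b2, b3⟩ := hof S hμ 0 1 (by omega) (fun v => if y v then 2 * 1 else 1)
    (by
      have := sum_sgn_Hof y (1 : ℤ) univ
      rw [h0, Finset.card_univ] at this
      have h2 : ((2 * ∑ v, (if y v then 2 * (1 : ℤ) else 1) : ℤ) : ℝ) =
          ((3 * ((0 : ℤ) + 1) * Fintype.card V : ℤ) : ℝ) := by
        rw [this]
        push_cast
        ring
      exact_mod_cast h2)
    (fun X => by
      have := sum_sgn_Hof y (1 : ℤ) X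
      have h1 := hc' X
      have h3 : ∑ v ∈ X, sgn (y v) ≤ (S.out X).card := by
        refine le_of_mul_le_mul_left ?_ hpR
        have : (0 : ℝ) ≤ (q : ℝ) * (S.out X).card := by positivity
        linarith
      have h2 : ((2 * ∑ v ∈ X, (if y v then 2 * (1 : ℤ) else 1) : ℤ) : ℝ) ≤
          ((3 * ((0 : ℤ) + 1) * X.card + (1 - 0) * (S.out X).card : ℤ) : ℝ) := by
        rw [this]
        push_cast
        linarith
      exact_mod_cast h2)
  refine ⟨fun d => φ d - p * z d, fun d => ?_, fun d => ?_, fun v => ?_⟩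
  · simp only [a1 d, b1 d]
    ring
  · have h1 := a2 d
    have h2 := b2 d
    have h3 : z d = 0 ∨ z d = 1 := by omega
    rcases h3 with h3 | h3
    · simp only [h3, mul_zero, sub_zero]
      rw [abs_of_nonneg (by omega)]
      exact h1
    · simp only [h3, mul_one]
      rw [abs_of_nonpos (by omega)]
      omega
  · simp only [Finset.sum_sub_distrib, ← Finset.mul_sum, a3 v, b3 v]
    split_ifs <;> ring

end Pool.Agent.MP_9a3194_co
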