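import Pool.Agent.MP_9a3194_co.Bal
import Pool.Agent.MP_9a3194_co.Hof
import Pool.Agent.MP_9a3194_co.GPet
import Pool.Agent.MP_9a3194_co.GStr

open Finset
open scoped symmDiff

namespace Pool.Agent.MP_9a3194_co

/-- cubic graphs with the tree-like isoperimetric inequality have circular flows -/
theorem core (p q : ℕ) (hq : 0 < q) (hp : 4 * q < p) : ∃ c : ℕ, ∀ (V : Type) [Fintype V]
    [DecidableEq V] (G : SimpleGraph V) [DecidableRel G.Adj], G.IsRegularOfDegree 3 →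
    c ≤ Fintype.card V →
    (∀ X : Finset V, X.Nonempty → Xᶜ.Nonempty →
      min c (min X.card Xᶜ.card + 2) ≤ (G.interedges X Xᶜ).card) →
    ∃ f : V → V → ℤ, (∀ u v, f v u = -f u v) ∧
      (∀ u v, G.Adj u v → (q : ℤ) ≤ |f u v| ∧ |f u v| ≤ p - q) ∧
      ∀ u, ∑ v ∈ G.neighborFinset u, f u v = 0 := by
  have hp0 : 0 < p := by omega
  have hpR : (0 : ℝ) < p := by exact_mod_cast hp0
  have hpq : (4 * q : ℝ) < p := by exact_mod_cast hp
  have hδ : (0 : ℝ) < 1 / 4 - q / p := by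
    rw [sub_pos, div_lt_iff₀ hpR]
    linarith
  obtain ⟨c₀, hc₀⟩ := bal hδ
  refine ⟨max c₀ 3, fun V _ _ G _ hG hV hI => ?_⟩
  obtain ⟨μ, hμ, ha⟩ := petersen G hG fun X h1 h2 => by
    have h3 := hI X h1 h2
    have h4 := h1.card_pos
    have h5 := h2.card_pos
    omega
  obtain ⟨S, hi, hs⟩ := exists_str G hG μ hμ ha
  have hS : S.Iso (max c₀ 3) := fun X h1 h2 => by
    rw [b_eq_inter G S hi hs]
    exact Nat.mul_le_mul_left 2 (hI X h1 h2)
  obtain ⟨h1, y, h2, h3⟩ := hc₀ S ((le_max_left _ _).trans hV) (hS.mono (le_max_left _ _))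
  obtain ⟨f, f1, f2, f3⟩ := flow_of_bal S h1 p q hp0 (by omega) y h2 fun X => by
    have h4 : (p : ℝ) * ((1 / 4 + (1 / 4 - q / p)) * S.b X) = ((p : ℝ) - 2 * q) / 2 * S.b X := by
      field_simp
      ring
    rw [← h4]
    exact mul_le_mul_of_nonneg_left (h3 X) hpR.le
  exact flow_transfer G S hi hs (fun n => (q : ℤ) ≤ |n| ∧ |n| ≤ p - q) f f1 f2 f3

end Pool.Agent.MP_9a3194_co
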