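import Pool.Agent.MP_9a3194_co.Defs

open Finset
open scoped symmDiff

namespace Pool.Agent.MP_9a3194_co

section
variable {T : Type} [Fintype T] [DecidableEq T]

/-- one edge -/
private def ed_Split (a b x y : T) : ℕ :=
  (if x = a ∧ y = b then 1 else 0) + if x = b ∧ y = a then 1 else 0

/-- whether `A` separates `a` from `b` -/
private def sp_Split (A : Finset T) (a b : T) : ℕ := if (a ∈ A ↔ b ∈ A) then 0 else 1

omit [Fintype T] in
private theorem ed_symm_Split (a b x y : T) : ed_Split a b x y = ed_Split a b y x := by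
  simp only [ed_Split, and_comm, add_comm]

private theorem cut_eq_Split (w : T → T → ℕ) (A : Finset T) :
    cutw w A = ∑ x, ∑ y, if x ∈ A ∧ y ∉ A then w x y else 0 := by
  rw [cutw, ← Fintype.sum_ite_mem]
  refine sum_congr rfl fun x _ => ?_
  rw [← Fintype.sum_ite_mem]
  by_cases h : x ∈ A <;> simp [h]

private theorem cut_compl_Split {w : T → T → ℕ} (hs : ∀ s t, w s t = w t s) (A : Finset T) :
    cutw w Aᶜ = cutw w A := by
  rw [cutw, cutw, compl_compl, sum_comm]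
  exact sum_congr rfl fun x _ => sum_congr rfl fun y _ => hs _ _

private theorem cut_add_Split {w w₀ : T → T → ℕ} {a b : T}
    (h : ∀ x y, w x y = w₀ x y + ed_Split a b x y) (A : Finset T) :
    cutw w A = cutw w₀ A + sp_Split A a b := by
  have key : ∀ a b : T, (∑ x ∈ A, ∑ y ∈ Aᶜ, if x = a ∧ y = b then 1 else 0) =
      if a ∈ A ∧ b ∉ A then 1 else 0 := fun a b => by
    simp only [ite_and, sum_ite_irrel, sum_ite_eq', sum_const_zero, mem_compl]
  simp only [cutw, h, ed_Split, sum_add_distrib, key, sp_Split]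
  by_cases ha : a ∈ A <;> by_cases hb : b ∈ A <;> simp [ha, hb]

private theorem submod_Split (w : T → T → ℕ) (A B : Finset T) :
    cutw w (A ∩ B) + cutw w (A ∪ B) ≤ cutw w A + cutw w B := by
  simp only [cut_eq_Split, ← sum_add_distrib]
  refine sum_le_sum fun x _ => sum_le_sum fun y _ => ?_
  by_cases h1 : x ∈ A <;> by_cases h2 : x ∈ B <;> by_cases h3 : y ∈ A <;> by_cases h4 : y ∈ B <;>
    simp [h1, h2, h3, h4]

private theorem posi_Split {w : T → T → ℕ} (hs : ∀ s t, w s t = w t s) (A B : Finset T) :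
    cutw w (A \ B) + cutw w (B \ A) ≤ cutw w A + cutw w B := by
  have h := submod_Split w A Bᶜ
  rw [cut_compl_Split hs B, ← cut_compl_Split hs (A ∪ Bᶜ)] at h
  convert h using 3
  · ext x
    simp
  · ext x
    simp [and_comm]

omit [Fintype T] in
private theorem dec_Split {w : T → T → ℕ} (hs : ∀ s t, w s t = w t s) {a b : T} (hab : a ≠ b)
    (h : 0 < w a b) : ∃ w₀ : T → T → ℕ, (∀ s t, w₀ s t = w₀ t s) ∧
      ∀ x y, w x y = w₀ x y + ed_Split a b x y := by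
  refine ⟨fun x y => w x y - ed_Split a b x y,
    fun x y => congrArg₂ _ (hs x y) (ed_symm_Split a b x y), fun x y => ?_⟩
  have : ed_Split a b x y ≤ w x y := by
    unfold ed_Split
    split_ifs with h1 h2 h2
    · exact absurd (h1.1.symm.trans h2.1) hab
    · rw [h1.1, h1.2]
      omega
    · rw [h2.1, h2.2, hs]
      omega
    · omega
  exact (Nat.sub_add_cancel this).symm

/-- `A` separates the terminals -/
private def Sep_Split (Tm A : Finset T) : Prop := (∃ s ∈ Tm, s ∈ A) ∧ ∃ t ∈ Tm, t ∉ A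

private theorem union_Split {w : T → T → ℕ} (hs : ∀ s t, w s t = w t s) {Tm : Finset T} {lam : ℕ}
    (hc : ∀ A, Sep_Split Tm A → lam ≤ cutw w A) {s u : T} (hsu : s ≠ u) (h : 0 < w s u)
    {A B : Finset T} (hA : Sep_Split Tm A) (hB : Sep_Split Tm B) (cA : cutw w A = lam)
    (cB : cutw w B = lam) (uA : u ∈ A) (uB : u ∈ B) (sA : s ∉ A) (sB : s ∉ B) :
    Sep_Split Tm (A ∪ B) ∧ cutw w (A ∪ B) = lam := by
  obtain ⟨w₀, h0, h1⟩ := dec_Split hs hsu h
  obtain ⟨⟨a₁, ha₁, ha₁'⟩, t₁, ht₁, ht₁'⟩ := hA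
  obtain ⟨⟨a₂, ha₂, ha₂'⟩, t₂, ht₂, ht₂'⟩ := hB
  have key : ¬ (Sep_Split Tm (A \ B) ∧ Sep_Split Tm (B \ A)) := by
    rintro ⟨e1, e2⟩
    have f1 := hc _ e1
    have f2 := hc _ e2
    have f3 := posi_Split h0 A B
    rw [cut_add_Split h1] at f1 f2 cA cB
    simp only [sp_Split, mem_sdiff, uA, uB, sA, sB, not_true, and_false, false_and, if_true,
      iff_true, if_false] at f1 f2 cA cB
    omega
  have k1 : ∃ a ∈ Tm, a ∈ A ∩ B := by
    by_contra hn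
    exact key ⟨⟨⟨a₁, ha₁, mem_sdiff.2 ⟨ha₁', fun e => hn ⟨a₁, ha₁, mem_inter.2 ⟨ha₁', e⟩⟩⟩⟩,
      t₁, ht₁, fun e => ht₁' (mem_sdiff.1 e).1⟩,
      ⟨a₂, ha₂, mem_sdiff.2 ⟨ha₂', fun e => hn ⟨a₂, ha₂, mem_inter.2 ⟨e, ha₂'⟩⟩⟩⟩,
      t₂, ht₂, fun e => ht₂' (mem_sdiff.1 e).1⟩
  have k2 : ∃ t ∈ Tm, t ∉ A ∪ B := by
    by_contra hn
    push Not at hn
    exact key ⟨⟨⟨t₂, ht₂, mem_sdiff.2 ⟨(mem_union.1 (hn t₂ ht₂)).resolve_right ht₂', ht₂'⟩⟩,
      t₁, ht₁, fun e => ht₁' (mem_sdiff.1 e).1⟩,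
      ⟨t₁, ht₁, mem_sdiff.2 ⟨(mem_union.1 (hn t₁ ht₁)).resolve_left ht₁', ht₁'⟩⟩,
      t₂, ht₂, fun e => ht₂' (mem_sdiff.1 e).1⟩
  have s1 : Sep_Split Tm (A ∩ B) := ⟨k1, t₁, ht₁, fun e => ht₁' (mem_inter.1 e).1⟩
  have s2 : Sep_Split Tm (A ∪ B) := ⟨⟨a₁, ha₁, mem_union_left _ ha₁'⟩, k2⟩
  have f1 := hc _ s1
  have f2 := hc _ s2
  have f3 := submod_Split w A B
  exact ⟨s2, by omega⟩

private theorem insert_Split {w : T → T → ℕ} (hs : ∀ s t, w s t = w t s) {s u : T}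
    (h : 0 < w s u) {M : Finset T} (uM : u ∈ M) (sM : s ∉ M)
    (hn : ∀ v, v ≠ s → v ∉ M → w s v = 0) : cutw w (insert s M) < cutw w M := by
  have e : Mᶜ = insert s (insert s M)ᶜ := by
    ext x
    by_cases hx : x = s <;> simp [hx, sM]
  rw [cutw, cutw, sum_insert sM, sum_eq_zero fun v hv => hn v
    (fun e => mem_compl.1 hv (e ▸ mem_insert_self _ _))
    fun e => mem_compl.1 hv (mem_insert_of_mem e), zero_add, e]
  simp only [sum_insert (show s ∉ (insert s M)ᶜ by simp)]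
  refine sum_lt_sum (fun x _ => Nat.le_add_left _ _) ⟨u, uM, ?_⟩
  rw [hs u s]
  omega

private theorem partner_Split {w w₀ : T → T → ℕ} (hs : ∀ s t, w s t = w t s) {Tm : Finset T}
    {lam : ℕ} (hc : ∀ A, Sep_Split Tm A → lam ≤ cutw w A) {s u : T} (hT : s ∉ Tm) (hsu : s ≠ u)
    (h : 0 < w s u) (hev : Even (cutw w {s})) (h1 : ∀ x y, w x y = w₀ x y + ed_Split s u x y) :
    ∃ v, s ≠ v ∧ 0 < w₀ s v ∧
      ∀ A, Sep_Split Tm A → s ∉ A → u ∈ A → v ∈ A → cutw w A ≠ lam := by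
  classical
  by_cases hne : (univ.filter fun A : Finset T =>
      Sep_Split Tm A ∧ cutw w A = lam ∧ u ∈ A ∧ s ∉ A).Nonempty
  · obtain ⟨M, hM, hmax⟩ := exists_max_image _ card hne
    obtain ⟨m1, m2, m3, m4⟩ := (mem_filter.1 hM).2
    obtain ⟨v, v1, v2, v3⟩ : ∃ v, v ≠ s ∧ v ∉ M ∧ w s v ≠ 0 := by
      by_contra hn
      push Not at hn
      have f1 := insert_Split hs h m3 m4 hn
      obtain ⟨⟨a, ha, ha'⟩, t, ht, ht'⟩ := m1
      have f2 := hc (insert s M) ⟨⟨a, ha, mem_insert_of_mem ha'⟩, t, ht, fun e =>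
        (mem_insert.1 e).elim (fun e => hT (e ▸ ht)) ht'⟩
      omega
    refine ⟨v, v1.symm, ?_, fun A a1 a2 a3 a4 a5 => v2 ?_⟩
    · have f := h1 s v
      have hv : v ≠ u := fun e => v2 (e ▸ m3)
      simp only [ed_Split, hv, v1, and_false, if_false] at f
      omega
    · obtain ⟨f1, f2⟩ := union_Split hs hc hsu h m1 a1 m2 a5 m3 a3 m4 a2
      have f3 := hmax (M ∪ A) (mem_filter.2 ⟨mem_univ _, f1, f2, mem_union_left _ m3,
        fun e => (mem_union.1 e).elim m4 a2⟩)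
      rw [eq_of_subset_of_card_le subset_union_left f3]
      exact mem_union_right _ a4
  · obtain ⟨v, v1, v2⟩ : ∃ v, s ≠ v ∧ w₀ s v ≠ 0 := by
      by_contra hn
      push Not at hn
      have f : cutw w₀ {s} = 0 := by
        rw [cutw, sum_singleton]
        exact sum_eq_zero fun v hv => hn v fun e => mem_compl.1 hv (mem_singleton.2 e.symm)
      rw [cut_add_Split h1, f] at hev
      simp [sp_Split, hsu.symm] at hev
    exact ⟨v, v1, Nat.pos_of_ne_zero v2, fun A a1 a2 a3 _ a5 =>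
      hne ⟨A, mem_filter.2 ⟨mem_univ _, a1, a5, a3, a2⟩⟩⟩

private theorem step_Split {w : T → T → ℕ} (hs : ∀ s t, w s t = w t s) {Tm : Finset T} {lam : ℕ}
    (hl : Even lam) (hev : ∀ A, Even (cutw w A)) (hc : ∀ A, Sep_Split Tm A → lam ≤ cutw w A)
    {s u : T} (hT : s ∉ Tm) (hsu : s ≠ u) (h : 0 < w s u) :
    ∃ w' : T → T → ℕ, (∀ s t, w' s t = w' t s) ∧ (∀ A, Even (cutw w' A)) ∧
      (∀ A, cutw w' A ≤ cutw w A) ∧ (∀ A, Sep_Split Tm A → lam ≤ cutw w' A) ∧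
      cutw w' {s} < cutw w {s} := by
  obtain ⟨w₀, h0, h1⟩ := dec_Split hs hsu h
  obtain ⟨v, hsv, hv, hA⟩ := partner_Split hs hc hT hsu h (hev _) h1
  obtain ⟨w₁, h2, h3⟩ := dec_Split h0 hsv hv
  have e1 : ∀ A, cutw w A = cutw w₁ A + sp_Split A s v + sp_Split A s u := fun A => by
    rw [cut_add_Split h1, cut_add_Split h3]
  have e2 : ∀ A, cutw (fun x y => w₁ x y + ed_Split u v x y) A = cutw w₁ A + sp_Split A u v :=
    cut_add_Split fun _ _ => rfl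
  have e3 : ∀ A, sp_Split A s v + sp_Split A s u = sp_Split A u v ∨
      (sp_Split A s v + sp_Split A s u = sp_Split A u v + 2 ∧
        ((s ∉ A ∧ u ∈ A ∧ v ∈ A) ∨ (s ∉ Aᶜ ∧ u ∈ Aᶜ ∧ v ∈ Aᶜ))) := fun A => by
    by_cases a1 : s ∈ A <;> by_cases a2 : u ∈ A <;> by_cases a3 : v ∈ A <;>
      simp [sp_Split, a1, a2, a3]
  refine ⟨fun x y => w₁ x y + ed_Split u v x y,
    fun x y => congrArg₂ _ (h2 x y) (ed_symm_Split u v x y),
    fun A => ?_, fun A => ?_, fun A a => ?_, ?_⟩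
  · have f := hev A
    rw [e1, Nat.even_iff] at f
    rw [e2, Nat.even_iff]
    rcases e3 A with g | ⟨g, -⟩ <;> omega
  · rw [e1, e2]
    rcases e3 A with g | ⟨g, -⟩ <;> omega
  · have f := hev A
    have f1 := hc A a
    have f2 := e1 A
    rw [Nat.even_iff] at f hl
    rw [e2]
    rcases e3 A with g | ⟨g, g' | g'⟩
    · omega
    · have := hA A a g'.1 g'.2.1 g'.2.2
      omega
    · obtain ⟨⟨x, hx, hx'⟩, t, ht, ht'⟩ := a
      have := hA Aᶜ ⟨⟨t, ht, mem_compl.2 ht'⟩, x, hx, fun e => mem_compl.1 e hx'⟩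
        g'.1 g'.2.1 g'.2.2
      rw [cut_compl_Split hs] at this
      omega
  · rw [e1, e2]
    simp [sp_Split, hsu.symm, hsv.symm]

end

/-- complete splitting off at the vertices outside `Tm` -/
theorem split {T : Type} [Fintype T] [DecidableEq T] (w : T → T → ℕ) (hs : ∀ s t, w s t = w t s)
    (Tm : Finset T) (lam : ℕ) (hl : Even lam) (hev : ∀ A, Even (cutw w A))
    (hc : ∀ A : Finset T, (∃ s ∈ Tm, s ∈ A) → (∃ t ∈ Tm, t ∉ A) → lam ≤ cutw w A) :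
    ∃ w' : T → T → ℕ, (∀ s t, w' s t = w' t s) ∧ (∀ A, cutw w' A ≤ cutw w A) ∧
      (∀ A : Finset T, (∃ s ∈ Tm, s ∈ A) → (∃ t ∈ Tm, t ∉ A) → lam ≤ cutw w' A) ∧
      ∀ s t, s ∉ Tm → s ≠ t → w' s t = 0 := by
  induction hD : ∑ s ∈ Tmᶜ, cutw w {s} using Nat.strong_induction_on generalizing w with
  | _ n ih =>
    by_cases h : ∃ s u, s ∉ Tm ∧ s ≠ u ∧ 0 < w s u
    · obtain ⟨s, u, h1, h2, h3⟩ := h
      obtain ⟨w₁, a1, a2, a3, a4, a5⟩ := step_Split hs hl hev (fun A a => hc A a.1 a.2) h1 h2 h3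
      obtain ⟨w', b1, b2, b3, b4⟩ := ih _
        (hD ▸ sum_lt_sum (fun x _ => a3 {x}) ⟨s, mem_compl.2 h1, a5⟩) w₁ a1 a2
        (fun A a b => a4 A ⟨a, b⟩) rfl
      exact ⟨w', b1, fun A => (b2 A).trans (a3 A), b3, b4⟩
    · exact ⟨w, hs, fun _ => le_rfl, hc, fun s t h1 h2 =>
        Nat.eq_zero_of_not_pos fun h3 => h ⟨s, t, h1, h2, h3⟩⟩

end Pool.Agent.MP_9a3194_co
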