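import Pool.Agent.MP_9a3194_co.LatD
import Pool.Agent.MP_9a3194_co.Split

open Finset
open scoped symmDiff

namespace Pool.Agent.MP_9a3194_co

private theorem cut2_LatE {T : Type} [Fintype T] [DecidableEq T] (w : T → T → ℕ)
    (hs : ∀ s t, w s t = w t s) (A : Finset T) :
    ∑ s, ∑ t, (if (s ∈ A ↔ t ∈ A) then 0 else (w s t : ℝ)) = 2 * cutw w A := by
  have h1 : ∀ s ∈ A, ∑ t, (if (s ∈ A ↔ t ∈ A) then 0 else (w s t : ℝ)) =
      ∑ t ∈ Aᶜ, (w s t : ℝ) := by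
    intro s hsA
    rw [← sum_add_sum_compl A, sum_eq_zero (fun t ht => by simp [hsA, ht]), zero_add]
    exact sum_congr rfl fun t ht => by
      have := mem_compl.1 ht
      simp [hsA, this]
  have h2 : ∀ s ∈ Aᶜ, ∑ t, (if (s ∈ A ↔ t ∈ A) then 0 else (w s t : ℝ)) =
      ∑ t ∈ A, (w t s : ℝ) := by
    intro s hsA
    have hsA' := mem_compl.1 hsA
    rw [← sum_add_sum_compl A, sum_eq_zero (s := Aᶜ) (fun t ht => by
      have := mem_compl.1 ht
      simp [hsA', this]), add_zero]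
    exact sum_congr rfl fun t ht => by simp [hsA', ht, hs s t]
  rw [← sum_add_sum_compl A, sum_congr rfl h1, sum_congr rfl h2, sum_comm (s := Aᶜ)]
  unfold cutw
  push_cast
  ring

private theorem crs_LatE {T : Type} [Fintype T] [DecidableEq T] (w : T → T → ℕ)
    (hs : ∀ s t, w s t = w t s) (Tm : Finset T) (hz : ∀ s t, s ∉ Tm → s ≠ t → w s t = 0)
    (lam : ℝ) (A : Finset T) (B : Finset {t // t ∈ Tm}) (hB : ∀ t, t ∈ B ↔ t.1 ∈ A) :
    crs (E := {p : {t // t ∈ Tm} × {t // t ∈ Tm} // 0 < w p.1 p.2}) (fun e => e.1.1)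
      (fun e => e.1.2) (fun e => (w e.1.1 e.1.2 : ℝ) / lam) B = 2 * cutw w A / lam := by
  rw [← cut2_LatE w hs A]
  unfold crs
  have e1 : ∑ e : {p : {t // t ∈ Tm} × {t // t ∈ Tm} // 0 < w p.1 p.2},
      (if (e.1.1 ∈ B ↔ e.1.2 ∈ B) then 0 else (w e.1.1 e.1.2 : ℝ) / lam) =
      ∑ p : {t // t ∈ Tm} × {t // t ∈ Tm},
        (if (p.1 ∈ B ↔ p.2 ∈ B) then 0 else (w p.1 p.2 : ℝ) / lam) := by
    rw [← sum_subtype (univ.filter fun p : {t // t ∈ Tm} × {t // t ∈ Tm} => 0 < w p.1 p.2)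
      (by simp) (fun p => if (p.1 ∈ B ↔ p.2 ∈ B) then 0 else (w p.1 p.2 : ℝ) / lam)]
    refine sum_filter_of_ne fun p _ hp => ?_
    by_contra h
    have h0 : w p.1 p.2 = 0 := by omega
    simp [h0] at hp
  have hF : ∀ s t, s ∉ Tm ∨ t ∉ Tm → (if (s ∈ A ↔ t ∈ A) then 0 else (w s t : ℝ)) = 0 := by
    intro s t h
    by_cases hst : s = t
    · simp [hst]
    · have h0 : w s t = 0 := by
        rcases h with h | h
        · exact hz s t h hst
        · rw [hs]; exact hz t s h (Ne.symm hst)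
      simp [h0]
  have e2 : ∑ s, ∑ t, (if (s ∈ A ↔ t ∈ A) then 0 else (w s t : ℝ)) =
      ∑ s ∈ Tm, ∑ t ∈ Tm, (if (s ∈ A ↔ t ∈ A) then 0 else (w s t : ℝ)) := by
    symm
    rw [← sum_subset (subset_univ Tm)
      (fun s _ hsT => sum_eq_zero fun t _ => hF s t (Or.inl hsT))]
    exact sum_congr rfl fun s _ =>
      sum_subset (subset_univ Tm) fun t _ ht => hF s t (Or.inr ht)
  rw [e1, e2, Fintype.sum_prod_type, ← sum_coe_sort Tm, sum_div]
  refine sum_congr rfl fun s _ => ?_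
  rw [← sum_coe_sort Tm, sum_div]
  refine sum_congr rfl fun t _ => ?_
  simp only [hB]
  split_ifs <;> simp

/-- the lattice lemma with Steiner vertices -/
theorem steiner {T : Type} [Fintype T] [DecidableEq T] (w : T → T → ℕ)
    (hs : ∀ s t, w s t = w t s) (Tm : Finset T) (hT : Tm.Nonempty) (lam : ℕ) (h0 : 0 < lam)
    (hl : Even lam) (hev : ∀ A, Even (cutw w A))
    (hc : ∀ A : Finset T, (∃ s ∈ Tm, s ∈ A) → (∃ t ∈ Tm, t ∉ A) → lam ≤ cutw w A)
    (q : T → ℝ) (m : ℤ) (hq : ∑ t ∈ Tm, q t = 2 * m) :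
    ∃ z : T → ℤ, (∀ t ∉ Tm, z t = 0) ∧ ∑ t ∈ Tm, (q t + 2 * z t) = 0 ∧
      ∀ A : Finset T, ∑ t ∈ Tm ∩ A, (q t + 2 * z t) ≤ 3 / lam * cutw w A := by
  obtain ⟨w', hs', hle, hc', hz⟩ := split w hs Tm lam hl hev hc
  obtain ⟨o, ho⟩ := hT
  have hlam : (0 : ℝ) < lam := by exact_mod_cast h0
  obtain ⟨z, hz0, hzA⟩ := lattice (T := {t // t ∈ Tm})
    (E := {p : {t // t ∈ Tm} × {t // t ∈ Tm} // 0 < w' p.1 p.2}) (fun e => e.1.1)
    (fun e => e.1.2) (fun e => (w' e.1.1 e.1.2 : ℝ) / lam)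
    (fun e => div_pos (by exact_mod_cast e.2) hlam) ⟨o, ho⟩
    (by
      rintro B ⟨s, hsB⟩ ⟨t, htB⟩
      have hB : ∀ t, t ∈ B ↔ t.1 ∈ B.map (Function.Embedding.subtype _) := fun t =>
        (mem_map' (Function.Embedding.subtype _)).symm
      rw [crs_LatE w' hs' Tm hz lam _ B hB, le_div_iff₀ hlam]
      have h := hc' (B.map (Function.Embedding.subtype _)) ⟨s.1, s.2, (hB s).1 hsB⟩
        ⟨t.1, t.2, fun h => mem_compl.1 htB ((hB t).2 h)⟩
      have h' : (lam : ℝ) ≤ cutw w' (B.map (Function.Embedding.subtype _)) := by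
        exact_mod_cast h
      linarith)
    (fun t => q t.1) m (by rw [← hq]; exact sum_coe_sort Tm q)
  refine ⟨fun t => if h : t ∈ Tm then z ⟨t, h⟩ else 0, fun t ht => by simp [ht], ?_, fun A => ?_⟩
  · rw [← hz0, ← sum_coe_sort Tm]
    exact sum_congr rfl fun t _ => by simp
  · have h := hzA (univ.filter fun t => t.1 ∈ A)
    rw [crs_LatE w' hs' Tm hz lam A _ (by simp)] at h
    have h' : (cutw w' A : ℝ) ≤ cutw w A := by exact_mod_cast hle A
    have e : ∑ t ∈ Tm ∩ A, (q t + 2 * ((if h : t ∈ Tm then z ⟨t, h⟩ else 0 : ℤ) : ℝ)) =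
        ∑ t ∈ univ.filter (fun t : {t // t ∈ Tm} => t.1 ∈ A), (q t.1 + 2 * (z t : ℝ)) := by
      rw [← filter_mem_eq_inter, sum_filter, sum_filter, ← sum_coe_sort Tm]
      exact sum_congr rfl fun t _ => by simp
    rw [e]
    refine h.trans ?_
    have e3 : (3 : ℝ) / 2 * (2 * cutw w' A / lam) = 3 / lam * cutw w' A := by ring
    rw [e3]
    exact mul_le_mul_of_nonneg_left h' (by positivity)

end Pool.Agent.MP_9a3194_co
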