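import Pool.Agent.MP_9a3194_co.Basic
import Pool.Agent.MP_9a3194_co.LatE

open Finset
open scoped symmDiff

namespace Pool.Agent.MP_9a3194_co

variable {V : Type} [Fintype V] [DecidableEq V] (S : Str V)

/-- the contraction map -/
noncomputable def rho_Ctr (T : Finset V) (Ω : V → Finset V) (v : V) : V :=
  if h : ∃ g ∈ T, v ∈ Ω g then h.choose else v

/-- the preimage under the contraction map -/
noncomputable def pre_Ctr (T : Finset V) (Ω : V → Finset V) (A : Finset V) : Finset V :=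
  univ.filter fun v => rho_Ctr T Ω v ∈ A

/-- the contracted weights -/
noncomputable def w_Ctr (T : Finset V) (Ω : V → Finset V) (s t : V) : ℕ :=
  2 * (univ.filter fun d : Dt V => rho_Ctr T Ω d.1 = s ∧ rho_Ctr T Ω (S.hd d) = t).card

variable {S}

omit [Fintype V] in
theorem rho_not_Ctr {T : Finset V} {Ω : V → Finset V} {v : V} (h : ¬ ∃ g ∈ T, v ∈ Ω g) :
    rho_Ctr T Ω v = v := by
  unfold rho_Ctr
  rw [dif_neg h]

theorem rho_mem_Ctr {ω : ℕ} {T : Finset V} {Ω : V → Finset V} (hT : S.Trees T Ω ω) {g v : V}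
    (hg : g ∈ T) (hv : v ∈ Ω g) : rho_Ctr T Ω v = g := by
  have h : ∃ g ∈ T, v ∈ Ω g := ⟨g, hg, hv⟩
  unfold rho_Ctr
  rw [dif_pos h]
  by_contra hne
  exact Finset.disjoint_left.1 (hT.disj _ h.choose_spec.1 _ hg hne) h.choose_spec.2 hv

theorem mem_pre_Ctr {T : Finset V} {Ω : V → Finset V} {A : Finset V} {v : V} :
    v ∈ pre_Ctr T Ω A ↔ rho_Ctr T Ω v ∈ A := by
  simp [pre_Ctr]

theorem w_symm_Ctr (T : Finset V) (Ω : V → Finset V) (s t : V) :
    w_Ctr S T Ω s t = w_Ctr S T Ω t s := by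
  unfold w_Ctr
  congr 1
  refine Finset.card_bij' (fun d _ => S.rv d) (fun d _ => S.rv d) ?_ ?_ ?_ ?_
  · intro d hd
    simp only [mem_filter, mem_univ, true_and] at hd ⊢
    rw [S.hd_rv, S.rv_fst]
    exact ⟨hd.2, hd.1⟩
  · intro d hd
    simp only [mem_filter, mem_univ, true_and] at hd ⊢
    rw [S.hd_rv, S.rv_fst]
    exact ⟨hd.2, hd.1⟩
  · intro d _
    exact S.rv_rv d
  · intro d _
    exact S.rv_rv d

theorem cutw_Ctr (T : Finset V) (Ω : V → Finset V) (A : Finset V) :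
    cutw (w_Ctr S T Ω) A = S.b (pre_Ctr T Ω A) := by
  rw [S.b_eq]
  unfold cutw w_Ctr
  simp only [← Finset.mul_sum]
  congr 1
  rw [← Finset.sum_product']
  have hmap : ∀ d ∈ S.out (pre_Ctr T Ω A),
      (rho_Ctr T Ω d.1, rho_Ctr T Ω (S.hd d)) ∈ A ×ˢ Aᶜ := by
    intro d hd
    rw [S.mem_out, mem_pre_Ctr, mem_pre_Ctr] at hd
    simpa using hd
  rw [Finset.card_eq_sum_card_fiberwise hmap]
  refine Finset.sum_congr rfl fun p hp => ?_
  congr 1
  ext d
  simp only [mem_filter, mem_univ, true_and, S.mem_out, mem_pre_Ctr, Prod.ext_iff]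
  simp only [mem_product, mem_compl] at hp
  constructor
  · rintro ⟨h1, h2⟩
    rw [h1, h2]
    exact ⟨hp, rfl, rfl⟩
  · exact fun h => h.2

theorem pre_single_Ctr {ω : ℕ} {T : Finset V} {Ω : V → Finset V} (hT : S.Trees T Ω ω) {g : V}
    (hg : g ∈ T) : pre_Ctr T Ω {g} = Ω g := by
  ext v
  rw [mem_pre_Ctr, mem_singleton]
  constructor
  · intro h
    by_cases hv : ∃ g ∈ T, v ∈ Ω g
    · obtain ⟨g', hg', hv⟩ := hv
      rw [rho_mem_Ctr hT hg' hv] at h
      exact h ▸ hv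
    · rw [rho_not_Ctr hv] at h
      rw [h]
      exact hT.mem g hg
  · exact rho_mem_Ctr hT hg

theorem pre_compl_Ctr (T : Finset V) (Ω : V → Finset V) (A : Finset V) :
    pre_Ctr T Ω Aᶜ = (pre_Ctr T Ω A)ᶜ := by
  ext v
  simp [mem_pre_Ctr]

variable (S)

/-- the lattice lemma after contracting the trees -/
theorem contract {c ω : ℕ} {T : Finset V} {Ω : V → Finset V} (hI : S.Iso c) (hc : ω + 2 ≤ c)
    (hT : S.Trees T Ω ω) (hne : T.Nonempty) (q : V → ℝ) (m : ℤ) (hq : ∑ g ∈ T, q g = 2 * m) :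
    ∃ z : V → ℤ, (∀ g ∉ T, z g = 0) ∧ ∑ g ∈ T, (q g + 2 * z g) = 0 ∧
      (∀ g ∈ T, |q g + 2 * z g| ≤ 3) ∧
      ∀ X : Finset V, ∑ g ∈ T.filter (fun g => (Ω g \ X).card ≤ (Ω g ∩ X).card), (q g + 2 * z g) ≤
        3 / (2 * (ω + 2)) * (S.b X + 6 * ∑ g ∈ T, (mino (Ω g) X : ℝ)) := by
  classical
  obtain ⟨z, hz0, hz1, hz2⟩ := steiner (w_Ctr S T Ω) (w_symm_Ctr T Ω) T hne (2 * (ω + 2))
    (by omega) (even_two_mul _)
    (fun A => by rw [cutw_Ctr, S.b_eq]; exact even_two_mul _)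
    (by
      rintro A ⟨s, hs, hsA⟩ ⟨t, ht, htA⟩
      rw [cutw_Ctr]
      have h1 : Ω s ⊆ pre_Ctr T Ω A := fun v hv => by
        rw [mem_pre_Ctr, rho_mem_Ctr hT hs hv]
        exact hsA
      have h2 : Ω t ⊆ (pre_Ctr T Ω A)ᶜ := fun v hv => by
        rw [mem_compl, mem_pre_Ctr, rho_mem_Ctr hT ht hv]
        exact htA
      have c1 := card_le_card h1
      have c2 := card_le_card h2
      rw [hT.card s hs] at c1
      rw [hT.card t ht] at c2
      have := hI (pre_Ctr T Ω A) ⟨s, h1 (hT.mem s hs)⟩ ⟨t, h2 (hT.mem t ht)⟩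
      omega) q m hq
  have hpos : (0 : ℝ) < 2 * (ω + 2) := by positivity
  have hz3 : ∀ A : Finset V, ∑ t ∈ T ∩ A, (q t + 2 * z t) ≤
      3 / (2 * (ω + 2)) * (S.b (pre_Ctr T Ω A) : ℝ) := by
    intro A
    have := hz2 A
    rw [cutw_Ctr] at this
    push_cast at this
    exact this
  refine ⟨z, hz0, hz1, ?_, ?_⟩
  · intro g hg
    have hb : (S.b (Ω g) : ℝ) ≤ 2 * (ω + 2) := by exact_mod_cast hT.bdy g hg
    have hb3 : 3 / (2 * (ω + 2)) * (S.b (Ω g) : ℝ) ≤ 3 := by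
      rw [div_mul_eq_mul_div, div_le_iff₀ hpos]
      linarith
    have a1 := hz3 {g}
    rw [pre_single_Ctr hT hg, inter_singleton_of_mem hg, sum_singleton] at a1
    have a2 := hz3 {g}ᶜ
    have e : T ∩ {g}ᶜ = T.erase g := by
      ext v
      simp [and_comm]
    rw [pre_compl_Ctr, pre_single_Ctr hT hg, S.b_compl, e] at a2
    have a3 := Finset.add_sum_erase T (fun t => q t + 2 * (z t : ℝ)) hg
    rw [hz1] at a3
    rw [abs_le]
    constructor <;> linarith
  · intro X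
    set M := T.filter (fun g => (Ω g \ X).card ≤ (Ω g ∩ X).card) with hM
    set A := M ∪ X.filter (fun v => ¬ ∃ g ∈ T, v ∈ Ω g) with hA
    have e : T ∩ A = M := by
      ext v
      simp only [hA, mem_inter, mem_union]
      constructor
      · rintro ⟨hv, h | h⟩
        · exact h
        · exact absurd ⟨v, hv, hT.mem v hv⟩ (mem_filter.1 h).2
      · intro h
        exact ⟨(mem_filter.1 h).1, Or.inl h⟩
    have hsub : pre_Ctr T Ω A ∆ X ⊆
        T.biUnion fun g => if g ∈ M then Ω g \ X else Ω g ∩ X := by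
      intro v hv
      rw [mem_symmDiff, mem_pre_Ctr] at hv
      by_cases hx : ∃ g ∈ T, v ∈ Ω g
      · obtain ⟨g, hg, hvg⟩ := hx
        rw [rho_mem_Ctr hT hg hvg] at hv
        have hgA : g ∈ A ↔ g ∈ M := by
          rw [← e, mem_inter]
          exact ⟨fun h => ⟨hg, h⟩, fun h => h.2⟩
        rw [hgA] at hv
        refine mem_biUnion.2 ⟨g, hg, ?_⟩
        rcases hv with ⟨h1, h2⟩ | ⟨h1, h2⟩
        · rw [if_pos h1]
          exact mem_sdiff.2 ⟨hvg, h2⟩
        · rw [if_neg h2]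
          exact mem_inter.2 ⟨hvg, h1⟩
      · rw [rho_not_Ctr hx] at hv
        exfalso
        rcases hv with ⟨h1, h2⟩ | ⟨h1, h2⟩
        · rcases mem_union.1 h1 with h | h
          · have hv := (mem_filter.1 h).1
            exact hx ⟨v, hv, hT.mem v hv⟩
          · exact h2 (mem_filter.1 h).1
        · exact h2 (mem_union.2 (Or.inr (mem_filter.2 ⟨h1, hx⟩)))
    have hcard : (pre_Ctr T Ω A ∆ X).card ≤ ∑ g ∈ T, mino (Ω g) X := by
      refine (card_le_card hsub).trans (card_biUnion_le.trans (sum_le_sum fun g hg => ?_))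
      unfold mino
      split_ifs with h
      · have := (mem_filter.1 h).2
        omega
      · have : ¬ (Ω g \ X).card ≤ (Ω g ∩ X).card := fun h' => h (mem_filter.2 ⟨hg, h'⟩)
        omega
    have hb : S.b (pre_Ctr T Ω A) ≤ S.b X + 6 * ∑ g ∈ T, mino (Ω g) X :=
      (S.b_le_add _ X).trans (by omega)
    have hb' : (S.b (pre_Ctr T Ω A) : ℝ) ≤ S.b X + 6 * ∑ g ∈ T, (mino (Ω g) X : ℝ) := by
      exact_mod_cast hb
    have a1 := hz3 A
    rw [e] at a1
    exact a1.trans (mul_le_mul_of_nonneg_left hb' (by positivity))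

end Pool.Agent.MP_9a3194_co
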