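import Mathlib

/-! Cubic graphs given by a perfect matching `μ` and an oriented 2-factor `π`. -/

open Finset

namespace Pool.Agent.MP_9a3194_co

structure Str (V : Type) where
  π : Equiv.Perm V
  μ : V → V
  μμ : ∀ v, μ (μ v) = v

/-- darts: a vertex and a direction (`0` matching, `1` forward, `2` backward) -/
abbrev Dt (V : Type) := V × Fin 3

/-- the reverse direction -/
def rd : Fin 3 → Fin 3 := ![0, 2, 1]

/-- reduced (non-backtracking) words -/
def Red (w : List (Fin 3)) : Prop := w.IsChain fun d e => e ≠ rd d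

/-- the two non-backtracking continuations of a direction -/
def kid (d : Fin 3) (β : Bool) : Fin 3 :=
  if d = 0 then (if β then 1 else 2) else if β then 0 else d

/-- binary words of length `j` -/
def Wd : ℕ → Finset (List Bool)
  | 0 => {[]}
  | j + 1 => (Wd j).image (List.cons true) ∪ (Wd j).image (List.cons false)

/-- the share of a unit charge carried by the dart with word `w` -/
noncomputable def amt (k : ℕ) : List Bool → ℝ
  | [] => 1
  | β :: w => if Odd w.length ∧ w.length < 2 * k then (if β then amt k w else 0) else amt k w / 2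

/-- the direction of the dart with word `w` -/
def dir : List Bool → Fin 3
  | [] => 0
  | β :: w => kid (dir w) β

/-- the directions of the walk with word `w` -/
def dirs : List Bool → List (Fin 3)
  | [] => [0]
  | β :: w => dirs w ++ [kid (dir w) β]

def sgn (x : Bool) : ℝ := if x then 1 else -1

/-- the smaller of the two parts into which `X` cuts `Ω` -/
def mino {V : Type} [DecidableEq V] (Ω X : Finset V) : ℕ := min (Ω ∩ X).card (Ω \ X).card

/-- `U` is a union of classes of the labelling -/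
def Sat {V : Type} (lab : V → V) (U : Finset V) : Prop := ∀ u v, lab u = lab v → (u ∈ U ↔ v ∈ U)

/-- divergence -/
def dv {V : Type} (f : Dt V → ℝ) (v : V) : ℝ := ∑ i, f (v, i)

/-- weight of the pairs leaving `A` -/
def cutw {T : Type} [Fintype T] [DecidableEq T] (w : T → T → ℕ) (A : Finset T) : ℕ :=
  ∑ s ∈ A, ∑ t ∈ Aᶜ, w s t

/-- total capacity of the edges with exactly one end in `A` -/
noncomputable def crs {T E : Type} [Fintype E] [DecidableEq T] (u v : E → T) (a : E → ℝ)
    (A : Finset T) : ℝ :=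
  ∑ e, if (u e ∈ A ↔ v e ∈ A) then 0 else a e

/-- grounded weighted Laplacian -/
noncomputable def lap {T E : Type} [Fintype E] [DecidableEq T] (u v : E → T) (o : T)
    (c : E → ℝ) : Matrix T T ℝ :=
  Matrix.vecMulVec (Pi.single o 1) (Pi.single o 1) +
    ∑ e, c e • Matrix.vecMulVec (Pi.single (u e) 1 - Pi.single (v e) 1)
      (Pi.single (u e) 1 - Pi.single (v e) 1)

namespace Str

variable {V : Type} (S : Str V)

def step (v : V) (i : Fin 3) : V := ![S.μ v, S.π v, S.π⁻¹ v] i

/-- head of a dart -/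
def hd (d : Dt V) : V := S.step d.1 d.2

/-- reverse of a dart -/
def rv (d : Dt V) : Dt V := (S.hd d, rd d.2)

def act : V → List (Fin 3) → V
  | v, [] => v
  | v, d :: w => act (S.step v d) w

/-- girth at least `c` -/
def Gir (c : ℕ) : Prop := ∀ v w, Red w → w ≠ [] → w.length < c → S.act v w ≠ v

def Near (ρ : ℕ) (u v : V) : Prop := ∃ w : List (Fin 3), w.length ≤ ρ ∧ S.act u w = v

/-- the arcs of length `κ` starting at `x` and `x'` are within distance `ρ` -/
def TN (κ κ' ρ : ℕ) (x x' : V) : Prop := ∃ i < κ, ∃ j < κ', S.Near ρ ((S.π ^ i) x) ((S.π ^ j) x')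

def Anti (f : Dt V → ℝ) : Prop := ∀ d, f (S.rv d) = -f d

/-- the dart with word `w` in the tree hanging from the matching edge at `a` -/
def dart (a : V) : List Bool → Dt V
  | [] => (a, 0)
  | β :: w => (S.hd (dart a w), kid (dart a w).2 β)

def tip (a : V) (w : List Bool) : V := S.hd (S.dart a w)

/-- the trees of depth `ρ` hanging from `F` are disjoint, embedded and avoid `F` -/
def HInj (F : Finset V) (ρ : ℕ) : Prop :=
  (∀ a ∈ F, ∀ a' ∈ F, ∀ w w' : List Bool, w.length ≤ ρ → w'.length ≤ ρ →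
    S.tip a w = S.tip a' w' → a = a' ∧ w = w') ∧
  ∀ a ∈ F, ∀ w : List Bool, w.length ≤ ρ → S.tip a w ∉ F

/-- the vertices where a charge of colour `x` at `a` is split have the other colour -/
def Good (k : ℕ) (y : V → Bool) (a : V) (x : Bool) : Prop :=
  ∀ w : List Bool, Even w.length → w.length < 2 * k → amt k w ≠ 0 → y (S.tip a w) ≠ x

def Pat (k : ℕ) (y : V → Bool) (g : V) : Prop :=
  (∀ i ∈ ({0, 1, 3, 4} : Finset ℕ), S.Good k y ((S.π ^ i) g) (y g)) ∧
    ∀ i ∈ ({5, 6, 8, 9} : Finset ℕ), S.Good k y ((S.π ^ i) g) (!y g)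

/-- the flow along the 2-factor given by a colouring -/
noncomputable def base (y : V → Bool) (d : Dt V) : ℝ :=
  if d.2 = 0 then 0 else (sgn (y d.1) - sgn (y (S.hd d))) / 4

/-- steps back to the last mark -/
noncomputable def idx (J : Finset V) (v : V) : ℕ := sInf {i | (S.π⁻¹ ^ i) v ∈ J}

/-- the last mark -/
noncomputable def seg (J : Finset V) (v : V) : V := (S.π⁻¹ ^ S.idx J v) v

/-- marks with gaps between `lo` and `hi` -/
def Mark (J : Finset V) (lo hi : ℕ) : Prop :=
  (∀ x ∈ J, ∀ i, 0 < i → i < lo → (S.π ^ i) x ∉ J) ∧ ∀ v, ∃ i < hi, (S.π⁻¹ ^ i) v ∈ J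

/-- the colouring alternating along every segment -/
noncomputable def y0 (J : Finset V) (ω : V → Bool) (v : V) : Bool :=
  xor (ω (S.seg J v)) (decide (Odd (S.idx J v)))

variable [DecidableEq V]

def tube (J : Finset V) (κ : ℕ) : Finset V := (J ×ˢ range κ).image fun p => (S.π ^ p.2) p.1

/-- the tree of a controller -/
def Om (r : ℕ) (g : V) : Finset V :=
  S.tube {g} 10 ∪ (range 10 ×ˢ (range (r + 1)).biUnion Wd).image
    fun p => S.tip ((S.π ^ p.1) g) p.2

/-- the part of a unit charge at `a` that ends in `X` -/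
noncomputable def nu (k ρ : ℕ) (a : V) (X : Finset V) : ℝ :=
  ∑ w ∈ Wd ρ, if S.tip a w ∈ X then amt k w else 0

/-- every vertex is reached from `R` inside `U` -/
def Rooted (R U : Finset V) : Prop :=
  ∀ X ⊆ U, X.Nonempty → Disjoint X R → ∃ d : Dt V, d.1 ∈ X ∧ S.hd d ∈ U \ X

variable [Fintype V]

/-- darts crossing the boundary of `X`, in either direction -/
def bd (X : Finset V) : Finset (Dt V) := univ.filter fun d => ¬ (d.1 ∈ X ↔ S.hd d ∈ X)

/-- darts leaving `X` -/
def out (X : Finset V) : Finset (Dt V) := univ.filter fun d => d.1 ∈ X ∧ S.hd d ∉ X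

/-- twice the size of the edge cut of `X` -/
def b (X : Finset V) : ℕ := (S.bd X).card

def Iso (c : ℕ) : Prop :=
  ∀ X : Finset V, X.Nonempty → Xᶜ.Nonempty → 2 * min c (min X.card Xᶜ.card + 2) ≤ S.b X

def Conn (Ω : Finset V) : Prop :=
  ∀ X : Finset V, (∃ u ∈ Ω, u ∈ X) → (∃ v ∈ Ω, v ∉ X) → ∃ d ∈ S.bd X, d.1 ∈ Ω ∧ S.hd d ∈ Ω

/-- no small set has its boundary inside the boundary of `U` -/
def Big (s : ℕ) (U : Finset V) : Prop :=
  ∀ P : Finset V, P.Nonempty → P.card < s → ¬ S.bd P ⊆ S.bd U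

/-- a partition into connected cells with sizes between `l` and `6 l`, labelled by `G` -/
structure Part (G : Finset V) (cell : V → V) (l : ℕ) : Prop where
  mem : ∀ v, cell v ∈ G
  self : ∀ g ∈ G, cell g = g
  conn : ∀ g ∈ G, S.Conn (univ.filter fun v => cell v = g)
  lo : ∀ g ∈ G, l ≤ (univ.filter fun v => cell v = g).card
  hi : ∀ g ∈ G, (univ.filter fun v => cell v = g).card ≤ 6 * l

/-- disjoint trees with `ω` vertices around the points of `G` -/
structure Trees (G : Finset V) (Ω : V → Finset V) (ω : ℕ) : Prop where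
  mem : ∀ g ∈ G, g ∈ Ω g
  conn : ∀ g ∈ G, S.Conn (Ω g)
  card : ∀ g ∈ G, (Ω g).card = ω
  disj : ∀ g ∈ G, ∀ g' ∈ G, g ≠ g' → Disjoint (Ω g) (Ω g')
  bdy : ∀ g ∈ G, S.b (Ω g) ≤ 2 * (ω + 2)

/-- Gibbs weight -/
noncomputable def wt (γ β : ℝ) (Ω : V → Finset V) (ω : ℕ) (A Y : Finset V) : ℝ :=
  Real.exp (-γ * S.b Y + β * ∑ g ∈ A, (mino (Ω g) Y : ℝ) / ω)

/-- a colouring with defects at `F` -/
structure Col (k : ℕ) (y : V → Bool) (F : Finset V) : Prop where
  alt : ∀ v ∉ F, y (S.π v) ≠ y v ∧ y (S.π⁻¹ v) ≠ y v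
  src : ∀ a ∈ F, y (S.π a) ≠ y (S.π⁻¹ a)
  good : ∀ a ∈ F, S.Good k y a (y a)

/-- a colouring with far apart defects and a net of controllers -/
structure Cfg (k R r l : ℕ) (y : V → Bool) (F G : Finset V) (cell : V → V) : Prop where
  col : S.Col k y F
  injF : S.HInj F R
  pat : ∀ g ∈ G, S.Pat k y g
  injK : S.HInj (S.tube G 10) r
  injP : ∀ g ∈ G, ∀ g' ∈ G, ∀ i < 10, ∀ j < 10, (S.π ^ i) g = (S.π ^ j) g' → g = g' ∧ i = j
  far : ∀ a ∈ F, ∀ g ∈ G, a ∉ S.Om r g ∧
    ∀ w : List Bool, w.length ≤ 2 * k → S.tip a w ∉ S.Om r g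
  part : S.Part G cell l

end Str

end Pool.Agent.MP_9a3194_co
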