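import Pool.Agent.MP_9a3194_co.Basic

open Finset
open scoped symmDiff

namespace Pool.Agent.MP_9a3194_co

variable {V : Type} [Fintype V] [DecidableEq V] (S : Str V)

open Classical in
/-- the cluster of `v`: the vertices that no cut inside `Γ` separates from `v` -/
noncomputable def cl_Dich (Γ : Finset (Dt V)) (v : V) : Finset V :=
  univ.filter fun u => ∀ P : Finset V, S.bd P ⊆ Γ → (u ∈ P ↔ v ∈ P)

theorem mem_Dich {Γ : Finset (Dt V)} {u v : V} :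
    u ∈ cl_Dich S Γ v ↔ ∀ P : Finset V, S.bd P ⊆ Γ → (u ∈ P ↔ v ∈ P) := by
  simp [cl_Dich]

theorem self_Dich (Γ : Finset (Dt V)) (v : V) : v ∈ cl_Dich S Γ v :=
  (mem_Dich S).2 fun _ _ => Iff.rfl

theorem eq_Dich {Γ : Finset (Dt V)} {u v : V} (h : u ∈ cl_Dich S Γ v) :
    cl_Dich S Γ u = cl_Dich S Γ v := by
  rw [mem_Dich] at h
  ext w
  rw [mem_Dich, mem_Dich]
  exact forall₂_congr fun P hP => by rw [h P hP]

theorem hd_Dich {Γ : Finset (Dt V)} {d : Dt V} (h : d ∉ Γ) : S.hd d ∈ cl_Dich S Γ d.1 :=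
  (mem_Dich S).2 fun P hP => by
    have h1 : d ∉ S.bd P := fun h' => h (hP h')
    rw [S.mem_bd, not_not] at h1
    exact h1.symm

/-- a union of clusters has its boundary inside `Γ` -/
theorem sat_Dich {Γ : Finset (Dt V)} {U : Finset V}
    (h : ∀ u v, cl_Dich S Γ u = cl_Dich S Γ v → v ∈ U → u ∈ U) : S.bd U ⊆ Γ := by
  intro d hd
  by_contra hΓ
  have e := eq_Dich S (hd_Dich S hΓ)
  exact S.mem_bd.1 hd ⟨h _ _ e, h _ _ e.symm⟩

theorem bd_Dich (Γ : Finset (Dt V)) (v : V) : S.bd (cl_Dich S Γ v) ⊆ Γ :=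
  sat_Dich S fun u w e hw => by
    rw [← eq_Dich S hw, ← e]
    exact self_Dich S Γ u

/-- clusters are connected -/
theorem conn_Dich {Γ : Finset (Dt V)} {X : Finset V} {x r : V} (hx : x ∈ X) (hr : r ∉ X)
    (h : x ∈ cl_Dich S Γ r) : ∃ d : Dt V, d.1 ∈ X ∧ S.hd d ∈ cl_Dich S Γ r \ X := by
  have h1 : ¬ S.bd (X ∩ cl_Dich S Γ r) ⊆ Γ := fun h1 =>
    hr (mem_inter.1 (((mem_Dich S).1 h _ h1).1 (mem_inter.2 ⟨hx, h⟩))).1
  obtain ⟨d, hd, hΓ⟩ := not_subset.1 h1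
  have h2 : d ∉ S.bd (cl_Dich S Γ r) := fun h' => hΓ (bd_Dich S Γ r h')
  rw [S.mem_bd, not_not] at h2
  rw [S.mem_bd, mem_inter, mem_inter] at hd
  by_cases h3 : d.1 ∈ X
  · exact ⟨d, h3, mem_sdiff.2 (by tauto)⟩
  · refine ⟨S.rv d, ?_, ?_⟩
    · rw [S.rv_fst]
      tauto
    · rw [S.hd_rv, mem_sdiff]
      tauto

theorem small_Dich {c l : ℕ} (hI : S.Iso c) (hc : l + 2 ≤ c) (hV : 2 * l ≤ Fintype.card V)
    {C : Finset V} (h0 : C.Nonempty) (hl : C.card < l) : C.card ≤ (S.out C).card := by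
  have h1 := card_compl C
  have h2 := hI C h0 (card_pos.1 (by omega))
  rw [S.b_eq] at h2
  omega

/-- small clusters that are not joined to each other have a large boundary -/
theorem sum_Dich {c l : ℕ} (hI : S.Iso c) (hc : l + 2 ≤ c) (hV : 2 * l ≤ Fintype.card V)
    {Γ : Finset (Dt V)} {U : Finset V} (hl : ∀ v ∈ U, (cl_Dich S Γ v).card < l)
    (hU : ∀ v ∈ U, cl_Dich S Γ v ⊆ U) (hΓ : ∀ d ∈ Γ, d.1 ∈ U → S.hd d ∉ U) :
    2 * U.card ≤ S.b U := by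
  rw [S.b_eq]
  refine Nat.mul_le_mul_left 2 ?_
  rw [card_eq_sum_card_fiberwise (f := cl_Dich S Γ) (t := U.image (cl_Dich S Γ))
      fun v hv => mem_coe.2 (mem_image_of_mem _ hv),
    card_eq_sum_card_fiberwise (s := S.out U) (f := fun d => cl_Dich S Γ d.1)
      (t := U.image (cl_Dich S Γ))
      fun d hd => mem_coe.2 (mem_image_of_mem _ (S.mem_out.1 hd).1)]
  refine sum_le_sum fun C hC => ?_
  obtain ⟨v, hv, rfl⟩ := mem_image.1 hC
  refine (card_le_card fun u hu => ?_).trans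
    ((small_Dich S hI hc hV ⟨v, self_Dich S Γ v⟩ (hl v hv)).trans (card_le_card fun d hd => ?_))
  · rw [← (mem_filter.1 hu).2]
    exact self_Dich S Γ u
  · obtain ⟨h1, h2⟩ := S.mem_out.1 hd
    exact mem_filter.2 ⟨S.mem_out.2 ⟨hU v hv h1,
      hΓ d (bd_Dich S Γ v (S.mem_bd.2 fun h => h2 (h.1 h1))) (hU v hv h1)⟩, eq_Dich S h1⟩

theorem one_Dich {c l : ℕ} (hI : S.Iso c) (hc : l + 2 ≤ c) (hV : 2 * l ≤ Fintype.card V)
    {Ω : V → Finset V} {W Z M M₁ : Finset V} {Γ : Finset (Dt V)} (hΓ : Γ = S.bd Z ∪ S.bd W)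
    (hdj : ∀ g ∈ M, ∀ g' ∈ M, g ≠ g' → Disjoint (Ω g) (Ω g')) (hMW : ∀ g ∈ M, Ω g ⊆ W)
    (hM : M₁ ⊆ M) (hcard : M.card ≤ 2 * M₁.card) {t : ℝ} (ht : 0 < t)
    (hZ : ∀ g ∈ M₁, t ≤ (Ω g ∩ Z).card)
    (hD : ∀ g ∈ M₁, ∀ v ∈ Ω g ∩ Z, (cl_Dich S Γ v).card < l) :
    ∃ U ⊆ W, S.bd U ⊆ Γ ∧ S.Rooted (M.biUnion Ω) U ∧ t * M.card ≤ 2 * U.card ∧
      2 * U.card ≤ S.b U := by
  have hZΓ : S.bd Z ⊆ Γ := hΓ ▸ subset_union_left
  have hWΓ : S.bd W ⊆ Γ := hΓ ▸ subset_union_right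
  set U : Finset V := univ.filter fun u => u ∈ Z ∧ (cl_Dich S Γ u).card < l ∧
    ∃ r ∈ M.biUnion Ω, u ∈ cl_Dich S Γ r with hUdef
  have hU : ∀ u, u ∈ U ↔ u ∈ Z ∧ (cl_Dich S Γ u).card < l ∧
      ∃ r ∈ M.biUnion Ω, u ∈ cl_Dich S Γ r := fun u => by
    rw [hUdef, mem_filter, and_iff_right (mem_univ u)]
  have hUW : U ⊆ W := fun u hu => by
    obtain ⟨-, -, r, hr, h⟩ := (hU u).1 hu
    obtain ⟨g, hg, hr⟩ := mem_biUnion.1 hr
    exact ((mem_Dich S).1 h W hWΓ).2 (hMW g hg hr)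
  have hcl : ∀ v ∈ U, cl_Dich S Γ v ⊆ U := fun v hv u hu => by
    obtain ⟨h1, h2, r, hr, h⟩ := (hU v).1 hv
    refine (hU u).2 ⟨((mem_Dich S).1 hu Z hZΓ).2 h1, by rwa [eq_Dich S hu], r, hr, ?_⟩
    rwa [← eq_Dich S h]
  refine ⟨U, hUW, sat_Dich S fun u v e hv => hcl v hv (e ▸ self_Dich S Γ u), ?_, ?_,
    sum_Dich S hI hc hV (fun v hv => ((hU v).1 hv).2.1) hcl fun d hd h1 h2 => ?_⟩
  · rintro X hX ⟨x, hx⟩ hdis
    obtain ⟨-, -, r, hr, h⟩ := (hU x).1 (hX hx)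
    obtain ⟨d, h1, h2⟩ := conn_Dich S hx (disjoint_right.1 hdis hr) h
    rw [← eq_Dich S h] at h2
    exact ⟨d, h1, sdiff_subset_sdiff (hcl x (hX hx)) Subset.rfl h2⟩
  · have h1 : M₁.biUnion (fun g => Ω g ∩ Z) ⊆ U := fun u hu => by
      obtain ⟨g, hg, hu⟩ := mem_biUnion.1 hu
      exact (hU u).2 ⟨(mem_inter.1 hu).2, hD g hg u hu, u,
        mem_biUnion.2 ⟨g, hM hg, (mem_inter.1 hu).1⟩, self_Dich S Γ u⟩
    have h2 := card_le_card h1
    rw [card_biUnion fun g hg g' hg' hne => (hdj g (hM hg) g' (hM hg') hne).mono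
      inter_subset_left inter_subset_left] at h2
    have h3 : (∑ g ∈ M₁, ((Ω g ∩ Z).card : ℝ)) ≤ U.card := by exact_mod_cast h2
    have h4 := card_nsmul_le_sum M₁ _ _ hZ
    rw [nsmul_eq_mul] at h4
    have h5 : (M.card : ℝ) ≤ 2 * M₁.card := by exact_mod_cast hcard
    nlinarith [mul_le_mul_of_nonneg_left h5 ht.le]
  · rw [hΓ, mem_union, S.mem_bd, S.mem_bd] at hd
    have h3 := ((hU _).1 h1).1
    have h4 := ((hU _).1 h2).1
    have h5 := hUW h1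
    have h6 := hUW h2
    tauto

theorem two_Dich {c l : ℕ} {G : Finset V} {cell : V → V} (hI : S.Iso c) (hc : l + 2 ≤ c)
    (hV : 2 * l ≤ Fintype.card V) (hP : S.Part G cell l) (W : Finset V) (hW : Sat cell W)
    (Y : Finset V) : ∃ U ⊆ W, S.bd U ⊆ S.bd Y ∪ S.bd W ∧ S.Big l U ∧
      ∀ v, ¬ (cl_Dich S (S.bd Y ∪ S.bd W) v).card < l → (v ∈ U ↔ v ∈ Y ∧ v ∈ W) := by
  classical
  set Γ := S.bd Y ∪ S.bd W with hΓ
  obtain ⟨U, hU, hmin⟩ := exists_min_image (univ.filter fun U : Finset V => U ⊆ W ∧ S.bd U ⊆ Γ ∧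
      ∀ v, ¬ (cl_Dich S Γ v).card < l → (v ∈ U ↔ v ∈ Y ∧ v ∈ W)) S.b
    ⟨Y ∩ W, mem_filter.2 ⟨mem_univ _, inter_subset_right, fun d hd => by
      rw [S.mem_bd, mem_inter, mem_inter] at hd
      rw [hΓ, mem_union, S.mem_bd, S.mem_bd]
      tauto, fun v _ => mem_inter⟩⟩
  obtain ⟨-, h1, h2, h3⟩ := mem_filter.1 hU
  refine ⟨U, h1, h2, fun P hP0 hPl hPU => ?_, h3⟩
  have hD : ∀ v ∈ P, (cl_Dich S Γ v).card < l := fun v hv =>
    (card_le_card fun u hu => ((mem_Dich S).1 hu P (hPU.trans h2)).2 hv).trans_lt hPl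
  have hPW : P ⊆ W := fun v hv => by
    by_contra hvW
    obtain ⟨u, hu, huP⟩ := exists_mem_notMem_of_card_lt_card
      (hPl.trans_le (hP.lo _ (hP.mem v)))
    obtain ⟨d, hd, e1, e2⟩ := hP.conn _ (hP.mem v) P ⟨v, mem_filter.2 ⟨mem_univ _, rfl⟩, hv⟩
      ⟨u, hu, huP⟩
    have a1 : d.1 ∉ U := fun h => hvW ((hW _ _ (mem_filter.1 e1).2).1 (h1 h))
    have a2 : S.hd d ∉ U := fun h => hvW ((hW _ _ (mem_filter.1 e2).2).1 (h1 h))
    exact S.mem_bd.1 (hPU hd) (iff_of_false a1 a2)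
  have hsub : S.bd (U ∆ P) ⊆ S.bd U := fun d hd => by
    rw [S.bd_symmDiff, mem_symmDiff] at hd
    exact hd.elim (fun h => h.1) fun h => hPU h.1
  have h4 := hmin (U ∆ P) (mem_filter.2 ⟨mem_univ _, fun v hv => by
    rw [mem_symmDiff] at hv
    exact hv.elim (fun h => h1 h.1) fun h => hPW h.1, hsub.trans h2, fun v hv => by
    have a1 : v ∉ P := fun h => hv (hD v h)
    rw [← h3 v hv, mem_symmDiff]
    tauto⟩)
  have h5 := card_compl P
  obtain ⟨d, hd⟩ := card_pos.1 (hI.b_pos (by omega) hP0 (card_pos.1 (by omega)))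
  refine absurd (card_lt_card ⟨hsub, fun h => ?_⟩) (not_lt.2 h4)
  have h6 := h (hPU hd)
  rw [S.bd_symmDiff, mem_symmDiff] at h6
  exact h6.elim (fun h => h.2 hd) fun h => h.2 (hPU hd)

/-- many cut trees come from many small clusters or from a cut between large clusters -/
theorem dichotomy {c l ω : ℕ} {G : Finset V} {Ω : V → Finset V} {cell : V → V} (hI : S.Iso c)
    (hc : l + 2 ≤ c) (hV : 2 * l ≤ Fintype.card V) (hP : S.Part G cell l) (hT : S.Trees G Ω ω)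
    (W : Finset V) (hW : Sat cell W) (N : Finset V) (hN : N ⊆ G) (hNW : ∀ g ∈ N, Ω g ⊆ W)
    (Y : Finset V) {t : ℝ} (ht : 0 < t) (hY : ∀ g ∈ N, t ≤ mino (Ω g) Y) :
    (∃ M ⊆ N, N.card ≤ 2 * M.card ∧ ∃ U ⊆ W, S.bd U ⊆ S.bd Y ∪ S.bd W ∧
      S.Rooted (M.biUnion Ω) U ∧ t * M.card ≤ 2 * U.card ∧ 2 * U.card ≤ S.b U) ∨
    ∃ U ⊆ W, S.bd U ⊆ S.bd Y ∪ S.bd W ∧ S.Big l U ∧ N.card ≤ 2 * S.b U := by
  classical
  set Γ := S.bd Y ∪ S.bd W with hΓ
  let A : V → Prop := fun g => ∀ v ∈ Ω g ∩ Y, (cl_Dich S Γ v).card < l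
  let B : V → Prop := fun g => ∀ v ∈ Ω g ∩ Yᶜ, (cl_Dich S Γ v).card < l
  have hsplit := card_filter_add_card_filter_not (s := N) fun g => A g ∨ B g
  by_cases hcase : N.card ≤ 2 * (N.filter fun g => A g ∨ B g).card
  · left
    have hM : (N.filter fun g => A g ∨ B g) ⊆ N := filter_subset _ _
    refine ⟨_, hM, hcase, ?_⟩
    have hdj : ∀ g ∈ (N.filter fun g => A g ∨ B g), ∀ g' ∈ (N.filter fun g => A g ∨ B g),
        g ≠ g' → Disjoint (Ω g) (Ω g') := fun g hg g' hg' =>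
      hT.disj g (hN (hM hg)) g' (hN (hM hg'))
    have h1 : (N.filter fun g => A g ∨ B g).card ≤ (N.filter A).card + (N.filter B).card := by
      rw [filter_or]
      exact card_union_le _ _
    rcases le_total (N.filter B).card (N.filter A).card with h2 | h2
    · refine one_Dich S hI hc hV (Z := Y) (M₁ := N.filter A) hΓ hdj (fun g hg => hNW g (hM hg))
        (monotone_filter_right N fun g _ h => Or.inl h) (by omega) ht (fun g hg => ?_)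
        fun g hg => (mem_filter.1 hg).2
      refine (hY g (mem_filter.1 hg).1).trans ?_
      exact_mod_cast min_le_left _ _
    · refine one_Dich S hI hc hV (Z := Yᶜ) (M₁ := N.filter B) (by rw [hΓ, S.bd_compl]) hdj
        (fun g hg => hNW g (hM hg)) (monotone_filter_right N fun g _ h => Or.inr h) (by omega) ht
        (fun g hg => ?_) fun g hg => (mem_filter.1 hg).2
      refine (hY g (mem_filter.1 hg).1).trans ?_
      rw [← sdiff_eq_inter_compl]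
      exact_mod_cast min_le_right _ _
  · right
    obtain ⟨U, h1, h2, h3, h4⟩ := two_Dich S hI hc hV hP W hW Y
    refine ⟨U, h1, h2, h3, ?_⟩
    have hM : (N.filter fun g => ¬ (A g ∨ B g)) ⊆ N := filter_subset _ _
    have h5 := S.touch (N.filter fun g => ¬ (A g ∨ B g)) Ω (fun g hg => hT.conn g (hN (hM hg)))
      (fun g hg g' hg' => hT.disj g (hN (hM hg)) g' (hN (hM hg'))) U fun g hg => by
        obtain ⟨a1, a2⟩ := not_or.1 (mem_filter.1 hg).2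
        obtain ⟨u, hu⟩ := not_forall.1 a1
        obtain ⟨v, hv⟩ := not_forall.1 a2
        obtain ⟨u1, u2⟩ := Classical.not_imp.1 hu
        obtain ⟨v1, v2⟩ := Classical.not_imp.1 hv
        rw [mem_inter] at u1 v1
        exact ⟨⟨u, u1.1, (h4 u u2).2 ⟨u1.2, hNW g (hM hg) u1.1⟩⟩, v, v1.1,
          fun h => mem_compl.1 v1.2 ((h4 v v2).1 h).1⟩
    omega

end Pool.Agent.MP_9a3194_co
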