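import Pool.Agent.MP_9a3194_co.Basic

open Finset
open scoped symmDiff

namespace Pool.Agent.MP_9a3194_co

variable {V : Type} [Fintype V] [DecidableEq V] (S : Str V)

omit [Fintype V] in
private theorem rooted_erase_Gen {R U : Finset V} (r : V) (h : S.Rooted R U) :
    S.Rooted (R ∪ univ.image (S.step r)) (U.erase r) := by
  intro X hX hne hdj
  obtain ⟨d, hd1, hd2⟩ := h X (hX.trans (erase_subset _ _)) hne
    (hdj.mono_right subset_union_left)
  refine ⟨d, hd1, ?_⟩
  rw [mem_sdiff] at hd2 ⊢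
  refine ⟨mem_erase.2 ⟨?_, hd2.1⟩, hd2.2⟩
  intro hr
  have h1 : S.step r (rd d.2) = d.1 := by
    rw [← hr]; exact S.step_step d.1 d.2
  exact disjoint_left.1 hdj hd1 (mem_union_right _ (mem_image.2 ⟨rd d.2, mem_univ _, h1⟩))

omit [Fintype V] in
open Classical in
private theorem rooted_aux_Gen {x : ℝ} (h0 : 0 ≤ x) (h1 : x ≤ 1 / 10) (n : ℕ) :
    ∀ D : Finset V, D.card = n → ∀ R : Finset V,
      ∑ U ∈ D.powerset.filter (S.Rooted R), x ^ U.card ≤ (1 + 2 * x) ^ (R ∩ D).card := by
  have hf : (1 : ℝ) ≤ 1 + 2 * x := by linarith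
  induction n with
  | zero =>
    intro D hD R
    rw [card_eq_zero] at hD
    subst hD
    calc ∑ U ∈ (∅ : Finset V).powerset.filter (S.Rooted R), x ^ U.card
        ≤ ∑ U ∈ (∅ : Finset V).powerset, x ^ U.card :=
          sum_le_sum_of_subset_of_nonneg (filter_subset _ _) fun _ _ _ => pow_nonneg h0 _
      _ = 1 := by simp
      _ ≤ _ := one_le_pow₀ hf
  | succ n ih =>
    intro D hD R
    rcases (R ∩ D).eq_empty_or_nonempty with he | ⟨r, hr⟩
    · have hsub : D.powerset.filter (S.Rooted R) ⊆ {∅} := by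
        intro U hU
        rw [mem_filter, mem_powerset] at hU
        rw [mem_singleton]
        by_contra hne
        have hdj : Disjoint U R := by
          rw [disjoint_left]
          intro a ha haR
          have : a ∈ R ∩ D := mem_inter.2 ⟨haR, hU.1 ha⟩
          rw [he] at this
          exact notMem_empty _ this
        obtain ⟨d, _, hd⟩ := hU.2 U Subset.rfl (nonempty_iff_ne_empty.2 hne) hdj
        simp at hd
      calc ∑ U ∈ D.powerset.filter (S.Rooted R), x ^ U.card
          ≤ ∑ U ∈ ({∅} : Finset (Finset V)), x ^ U.card :=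
            sum_le_sum_of_subset_of_nonneg hsub fun _ _ _ => pow_nonneg h0 _
        _ = 1 := by simp
        _ ≤ _ := one_le_pow₀ hf
    · have hrR : r ∈ R := (mem_inter.1 hr).1
      have hrD : r ∈ D := (mem_inter.1 hr).2
      have hcard : (D.erase r).card = n := by rw [card_erase_of_mem hrD, hD]; rfl
      set m := (R ∩ D.erase r).card with hm
      have hm1 : (R ∩ D).card = m + 1 := by
        have : R ∩ D.erase r = (R ∩ D).erase r := by
          ext a; simp only [mem_inter, mem_erase]; tauto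
        rw [hm, this, card_erase_add_one hr]
      have hA := ih (D.erase r) hcard R
      have hB := ih (D.erase r) hcard (R ∪ univ.image (S.step r))
      have hm3 : ((R ∪ univ.image (S.step r)) ∩ D.erase r).card ≤ m + 3 := by
        rw [union_inter_distrib_right]
        refine (card_union_le _ _).trans (Nat.add_le_add le_rfl ?_)
        refine (card_le_card inter_subset_left).trans (card_image_le.trans ?_)
        simp
      have hB' : ∑ U ∈ (D.erase r).powerset.filter (S.Rooted (R ∪ univ.image (S.step r))),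
          x ^ U.card ≤ (1 + 2 * x) ^ (m + 3) := hB.trans (pow_le_pow_right₀ hf hm3)
      rw [← sum_filter_add_sum_filter_not _ (fun U => r ∈ U)]
      have h2 : ∑ U ∈ (D.powerset.filter (S.Rooted R)).filter (fun U => r ∉ U), x ^ U.card ≤
          (1 + 2 * x) ^ m := by
        refine le_trans (sum_le_sum_of_subset_of_nonneg ?_ fun _ _ _ => pow_nonneg h0 _) hA
        intro U hU
        simp only [mem_filter, mem_powerset] at hU ⊢
        exact ⟨subset_erase.2 ⟨hU.1.1, hU.2⟩, hU.1.2⟩
      have h3 : ∑ U ∈ (D.powerset.filter (S.Rooted R)).filter (fun U => r ∈ U), x ^ U.card ≤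
          x * (1 + 2 * x) ^ (m + 3) := by
        refine le_trans ?_ (mul_le_mul_of_nonneg_left hB' h0)
        have hinj : Set.InjOn (fun U : Finset V => U.erase r)
            ((D.powerset.filter (S.Rooted R)).filter (fun U => r ∈ U) : Set (Finset V)) := by
          intro U hU U' hU' h
          have hU1 : r ∈ U := (mem_filter.1 hU).2
          have hU2 : r ∈ U' := (mem_filter.1 hU').2
          have h' : U.erase r = U'.erase r := h
          rw [← insert_erase hU1, ← insert_erase hU2, h']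
        calc ∑ U ∈ (D.powerset.filter (S.Rooted R)).filter (fun U => r ∈ U), x ^ U.card
            = ∑ U ∈ (D.powerset.filter (S.Rooted R)).filter (fun U => r ∈ U),
                x * x ^ (U.erase r).card := by
              refine sum_congr rfl fun U hU => ?_
              rw [← card_erase_add_one (mem_filter.1 hU).2, pow_succ, mul_comm]
          _ = x * ∑ U ∈ ((D.powerset.filter (S.Rooted R)).filter (fun U => r ∈ U)).image
                (fun U => U.erase r), x ^ U.card := by
              rw [sum_image hinj, mul_sum]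
          _ ≤ _ := by
              refine mul_le_mul_of_nonneg_left
                (sum_le_sum_of_subset_of_nonneg ?_ fun _ _ _ => pow_nonneg h0 _) h0
              intro U' hU'
              obtain ⟨U, hU, rfl⟩ := mem_image.1 hU'
              simp only [mem_filter, mem_powerset] at hU ⊢
              exact ⟨erase_subset_erase _ hU.1.1, rooted_erase_Gen S r hU.1.2⟩
      have h4 : (1 + 2 * x) ^ 3 ≤ 2 := by
        calc (1 + 2 * x) ^ 3 ≤ (6 / 5 : ℝ) ^ 3 := pow_le_pow_left₀ (by linarith) (by linarith) 3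
          _ ≤ 2 := by norm_num
      have h5 : 0 ≤ (1 + 2 * x) ^ m := pow_nonneg (by linarith) _
      have h6 : x * (1 + 2 * x) ^ (m + 3) ≤ (1 + 2 * x) ^ m * (2 * x) := by
        rw [pow_add]
        have := mul_le_mul_of_nonneg_left h4 (mul_nonneg h5 h0)
        nlinarith
      rw [hm1, pow_succ]
      nlinarith

open Classical in
theorem rooted_sum (R : Finset V) {x : ℝ} (h0 : 0 ≤ x) (h1 : x ≤ 1 / 10) :
    ∑ U ∈ univ.filter (S.Rooted R), x ^ U.card ≤ (1 + 2 * x) ^ R.card := by
  have h := rooted_aux_Gen S h0 h1 _ (univ : Finset V) rfl R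
  rwa [powerset_univ, inter_univ] at h

private theorem b_ineq_Gen {U W Y : Finset V} (h : S.bd U ⊆ S.bd Y ∪ S.bd W) :
    S.b (Y ∆ U) + S.b U ≤ S.b Y + 2 * S.b W := by
  unfold Str.b
  rw [S.bd_symmDiff]
  set A := S.bd Y
  set B := S.bd U
  set C := S.bd W
  have h1 : (B \ A).card ≤ C.card := by
    refine card_le_card fun d hd => ?_
    rw [mem_sdiff] at hd
    exact (mem_union.1 (h hd.1)).resolve_left hd.2
  have h2 : (A ∆ B).card ≤ (A \ B).card + (B \ A).card := by
    rw [symmDiff_def]; exact card_union_le _ _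
  have h3 := card_sdiff_add_card_inter A B
  have h4 := card_sdiff_add_card_inter B A
  rw [inter_comm B A] at h4
  omega

open Classical in
/-- Peierls estimate -/
theorem peierls {γ κ : ℝ} (hγ : 0 ≤ γ) (ρ : Finset V → ℝ) (W : Finset V)
    (hρ : ∀ Y, ∀ U ⊆ W, ρ Y ≤ ρ (Y ∆ U) + κ) (C : Finset (Finset V)) :
    ∑ Y ∈ univ.filter (fun Y => ∃ U ∈ C, U ⊆ W ∧ S.bd U ⊆ S.bd Y ∪ S.bd W),
        Real.exp (-γ * S.b Y + ρ Y) ≤
      Real.exp (2 * γ * S.b W + κ) * (∑ U ∈ C, Real.exp (-γ * S.b U)) *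
        ∑ Y, Real.exp (-γ * S.b Y + ρ Y) := by
  set K := Real.exp (2 * γ * S.b W + κ) with hK
  set g : Finset V → ℝ := fun Y => Real.exp (-γ * S.b Y + ρ Y) with hg
  have hK0 : 0 ≤ K := (Real.exp_pos _).le
  have hg0 : ∀ Y, 0 ≤ g Y := fun Y => (Real.exp_pos _).le
  have hnn : ∀ Y U : Finset V, 0 ≤ K * Real.exp (-γ * S.b U) * g (Y ∆ U) := fun Y U =>
    mul_nonneg (mul_nonneg hK0 (Real.exp_pos _).le) (hg0 _)
  have hterm : ∀ Y ∈ univ.filter (fun Y => ∃ U ∈ C, U ⊆ W ∧ S.bd U ⊆ S.bd Y ∪ S.bd W),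
      g Y ≤ ∑ U ∈ C, K * Real.exp (-γ * S.b U) * g (Y ∆ U) := by
    intro Y hY
    obtain ⟨U, hUC, hUW, hbd⟩ := (mem_filter.1 hY).2
    refine le_trans ?_ (single_le_sum (f := fun U => K * Real.exp (-γ * S.b U) * g (Y ∆ U))
      (fun U _ => hnn Y U) hUC)
    have h1 : ((S.b (Y ∆ U) : ℝ) + S.b U) ≤ S.b Y + 2 * S.b W := by
      exact_mod_cast b_ineq_Gen S hbd
    have h2 := hρ Y U hUW
    have h3 := mul_le_mul_of_nonneg_left h1 hγ
    simp only [hK, hg]
    rw [← Real.exp_add, ← Real.exp_add, Real.exp_le_exp]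
    nlinarith
  have hbij : ∀ U : Finset V, ∑ Y, g (Y ∆ U) = ∑ Y, g Y := by
    intro U
    exact Equiv.sum_comp (Function.Involutive.toPerm (fun Y : Finset V => Y ∆ U)
      (fun Y => symmDiff_symmDiff_cancel_right U Y)) g
  calc ∑ Y ∈ univ.filter (fun Y => ∃ U ∈ C, U ⊆ W ∧ S.bd U ⊆ S.bd Y ∪ S.bd W), g Y
      ≤ ∑ Y ∈ univ.filter (fun Y => ∃ U ∈ C, U ⊆ W ∧ S.bd U ⊆ S.bd Y ∪ S.bd W),
          ∑ U ∈ C, K * Real.exp (-γ * S.b U) * g (Y ∆ U) := sum_le_sum hterm
    _ ≤ ∑ Y, ∑ U ∈ C, K * Real.exp (-γ * S.b U) * g (Y ∆ U) :=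
        sum_le_sum_of_subset_of_nonneg (filter_subset _ _) fun Y _ _ =>
          sum_nonneg fun U _ => hnn Y U
    _ = ∑ U ∈ C, K * Real.exp (-γ * S.b U) * ∑ Y, g Y := by
        rw [sum_comm]
        refine sum_congr rfl fun U _ => ?_
        rw [← mul_sum, hbij]
    _ = K * (∑ U ∈ C, Real.exp (-γ * S.b U)) * ∑ Y, g Y := by
        rw [← sum_mul, ← mul_sum]

end Pool.Agent.MP_9a3194_co
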