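import Pool.Agent.MP_9a3194_co.Bor
import Pool.Agent.MP_9a3194_co.Gen
import Pool.Agent.MP_9a3194_co.Dich

open Finset
open scoped symmDiff

namespace Pool.Agent.MP_9a3194_co

variable {V : Type} [Fintype V] [DecidableEq V] (S : Str V)

private theorem sum_biUnion_Exp {α β : Type} [DecidableEq β] (s : Finset α) (T : α → Finset β)
    (f : β → ℝ) (hf : ∀ b, 0 ≤ f b) : ∑ b ∈ s.biUnion T, f b ≤ ∑ a ∈ s, ∑ b ∈ T a, f b := by
  classical
  induction s using Finset.induction_on with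
  | empty => simp
  | insert a s ha ih =>
    rw [biUnion_insert, sum_insert ha]
    have h1 := sum_union_inter (s₁ := T a) (s₂ := s.biUnion T) (f := f)
    have h2 : 0 ≤ ∑ b ∈ T a ∩ s.biUnion T, f b := sum_nonneg fun b _ => hf b
    linarith

private theorem markov_Exp {α β : Type} [Fintype β] (N : Finset α) (hN : 0 < N.card) (w : β → ℝ)
    (hw : ∀ y, 0 ≤ w y) (P : α → β → Prop) [∀ a y, Decidable (P a y)] {θ : ℝ} (hθ : 0 ≤ θ)
    (h : ∀ a ∈ N, 2 * θ * ∑ y, w y ≤ ∑ y ∈ univ.filter (fun y => P a y), w y) :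
    θ * ∑ y, w y ≤ ∑ y ∈ univ.filter (fun y => θ * N.card ≤ (N.filter fun a => P a y).card),
      w y := by
  have h1 : N.card * (2 * θ * ∑ y, w y) ≤ ∑ y, w y * ((N.filter fun a => P a y).card : ℝ) := by
    have := sum_le_sum h
    rw [sum_const, nsmul_eq_mul] at this
    refine this.trans (le_of_eq ?_)
    simp only [sum_filter, card_filter, Nat.cast_sum, mul_sum]
    rw [sum_comm]
    refine sum_congr rfl fun y _ => sum_congr rfl fun a _ => ?_
    split_ifs <;> simp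
  have h2 : ∑ y, w y * ((N.filter fun a => P a y).card : ℝ) ≤
      ∑ y, (N.card * (if θ * N.card ≤ (N.filter fun a => P a y).card then w y else 0) +
        θ * N.card * w y) := by
    refine sum_le_sum fun y _ => ?_
    have h3 : ((N.filter fun a => P a y).card : ℝ) ≤ N.card := Nat.cast_le.2 (card_filter_le _ _)
    have h4 := hw y
    have h5 : 0 ≤ θ * N.card * w y := by positivity
    split_ifs with h6
    · nlinarith
    · nlinarith [not_le.1 h6]
  rw [sum_add_distrib, ← mul_sum, ← mul_sum, ← sum_filter] at h2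
  have h7 : (0 : ℝ) < N.card := Nat.cast_pos.2 hN
  refine le_of_mul_le_mul_left ?_ h7
  linarith

open Classical in
private theorem sumA_Exp {ω : ℕ} {Ω : V → Finset V} (N : Finset V)
    (hN : ∀ g ∈ N, (Ω g).card = ω) {γ t θ : ℝ} (hγ : 11 ≤ γ)
    (h1 : 8 * Real.exp (1 - 2 * γ) ≤ t) (h2 : 4 * Real.exp (1 - t * ω / 4) ≤ θ) :
    ∑ U ∈ (N.powerset.filter fun M => θ * N.card ≤ 2 * M.card).biUnion (fun M => univ.filter
      fun U => S.Rooted (M.biUnion Ω) U ∧ t * ω * M.card ≤ 2 * U.card ∧ 2 * U.card ≤ S.b U),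
      Real.exp (-γ * S.b U) ≤ Real.exp (-(θ * N.card / 4)) := by
  obtain ⟨x, hx⟩ : ∃ x, x = Real.exp (1 - 2 * γ) := ⟨_, rfl⟩
  obtain ⟨r, hr⟩ : ∃ r, r = Real.exp (1 - t * ω / 4) := ⟨_, rfl⟩
  have hx0 : 0 ≤ x := hx ▸ (Real.exp_pos _).le
  have hr0 : 0 ≤ r := hr ▸ (Real.exp_pos _).le
  have hx1 : x ≤ 1 / 10 := by
    rw [hx, show 1 - 2 * γ = -(2 * γ - 1) by ring, Real.exp_neg, one_div]
    exact inv_anti₀ (by norm_num) (by linarith [Real.add_one_le_exp (2 * γ - 1)])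
  refine (sum_biUnion_Exp _ _ _ fun _ => (Real.exp_pos _).le).trans ?_
  have key : ∀ M ∈ N.powerset.filter fun M => θ * N.card ≤ 2 * M.card,
      ∑ U ∈ univ.filter (fun U => S.Rooted (M.biUnion Ω) U ∧ t * ω * M.card ≤ 2 * U.card ∧
        2 * U.card ≤ S.b U), Real.exp (-γ * S.b U) ≤
        r ^ M.card * Real.exp (-(θ * N.card / 2)) := by
    intro M hM
    obtain ⟨hM1, hM2⟩ := mem_filter.1 hM
    have a1 : ∑ U ∈ univ.filter (fun U => S.Rooted (M.biUnion Ω) U ∧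
        t * ω * M.card ≤ 2 * U.card ∧ 2 * U.card ≤ S.b U), Real.exp (-γ * S.b U) ≤
        ∑ U ∈ univ.filter (S.Rooted (M.biUnion Ω)),
          x ^ U.card * Real.exp (-(t * ω * M.card / 2)) := by
      refine le_trans (sum_le_sum fun U hU => ?_) (sum_le_sum_of_subset_of_nonneg
        (fun U hU => mem_filter.2 ⟨mem_univ _, (mem_filter.1 hU).2.1⟩) fun U _ _ => by positivity)
      obtain ⟨-, -, u1, u2⟩ := mem_filter.1 hU
      have u3 : (2 * U.card : ℝ) ≤ S.b U := by exact_mod_cast u2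
      rw [hx, ← Real.exp_nat_mul, ← Real.exp_add]
      refine Real.exp_le_exp.2 ?_
      nlinarith
    have a2 := rooted_sum S (M.biUnion Ω) hx0 hx1
    have a3 : (M.biUnion Ω).card ≤ M.card * ω :=
      card_biUnion_le_card_mul _ _ _ fun g hg => (hN g (mem_powerset.1 hM1 hg)).le
    have a4 : (1 + 2 * x) ^ (M.biUnion Ω).card ≤ Real.exp (t * ω * M.card / 4) := by
      refine (pow_le_pow_left₀ (by positivity) (b := Real.exp (2 * x))
        (by linarith [Real.add_one_le_exp (2 * x)]) _).trans ?_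
      rw [← Real.exp_nat_mul]
      refine Real.exp_le_exp.2 ?_
      have a5 : ((M.biUnion Ω).card : ℝ) ≤ M.card * ω := by exact_mod_cast a3
      have a6 : (0 : ℝ) ≤ M.card * ω := by positivity
      rw [← hx] at h1
      nlinarith
    rw [← sum_mul] at a1
    refine a1.trans ((mul_le_mul_of_nonneg_right (a2.trans a4) (Real.exp_pos _).le).trans ?_)
    rw [hr, ← Real.exp_nat_mul, ← Real.exp_add, ← Real.exp_add]
    refine Real.exp_le_exp.2 ?_
    linarith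
  refine (sum_le_sum key).trans ((sum_le_sum_of_subset_of_nonneg (filter_subset _ _)
    fun M _ _ => by positivity).trans ?_)
  have b1 : ∑ M ∈ N.powerset, r ^ M.card = (r + 1) ^ N.card := by
    rw [← sum_pow_mul_eq_add_pow]
    simp only [one_pow, mul_one]
  have b2 : (r + 1) ^ N.card ≤ Real.exp (θ * N.card / 4) := by
    refine (pow_le_pow_left₀ (by positivity) (Real.add_one_le_exp r) _).trans ?_
    rw [← Real.exp_nat_mul]
    refine Real.exp_le_exp.2 ?_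
    rw [← hr] at h2
    have : (0 : ℝ) ≤ N.card := Nat.cast_nonneg _
    nlinarith
  rw [← sum_mul, b1]
  refine (mul_le_mul_of_nonneg_right b2 (Real.exp_pos _).le).trans ?_
  rw [← Real.exp_add]
  exact Real.exp_le_exp.2 (by linarith)

open Classical in
private theorem sumB_Exp {c l n : ℕ} (hI : S.Iso c) (hc : l + 2 ≤ c) (hl : 3 ≤ l)
    (hV : l ≤ Fintype.card V) {γ θ : ℝ} (hγ : 11 ≤ γ) (hθ : 0 < θ) (hn : 0 < n)
    (h3 : 144 * l ≤ θ * Real.exp (l / 2)) (W : Finset V) (hW : W.card ≤ 12 * l * n) :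
    ∑ U ∈ W.powerset.filter (fun U => S.Big l U ∧ θ * n ≤ 2 * S.b U), Real.exp (-γ * S.b U) ≤
      3 * Real.exp (-(θ * n / 4)) := by
  have hn' : (1 : ℝ) ≤ n := Nat.one_le_cast.2 hn
  have hl' : (3 : ℝ) ≤ l := by exact_mod_cast hl
  have hW' : (W.card : ℝ) ≤ 12 * l * n := by exact_mod_cast hW
  have hp : 0 < θ * n / 8 := by positivity
  obtain ⟨m, hm⟩ : ∃ m, ⌈θ * n / 8⌉₊ = m + 1 := ⟨_, (Nat.succ_pred_eq_of_pos (Nat.ceil_pos.2 hp)).symm⟩
  have a1 : θ * n / 8 ≤ (m + 1 : ℕ) := hm ▸ Nat.le_ceil _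
  have a2 : ((m + 1 : ℕ) : ℝ) < θ * n / 8 + 1 := hm ▸ Nat.ceil_lt_add_one hp.le
  have a3 := boruvka S hI hc hl hV (Nat.le_add_left 1 m) W (by
    have e1 := mul_le_mul_of_nonneg_right a1 (Real.exp_pos (l / 2 : ℝ)).le
    have e2 := mul_le_mul_of_nonneg_right h3 (zero_le_one.trans hn')
    nlinarith)
  have a4 : (2 : ℝ) ^ (m + 1) + 1 ≤ 3 * Real.exp (θ * n / 8) := by
    have e1 : (2 : ℝ) ^ m ≤ Real.exp (θ * n / 8) := by
      refine (pow_le_pow_left₀ zero_le_two (b := Real.exp 1)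
        (by linarith [Real.add_one_le_exp 1]) _).trans ?_
      rw [← Real.exp_nat_mul]
      push_cast at a2
      exact Real.exp_le_exp.2 (by linarith)
    have e2 := Real.one_le_exp hp.le
    rw [pow_succ]
    linarith
  have a5 : ∑ U ∈ W.powerset.filter (fun U => S.Big l U ∧ θ * n ≤ 2 * S.b U),
      Real.exp (-γ * S.b U) ≤ ∑ U ∈ W.powerset.filter (S.Big l),
        Real.exp (-10 * S.b U) * Real.exp (-(θ * n / 2)) := by
    refine le_trans (sum_le_sum fun U hU => ?_) (sum_le_sum_of_subset_of_nonneg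
      (fun U hU => mem_filter.2 ⟨(mem_filter.1 hU).1, (mem_filter.1 hU).2.1⟩)
      fun U _ _ => by positivity)
    obtain ⟨-, -, u1⟩ := mem_filter.1 hU
    rw [← Real.exp_add]
    refine Real.exp_le_exp.2 ?_
    have : (0 : ℝ) ≤ S.b U := Nat.cast_nonneg _
    nlinarith
  rw [← sum_mul] at a5
  refine a5.trans ((mul_le_mul_of_nonneg_right (a3.trans a4) (Real.exp_pos _).le).trans ?_)
  rw [mul_assoc, ← Real.exp_add]
  exact mul_le_mul_of_nonneg_left (Real.exp_le_exp.2 (by linarith)) (by norm_num)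

private theorem rho_Exp {ω : ℕ} {G : Finset V} {Ω : V → Finset V} (hT : S.Trees G Ω ω)
    {A : Finset V} (hA : A ⊆ G) (W : Finset V) (hWA : Disjoint W A) (Y U : Finset V)
    (hU : U ⊆ W) :
    ∑ g ∈ A, (mino (Ω g) Y : ℝ) / ω ≤ ∑ g ∈ A, (mino (Ω g) (Y ∆ U) : ℝ) / ω + S.b W := by
  have h1 : (A.filter fun g => ¬ Disjoint (Ω g) W).card ≤ S.b W := by
    refine S.touch _ Ω (fun g hg => hT.conn g (hA (mem_filter.1 hg).1))
      (fun g hg g' hg' => hT.disj g (hA (mem_filter.1 hg).1) g' (hA (mem_filter.1 hg').1)) W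
      fun g hg => ?_
    obtain ⟨g1, g2⟩ := mem_filter.1 hg
    exact ⟨not_disjoint_iff.1 g2, g, hT.mem g (hA g1), fun h => disjoint_left.1 hWA h g1⟩
  have h2 : ∑ g ∈ A, (mino (Ω g) Y : ℝ) / ω ≤
      ∑ g ∈ A, ((mino (Ω g) (Y ∆ U) : ℝ) / ω + if ¬ Disjoint (Ω g) W then 1 else 0) := by
    refine sum_le_sum fun g hg => ?_
    split_ifs with h
    · rw [mino_symmDiff _ _ _ (Or.inr (h.mono_right hU)), add_zero]
    · have e1 := two_mino_le (Ω g) Y
      rw [hT.card g (hA hg)] at e1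
      have e2 : (mino (Ω g) Y : ℝ) / ω ≤ 1 :=
        div_le_one_of_le₀ (Nat.cast_le.2 (by omega)) (Nat.cast_nonneg _)
      have e3 : (0 : ℝ) ≤ (mino (Ω g) (Y ∆ U) : ℝ) / ω := by positivity
      linarith
  rw [sum_add_distrib, sum_boole] at h2
  have h3 : ((A.filter fun g => ¬ Disjoint (Ω g) W).card : ℝ) ≤ S.b W := Nat.cast_le.2 h1
  linarith

open Classical in
/-- a union of inactive cells has a large boundary -/
theorem expand {c l ω : ℕ} {G : Finset V} {Ω : V → Finset V} {cell : V → V} (hI : S.Iso c)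
    (hc : l + 2 ≤ c) (hl : 3 ≤ l) (hV : 2 * l ≤ Fintype.card V) (hP : S.Part G cell l)
    (hT : S.Trees G Ω ω) {γ β t θ : ℝ} (hγ : 11 ≤ γ) (hβ : 0 ≤ β) (ht : 0 < t) (hθ : 0 < θ)
    (hθ1 : θ ≤ 1) (h1 : 8 * Real.exp (1 - 2 * γ) ≤ t) (h2 : 4 * Real.exp (1 - t * ω / 4) ≤ θ)
    (h3 : 144 * l ≤ θ * Real.exp (l / 2)) {A : Finset V} (hA : A ⊆ G)
    (hin : ∀ g ∈ G, g ∉ A → 2 * θ * ∑ Y, S.wt γ β Ω ω A Y ≤
      ∑ Y ∈ univ.filter (fun Y => t * ω ≤ mino (Ω g) Y), S.wt γ β Ω ω A Y)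
    (W : Finset V) (hW : Sat cell W) (hWA : Disjoint W A) :
    ((G ∩ W).card : ℝ) ≤ (2 + 4 / θ * (2 * γ + β + Real.log (4 / θ))) * (S.b W + 1) := by
  obtain ⟨N, hN⟩ : ∃ N, N = (G ∩ W).filter fun g => Ω g ⊆ W := ⟨_, rfl⟩
  have hNG : ∀ g ∈ N, g ∈ G ∧ g ∈ W ∧ Ω g ⊆ W := fun g hg => by
    rw [hN, mem_filter, mem_inter] at hg
    exact ⟨hg.1.1, hg.1.2, hg.2⟩
  have c1 : (G ∩ W).card ≤ N.card + S.b W := by
    have e1 := card_filter_add_card_filter_not (s := G ∩ W) fun g => Ω g ⊆ W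
    have e2 : ((G ∩ W).filter fun g => ¬ Ω g ⊆ W).card ≤ S.b W := by
      have e3 : ∀ g ∈ (G ∩ W).filter fun g => ¬ Ω g ⊆ W, g ∈ G := fun g hg =>
        (mem_inter.1 (mem_filter.1 hg).1).1
      refine S.touch _ Ω (fun g hg => hT.conn g (e3 g hg))
        (fun g hg g' hg' => hT.disj g (e3 g hg) g' (e3 g' hg')) W fun g hg => ?_
      exact ⟨⟨g, hT.mem g (e3 g hg), (mem_inter.1 (mem_filter.1 hg).1).2⟩,
        not_subset.1 (mem_filter.1 hg).2⟩
    rw [← hN] at e1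
    omega
  have c2 : ((G ∩ W).card : ℝ) ≤ N.card + S.b W := by exact_mod_cast c1
  have hlog : 0 ≤ Real.log (4 / θ) := Real.log_nonneg ((one_le_div hθ).2 (by linarith))
  have hb : (0 : ℝ) ≤ S.b W := Nat.cast_nonneg _
  have hL : 0 ≤ 4 / θ * (2 * γ + β + Real.log (4 / θ)) * (S.b W + 1) := by
    have : 0 ≤ 2 * γ + β + Real.log (4 / θ) := by linarith
    positivity
  by_cases hn : N.card ≤ S.b W
  · have : (N.card : ℝ) ≤ S.b W := Nat.cast_le.2 hn
    rw [add_mul]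
    linarith
  have hn0 : 0 < N.card := by omega
  have hω : (0 : ℝ) < ω := by
    obtain ⟨g, hg⟩ := card_pos.1 hn0
    rw [← hT.card g (hNG g hg).1]
    exact Nat.cast_pos.2 (card_pos.2 ⟨g, hT.mem g (hNG g hg).1⟩)
  have hWc : W.card ≤ 12 * l * N.card := by
    have e1 : W ⊆ (G ∩ W).biUnion fun g => univ.filter fun v => cell v = g := fun v hv =>
      mem_biUnion.2 ⟨cell v, mem_inter.2 ⟨hP.mem v, (hW _ _ (hP.self _ (hP.mem v))).2 hv⟩,
        mem_filter.2 ⟨mem_univ _, rfl⟩⟩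
    have e2 := (card_le_card e1).trans
      (card_biUnion_le_card_mul _ _ _ fun g hg => hP.hi g (mem_inter.1 hg).1)
    have e3 : (G ∩ W).card * (6 * l) ≤ 2 * N.card * (6 * l) := Nat.mul_le_mul_right _ (by omega)
    calc W.card ≤ 2 * N.card * (6 * l) := e2.trans e3
      _ = 12 * l * N.card := by ring
  have m1 := markov_Exp N hn0 (S.wt γ β Ω ω A) (fun _ => (Real.exp_pos _).le)
    (fun g Y => t * ω ≤ mino (Ω g) Y) hθ.le fun g hg =>
      hin g (hNG g hg).1 fun h => disjoint_left.1 hWA (hNG g hg).2.1 h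
  have sA := sumA_Exp S N (fun g hg => hT.card g (hNG g hg).1) hγ h1 h2
  have sB := sumB_Exp S hI hc hl (by omega) hγ hθ hn0 h3 W hWc
  generalize hCa : (N.powerset.filter fun M => θ * N.card ≤ 2 * M.card).biUnion (fun M =>
    univ.filter fun U => S.Rooted (M.biUnion Ω) U ∧ t * ω * M.card ≤ 2 * U.card ∧
      2 * U.card ≤ S.b U) = Ca at sA
  generalize hCb : W.powerset.filter (fun U => S.Big l U ∧ θ * N.card ≤ 2 * S.b U) = Cb at sB
  have pe := peierls S (γ := γ) (κ := β * S.b W) (by linarith)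
    (fun Y => β * ∑ g ∈ A, (mino (Ω g) Y : ℝ) / ω) W (fun Y U hU => by
      rw [← mul_add]
      exact mul_le_mul_of_nonneg_left (rho_Exp S hT hA W hWA Y U hU) hβ) (Ca ∪ Cb)
  have sC : ∑ U ∈ Ca ∪ Cb, Real.exp (-γ * S.b U) ≤ 4 * Real.exp (-(θ * N.card / 4)) := by
    have e1 := sum_union_inter (s₁ := Ca) (s₂ := Cb) (f := fun U => Real.exp (-γ * S.b U))
    have e2 : 0 ≤ ∑ U ∈ Ca ∩ Cb, Real.exp (-γ * S.b U) :=
      sum_nonneg fun _ _ => (Real.exp_pos _).le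
    linarith
  have hZ : 0 < ∑ Y, S.wt γ β Ω ω A Y :=
    sum_pos (fun _ _ => Real.exp_pos _) univ_nonempty
  have m2 : θ * ∑ Y, S.wt γ β Ω ω A Y ≤ Real.exp (2 * γ * S.b W + β * S.b W) *
      (∑ U ∈ Ca ∪ Cb, Real.exp (-γ * S.b U)) * ∑ Y, S.wt γ β Ω ω A Y := by
    refine m1.trans (le_trans (sum_le_sum_of_subset_of_nonneg (fun Y hY => ?_)
      fun _ _ _ => (Real.exp_pos _).le) pe)
    have y1 := (mem_filter.1 hY).2
    refine mem_filter.2 ⟨mem_univ _, ?_⟩
    rcases dichotomy S hI hc hV hP hT W hW (N.filter fun g => t * ω ≤ mino (Ω g) Y)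
      (fun g hg => (hNG g (mem_filter.1 hg).1).1) (fun g hg => (hNG g (mem_filter.1 hg).1).2.2) Y
      (mul_pos ht hω) (fun g hg => (mem_filter.1 hg).2) with
      ⟨M, hM, hM', U, u1, u2, u3⟩ | ⟨U, u1, u2, u3, u4⟩
    · refine ⟨U, mem_union_left _ ?_, u1, u2⟩
      rw [← hCa]
      exact mem_biUnion.2 ⟨M, mem_filter.2 ⟨mem_powerset.2 (hM.trans (filter_subset _ _)),
        y1.trans (by exact_mod_cast hM')⟩, mem_filter.2 ⟨mem_univ _, u3⟩⟩
    · refine ⟨U, mem_union_right _ ?_, u1, u2⟩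
      rw [← hCb]
      exact mem_filter.2 ⟨mem_powerset.2 u1, u3, y1.trans (by exact_mod_cast u4)⟩
  have m3 := (le_of_mul_le_mul_right m2 hZ).trans
    (mul_le_mul_of_nonneg_left sC (Real.exp_pos _).le)
  rw [mul_left_comm, ← Real.exp_add] at m3
  have m4 : -Real.log (4 / θ) ≤ 2 * γ * S.b W + β * S.b W + -(θ * N.card / 4) := by
    rw [← Real.log_inv, inv_div]
    exact (Real.log_le_iff_le_exp (by positivity)).2 (by linarith)
  have m5 : θ * N.card / 4 ≤ (2 * γ + β + Real.log (4 / θ)) * (S.b W + 1) := by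
    have := mul_nonneg hlog hb
    nlinarith
  have m6 : (N.card : ℝ) ≤ 4 / θ * (2 * γ + β + Real.log (4 / θ)) * (S.b W + 1) := by
    rw [mul_assoc, div_mul_eq_mul_div, le_div_iff₀ hθ]
    linarith
  rw [add_mul]
  linarith

end Pool.Agent.MP_9a3194_co
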