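import Pool.Agent.MP_9a3194_co.Basic

open Finset
open scoped symmDiff

namespace Pool.Agent.MP_9a3194_co

variable {V : Type} [Fintype V] [DecidableEq V] (S : Str V)

omit [Fintype V] in
private theorem dv_single_Gale (d : Dt V) (v : V) :
    ∑ i : Fin 3, (if (v, i) = d then (1 : ℝ) else 0) = if v = d.1 then 1 else 0 := by
  obtain ⟨a, j⟩ := d
  by_cases h : v = a
  · subst h
    simp
  · simp [h]

private theorem push_Gale (T : Finset V) (q : V → ℝ) (η : ℝ) (f : Dt V → ℝ) (hf : S.Anti f)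
    (hb : ∀ d, |f d| ≤ η) (φ : V → ℝ) (hφ : ∀ v, φ v = if v ∈ T then 0 else dv f v - q v)
    (hmin : ∀ g : Dt V → ℝ, S.Anti g → (∀ d, |g d| ≤ η) →
      ∑ v, φ v ^ 2 ≤ ∑ v, (if v ∈ T then 0 else dv g v - q v) ^ 2)
    (d : Dt V) (hd : φ (S.hd d) < φ d.1) : f d = -η := by
  by_contra hne
  have h1 : -η < f d := lt_of_le_of_ne (abs_le.1 (hb d)).1 (Ne.symm hne)
  have h2 : f d ≤ η := (abs_le.1 (hb d)).2
  have hv : S.hd d ≠ d.1 := fun h => by rw [h] at hd; exact lt_irrefl _ hd
  have hr : S.rv d ≠ d := fun h => hv (by rw [← S.rv_fst, h])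
  set s : ℝ := min ((φ d.1 - φ (S.hd d)) / 2) (f d + η) with hs
  have hs0 : 0 < s := lt_min (by linarith) (by linarith)
  have hs1 : s ≤ (φ d.1 - φ (S.hd d)) / 2 := min_le_left _ _
  have hs2 : s ≤ f d + η := min_le_right _ _
  let g : Dt V → ℝ := fun e =>
    f e + s * ((if e = S.rv d then 1 else 0) - (if e = d then 1 else 0))
  have hg : S.Anti g := by
    intro e
    have e1 : (S.rv e = S.rv d) ↔ e = d :=
      ⟨fun h => by rw [← S.rv_rv e, h, S.rv_rv], fun h => by rw [h]⟩
    have e2 : (S.rv e = d) ↔ e = S.rv d :=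
      ⟨fun h => by rw [← h, S.rv_rv], fun h => by rw [h, S.rv_rv]⟩
    simp only [g, e1, e2, hf e]
    ring
  have hgb : ∀ e, |g e| ≤ η := by
    intro e
    by_cases a1 : e = d
    · subst a1
      simp only [g, if_neg hr.symm, if_true]
      rw [abs_le]
      constructor <;> linarith
    · by_cases a2 : e = S.rv d
      · subst a2
        simp only [g, if_neg hr, if_true, hf d]
        rw [abs_le]
        constructor <;> linarith
      · simp only [g, if_neg a1, if_neg a2, sub_self, mul_zero, add_zero]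
        exact hb e
  let δ : V → ℝ := fun v => (if v = S.hd d then 1 else 0) - (if v = d.1 then 1 else 0)
  have hdv : ∀ v, dv g v = dv f v + s * δ v := by
    intro v
    simp only [dv, g, δ, sum_add_distrib, ← mul_sum, sum_sub_distrib, dv_single_Gale]
    rfl
  have hpt : ∀ v, (if v ∈ T then 0 else dv g v - q v) ^ 2 ≤
      φ v ^ 2 + 2 * s * (φ v * δ v) + s ^ 2 * (δ v * δ v) := by
    intro v
    rw [hφ v, hdv v]
    split_ifs
    · have := mul_nonneg (sq_nonneg s) (mul_self_nonneg (δ v))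
      linarith
    · exact le_of_eq (by ring)
  have hsum : ∀ ψ : V → ℝ, ∑ v, ψ v * δ v = ψ (S.hd d) - ψ d.1 := by
    intro ψ
    simp [δ, mul_sub, sum_sub_distrib]
  have h3 := (hmin g hg hgb).trans (sum_le_sum fun v _ => hpt v)
  rw [sum_add_distrib, sum_add_distrib, ← mul_sum, ← mul_sum, hsum, hsum] at h3
  have h4 : δ (S.hd d) - δ d.1 = 2 := by
    simp only [δ, if_neg hv, if_neg hv.symm, if_true]
    norm_num
  rw [h4] at h3
  nlinarith

/-- supplies outside `T` can be sent to `T` -/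
theorem gale (T : Finset V) (q : V → ℝ) (η : ℝ) (hη : 0 ≤ η)
    (h : ∀ X : Finset V, Disjoint X T → |∑ v ∈ X, q v| ≤ η / 2 * S.b X) :
    ∃ f : Dt V → ℝ, S.Anti f ∧ (∀ d, |f d| ≤ η) ∧ ∀ v ∉ T, dv f v = q v := by
  let K : Set (Dt V → ℝ) := Set.Icc (fun _ => -η) (fun _ => η) ∩ {f | ∀ d, f (S.rv d) = -f d}
  have hK : IsCompact K := by
    refine isCompact_Icc.inter_right ?_
    rw [Set.setOf_forall]
    exact isClosed_iInter fun d => isClosed_eq (continuous_apply _) (continuous_apply d).neg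
  have hmem : ∀ f, f ∈ K ↔ S.Anti f ∧ ∀ d, |f d| ≤ η := by
    intro f
    simp only [K, Set.mem_inter_iff, Set.mem_Icc, Pi.le_def, Set.mem_setOf_eq, abs_le, Str.Anti,
      forall_and]
    exact and_comm
  have hne : K.Nonempty := ⟨0, (hmem 0).2 ⟨fun d => by simp, fun d => by simpa using hη⟩⟩
  have hc : Continuous fun f : Dt V → ℝ => ∑ v, (if v ∈ T then 0 else dv f v - q v) ^ 2 := by
    refine continuous_finset_sum _ fun v _ => Continuous.pow ?_ 2
    split_ifs
    · exact continuous_const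
    · exact (continuous_finset_sum _ fun i _ => continuous_apply (v, i)).sub continuous_const
  obtain ⟨f, hfK, hmin⟩ := hK.exists_isMinOn hne hc.continuousOn
  obtain ⟨hf, hb⟩ := (hmem f).1 hfK
  let φ : V → ℝ := fun v => if v ∈ T then 0 else dv f v - q v
  have key := push_Gale S T q η f hf hb φ (fun _ => rfl)
    (fun g hg hgb => hmin ((hmem g).2 ⟨hg, hgb⟩))
  have hX : ∀ X : Finset V, (∀ v ∈ X, φ v ≠ 0) → Disjoint X T ∧
      ∑ v ∈ X, φ v = ∑ d ∈ S.out X, f d - ∑ v ∈ X, q v := by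
    intro X hX
    have hT : ∀ v ∈ X, v ∉ T := fun v hv hvT => hX v hv (if_pos hvT)
    refine ⟨disjoint_left.2 hT, ?_⟩
    rw [← S.sum_dv hf, ← sum_sub_distrib]
    exact sum_congr rfl fun v hv => if_neg (hT v hv)
  have hle : ∀ v, φ v ≤ 0 := by
    by_contra hcon
    push Not at hcon
    obtain ⟨v0, hv0⟩ := hcon
    let X := univ.filter fun v => 0 < φ v
    obtain ⟨a1, a2⟩ := hX X fun v hv => (mem_filter.1 hv).2.ne'
    have a3 : 0 < ∑ v ∈ X, φ v :=
      sum_pos (fun v hv => (mem_filter.1 hv).2) ⟨v0, mem_filter.2 ⟨mem_univ _, hv0⟩⟩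
    have a4 : ∑ d ∈ S.out X, f d = (S.out X).card * -η := by
      rw [← nsmul_eq_mul, ← sum_const]
      refine sum_congr rfl fun d hd => key d ?_
      obtain ⟨b1, b2⟩ := S.mem_out.1 hd
      simp only [X, mem_filter, mem_univ, true_and, not_lt] at b1 b2
      linarith
    have a5 := (abs_le.1 (h X a1)).1
    rw [S.b_eq] at a5
    push_cast at a5
    linarith
  have hge : ∀ v, 0 ≤ φ v := by
    by_contra hcon
    push Not at hcon
    obtain ⟨v0, hv0⟩ := hcon
    let X := univ.filter fun v => φ v < 0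
    obtain ⟨a1, a2⟩ := hX X fun v hv => (mem_filter.1 hv).2.ne
    have a3 : ∑ v ∈ X, φ v < 0 :=
      sum_neg (fun v hv => (mem_filter.1 hv).2) ⟨v0, mem_filter.2 ⟨mem_univ _, hv0⟩⟩
    have a4 : ∑ d ∈ S.out X, f d = (S.out X).card * η := by
      rw [← nsmul_eq_mul, ← sum_const]
      refine sum_congr rfl fun d hd => ?_
      obtain ⟨b1, b2⟩ := S.mem_out.1 hd
      simp only [X, mem_filter, mem_univ, true_and, not_lt] at b1 b2
      have b3 := key (S.rv d) (by rw [S.hd_rv, S.rv_fst]; linarith)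
      rw [hf d] at b3
      linarith
    have a5 := (abs_le.1 (h X a1)).2
    rw [S.b_eq] at a5
    push_cast at a5
    linarith
  refine ⟨f, hf, hb, fun v hv => ?_⟩
  have h0 : φ v = 0 := le_antisymm (hle v) (hge v)
  simp only [φ, if_neg hv] at h0
  linarith

end Pool.Agent.MP_9a3194_co
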