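import Pool.Agent.MP_9a3194_co.Basic

open Finset
open scoped symmDiff

namespace Pool.Agent.MP_9a3194_co

variable {V : Type} [Fintype V] [DecidableEq V] (S : Str V)

open Classical in
private theorem card_sat_Kar (lab : V → V) :
    (univ.filter (Sat lab)).card ≤ 2 ^ (univ.image lab).card := by
  rw [← card_powerset]
  refine card_le_card_of_injOn (fun U => U.image lab) ?_ ?_
  · intro U _
    simp only [coe_powerset, Set.mem_preimage, Set.mem_powerset_iff, coe_subset]
    exact image_subset_image (subset_univ U)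
  · intro U hU U' hU' h
    simp only [coe_filter, mem_univ, true_and, Set.mem_ofPred_eq] at hU hU'
    have key : ∀ A B : Finset V, Sat lab B → A.image lab = B.image lab → A ⊆ B := by
      intro A B hB hAB v hv
      have : lab v ∈ B.image lab := hAB ▸ mem_image_of_mem lab hv
      obtain ⟨u, hu, huv⟩ := mem_image.mp this
      exact (hB u v huv).mp hu
    exact Subset.antisymm (key U U' hU' h) (key U' U hU h.symm)

/-- merge the class of `y` into the class of `x` -/
private def mrg_Kar (lab : V → V) (x y : V) : V → V :=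
  fun v => if lab v = lab y then lab x else lab v

private theorem mrg_card_Kar (lab : V → V) {x y : V} (h : lab x ≠ lab y) :
    (univ.image (mrg_Kar lab x y)).card + 1 = (univ.image lab).card := by
  have : univ.image (mrg_Kar lab x y) = (univ.image lab).erase (lab y) := by
    ext c
    simp only [mem_image, mem_univ, true_and, mem_erase, mrg_Kar]
    constructor
    · rintro ⟨v, rfl⟩
      split_ifs with hv
      · exact ⟨h, x, rfl⟩
      · exact ⟨hv, v, rfl⟩
    · rintro ⟨hc, v, rfl⟩
      exact ⟨v, if_neg hc⟩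
  rw [this, card_erase_add_one (mem_image_of_mem lab (mem_univ y))]

omit [Fintype V] in
private theorem sat_of_mrg_Kar {lab : V → V} {x y : V} {U : Finset V}
    (h : Sat (mrg_Kar lab x y) U) : Sat lab U := by
  intro u v huv
  refine h u v ?_
  simp only [mrg_Kar, huv]

omit [Fintype V] in
private theorem mrg_of_sat_Kar {lab : V → V} {x y : V} {U : Finset V}
    (h : Sat lab U) (hxy : x ∈ U ↔ y ∈ U) : Sat (mrg_Kar lab x y) U := by
  intro u v huv
  simp only [mrg_Kar] at huv
  split_ifs at huv with h1 h2 h2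
  · exact (h u y h1).trans (h v y h2).symm
  · exact (h u y h1).trans (hxy.symm.trans (h x v huv))
  · exact (h u x huv).trans (hxy.trans (h v y h2).symm)
  · exact h u v huv

private theorem card_D_Kar (Λ : ℕ) (lab : V → V) (h2 : 2 ≤ (univ.image lab).card)
    (hc : ∀ U : Finset V, Sat lab U → U.Nonempty → Uᶜ.Nonempty → 2 * Λ ≤ S.b U) :
    (univ.image lab).card * Λ ≤
      (univ.filter fun d : Dt V => lab d.1 ≠ lab (S.hd d)).card := by
  rw [card_eq_sum_card_fiberwise (f := fun d : Dt V => lab d.1) (t := univ.image lab)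
    (fun d _ => mem_image_of_mem lab (mem_univ d.1))]
  rw [← smul_eq_mul]
  refine card_nsmul_le_sum _ _ _ fun c hcm => ?_
  obtain ⟨x, -, rfl⟩ := mem_image.mp hcm
  have hP : Sat lab (univ.filter fun v => lab v = lab x) := by
    intro u v huv
    simp only [mem_filter, mem_univ, true_and, huv]
  have hne : (univ.filter fun v => lab v = lab x)ᶜ.Nonempty := by
    obtain ⟨c, hc1, hc2⟩ := exists_mem_ne (by omega : 1 < (univ.image lab).card) (lab x)
    obtain ⟨y, -, rfl⟩ := mem_image.mp hc1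
    exact ⟨y, by simpa using hc2⟩
  have h1 := hc _ hP ⟨x, by simp⟩ hne
  rw [S.b_eq] at h1
  have h3 : S.out (univ.filter fun v => lab v = lab x) =
      (univ.filter fun d : Dt V => lab d.1 ≠ lab (S.hd d)).filter fun d => lab d.1 = lab x := by
    ext d
    rw [S.mem_out]
    simp only [mem_filter, mem_univ, true_and]
    constructor
    · rintro ⟨h4, h5⟩
      exact ⟨fun h6 => h5 (h6 ▸ h4), h4⟩
    · rintro ⟨h4, h5⟩
      exact ⟨h5, fun h6 => h4 (h5.trans h6.symm)⟩
  rw [h3] at h1
  omega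

private theorem exp_le_Kar {x : ℝ} (h0 : 0 ≤ x) (h1 : 2 * x ≤ 1) :
    Real.exp (-(2 * x)) ≤ 1 - x := by
  have h2 : 2 * x + 1 ≤ Real.exp (2 * x) := Real.add_one_le_exp _
  rw [Real.exp_neg, inv_le_iff_one_le_mul₀ (Real.exp_pos _)]
  nlinarith [mul_nonneg h0 (sub_nonneg.mpr h1)]

private theorem four_le_Kar : (4 : ℝ) ≤ Real.exp (3 / 2) := by
  have h1 := Real.exp_one_gt_d9
  have h2 : (1 / 2 : ℝ) + 1 ≤ Real.exp (1 / 2) := Real.add_one_le_exp _
  have h3 : Real.exp (3 / 2) = Real.exp 1 * Real.exp (1 / 2) := by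
    rw [← Real.exp_add]; norm_num
  rw [h3]
  nlinarith

open Classical in
private theorem gen_Kar (Λ N₀ : ℕ) (hΛ : 3 ≤ Λ) (hN : 1 ≤ N₀) (N : ℕ) :
    ∀ (lab : V → V), (univ.image lab).card = N →
    (∀ U : Finset V, Sat lab U → U.Nonempty → Uᶜ.Nonempty → 2 * Λ ≤ S.b U) →
    ∀ g : ℝ, 0 ≤ g → 1 + 2 / (Λ : ℝ) * Real.log ((N : ℝ) / N₀) ≤ g →
    ∑ U ∈ univ.filter (Sat lab), Real.exp (-g * S.b U) ≤ 2 ^ N₀ + 1 - (1 / 2) ^ N := by
  have hΛr : (3 : ℝ) ≤ Λ := by exact_mod_cast hΛ
  have hN0r : (1 : ℝ) ≤ N₀ := by exact_mod_cast hN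
  have base : ∀ (N : ℕ) (lab : V → V), (univ.image lab).card = N → N ≤ N₀ → ∀ g : ℝ, 0 ≤ g →
      ∑ U ∈ univ.filter (Sat lab), Real.exp (-g * S.b U) ≤ 2 ^ N₀ + 1 - (1 / 2) ^ N := by
    intro N lab hlab hle g hg
    have h1 : ∑ U ∈ univ.filter (Sat lab), Real.exp (-g * S.b U) ≤
        (univ.filter (Sat lab)).card • (1 : ℝ) := by
      refine sum_le_card_nsmul _ _ _ fun U _ => ?_
      rw [Real.exp_le_one_iff]
      have : (0 : ℝ) ≤ S.b U := Nat.cast_nonneg _
      nlinarith
    have h2 : ((univ.filter (Sat lab)).card : ℝ) ≤ 2 ^ N₀ := by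
      have h3 := card_sat_Kar lab
      rw [hlab] at h3
      have h4 : 2 ^ N ≤ 2 ^ N₀ := Nat.pow_le_pow_right (by norm_num) hle
      exact_mod_cast h3.trans h4
    have h5 : ((1 : ℝ) / 2) ^ N ≤ 1 := pow_le_one₀ (by norm_num) (by norm_num)
    rw [nsmul_eq_mul, mul_one] at h1
    linarith
  induction N with
  | zero => exact fun lab hlab _ g hg _ => base 0 lab hlab (Nat.zero_le _) g hg
  | succ M ih =>
    intro lab hlab hc g hg hinv
    by_cases hle : M + 1 ≤ N₀
    · exact base _ lab hlab hle g hg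
    have hM : N₀ ≤ M := by omega
    have hMr : (N₀ : ℝ) ≤ M := by exact_mod_cast hM
    have hD := card_D_Kar S Λ lab (by omega) hc
    rw [hlab] at hD
    set D := univ.filter fun d : Dt V => lab d.1 ≠ lab (S.hd d) with hDdef
    have hDr : ((M : ℝ) + 1) * Λ ≤ D.card := by exact_mod_cast hD
    have hNΛ : 0 < ((M : ℝ) + 1) * Λ := by positivity
    have hDpos : (0 : ℝ) < D.card := lt_of_lt_of_le hNΛ hDr
    have hlog0 : 0 ≤ Real.log ((M : ℝ) / N₀) :=
      Real.log_nonneg ((one_le_div (by linarith)).mpr hMr)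
    have hlog : Real.log ((M : ℝ) / N₀) + 1 / ((M : ℝ) + 1) ≤
        Real.log (((M + 1 : ℕ) : ℝ) / N₀) := by
      have h1 : Real.log ((M : ℝ) / ((M : ℝ) + 1)) ≤ (M : ℝ) / ((M : ℝ) + 1) - 1 :=
        Real.log_le_sub_one_of_pos (div_pos (by linarith) (by linarith))
      have h2 : (M : ℝ) / ((M : ℝ) + 1) - 1 = -(1 / ((M : ℝ) + 1)) := by
        field_simp; ring
      rw [Real.log_div (by linarith) (by linarith)] at h1
      push_cast
      rw [Real.log_div (by linarith) (by linarith), Real.log_div (by linarith) (by linarith)]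
      linarith
    set g' : ℝ := g - 2 / (((M : ℝ) + 1) * Λ) with hg'
    have hinv' : 1 + 2 / (Λ : ℝ) * Real.log ((M : ℝ) / N₀) ≤ g' := by
      have h1 : 2 / (((M : ℝ) + 1) * Λ) = 2 / (Λ : ℝ) * (1 / ((M : ℝ) + 1)) := by
        field_simp
      have h2 : 0 ≤ 2 / (Λ : ℝ) := by positivity
      have h3 := mul_le_mul_of_nonneg_left hlog h2
      rw [hg', h1]
      linarith
    have hg'1 : 1 ≤ g' := by
      have : 0 ≤ 2 / (Λ : ℝ) * Real.log ((M : ℝ) / N₀) := by positivity
      linarith
    have hg1 : 1 ≤ g := by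
      have : 0 ≤ 2 / (((M : ℝ) + 1) * Λ) := by positivity
      linarith
    -- the contracted sums
    have hsub : ∀ d ∈ D, ∑ U ∈ univ.filter (Sat (mrg_Kar lab d.1 (S.hd d))),
        Real.exp (-g' * S.b U) ≤ 2 ^ N₀ + 1 - (1 / 2) ^ M := by
      intro d hd
      have hd' : lab d.1 ≠ lab (S.hd d) := (mem_filter.mp hd).2
      refine ih _ ?_ (fun U hU => hc U (sat_of_mrg_Kar hU)) g' (by linarith) hinv'
      have := mrg_card_Kar lab hd'
      omega
    -- termwise bound
    have hterm : ∀ U ∈ univ.filter (Sat lab), Real.exp (-g * S.b U) ≤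
        (D.card : ℝ)⁻¹ * ∑ d ∈ D, (if Sat (mrg_Kar lab d.1 (S.hd d)) U then
          Real.exp (-g' * S.b U) else 0) + (1 / 4) ^ (M + 1) := by
      intro U hU
      have hU' : Sat lab U := (mem_filter.mp hU).2
      have hb0 : (0 : ℝ) ≤ S.b U := Nat.cast_nonneg _
      have hnn : 0 ≤ (D.card : ℝ)⁻¹ * ∑ d ∈ D, (if Sat (mrg_Kar lab d.1 (S.hd d)) U then
          Real.exp (-g' * S.b U) else 0) := by
        refine mul_nonneg (by positivity) (sum_nonneg fun d _ => ?_)
        split_ifs
        · positivity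
        · exact le_rfl
      by_cases hsm : 2 * (S.b U : ℝ) ≤ D.card
      · have h1 : ((D.card : ℝ) - S.b U) * Real.exp (-g' * S.b U) ≤
            ∑ d ∈ D, (if Sat (mrg_Kar lab d.1 (S.hd d)) U then
              Real.exp (-g' * S.b U) else 0) := by
          rw [← sum_filter, sum_const, nsmul_eq_mul]
          refine mul_le_mul_of_nonneg_right ?_ (Real.exp_pos _).le
          have h2 : D \ S.bd U ⊆ D.filter fun d => Sat (mrg_Kar lab d.1 (S.hd d)) U := by
            intro d hd
            rw [mem_sdiff, S.mem_bd, not_not] at hd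
            exact mem_filter.mpr ⟨hd.1, mrg_of_sat_Kar hU' hd.2⟩
          have h3 := card_le_card h2
          have h4 := le_card_sdiff (S.bd U) D
          have h5 : D.card ≤ (D.filter fun d => Sat (mrg_Kar lab d.1 (S.hd d)) U).card +
              S.b U := by
            unfold Str.b
            omega
          have h6 : (D.card : ℝ) ≤
              (D.filter fun d => Sat (mrg_Kar lab d.1 (S.hd d)) U).card + (S.b U : ℝ) := by
            exact_mod_cast h5
          linarith
        have h2 : Real.exp (-(2 * ((S.b U : ℝ) / D.card))) ≤ 1 - (S.b U : ℝ) / D.card :=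
          exp_le_Kar (by positivity) (by
            rw [← mul_div_assoc, div_le_one hDpos]; exact hsm)
        have h3 : Real.exp (-g * S.b U) ≤
            Real.exp (-(2 * ((S.b U : ℝ) / D.card))) * Real.exp (-g' * S.b U) := by
          rw [← Real.exp_add, Real.exp_le_exp, hg']
          have h4 : (S.b U : ℝ) / D.card ≤ (S.b U : ℝ) / (((M : ℝ) + 1) * Λ) :=
            div_le_div_of_nonneg_left hb0 hNΛ hDr
          have h5 : 2 / (((M : ℝ) + 1) * Λ) * S.b U =
              2 * ((S.b U : ℝ) / (((M : ℝ) + 1) * Λ)) := by ring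
          nlinarith
        have h6 : (1 - (S.b U : ℝ) / D.card) * Real.exp (-g' * S.b U) =
            (D.card : ℝ)⁻¹ * (((D.card : ℝ) - S.b U) * Real.exp (-g' * S.b U)) := by
          field_simp
        have h7 := mul_le_mul_of_nonneg_left h1 (inv_nonneg.mpr hDpos.le)
        have h8 := mul_le_mul_of_nonneg_right h2 (Real.exp_pos (-g' * S.b U)).le
        have h9 : (0 : ℝ) ≤ (1 / 4) ^ (M + 1) := by positivity
        linarith
      · push Not at hsm
        have h1 : Real.exp (-g * S.b U) ≤ (1 / 4) ^ (M + 1) := by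
          have h2 : -g * S.b U ≤ ((M + 1 : ℕ) : ℝ) * (-(3 / 2)) := by
            push_cast
            have h3 : ((M : ℝ) + 1) * 3 ≤ ((M : ℝ) + 1) * Λ :=
              mul_le_mul_of_nonneg_left hΛr (by positivity)
            nlinarith
          refine (Real.exp_le_exp.mpr h2).trans ?_
          rw [Real.exp_nat_mul]
          refine pow_le_pow_left₀ (Real.exp_pos _).le ?_ _
          rw [Real.exp_neg, one_div]
          exact inv_anti₀ (by norm_num) four_le_Kar
        linarith
    refine (sum_le_sum hterm).trans ?_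
    rw [sum_add_distrib, ← mul_sum, sum_comm, sum_const, nsmul_eq_mul]
    have h1 : ∑ d ∈ D, ∑ U ∈ univ.filter (Sat lab), (if Sat (mrg_Kar lab d.1 (S.hd d)) U then
        Real.exp (-g' * S.b U) else 0) ≤ D.card • ((2 : ℝ) ^ N₀ + 1 - (1 / 2) ^ M) := by
      refine sum_le_card_nsmul _ _ _ fun d hd => ?_
      refine le_trans ?_ (hsub d hd)
      rw [← sum_filter]
      refine sum_le_sum_of_subset_of_nonneg ?_ fun U _ _ => (Real.exp_pos _).le
      intro U hU
      exact mem_filter.mpr ⟨mem_univ _, (mem_filter.mp hU).2⟩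
    rw [nsmul_eq_mul] at h1
    have h2 := mul_le_mul_of_nonneg_left h1 (inv_nonneg.mpr hDpos.le)
    rw [← mul_assoc, inv_mul_cancel₀ hDpos.ne', one_mul] at h2
    have h3 : ((univ.filter (Sat lab)).card : ℝ) ≤ 2 ^ (M + 1) := by
      have h4 := card_sat_Kar lab
      rw [hlab] at h4
      exact_mod_cast h4
    have h4 : ((univ.filter (Sat lab)).card : ℝ) * (1 / 4) ^ (M + 1) ≤ (1 / 2) ^ (M + 1) := by
      refine (mul_le_mul_of_nonneg_right h3 (by positivity)).trans (le_of_eq ?_)
      rw [← mul_pow]; norm_num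
    have h5 : ((1 : ℝ) / 2) ^ M = 2 * (1 / 2) ^ (M + 1) := by
      rw [pow_succ]; ring
    linarith

open Classical in
/-- few small cuts in a highly connected quotient -/
theorem karger (Λ N₀ : ℕ) (hΛ : 3 ≤ Λ) (hN : 1 ≤ N₀) (lab : V → V)
    (hn : ((univ.image lab).card : ℝ) ≤ N₀ * Real.exp (Λ / 2))
    (hc : ∀ U : Finset V, Sat lab U → U.Nonempty → Uᶜ.Nonempty → 2 * Λ ≤ S.b U) :
    ∑ U ∈ univ.filter (Sat lab), Real.exp (-2 * S.b U) ≤ 2 ^ N₀ + 1 := by
  have hΛr : (3 : ℝ) ≤ Λ := by exact_mod_cast hΛ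
  have hN0r : (1 : ℝ) ≤ N₀ := by exact_mod_cast hN
  have hlog : Real.log (((univ.image lab).card : ℝ) / N₀) ≤ Λ / 2 := by
    rcases Nat.eq_zero_or_pos (univ.image lab).card with h | h
    · rw [h, Nat.cast_zero, zero_div, Real.log_zero]; positivity
    · have h1 : (0 : ℝ) < (univ.image lab).card := by exact_mod_cast h
      rw [Real.log_le_iff_le_exp (by positivity), div_le_iff₀ (by linarith), mul_comm]
      exact hn
  have h := gen_Kar S Λ N₀ hΛ hN _ lab rfl hc 2 (by norm_num) (by
    have h1 := mul_le_mul_of_nonneg_left hlog (by positivity : 0 ≤ 2 / (Λ : ℝ))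
    have h2 : 2 / (Λ : ℝ) * (Λ / 2) = 1 := by field_simp
    linarith)
  have h3 : (0 : ℝ) ≤ (1 / 2) ^ (univ.image lab).card := by positivity
  linarith

end Pool.Agent.MP_9a3194_co
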