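import Pool.Agent.MP_9a3194_co.Defs

open Finset
open scoped symmDiff

namespace Pool.Agent.MP_9a3194_co

variable {T E : Type} [Fintype T] [DecidableEq T] [Fintype E]

private theorem cross_LatA (u v : E → T) (a : E → ℝ)
    (hc : ∀ A : Finset T, A.Nonempty → Aᶜ.Nonempty → 2 ≤ crs u v a A) (A : Finset T)
    (h1 : A.Nonempty) (h2 : Aᶜ.Nonempty) : ∃ e, ¬ (u e ∈ A ↔ v e ∈ A) := by
  by_contra hne
  have h0 : crs u v a A = 0 := by
    unfold crs
    refine Finset.sum_eq_zero fun e _ => ?_
    have : u e ∈ A ↔ v e ∈ A := by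
      by_contra h
      exact hne ⟨e, h⟩
    rw [if_pos this]
  have := hc A h1 h2
  rw [h0] at this
  norm_num at this

private theorem order_LatA (u v : E → T) (a : E → ℝ) (o : T)
    (hc : ∀ A : Finset T, A.Nonempty → Aᶜ.Nonempty → 2 ≤ crs u v a A) (k : E → ℕ) (n : ℕ)
    (hn : n + 1 ≤ Fintype.card T) :
    ∃ (pos : T → ℕ) (par : {t // t ≠ o} → E),
      (univ.filter fun x => pos x < n + 1).card = n + 1 ∧ pos o = 0 ∧
      (∀ x y, pos x < n + 1 → pos x = pos y → x = y) ∧
      ∀ t : {t // t ≠ o}, pos t.1 < n + 1 →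
        ((u (par t) = t.1 ∧ pos (v (par t)) < pos t.1) ∨
          (v (par t) = t.1 ∧ pos (u (par t)) < pos t.1)) ∧
        ∀ e, ¬ (pos (u e) < pos t.1 ↔ pos (v e) < pos t.1) → k (par t) ≤ k e := by
  induction n with
  | zero =>
    have hE : ∀ t : {t // t ≠ o}, Nonempty E := fun t => by
      obtain ⟨e, _⟩ := cross_LatA u v a hc {o} (singleton_nonempty o) ⟨t.1, by simpa using t.2⟩
      exact ⟨e⟩
    refine ⟨fun x => if x = o then 0 else 1, fun t => Classical.choice (hE t), ?_, by simp, ?_, ?_⟩
    · have : (univ.filter fun x => (if x = o then 0 else 1) < 0 + 1) = {o} := by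
        ext x
        by_cases hx : x = o <;> simp [hx]
      rw [this]
      simp
    · intro x y hx hxy
      by_cases h1 : x = o <;> by_cases h2 : y = o <;> simp_all
    · intro t ht
      simp [t.2] at ht
  | succ n ih =>
    obtain ⟨pos, par, hcard, ho, hinj, hpar⟩ := ih (by omega)
    set P : Finset T := univ.filter fun x => pos x < n + 1 with hP
    have hmem : ∀ x, x ∈ P ↔ pos x < n + 1 := fun x => by simp [hP]
    have hP1 : P.Nonempty := ⟨o, (hmem o).2 (by omega)⟩
    have hP2 : Pᶜ.Nonempty := by
      rw [← Finset.card_pos, Finset.card_compl]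
      omega
    obtain ⟨e0, he0⟩ := cross_LatA u v a hc P hP1 hP2
    obtain ⟨e, he, hmin⟩ := Finset.exists_min_image
      (univ.filter fun e => ¬ (u e ∈ P ↔ v e ∈ P)) k ⟨e0, by simpa using he0⟩
    have he' : ¬ (pos (u e) < n + 1 ↔ pos (v e) < n + 1) := by
      simpa [hmem] using (mem_filter.1 he).2
    have hmin' : ∀ e', ¬ (pos (u e') < n + 1 ↔ pos (v e') < n + 1) → k e ≤ k e' := fun e' h =>
      hmin e' (mem_filter.2 ⟨mem_univ _, by simpa [hmem] using h⟩)
    obtain ⟨s, hs, hse⟩ : ∃ s, ¬ pos s < n + 1 ∧
        ((u e = s ∧ pos (v e) < n + 1) ∨ (v e = s ∧ pos (u e) < n + 1)) := by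
      by_cases h : pos (u e) < n + 1
      · exact ⟨v e, fun h' => he' ⟨fun _ => h', fun _ => h⟩, Or.inr ⟨rfl, h⟩⟩
      · refine ⟨u e, h, Or.inl ⟨rfl, ?_⟩⟩
        by_contra h'
        exact he' ⟨fun h'' => absurd h'' h, fun h'' => absurd h'' h'⟩
    set pos' : T → ℕ := fun x => if pos x < n + 1 then pos x else if x = s then n + 1 else n + 2
      with hpos'
    have hA : ∀ x, pos x < n + 1 → pos' x = pos x := fun x hx => by
      simp only [hpos', if_pos hx]
    have hB : pos' s = n + 1 := by simp only [hpos', if_neg hs, if_true]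
    have hC : ∀ x, ¬ pos x < n + 1 → x ≠ s → pos' x = n + 2 := fun x hx hxs => by
      simp only [hpos', if_neg hx, if_neg hxs]
    have hD : ∀ x m, m ≤ n + 1 → (pos' x < m ↔ pos x < m) := fun x m hm => by
      by_cases hx : pos x < n + 1
      · rw [hA x hx]
      · by_cases hxs : x = s
        · rw [hxs, hB]
          rw [hxs] at hx
          omega
        · rw [hC x hx hxs]
          omega
    have hE : ∀ x, pos' x < n + 1 + 1 → pos x < n + 1 ∨ x = s := fun x hx => by
      by_contra h
      rw [not_or] at h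
      rw [hC x h.1 h.2] at hx
      omega
    refine ⟨pos', fun t => if t.1 = s then e else par t, ?_, ?_, ?_, ?_⟩
    · have : (univ.filter fun x => pos' x < n + 1 + 1) = insert s P := by
        ext x
        simp only [mem_filter, mem_univ, true_and, mem_insert, hmem]
        constructor
        · intro hx
          exact (hE x hx).symm
        · rintro (hx | hx)
          · rw [hx, hB]
            omega
          · rw [hA x hx]
            omega
      rw [this, card_insert_of_notMem (by rw [hmem]; exact hs), hcard]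
    · rw [hA o (by omega), ho]
    · intro x y hx hxy
      have hy : pos' y < n + 1 + 1 := hxy ▸ hx
      rcases hE x hx with h1 | h1 <;> rcases hE y hy with h2 | h2
      · rw [hA x h1, hA y h2] at hxy
        exact hinj x y h1 hxy
      · rw [hA x h1, h2, hB] at hxy
        omega
      · rw [hA y h2, h1, hB] at hxy
        omega
      · rw [h1, h2]
    · intro t ht
      rcases hE t.1 ht with h1 | h1
      · have hts : t.1 ≠ s := fun h => hs (h ▸ h1)
        simp only [if_neg hts, hA t.1 h1, hD _ _ h1.le]
        exact hpar t h1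
      · simp only [if_pos h1]
        rw [h1, hB]
        simp only [hD _ _ le_rfl]
        exact ⟨hse, hmin'⟩

private theorem layer_LatA (u v : E → T) (a : E → ℝ) (ha : ∀ e, 0 ≤ a e) (o : T)
    (hc : ∀ A : Finset T, A.Nonempty → Aᶜ.Nonempty → 2 ≤ crs u v a A) (L : T → ℕ)
    (S : Finset T) (hinj : ∀ s ∈ S, ∀ s' ∈ S, L s = L s' → s = s') (ho : ∀ s ∈ S, L o ≠ L s) :
    (S.card : ℝ) ≤ ∑ e, if L (u e) = L (v e) then 0 else a e := by
  have h1 : ∀ s ∈ S, (2 : ℝ) ≤ crs u v a (univ.filter fun x => L x = L s) := fun s hs =>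
    hc _ ⟨s, by simp⟩ ⟨o, by simpa using ho s hs⟩
  have h2 : (S.card : ℝ) * 2 ≤ ∑ s ∈ S, crs u v a (univ.filter fun x => L x = L s) := by
    have := Finset.sum_le_sum h1
    simpa using this
  have h3 : ∑ s ∈ S, crs u v a (univ.filter fun x => L x = L s) ≤
      ∑ e, (if L (u e) = L (v e) then 0 else a e) * 2 := by
    unfold crs
    rw [Finset.sum_comm]
    refine Finset.sum_le_sum fun e _ => ?_
    simp only [mem_filter, mem_univ, true_and]
    by_cases h : L (u e) = L (v e)
    · simp [h]
    · rw [if_neg h]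
      have hone : ∀ m : ℕ, ∑ s ∈ S, (if m = L s then a e else 0) ≤ a e := fun m => by
        rw [← Finset.sum_filter, Finset.sum_const, nsmul_eq_mul]
        have : (S.filter fun s => m = L s).card ≤ 1 := by
          refine Finset.card_le_one.2 fun x hx y hy => ?_
          rw [mem_filter] at hx hy
          exact hinj x hx.1 y hy.1 (hx.2.symm.trans hy.2)
        have h' : ((S.filter fun s => m = L s).card : ℝ) ≤ 1 := by exact_mod_cast this
        nlinarith [ha e]
      have hle : ∀ s ∈ S, (if (L (u e) = L s ↔ L (v e) = L s) then 0 else a e) ≤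
          (if L (u e) = L s then a e else 0) + (if L (v e) = L s then a e else 0) := fun s _ => by
        have := ha e
        by_cases p : L (u e) = L s <;> by_cases q : L (v e) = L s <;> simp [p, q, this]
      refine (Finset.sum_le_sum hle).trans ?_
      rw [Finset.sum_add_distrib]
      linarith [hone (L (u e)), hone (L (v e))]
  rw [← Finset.sum_mul] at h3
  linarith

/-- a cheap spanning tree -/
theorem prim (u v : E → T) (a : E → ℝ) (ha : ∀ e, 0 ≤ a e) (o : T)
    (hc : ∀ A : Finset T, A.Nonempty → Aᶜ.Nonempty → 2 ≤ crs u v a A) (k : E → ℕ) :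
    ∃ (pos : T → ℕ) (par : {t // t ≠ o} → E), Function.Injective pos ∧
      (∀ t, (u (par t) = t.1 ∧ pos (v (par t)) < pos t.1) ∨
        (v (par t) = t.1 ∧ pos (u (par t)) < pos t.1)) ∧
      ∑ t, (k (par t) : ℝ) ≤ ∑ e, a e * k e := by
  have hT : 0 < Fintype.card T := Fintype.card_pos_iff.2 ⟨o⟩
  obtain ⟨n, hn⟩ : ∃ n, Fintype.card T = n + 1 := ⟨Fintype.card T - 1, by omega⟩
  obtain ⟨pos, par, hcard, ho, hinj, hpar⟩ := order_LatA u v a o hc k n hn.ge
  have hall : ∀ x, pos x < n + 1 := fun x => by
    have : (univ.filter fun x => pos x < n + 1) = univ :=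
      Finset.eq_univ_of_card _ (hcard.trans hn.symm)
    have hx : x ∈ univ.filter fun x => pos x < n + 1 := this.symm ▸ mem_univ x
    exact (mem_filter.1 hx).2
  have hinj' : Function.Injective pos := fun x y h => hinj x y (hall x) h
  refine ⟨pos, par, hinj', fun t => (hpar t (hall _)).1, ?_⟩
  have key : ∀ j : ℕ, ∑ t : {t // t ≠ o}, (if j < k (par t) then (1 : ℝ) else 0) ≤
      ∑ e, a e * (if j < k e then 1 else 0) := fun j => by
    set S0 : Finset {t // t ≠ o} := univ.filter fun t => j < k (par t) with hS0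
    set S : Finset T := S0.map (Function.Embedding.subtype _) with hS
    have hSm : ∀ s ∈ S, ∃ h : s ≠ o, j < k (par ⟨s, h⟩) := fun s hs => by
      obtain ⟨t, ht, rfl⟩ := mem_map.1 hs
      exact ⟨t.2, (mem_filter.1 ht).2⟩
    set L : T → ℕ := fun x => (S.filter fun s => pos s ≤ pos x).card with hL
    have hlt : ∀ x, ∀ s ∈ S, pos x < pos s → L x < L s := fun x s hs h => by
      refine Finset.card_lt_card ⟨fun z hz => ?_, fun hsub => ?_⟩
      · rw [mem_filter] at hz ⊢
        exact ⟨hz.1, by omega⟩
      · have : s ∈ S.filter fun z => pos z ≤ pos x := hsub (mem_filter.2 ⟨hs, le_rfl⟩)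
        have := (mem_filter.1 this).2
        omega
    have h1 := layer_LatA u v a ha o hc L S
      (fun s hs s' hs' h => by
        rcases lt_trichotomy (pos s) (pos s') with p | p | p
        · exact absurd h (hlt s s' hs' p).ne
        · exact hinj' p
        · exact absurd h (hlt s' s hs p).ne')
      (fun s hs => by
        obtain ⟨h, _⟩ := hSm s hs
        refine (hlt o s hs ?_).ne
        rw [ho]
        refine Nat.pos_of_ne_zero fun h0 => h (hinj' (h0.trans ho.symm)))
    have h2 : ∑ t : {t // t ≠ o}, (if j < k (par t) then (1 : ℝ) else 0) = S.card := by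
      rw [hS, card_map, hS0, Finset.sum_boole]
    rw [h2]
    refine h1.trans (Finset.sum_le_sum fun e _ => ?_)
    by_cases h : L (u e) = L (v e)
    · rw [if_pos h]
      have := ha e
      split_ifs <;> simp [this]
    · rw [if_neg h]
      have hj : j < k e := by
        by_contra hj
        apply h
        have : (S.filter fun s => pos s ≤ pos (u e)) = S.filter fun s => pos s ≤ pos (v e) := by
          refine Finset.filter_congr fun s hs => ?_
          obtain ⟨hso, hk⟩ := hSm s hs
          by_contra hne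
          have := (hpar ⟨s, hso⟩ (hall _)).2 e (by
            simp only
            omega)
          omega
        simp only [hL, this]
      simp [hj]
  obtain ⟨K, hK⟩ : ∃ K, ∀ e, k e ≤ K := ⟨univ.sup k, fun e => Finset.le_sup (f := k) (mem_univ e)⟩
  have hk : ∀ e, (k e : ℝ) = ∑ j ∈ range K, if j < k e then (1 : ℝ) else 0 := fun e => by
    rw [Finset.sum_boole]
    have : ((range K).filter fun j => j < k e) = range (k e) := by
      ext j
      have := hK e
      simp only [mem_filter, mem_range]
      omega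
    rw [this, card_range]
  simp only [hk, Finset.mul_sum]
  rw [Finset.sum_comm, Finset.sum_comm (s := univ)]
  exact Finset.sum_le_sum fun j _ => key j

end Pool.Agent.MP_9a3194_co
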