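import Pool.Agent.MP_9a3194_co.Defs

open Finset
open scoped symmDiff

namespace Pool.Agent.MP_9a3194_co

open Matrix

variable {T E : Type} [Fintype T] [DecidableEq T] [Fintype E] [DecidableEq E]

private theorem det_rank_one_LatB {A : Matrix T T ℝ} (hA : IsUnit A.det) (c : ℝ) (b : T → ℝ) :
    (A + c • vecMulVec b b).det = A.det * (1 + c * (b ⬝ᵥ A⁻¹ *ᵥ b)) := by
  have h1 : c • vecMulVec b b = replicateCol Unit (c • b) * replicateRow Unit b := by
    rw [← vecMulVec_eq]
    ext i j
    simp [vecMulVec_apply, mul_assoc]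
  rw [h1, det_add_replicateCol_mul_replicateRow hA, det_unique (n := Unit), Matrix.add_apply,
    Matrix.one_apply_eq, Matrix.mul_assoc, ← replicateCol_mulVec,
    replicateRow_mul_replicateCol_apply, mulVec_smul, dotProduct_smul, smul_eq_mul]

omit [DecidableEq T] in
private theorem psd_LatB {c : ℝ} (hc : 0 ≤ c) (b : T → ℝ) : (c • vecMulVec b b).PosSemidef := by
  have h := posSemidef_vecMulVec_self_star b
  rw [star_trivial] at h
  exact h.smul hc

omit [Fintype E] in
private theorem add_edges_LatB {A : Matrix T T ℝ} (hA : A.PosDef) (c : E → ℝ)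
    (hc : ∀ e, 0 < c e) (b : E → T → ℝ) (s : Finset E) :
    (A + ∑ e ∈ s, c e • vecMulVec (b e) (b e)).PosDef ∧
      A.det ≤ (A + ∑ e ∈ s, c e • vecMulVec (b e) (b e)).det := by
  induction s using Finset.induction_on with
  | empty => simpa using hA
  | insert e s he ih =>
    rw [Finset.sum_insert he, add_comm (c e • _), ← add_assoc]
    refine ⟨ih.1.add_posSemidef (psd_LatB (hc e).le _), ih.2.trans ?_⟩
    rw [det_rank_one_LatB (isUnit_iff_ne_zero.2 ih.1.det_pos.ne')]
    have h1 := ih.1.inv.posSemidef.dotProduct_mulVec_nonneg (b e)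
    rw [star_trivial] at h1
    have h2 := mul_nonneg (hc e).le h1
    exact le_mul_of_one_le_right ih.1.det_pos.le (by linarith)

theorem lap_tree (u v : E → T) (o : T) (c : E → ℝ) (hc : ∀ e, 0 < c e) (pos : T → ℕ)
    (par : {t // t ≠ o} → E) (hp : Function.Injective pos)
    (h : ∀ t, (u (par t) = t.1 ∧ pos (v (par t)) < pos t.1) ∨
      (v (par t) = t.1 ∧ pos (u (par t)) < pos t.1)) :
    (lap u v o c).PosDef ∧ ∏ t, c (par t) ≤ (lap u v o c).det := by
  have hpar : Function.Injective par := by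
    intro s t e
    apply Subtype.ext
    have hs := h s
    have ht := h t
    rw [e] at hs
    rcases hs with ⟨a, a'⟩ | ⟨a, a'⟩ <;> rcases ht with ⟨b, b'⟩ | ⟨b, b'⟩
    · exact a.symm.trans b
    · rw [a] at b'; rw [b] at a'; omega
    · rw [a] at b'; rw [b] at a'; omega
    · exact a.symm.trans b
  let b : E → T → ℝ := fun e => Pi.single (u e) 1 - Pi.single (v e) 1
  let B : Matrix T T ℝ := Matrix.of fun t => if ht : t = o then Pi.single o 1 else b (par ⟨t, ht⟩)
  let w : T → ℝ := fun t => if ht : t = o then 1 else c (par ⟨t, ht⟩)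
  have hBo : B o = Pi.single o 1 := dif_pos rfl
  have hBt : ∀ t : {t // t ≠ o}, B t.1 = b (par t) := fun t => dif_neg t.2
  have hwo : w o = 1 := dif_pos rfl
  have hwt : ∀ t : {t // t ≠ o}, w t.1 = c (par t) := fun t => dif_neg t.2
  have hdiag : ∀ t, B t t * B t t = 1 := by
    intro t
    by_cases ht : t = o
    · subst ht
      rw [hBo]
      simp
    · rw [hBt ⟨t, ht⟩]
      rcases h ⟨t, ht⟩ with ⟨a, a'⟩ | ⟨a, a'⟩
      · have : v (par ⟨t, ht⟩) ≠ t := fun e => by rw [e] at a'; exact lt_irrefl _ a'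
        simp [b, a, Pi.single_eq_of_ne' this]
      · have : u (par ⟨t, ht⟩) ≠ t := fun e => by rw [e] at a'; exact lt_irrefl _ a'
        simp [b, a, Pi.single_eq_of_ne' this]
  have hlow : ∀ i j, pos i < pos j → B i j = 0 := by
    intro i j hij
    have hne : i ≠ j := fun e => by rw [e] at hij; exact lt_irrefl _ hij
    by_cases ht : i = o
    · subst ht
      rw [hBo, Pi.single_eq_of_ne' hne]
    · rw [hBt ⟨i, ht⟩]
      rcases h ⟨i, ht⟩ with ⟨a, a'⟩ | ⟨a, a'⟩
      · have : v (par ⟨i, ht⟩) ≠ j := fun e => by rw [e] at a'; exact lt_asymm hij a'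
        simp [b, a, Pi.single_eq_of_ne' this, Pi.single_eq_of_ne' hne]
      · have : u (par ⟨i, ht⟩) ≠ j := fun e => by rw [e] at a'; exact lt_asymm hij a'
        simp [b, a, Pi.single_eq_of_ne' this, Pi.single_eq_of_ne' hne]
  have hdet : B.det * B.det = 1 := by
    have h1 : B.det = ∏ i, B i i :=
      @det_of_isLowerTriangular _ _ _ _ _ (LinearOrder.lift' pos hp) B fun i j hij => hlow i j hij
    rw [h1, ← Finset.prod_mul_distrib]
    exact Finset.prod_eq_one fun t _ => hdiag t
  have hw : ∀ t, 0 < w t := by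
    intro t
    by_cases ht : t = o
    · rw [ht, hwo]; exact one_pos
    · rw [hwt ⟨t, ht⟩]; exact hc _
  have hBu : IsUnit B := (isUnit_iff_isUnit_det B).2 (IsUnit.of_mul_eq_one _ hdet)
  have hP : (Bᴴ * diagonal w * B).PosDef :=
    (PosDef.diagonal hw).conjTranspose_mul_mul_same (mulVec_injective_iff_isUnit.2 hBu)
  have hD : (Bᴴ * diagonal w * B).det = ∏ t, c (par t) := by
    rw [det_mul, det_mul, det_conjTranspose, star_trivial, det_diagonal, mul_right_comm, hdet,
      one_mul, Fintype.prod_eq_mul_prod_subtype_ne w o, hwo, one_mul]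
    exact Finset.prod_congr rfl fun t _ => hwt t
  have hS : Bᴴ * diagonal w * B = ∑ t, w t • vecMulVec (B t) (B t) := by
    ext i j
    rw [Matrix.mul_apply, Matrix.sum_apply]
    refine Finset.sum_congr rfl fun t _ => ?_
    rw [mul_diagonal, conjTranspose_apply, star_trivial, Matrix.smul_apply, vecMulVec_apply,
      smul_eq_mul]
    ring
  have hL : lap u v o c = Bᴴ * diagonal w * B +
      ∑ e ∈ (univ.image par)ᶜ, c e • vecMulVec (b e) (b e) := by
    rw [hS, Fintype.sum_eq_add_sum_subtype_ne _ o, hwo, hBo, one_smul, lap,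
      ← Finset.sum_add_sum_compl (univ.image par), Finset.sum_image hpar.injOn, add_assoc]
    congr 2
    exact Finset.sum_congr rfl fun t _ => by rw [hwt, hBt]
  rw [hL, ← hD]
  exact add_edges_LatB hP c hc b _

theorem lap_half (u v : E → T) (o : T) (c : E → ℝ) (h : (lap u v o c).PosDef) (e : E) :
    (lap u v o (Function.update c e (c e / 2))).det = (lap u v o c).det *
      (1 - c e / 2 * ((Pi.single (u e) 1 - Pi.single (v e) 1 : T → ℝ) ⬝ᵥ
        (lap u v o c)⁻¹ *ᵥ (Pi.single (u e) 1 - Pi.single (v e) 1))) := by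
  have h1 : lap u v o (Function.update c e (c e / 2)) = lap u v o c +
      (-(c e / 2)) • vecMulVec (Pi.single (u e) 1 - Pi.single (v e) 1 : T → ℝ)
        (Pi.single (u e) 1 - Pi.single (v e) 1) := by
    rw [lap, lap, add_assoc, ← Finset.add_sum_erase _ _ (Finset.mem_univ e),
      ← Finset.add_sum_erase _ _ (Finset.mem_univ e), Function.update_self, add_right_comm,
      ← add_smul, show c e + -(c e / 2) = c e / 2 by ring]
    congr 2
    exact Finset.sum_congr rfl fun x hx => by rw [Function.update_of_ne (Finset.ne_of_mem_erase hx)]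
  rw [h1, det_rank_one_LatB (isUnit_iff_ne_zero.2 h.det_pos.ne'), neg_mul, ← sub_eq_add_neg]

theorem lap_sum (u v : E → T) (o : T) (c : E → ℝ) (φ : T → ℝ) (A : Finset T) :
    ∑ s ∈ A, (lap u v o c *ᵥ φ) s = (if o ∈ A then φ o else 0) +
      ∑ e, c e * (φ (u e) - φ (v e)) *
        ((if u e ∈ A then 1 else 0) - if v e ∈ A then 1 else 0) := by
  have h0 : ∀ (a : T → ℝ) (s : T), (vecMulVec a a *ᵥ φ) s = (a ⬝ᵥ φ) * a s := by
    intro a s
    rw [vecMulVec_mulVec]
    simp [mul_comm]
  have h1 : ∀ t : T, ∑ s ∈ A, (Pi.single t 1 : T → ℝ) s = if t ∈ A then 1 else 0 := by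
    intro t
    rw [Finset.sum_pi_single']
  simp only [lap, add_mulVec, sum_mulVec, smul_mulVec, Pi.add_apply, Finset.sum_apply,
    Pi.smul_apply, h0, smul_eq_mul, Finset.sum_add_distrib]
  congr 1
  · rw [← Finset.mul_sum, h1, single_dotProduct, one_mul, mul_ite, mul_one, mul_zero]
  · rw [Finset.sum_comm]
    refine Finset.sum_congr rfl fun e _ => ?_
    rw [← Finset.mul_sum, ← Finset.mul_sum, sub_dotProduct, single_dotProduct, single_dotProduct,
      one_mul, one_mul, mul_assoc]
    simp only [Pi.sub_apply, Finset.sum_sub_distrib, h1]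

end Pool.Agent.MP_9a3194_co
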