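import Pool.Agent.MP_9a3194_co.LatA
import Pool.Agent.MP_9a3194_co.LatB

open Finset
open scoped symmDiff

namespace Pool.Agent.MP_9a3194_co

open Matrix

variable {T E : Type} [Fintype T] [DecidableEq T] [Fintype E] [DecidableEq E]

/-- conductances with small leverage -/
theorem weights (u v : E → T) (a : E → ℝ) (ha : ∀ e, 0 < a e) (o : T)
    (hc : ∀ A : Finset T, A.Nonempty → Aᶜ.Nonempty → 2 ≤ crs u v a A) :
    ∃ c : E → ℝ, (∀ e, 0 < c e ∧ c e ≤ 1) ∧ (lap u v o c).PosDef ∧
      ∀ e, c e * ((Pi.single (u e) 1 - Pi.single (v e) 1 : T → ℝ) ⬝ᵥ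
        (lap u v o c)⁻¹ *ᵥ (Pi.single (u e) 1 - Pi.single (v e) 1)) ≤ 1.45 * a e := by
  let c : (E → ℕ) → E → ℝ := fun k e => (1 / 2) ^ k e
  have hc0 : ∀ k e, 0 < c k e := fun k e => by positivity
  let Φ : (E → ℕ) → ℝ := fun k => Real.log (lap u v o (c k)).det + Real.log 2 * ∑ e, a e * k e
  have h2 : 0 < Real.log 2 := Real.log_pos one_lt_two
  have key : ∀ k, (lap u v o (c k)).PosDef ∧ 0 ≤ Φ k := fun k => by
    obtain ⟨pos, par, hp, h, hs⟩ := prim u v a (fun e => (ha e).le) o hc k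
    obtain ⟨h1, h3⟩ := lap_tree u v o (c k) (hc0 k) pos par hp h
    refine ⟨h1, ?_⟩
    have h4 := Real.log_le_log (Finset.prod_pos fun t _ => hc0 k (par t)) h3
    rw [Real.log_prod fun t _ => (hc0 k (par t)).ne'] at h4
    have h5 : ∑ t, Real.log (c k (par t)) = -(Real.log 2 * ∑ t, (k (par t) : ℝ)) := by
      rw [Finset.mul_sum, ← Finset.sum_neg_distrib]
      refine Finset.sum_congr rfl fun t _ => ?_
      simp only [c]
      rw [Real.log_pow, one_div, Real.log_inv]
      ring
    have h6 := mul_le_mul_of_nonneg_left hs h2.le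
    simp only [Φ]
    linarith
  obtain ⟨ε, hε, hεa⟩ : ∃ ε : ℝ, 0 < ε ∧ ∀ e, ε ≤ 0.03 * a e := by
    rcases isEmpty_or_nonempty E with h | h
    · exact ⟨1, one_pos, fun e => (h.false e).elim⟩
    · obtain ⟨e₀, he₀⟩ := Finite.exists_min a
      exact ⟨0.03 * a e₀, by have := ha e₀; positivity, fun e => by have := he₀ e; linarith⟩
  have hb : BddBelow (Set.range Φ) := ⟨0, by rintro _ ⟨k, rfl⟩; exact (key k).2⟩
  obtain ⟨k, hk⟩ := exists_lt_of_ciInf_lt (show iInf Φ < iInf Φ + ε by linarith)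
  refine ⟨c k, fun e => ⟨hc0 k e, pow_le_one₀ (by norm_num) (by norm_num)⟩, (key k).1,
    fun e => ?_⟩
  have h3 := ciInf_le hb (Function.update k e (k e + 1))
  have h4 : c (Function.update k e (k e + 1)) = Function.update (c k) e (c k e / 2) := by
    funext e'
    by_cases h : e' = e
    · subst h
      simp only [c, Function.update_self, pow_succ]
      ring
    · simp only [c, Function.update_of_ne h]
  have h5 := lap_half u v o (c k) (key k).1 e
  have h6 := (key (Function.update k e (k e + 1))).1.det_pos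
  have h7 := (key k).1.det_pos
  have h8 : ∑ e', a e' * ((Function.update k e (k e + 1) e' : ℕ) : ℝ) =
      ∑ e', a e' * k e' + a e := by
    have : ∀ e', a e' * ((Function.update k e (k e + 1) e' : ℕ) : ℝ) =
        a e' * k e' + if e' = e then a e else 0 := fun e' => by
      by_cases h : e' = e
      · subst h
        simp [mul_add]
      · simp [h]
    simp only [this, Finset.sum_add_distrib, Finset.sum_ite_eq', Finset.mem_univ, if_true]
  simp only [Φ] at h3 hk
  rw [h4] at h6
  rw [h4, h8, h5] at h3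
  rw [h5] at h6
  set x := (Pi.single (u e) 1 - Pi.single (v e) 1 : T → ℝ) ⬝ᵥ
    (lap u v o (c k))⁻¹ *ᵥ (Pi.single (u e) 1 - Pi.single (v e) 1)
  have h9 : 0 < 1 - c k e / 2 * x := (pos_iff_pos_of_mul_pos h6).1 h7
  rw [Real.log_mul h7.ne' h9.ne'] at h3
  have h10 := Real.log_le_sub_one_of_pos h9
  have h11 := mul_le_mul_of_nonneg_right Real.log_two_lt_d9.le (ha e).le
  have h12 := hεa e
  have h13 := ha e
  nlinarith

end Pool.Agent.MP_9a3194_co
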