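import Pool.Agent.MP_9a3194_co.LatC

open Finset
open scoped symmDiff

namespace Pool.Agent.MP_9a3194_co

open Matrix

variable {T E : Type} [Fintype T] [DecidableEq T] [Fintype E] [DecidableEq E]

omit [Fintype E] [DecidableEq E] [DecidableEq T] in
private lemma symm_LatD (M : Matrix T T ℝ) (hM : M.IsHermitian) (x y : T → ℝ) :
    x ⬝ᵥ M *ᵥ y = y ⬝ᵥ M *ᵥ x := by
  have h : Mᵀ = M := by
    have := hM.eq
    rwa [conjTranspose_eq_transpose_of_trivial] at this
  rw [dotProduct_mulVec, ← mulVec_transpose, h, dotProduct_comm]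

omit [Fintype T] [DecidableEq T] [DecidableEq E] in
private lemma delta_LatD (a : E → ℝ) (ha : ∀ e, 0 < a e) :
    ∃ δ : ℝ, 0 < δ ∧ ∀ e, δ ≤ 0.2 * a e := by
  rcases isEmpty_or_nonempty E with h | h
  · exact ⟨1, one_pos, fun e => (h.false e).elim⟩
  · obtain ⟨e₀, he₀⟩ := Finite.exists_min a
    refine ⟨0.2 * a e₀, by have := ha e₀; positivity, fun e => ?_⟩
    have := he₀ e
    linarith

omit [Fintype E] [DecidableEq E] [DecidableEq T] in
private lemma expand_LatD (M : Matrix T T ℝ) (hM : M.IsHermitian) (y b : T → ℝ) (s : ℝ) :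
    (y + s • b) ⬝ᵥ M *ᵥ (y + s • b) =
      y ⬝ᵥ M *ᵥ y + 2 * s * (b ⬝ᵥ M *ᵥ y) + s ^ 2 * (b ⬝ᵥ M *ᵥ b) := by
  rw [mulVec_add, mulVec_smul, add_dotProduct, dotProduct_add, dotProduct_add, smul_dotProduct,
    smul_dotProduct, dotProduct_smul, dotProduct_smul, symm_LatD M hM y b]
  simp only [smul_eq_mul]
  ring

/-- every coset of `2ℤ^T` has a point that can be routed -/
theorem lattice (u v : E → T) (a : E → ℝ) (ha : ∀ e, 0 < a e) (o : T)
    (hc : ∀ A : Finset T, A.Nonempty → Aᶜ.Nonempty → 2 ≤ crs u v a A) (q : T → ℝ) (m : ℤ)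
    (hq : ∑ t, q t = 2 * m) :
    ∃ z : T → ℤ, ∑ t, (q t + 2 * z t) = 0 ∧
      ∀ A : Finset T, ∑ t ∈ A, (q t + 2 * z t) ≤ 3 / 2 * crs u v a A := by
  obtain ⟨c, hc1, hL, hlev⟩ := weights u v a ha o hc
  obtain ⟨δ, hδ, hδa⟩ := delta_LatD a ha
  set L := lap u v o c with hLdef
  have hI : (L⁻¹).PosDef := hL.inv
  have hH : (L⁻¹).IsHermitian := hI.isHermitian
  let y : (T → ℤ) → T → ℝ := fun z t => q t + 2 * z t
  let En : (T → ℤ) → ℝ := fun z => y z ⬝ᵥ L⁻¹ *ᵥ y z
  have hEn : ∀ z, 0 ≤ En z := fun z => by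
    have := hI.posSemidef.dotProduct_mulVec_nonneg (y z)
    simpa using this
  let S : Set ℝ := {r | ∃ z : T → ℤ, ∑ t, y z t = 0 ∧ En z = r}
  have hSne : S.Nonempty := by
    refine ⟨_, Pi.single o (-m), ?_, rfl⟩
    simp only [y, Finset.sum_add_distrib, hq, ← Finset.mul_sum]
    have : ∑ t, (((Pi.single o (-m) : T → ℤ) t : ℤ) : ℝ) = -m := by
      rw [← Int.cast_sum, Finset.sum_pi_single']
      simp
    rw [this]
    ring
  have hSb : BddBelow S := ⟨0, by rintro r ⟨z, -, rfl⟩; exact hEn z⟩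
  obtain ⟨r, ⟨z, hz, rfl⟩, hr⟩ := Real.lt_sInf_add_pos hSne hδ
  have hmin : ∀ z' : T → ℤ, ∑ t, y z' t = 0 → En z ≤ En z' + δ := fun z' hz' => by
    have := csInf_le hSb (show En z' ∈ S from ⟨z', hz', rfl⟩)
    linarith
  set φ : T → ℝ := L⁻¹ *ᵥ y z with hφ
  have hLφ : L *ᵥ φ = y z := by
    rw [hφ, mulVec_mulVec, mul_nonsing_inv _ (isUnit_iff_ne_zero.mpr hL.det_pos.ne'), one_mulVec]
  have hedge : ∀ e, c e * |φ (u e) - φ (v e)| ≤ 3 / 2 * a e := by
    intro e
    set b : T → ℝ := Pi.single (u e) 1 - Pi.single (v e) 1 with hb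
    have hbφ : b ⬝ᵥ L⁻¹ *ᵥ y z = φ (u e) - φ (v e) := by
      rw [← hφ, hb, sub_dotProduct, single_dotProduct, single_dotProduct]
      ring
    have hbs : ∑ t, b t = 0 := by
      simp [hb, Finset.sum_sub_distrib, Finset.sum_pi_single']
    have key : ∀ s : ℤ, En z ≤ En z + 2 * (2 * s) * (φ (u e) - φ (v e)) +
        (2 * s) ^ 2 * (b ⬝ᵥ L⁻¹ *ᵥ b) + δ := by
      intro s
      have hy : y (z + s • (Pi.single (u e) 1 - Pi.single (v e) 1)) = y z + (2 * s : ℝ) • b := by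
        funext t
        simp only [y, hb, Pi.add_apply, Pi.smul_apply, Pi.sub_apply, smul_eq_mul, Pi.single_apply]
        push_cast
        ring
      have h1 := hmin (z + s • (Pi.single (u e) 1 - Pi.single (v e) 1)) (by
        rw [hy]
        simp only [Pi.add_apply, Pi.smul_apply, smul_eq_mul, Finset.sum_add_distrib,
          ← Finset.mul_sum, hz, hbs]
        ring)
      have h2 : En (z + s • (Pi.single (u e) 1 - Pi.single (v e) 1)) =
          En z + 2 * (2 * s) * (φ (u e) - φ (v e)) + (2 * s) ^ 2 * (b ⬝ᵥ L⁻¹ *ᵥ b) := by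
        simp only [En]
        rw [hy, expand_LatD _ hH, hbφ]
      linarith
    have k1 := key 1
    have k2 := key (-1)
    push_cast at k1 k2
    have habs : |φ (u e) - φ (v e)| ≤ b ⬝ᵥ L⁻¹ *ᵥ b + δ / 4 := by
      rw [abs_le]
      constructor <;> linarith
    have h3 := hlev e
    have h4 := hδa e
    obtain ⟨h5, h6⟩ := hc1 e
    have h7 := mul_le_mul_of_nonneg_left habs h5.le
    have h8 : c e * (δ / 4) ≤ δ / 4 := by nlinarith
    rw [mul_add] at h7
    linarith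
  have hφo : φ o = 0 := by
    have := lap_sum u v o c φ Finset.univ
    rw [← hLdef, hLφ, hz] at this
    simpa using this.symm
  refine ⟨z, hz, fun A => ?_⟩
  have h := lap_sum u v o c φ A
  rw [← hLdef, hLφ, hφo] at h
  have h' : ∑ t ∈ A, (q t + 2 * (z t : ℝ)) = ∑ s ∈ A, y z s := rfl
  rw [h', h, crs, Finset.mul_sum, ite_self, zero_add]
  refine Finset.sum_le_sum fun e _ => ?_
  have h1 := hedge e
  have h2 := (hc1 e).1
  have h3 := mul_le_mul_of_nonneg_left (le_abs_self (φ (u e) - φ (v e))) h2.le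
  have h4 := mul_le_mul_of_nonneg_left (neg_abs_le (φ (u e) - φ (v e))) h2.le
  by_cases hu : u e ∈ A <;> by_cases hv : v e ∈ A <;> simp only [hu, hv, if_true, if_false,
    iff_self, true_iff, iff_true, not_true, not_false_iff, iff_false, false_iff] <;> linarith

end Pool.Agent.MP_9a3194_co
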