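import Pool.Agent.MP_9a3194_co.Basic

open Finset
open scoped symmDiff

namespace Pool.Agent.MP_9a3194_co

variable {V : Type} [Fintype V] [DecidableEq V] (S : Str V)

omit [Fintype V] in
private theorem tau_le_Sel {ω : ℕ} {Ω : Finset V} (h : Ω.card = ω) (Y : Finset V) :
    (mino Ω Y : ℝ) / ω ≤ 1 / 2 := by
  have h1 : (2 : ℝ) * mino Ω Y ≤ ω := by exact_mod_cast h ▸ two_mino_le Ω Y
  rcases Nat.eq_zero_or_pos ω with h0 | h0
  · rw [h0]; simp
  · rw [div_le_iff₀ (by exact_mod_cast h0)]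
    linarith

private theorem exp_le_Sel {β t : ℝ} (hβ : 2 ≤ β) (h0 : 0 ≤ t) (h1 : t ≤ 1 / 2) :
    Real.exp (-(β * t)) ≤ 1 - t := by
  have h2 : 1 + 2 * t ≤ Real.exp (β * t) := by
    have := Real.add_one_le_exp (β * t)
    nlinarith
  rw [Real.exp_neg, inv_le_iff_one_le_mul₀ (Real.exp_pos _)]
  nlinarith [mul_le_mul_of_nonneg_left h2 (by linarith : (0 : ℝ) ≤ 1 - t)]

private theorem wt_insert_Sel (γ β : ℝ) (Ω : V → Finset V) (ω : ℕ) {A : Finset V} {g : V}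
    (hg : g ∉ A) (Y : Finset V) :
    S.wt γ β Ω ω (insert g A) Y = S.wt γ β Ω ω A Y * Real.exp (β * ((mino (Ω g) Y : ℝ) / ω)) := by
  rw [Str.wt, Str.wt, sum_insert hg, ← Real.exp_add]
  congr 1
  ring

private theorem wt_pos_Sel (γ β : ℝ) (Ω : V → Finset V) (ω : ℕ) (A Y : Finset V) :
    0 < S.wt γ β Ω ω A Y := Real.exp_pos _

private theorem thin_Sel {ω : ℕ} {G : Finset V} {Ω : V → Finset V} (hT : S.Trees G Ω ω)
    {γ β π : ℝ} (hγ : 0 ≤ γ) (hβ : 2 ≤ β) (hπ : 0 < π) {A : Finset V} (hA : A ⊆ G)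
    (h : ∀ g ∈ A, ∑ Y, S.wt γ β Ω ω A Y * ((mino (Ω g) Y : ℝ) / ω) ≤
      π * ∑ Y, S.wt γ β Ω ω A Y) (X : Finset V) :
    ∑ g ∈ A, (mino (Ω g) X : ℝ) / ω ≤ (γ / β + 2 * π) * S.b X := by
  classical
  set A' := A.filter fun g => ¬ (Ω g ⊆ X ∨ Disjoint (Ω g) X) with hA'
  have hβ0 : 0 < β := by linarith
  have hcard : (A'.card : ℝ) ≤ S.b X := by
    have h1 : A' ⊆ G := (filter_subset _ _).trans hA
    have h2 := S.touch A' Ω (fun g hg => hT.conn g (h1 hg))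
      (fun g hg g' hg' => hT.disj g (h1 hg) g' (h1 hg')) X fun g hg => by
        have h3 := (mem_filter.1 hg).2
        rw [not_or, not_subset, not_disjoint_iff] at h3
        exact ⟨h3.2, h3.1⟩
    exact_mod_cast h2
  have hsum : ∑ g ∈ A, (mino (Ω g) X : ℝ) / ω = ∑ g ∈ A', (mino (Ω g) X : ℝ) / ω := by
    rw [hA', sum_filter]
    refine sum_congr rfl fun g _ => ?_
    split_ifs with h1
    · rw [mino_eq_zero _ _ h1]; simp
    · rfl
  have hZ : 0 < ∑ Y, S.wt γ β Ω ω A Y := sum_pos (fun Y _ => wt_pos_Sel S _ _ _ _ _ _) univ_nonempty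
  have hbij : ∑ Y, S.wt γ β Ω ω A (Y ∆ X) = ∑ Y, S.wt γ β Ω ω A Y :=
    sum_nbij' (fun Y => Y ∆ X) (fun Y => Y ∆ X) (fun _ _ => mem_univ _) (fun _ _ => mem_univ _)
      (fun Y _ => symmDiff_symmDiff_cancel_right _ _)
      (fun Y _ => symmDiff_symmDiff_cancel_right _ _) fun _ _ => rfl
  have hpt : ∀ Y, S.wt γ β Ω ω A Y * (1 + (-γ * S.b X + β * ∑ g ∈ A', (mino (Ω g) X : ℝ) / ω)) -
      2 * β * ∑ g ∈ A', S.wt γ β Ω ω A Y * ((mino (Ω g) Y : ℝ) / ω) ≤
      S.wt γ β Ω ω A (Y ∆ X) := fun Y => by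
    have h1 : (S.b (Y ∆ X) : ℝ) ≤ S.b Y + S.b X := by exact_mod_cast S.b_symmDiff_le Y X
    have h2 : ∑ g ∈ A, (mino (Ω g) Y : ℝ) / ω + (∑ g ∈ A', (mino (Ω g) X : ℝ) / ω -
        2 * ∑ g ∈ A', (mino (Ω g) Y : ℝ) / ω) ≤ ∑ g ∈ A, (mino (Ω g) (Y ∆ X) : ℝ) / ω := by
      rw [mul_sum, ← sum_sub_distrib, hA', sum_filter, ← sum_add_distrib]
      refine sum_le_sum fun g _ => ?_
      split_ifs with h3
      · rw [mino_symmDiff _ _ _ h3, add_zero]
      · have h4 : (mino (Ω g) X : ℝ) ≤ mino (Ω g) (Y ∆ X) + mino (Ω g) Y := by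
          exact_mod_cast mino_tri (Ω g) X Y
        have h5 := div_le_div_of_nonneg_right h4 (Nat.cast_nonneg ω)
        rw [add_div] at h5
        linarith
    have h3 : S.wt γ β Ω ω A Y * Real.exp (-γ * S.b X + β * ∑ g ∈ A', (mino (Ω g) X : ℝ) / ω -
        2 * β * ∑ g ∈ A', (mino (Ω g) Y : ℝ) / ω) ≤ S.wt γ β Ω ω A (Y ∆ X) := by
      rw [Str.wt, Str.wt, ← Real.exp_add, Real.exp_le_exp]
      nlinarith [mul_le_mul_of_nonneg_left h1 hγ, mul_le_mul_of_nonneg_left h2 hβ0.le]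
    refine le_trans ?_ h3
    rw [← mul_sum]
    have h4 := mul_le_mul_of_nonneg_left (Real.add_one_le_exp
      (-γ * S.b X + β * ∑ g ∈ A', (mino (Ω g) X : ℝ) / ω -
        2 * β * ∑ g ∈ A', (mino (Ω g) Y : ℝ) / ω)) (wt_pos_Sel S γ β Ω ω A Y).le
    linarith
  have h1 := sum_le_sum fun Y (_ : Y ∈ univ) => hpt Y
  rw [hbij, sum_sub_distrib, ← sum_mul, ← mul_sum, sum_comm] at h1
  have h2 : ∑ g ∈ A', ∑ Y, S.wt γ β Ω ω A Y * ((mino (Ω g) Y : ℝ) / ω) ≤
      S.b X * (π * ∑ Y, S.wt γ β Ω ω A Y) := by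
    refine (sum_le_card_nsmul _ _ _ fun g hg => h g (mem_filter.1 hg).1).trans ?_
    rw [nsmul_eq_mul]
    exact mul_le_mul_of_nonneg_right hcard (by positivity)
  have h3 : (∑ Y, S.wt γ β Ω ω A Y) * (β * ∑ g ∈ A', (mino (Ω g) X : ℝ) / ω) ≤
      (∑ Y, S.wt γ β Ω ω A Y) * (γ * S.b X + 2 * β * π * S.b X) := by
    nlinarith [mul_le_mul_of_nonneg_left h2 hβ0.le]
  have h4 := le_of_mul_le_mul_left h3 hZ
  rw [hsum]
  refine le_of_mul_le_mul_left (h4.trans_eq ?_) hβ0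
  field_simp

open Classical in
/-- the active set minimising the free energy is thin, and inactive trees are often cut -/
theorem select {ω : ℕ} {G : Finset V} {Ω : V → Finset V} (hT : S.Trees G Ω ω) {γ β π : ℝ}
    (hγ : 0 ≤ γ) (hβ : 2 ≤ β) (hπ : 0 < π) (hπ1 : π ≤ 1) :
    ∃ A ⊆ G, (∀ X : Finset V, ∑ g ∈ A, (mino (Ω g) X : ℝ) / ω ≤ (γ / β + 2 * π) * S.b X) ∧
      ∀ g ∈ G, g ∉ A → π / 2 * Real.exp (-β / 2) * ∑ Y, S.wt γ β Ω ω A Y ≤
        ∑ Y ∈ univ.filter (fun Y => π / (4 * β) * ω ≤ mino (Ω g) Y), S.wt γ β Ω ω A Y := by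
  have _ := hπ1
  obtain ⟨A, hA, hmin⟩ := exists_min_image G.powerset
    (fun A => (∑ Y, S.wt γ β Ω ω A Y) * Real.exp (-π * A.card)) ⟨∅, empty_mem_powerset G⟩
  rw [mem_powerset] at hA
  have hβ0 : 0 < β := by linarith
  have hZ : 0 < ∑ Y, S.wt γ β Ω ω A Y := sum_pos (fun Y _ => wt_pos_Sel S _ _ _ _ _ _) univ_nonempty
  refine ⟨A, hA, thin_Sel S hT hγ hβ hπ hA fun g hg => ?_, fun g hg hgA => ?_⟩
  · have h1 := hmin (A.erase g) (mem_powerset.2 ((erase_subset _ _).trans hA))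
    have h2 : (A.card : ℝ) = (A.erase g).card + 1 := by
      exact_mod_cast (card_erase_add_one hg).symm
    rw [h2, mul_add, mul_one, add_comm, Real.exp_add, ← mul_assoc] at h1
    have h3 := le_of_mul_le_mul_right h1 (Real.exp_pos _)
    have h4 : ∑ Y, S.wt γ β Ω ω (A.erase g) Y ≤
        ∑ Y, (S.wt γ β Ω ω A Y - S.wt γ β Ω ω A Y * ((mino (Ω g) Y : ℝ) / ω)) := by
      refine sum_le_sum fun Y _ => ?_
      have h5 := wt_insert_Sel S γ β Ω ω (notMem_erase g A) Y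
      rw [insert_erase hg] at h5
      have h6 : S.wt γ β Ω ω (A.erase g) Y =
          S.wt γ β Ω ω A Y * Real.exp (-(β * ((mino (Ω g) Y : ℝ) / ω))) := by
        rw [h5, mul_assoc, ← Real.exp_add, add_neg_cancel, Real.exp_zero, mul_one]
      have h7 := mul_le_mul_of_nonneg_left (exp_le_Sel hβ (by positivity)
        (tau_le_Sel (hT.card g (hA hg)) Y)) (wt_pos_Sel S γ β Ω ω A Y).le
      rw [h6]
      linarith
    rw [sum_sub_distrib] at h4
    have h5 := mul_le_mul_of_nonneg_left (Real.add_one_le_exp (-π)) hZ.le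
    linarith
  · have h1 := hmin (insert g A) (mem_powerset.2 (insert_subset hg hA))
    have h2 : -π * (A.card : ℝ) = π + -π * (insert g A).card := by
      rw [card_insert_of_notMem hgA]
      push_cast
      ring
    rw [h2, Real.exp_add, ← mul_assoc] at h1
    have h3 := le_of_mul_le_mul_right h1 (Real.exp_pos _)
    have hω : (0 : ℝ) < ω := by
      have h4 := card_pos.2 ⟨g, hT.mem g hg⟩
      rw [hT.card g hg] at h4
      exact_mod_cast h4
    have h4 : ∑ Y, S.wt γ β Ω ω (insert g A) Y ≤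
        ∑ Y, (S.wt γ β Ω ω A Y * Real.exp (π / 4) + Real.exp (β / 2) *
          if π / (4 * β) * ω ≤ mino (Ω g) Y then S.wt γ β Ω ω A Y else 0) := by
      refine sum_le_sum fun Y _ => ?_
      have h5 := wt_pos_Sel S γ β Ω ω A Y
      rw [wt_insert_Sel S γ β Ω ω hgA]
      split_ifs with h6
      · have h7 : Real.exp (β * ((mino (Ω g) Y : ℝ) / ω)) ≤ Real.exp (β / 2) := by
          rw [Real.exp_le_exp]
          nlinarith [tau_le_Sel (hT.card g hg) Y]
        nlinarith [mul_le_mul_of_nonneg_left h7 h5.le, mul_pos h5 (Real.exp_pos (π / 4))]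
      · have h7 : Real.exp (β * ((mino (Ω g) Y : ℝ) / ω)) ≤ Real.exp (π / 4) := by
          rw [Real.exp_le_exp, ← mul_div_assoc, div_le_iff₀ hω]
          have h8 := mul_le_mul_of_nonneg_left (not_le.1 h6).le hβ0.le
          refine h8.trans_eq ?_
          field_simp
        rw [mul_zero, add_zero]
        exact mul_le_mul_of_nonneg_left h7 h5.le
    rw [sum_add_distrib, ← sum_mul, ← mul_sum, ← sum_filter] at h4
    have h5 : Real.exp (π / 4) + π / 2 ≤ Real.exp π := by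
      have h6 : Real.exp π = Real.exp (π / 4) * Real.exp (3 * π / 4) := by
        rw [← Real.exp_add]
        congr 1
        ring
      have h7 := Real.add_one_le_exp (π / 4)
      have h8 := mul_le_mul_of_nonneg_left (Real.add_one_le_exp (3 * π / 4))
        (Real.exp_pos (π / 4)).le
      nlinarith
    have h6 := mul_le_mul_of_nonneg_left h5 hZ.le
    have h7 : Real.exp (-β / 2) * Real.exp (β / 2) = 1 := by
      rw [← Real.exp_add, neg_div, neg_add_cancel, Real.exp_zero]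
    have h8 : π / 2 * ∑ Y, S.wt γ β Ω ω A Y ≤ Real.exp (β / 2) *
        ∑ Y ∈ univ.filter (fun Y => π / (4 * β) * ω ≤ mino (Ω g) Y), S.wt γ β Ω ω A Y := by
      linarith
    have h9 := mul_le_mul_of_nonneg_left h8 (Real.exp_pos (-β / 2)).le
    rw [← mul_assoc (Real.exp (-β / 2)) (Real.exp (β / 2)), h7, one_mul] at h9
    linarith

end Pool.Agent.MP_9a3194_co
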