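import Pool.Agent.MP_9a3194_co.Thin
import Pool.Agent.MP_9a3194_co.Gale
import Pool.Agent.MP_9a3194_co.Ctr

open Finset
open scoped symmDiff

namespace Pool.Agent.MP_9a3194_co

theorem point_Sign {V : Type} [DecidableEq V] {Ω X : Finset V} {g : V} (hg : g ∈ Ω)
    {a K w t r : ℝ} {z : ℤ} (ha : |a| ≤ r) (hz : z = 0 ∨ z = 1 ∨ z = -1) (h0 : 0 ≤ t) (h1 : t ≤ 1)
    (h2 : t ≤ K * (Ω ∩ X).card / w) (h3 : 1 - t ≤ K * (Ω \ X).card / w)
    [Decidable ((∃ u ∈ Ω, u ∈ X) ∧ ∃ v ∈ Ω, v ∉ X)] :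
    (if g ∈ X then a else 0) + 2 * (z * t) ≤
      (if (Ω \ X).card ≤ (Ω ∩ X).card then a + 2 * z else 0) +
      (if (∃ u ∈ Ω, u ∈ X) ∧ ∃ v ∈ Ω, v ∉ X then r else 0) + 2 * K * ((mino Ω X : ℝ) / w) := by
  have hr : 0 ≤ r := (abs_nonneg a).trans ha
  have ha' := abs_le.1 ha
  have hz' : (-1 : ℝ) ≤ z ∧ (z : ℝ) ≤ 1 := by
    rcases hz with rfl | rfl | rfl <;> norm_num
  have hif : 0 ≤ (if (∃ u ∈ Ω, u ∈ X) ∧ ∃ v ∈ Ω, v ∉ X then r else 0) := by
    split_ifs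
    · exact hr
    · exact le_rfl
  by_cases hm : (Ω \ X).card ≤ (Ω ∩ X).card
  · have e : mino Ω X = (Ω \ X).card := min_eq_right hm
    have e2 : 2 * K * (((Ω \ X).card : ℝ) / w) = 2 * (K * (Ω \ X).card / w) := by ring
    have k1 : (z : ℝ) * t ≤ z + (1 - t) := by nlinarith [hz'.1, hz'.2]
    rw [if_pos hm, e, e2]
    by_cases hX : g ∈ X
    · rw [if_pos hX]
      linarith
    · have hp : 0 < (Ω \ X).card := card_pos.2 ⟨g, mem_sdiff.2 ⟨hg, hX⟩⟩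
      obtain ⟨u, hu⟩ := card_pos.1 (hp.trans_le hm)
      rw [if_neg hX, if_pos ⟨⟨u, mem_inter.1 hu⟩, g, hg, hX⟩]
      linarith [ha'.1]
  · have e : mino Ω X = (Ω ∩ X).card := min_eq_left (not_le.1 hm).le
    have e2 : 2 * K * (((Ω ∩ X).card : ℝ) / w) = 2 * (K * (Ω ∩ X).card / w) := by ring
    have k1 : (z : ℝ) * t ≤ t := by nlinarith [hz'.1, hz'.2]
    rw [if_neg hm, e, e2]
    by_cases hX : g ∈ X
    · obtain ⟨v, hv⟩ := card_pos.1 ((Nat.zero_le _).trans_lt (not_le.1 hm))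
      rw [if_pos hX, if_pos ⟨⟨g, hg, hX⟩, v, mem_sdiff.1 hv⟩]
      linarith [ha'.2]
    · rw [if_neg hX]
      linarith

/-- small charges are cancelled by controllers -/
theorem sign {δ K : ℝ} (hδ : 0 < δ) (hK : 1 ≤ K) : ∃ (ω₀ l₀ : ℕ) (A : ℝ), 0 < A ∧
    ∀ {V : Type} [Fintype V] [DecidableEq V] (S : Str V) (c ω l : ℕ) (G : Finset V)
      (Ω : V → Finset V) (cell : V → V) (q : V → ℝ) (p : ℝ) (m : ℤ), ω₀ ≤ ω → l₀ ≤ l →
      ω + 2 ≤ c → A * l ^ 2 < c → c ≤ Fintype.card V → S.Iso c → S.Part G cell l →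
      S.Trees G Ω ω → (∀ v, |q v| ≤ p) → p * A * l ^ 2 ≤ 1 → ∑ v, q v = 2 * m →
      ∃ z : V → ℤ, (∀ g, z g = 0 ∨ g ∈ G ∧ (z g = 1 ∨ z g = -1)) ∧
        ∑ v, q v + 2 * ∑ g, (z g : ℝ) = 0 ∧
        ∀ (X : Finset V) (t : V → ℝ), (∀ g ∈ G, 0 ≤ t g ∧ t g ≤ 1 ∧
          t g ≤ K * (Ω g ∩ X).card / ω ∧ 1 - t g ≤ K * (Ω g \ X).card / ω) →
          ∑ v ∈ X, q v + 2 * ∑ g, z g * t g ≤ δ * S.b X := by
  classical
  obtain ⟨ε, hε, hεK⟩ : ∃ ε : ℝ, 0 < ε ∧ (2 * K + 9) * ε = δ / 4 :=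
    ⟨δ / (4 * (2 * K + 9)), by positivity, by field_simp⟩
  obtain ⟨ω₁, l₁, A₀, hA₀, hthin⟩ := thin hε
  obtain ⟨μ, hμ, hμ1, hμδ⟩ : ∃ μ : ℝ, 0 < μ ∧ μ ≤ 1 ∧ μ ≤ δ :=
    ⟨min 1 δ, lt_min one_pos hδ, min_le_left _ _, min_le_right _ _⟩
  obtain ⟨A, hA, hAμ⟩ : ∃ A : ℝ, 0 < A ∧ A * μ = 100 * (A₀ + 1) :=
    ⟨100 * (A₀ + 1) / μ, by positivity, by field_simp⟩
  have hA1 : 100 * (A₀ + 1) ≤ A := hAμ ▸ mul_le_of_le_one_right hA.le hμ1
  refine ⟨max ω₁ ⌈6 / δ⌉₊, max l₁ 1, A, hA, ?_⟩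
  intro V _ _ S c ω l G Ω cell q p m hω hl hc hAc hcV hI hP hT hq hp hm
  have hl1 : (1 : ℝ) ≤ l := by exact_mod_cast (le_max_right _ _).trans hl
  have hl2 : (l : ℝ) ≤ l ^ 2 := by nlinarith
  have hcV' : (c : ℝ) ≤ Fintype.card V := by exact_mod_cast hcV
  have hA3 : 3 * (l : ℝ) ^ 2 ≤ A * l ^ 2 := mul_le_mul_of_nonneg_right (by linarith) (by positivity)
  have hA4 : A₀ * (l : ℝ) ^ 2 ≤ A * l ^ 2 :=
    mul_le_mul_of_nonneg_right (by linarith) (by positivity)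
  have hc0 : 0 < c := by omega
  have hp0 : 0 ≤ p := by
    obtain ⟨v⟩ := Fintype.card_pos_iff.1 (hc0.trans_le hcV)
    exact (abs_nonneg _).trans (hq v)
  obtain ⟨T, hTG, hT1, hT2⟩ := hthin S c ω l G Ω cell ((le_max_left _ _).trans hω)
    ((le_max_left _ _).trans hl) (by exact_mod_cast (by linarith : (l : ℝ) + 2 ≤ c))
    (by exact_mod_cast (by linarith : 2 * (l : ℝ) ≤ Fintype.card V)) hI hP hT
  have hne : T.Nonempty := by
    rw [nonempty_iff_ne_empty]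
    rintro rfl
    have := hT2 univ (disjoint_empty_right _)
    rw [S.b_univ, card_univ, Nat.cast_zero, zero_add, mul_one] at this
    linarith
  obtain ⟨η, hη⟩ : ∃ η : ℝ, η = 4 * p * A₀ * l ^ 2 := ⟨_, rfl⟩
  have hη0 : 0 ≤ η := by rw [hη]; positivity
  have hsm : p + 4 * η ≤ μ / 2 := by
    have e1 : p * A ≤ 1 :=
      (le_mul_of_one_le_right (mul_nonneg hp0 hA.le) (hl1.trans hl2)).trans hp
    have e2 : η * A ≤ 4 * A₀ := by
      have := mul_le_mul_of_nonneg_left hp (by positivity : 0 ≤ 4 * A₀)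
      rw [hη]
      linarith
    refine le_of_mul_le_mul_right ?_ hA
    linarith
  obtain ⟨f, hf, hfη, hfq⟩ := gale S T q η hη0 fun X hX => by
    rcases X.eq_empty_or_nonempty with rfl | hXn
    · rw [sum_empty, abs_zero]
      positivity
    · obtain ⟨g, hg⟩ := hne
      have hb : (1 : ℝ) ≤ S.b X := by
        exact_mod_cast hI.b_pos hc0 hXn ⟨g, mem_compl.2 fun h => disjoint_left.1 hX h hg⟩
      have e1 : |∑ v ∈ X, q v| ≤ X.card * p := by
        refine (abs_sum_le_sum_abs _ _).trans ((sum_le_sum fun v _ => hq v).trans_eq ?_)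
        rw [sum_const, nsmul_eq_mul]
      have e2 : (X.card : ℝ) ≤ A₀ * l ^ 2 * (2 * S.b X) :=
        (hT2 X hX).trans (mul_le_mul_of_nonneg_left (by linarith) (by positivity))
      have e3 := mul_le_mul_of_nonneg_right e2 hp0
      rw [hη]
      linarith
  have hq' : ∀ g, |q g - dv f g| ≤ p + 3 * η := fun g => by
    have e1 : |dv f g| ≤ 3 * η := by
      refine (abs_sum_le_sum_abs _ _).trans ((sum_le_sum fun i _ => hfη (g, i)).trans_eq ?_)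
      simp
    exact (abs_sub _ _).trans (add_le_add (hq g) e1)
  have hsum : ∀ X : Finset V, ∑ v ∈ X, q v =
      ∑ v ∈ X, dv f v + ∑ g ∈ T, if g ∈ X then q g - dv f g else 0 := fun X => by
    rw [sum_ite_mem, inter_comm, ← sum_ite_mem, ← sum_add_distrib]
    refine sum_congr rfl fun v _ => ?_
    split_ifs with hv
    · ring
    · rw [hfq v hv, add_zero]
  have hsT : ∑ v, q v = ∑ g ∈ T, (q g - dv f g) := by
    rw [hsum univ, S.sum_dv_univ hf, zero_add]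
    simp
  have hTT : S.Trees T Ω ω := ⟨fun g hg => hT.mem g (hTG hg), fun g hg => hT.conn g (hTG hg),
    fun g hg => hT.card g (hTG hg), fun g hg g' hg' => hT.disj g (hTG hg) g' (hTG hg'),
    fun g hg => hT.bdy g (hTG hg)⟩
  obtain ⟨z, hz0, hz1, hz2, hz3⟩ := contract S hI hc hTT hne (fun g => q g - dv f g) m
    (hsT.symm.trans hm)
  have hz : ∀ g ∈ T, z g = 0 ∨ z g = 1 ∨ z g = -1 := fun g hg => by
    have e1 := abs_le.1 (hz2 g hg)
    have e2 := abs_le.1 (hq' g)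
    have e3 : (z g : ℝ) < 2 := by linarith [e1.2, e2.1]
    have e4 : (-2 : ℝ) < z g := by linarith [e1.1, e2.2]
    have e5 : z g < 2 := by exact_mod_cast e3
    have e6 : -2 < z g := by exact_mod_cast e4
    omega
  have hzs : ∀ t : V → ℝ, ∑ g, z g * t g = ∑ g ∈ T, z g * t g := fun t =>
    (sum_subset (subset_univ T) fun g _ hg => by rw [hz0 g hg, Int.cast_zero, zero_mul]).symm
  refine ⟨z, fun g => ?_, ?_, fun X t ht => ?_⟩
  · by_cases hg : g ∈ T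
    · exact (hz g hg).imp_right fun h => ⟨hTG hg, h⟩
    · exact Or.inl (hz0 g hg)
  · have e := hzs fun _ => 1
    simp only [mul_one] at e
    rw [hsT, e, mul_sum, ← sum_add_distrib]
    exact hz1
  · have hω6 : 6 / δ ≤ ω := Nat.ceil_le.1 ((le_max_right _ _).trans hω)
    have hω0 : (0 : ℝ) < ω := lt_of_lt_of_le (by positivity) hω6
    have hb0 : (0 : ℝ) ≤ S.b X := Nat.cast_nonneg _
    have e1 := (le_abs_self _).trans (S.abs_sum_dv_le hf hfη X)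
    have e2 := sum_le_sum (s := T) fun g hg => point_Sign (X := X) (hTT.mem g hg) (hq' g) (hz g hg)
      (ht g (hTG hg)).1 (ht g (hTG hg)).2.1 (ht g (hTG hg)).2.2.1 (ht g (hTG hg)).2.2.2
    rw [sum_add_distrib, sum_add_distrib, sum_add_distrib, ← mul_sum, ← mul_sum, ← sum_filter,
      ← sum_filter (p := fun g => (Ω g \ X).card ≤ (Ω g ∩ X).card),
      ← sum_filter (p := fun g => (∃ u ∈ Ω g, u ∈ X) ∧ ∃ v ∈ Ω g, v ∉ X), sum_const,
      nsmul_eq_mul] at e2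
    have e3 : ((T.filter fun g => (∃ u ∈ Ω g, u ∈ X) ∧ ∃ v ∈ Ω g, v ∉ X).card : ℝ) ≤ S.b X := by
      exact_mod_cast S.touch _ Ω (fun g hg => hTT.conn g (mem_filter.1 hg).1)
        (fun g hg g' hg' => hTT.disj g (mem_filter.1 hg).1 g' (mem_filter.1 hg').1) X
        fun g hg => (mem_filter.1 hg).2
    have e4 := mul_le_mul_of_nonneg_right e3 (by linarith : 0 ≤ p + 3 * η)
    have e5 := mul_le_mul_of_nonneg_left (hT1 X) (by linarith : 0 ≤ 2 * K)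
    have e6 : 3 / (2 * ((ω : ℝ) + 2)) * (S.b X + 6 * ∑ g ∈ T, (mino (Ω g) X : ℝ)) ≤
        (δ / 4 + 9 * ε) * S.b X := by
      have k1 : ∑ g ∈ T, (mino (Ω g) X : ℝ) ≤ ε * S.b X * ω := by
        have := hT1 X
        rwa [← sum_div, div_le_iff₀ hω0] at this
      have k2 : 6 ≤ δ * ω := by
        rw [div_le_iff₀ hδ] at hω6
        linarith
      have k3 := mul_le_mul_of_nonneg_right k2 hb0
      have k4 : 0 ≤ δ * S.b X := by positivity
      have k5 : 0 ≤ ε * S.b X := by positivity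
      rw [div_mul_eq_mul_div, div_le_iff₀ (by positivity)]
      linarith
    have e7 := (hz3 X).trans e6
    have e8 := mul_le_mul_of_nonneg_right (hsm.trans (by linarith : μ / 2 ≤ δ / 2)) hb0
    have e9 := congrArg (· * (S.b X : ℝ)) hεK
    have e10 : 0 ≤ η * S.b X := by positivity
    rw [hsum X, hzs t, ← sum_filter]
    linarith

end Pool.Agent.MP_9a3194_co
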