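import Pool.Agent.MP_9a3194_co.TDefs

open Finset

namespace Pool.Agent.MP_9a3194_co

namespace Tri

variable {F : Type} (T : Tri F)

/-- sides of triangles of `X` glued to triangles outside `X` -/
def out [DecidableEq F] (X : Finset F) : Finset (F × ZMod 3) :=
  (X ×ˢ univ).filter fun d => (T.α d).1 ∉ X

/-- `z` has zero divergence at every label -/
def Balanced {W : Type} [DecidableEq W] (lab : F × ZMod 3 → W) (z : F × ZMod 3 →₀ ℝ) : Prop :=
  ∀ x, (z.sum fun d t => if lab d = x then t else 0) =
    z.sum fun d t => if lab (T.α d) = x then t else 0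

/-- finite cycles are boundaries of finite chains of triangles -/
def Exact {W : Type} [DecidableEq W] (lab : F × ZMod 3 → W) : Prop :=
  ∀ z : F × ZMod 3 →₀ ℝ, T.Balanced lab z →
    ∃ a : F →₀ ℝ, ∀ d, z d - z (T.α d) = a d.1 - a (T.α d).1

/-- the group of the presentation -/
abbrev Grp : Type := PresentedGroup T.rels

/-- the generator of a dart -/
def gen (d : F × ZMod 3) : T.Grp := PresentedGroup.of d

end Tri

end Pool.Agent.MP_9a3194_co
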