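import Pool.Agent.MP_9a3194_co.TAux

open Finset

namespace Pool.Agent.MP_9a3194_co

namespace Tri

variable {F : Type} (T : Tri F)

private theorem rel1_TCov (d : F × ZMod 3) : T.gen d * T.gen (T.α d) = 1 :=
  PresentedGroup.one_of_mem (rels := T.rels) (x := .of d * .of (T.α d)) ⟨d, Or.inl rfl⟩

private theorem rel2_TCov (d : F × ZMod 3) :
    T.gen d * T.gen (nxt d) * T.gen (nxt (nxt d)) = 1 :=
  PresentedGroup.one_of_mem (rels := T.rels) (x := .of d * .of (nxt d) * .of (nxt (nxt d)))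
    ⟨d, Or.inr rfl⟩

/-- the path from corner `0` to the tail of the dart -/
private def pre_TCov (d : F × ZMod 3) : T.Grp :=
  if d.2 = 0 then 1 else if d.2 = 1 then T.gen (d.1, 0) else T.gen (d.1, 0) * T.gen (d.1, 1)

private theorem pre_nxt_TCov (d : F × ZMod 3) :
    T.pre_TCov (nxt d) = T.pre_TCov d * T.gen d := by
  obtain ⟨f, i⟩ := d
  have h := T.rel2_TCov (f, 0)
  have e1 : (0 : ZMod 3) + 1 = 1 := by decide
  have e2 : (1 : ZMod 3) + 1 = 2 := by decide
  have e3 : (2 : ZMod 3) + 1 = 0 := by decide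
  have n1 : ¬ (1 : ZMod 3) = 0 := by decide
  have n2 : ¬ (2 : ZMod 3) = 0 := by decide
  have n3 : ¬ (2 : ZMod 3) = 1 := by decide
  simp only [nxt, e1, e2] at h
  rcases (by decide : ∀ i : ZMod 3, i = 0 ∨ i = 1 ∨ i = 2) i with rfl | rfl | rfl
  · simp only [pre_TCov, nxt, e1, n1, if_true, if_false, one_mul]
  · simp only [pre_TCov, nxt, e2, n1, n2, n3, if_true, if_false]
  · simp only [pre_TCov, nxt, e3, n2, n3, if_true, if_false, h]

/-- the label of a dart upstairs -/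
private def lab_TCov (e : (F × T.Grp) × ZMod 3) : T.Grp := e.1.2 * T.pre_TCov (e.1.1, e.2)

/-- the dart over `d` with label `g` -/
private def lift_TCov (d : F × ZMod 3) (g : T.Grp) : (F × T.Grp) × ZMod 3 :=
  ((d.1, g * (T.pre_TCov d)⁻¹), d.2)

private theorem lab_lift_TCov (d : F × ZMod 3) (g : T.Grp) :
    T.lab_TCov (T.lift_TCov d g) = g := by
  simp only [lab_TCov, lift_TCov, Prod.mk.eta, inv_mul_cancel_right]

private theorem lift_lab_TCov (e : (F × T.Grp) × ZMod 3) :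
    T.lift_TCov (e.1.1, e.2) (T.lab_TCov e) = e := by
  simp only [lab_TCov, lift_TCov, Prod.mk.eta, mul_inv_cancel_right]

private theorem nxt_lift_TCov (d : F × ZMod 3) (g : T.Grp) :
    nxt (T.lift_TCov d g) = T.lift_TCov (nxt d) (g * T.gen d) := by
  have h := T.pre_nxt_TCov d
  simp only [lift_TCov, h]
  simp only [nxt, mul_inv_rev, mul_assoc, mul_inv_cancel_left]

/-- the gluing upstairs -/
private def al_TCov (e : (F × T.Grp) × ZMod 3) : (F × T.Grp) × ZMod 3 :=
  T.lift_TCov (T.α (e.1.1, e.2)) (T.lab_TCov e * T.gen (e.1.1, e.2))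

private theorem al_lift_TCov (d : F × ZMod 3) (g : T.Grp) :
    T.al_TCov (T.lift_TCov d g) = T.lift_TCov (T.α d) (g * T.gen d) := by
  rw [al_TCov, lab_lift_TCov]
  rfl

/-- the cover -/
private def cov_TCov : Tri (F × T.Grp) where
  α := T.al_TCov
  αα e := by
    rw [← T.lift_lab_TCov e, al_lift_TCov, al_lift_TCov, T.αα, mul_assoc, rel1_TCov, mul_one]
  αne e h := T.αne (e.1.1, e.2) (congrArg (fun x : (F × T.Grp) × ZMod 3 => (x.1.1, x.2)) h)

/-- chains that are boundaries -/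
private def bd_TCov (C : Tri F) : Submodule ℝ (F × ZMod 3 →₀ ℝ) where
  carrier := {z | ∃ a : F →₀ ℝ, ∀ d, z d - z (C.α d) = a d.1 - a (C.α d).1}
  add_mem' := by
    rintro z z' ⟨a, ha⟩ ⟨a', ha'⟩
    refine ⟨a + a', fun d => ?_⟩
    simp only [Finsupp.add_apply]
    linear_combination ha d + ha' d
  zero_mem' := ⟨0, fun d => by simp⟩
  smul_mem' := by
    rintro t z ⟨a, ha⟩
    refine ⟨t • a, fun d => ?_⟩
    simp only [Finsupp.smul_apply, smul_eq_mul]
    linear_combination t * ha d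

private theorem bd1_TCov (C : Tri F) (e : F × ZMod 3) :
    (bd_TCov C).mkQ (Finsupp.single e 1) + (bd_TCov C).mkQ (Finsupp.single (C.α e) 1) = 0 := by
  classical
  rw [← map_add, Submodule.mkQ_apply, Submodule.Quotient.mk_eq_zero]
  refine ⟨0, fun d => ?_⟩
  have h1 : (e = C.α d) ↔ (C.α e = d) :=
    ⟨fun h => by rw [h, C.αα], fun h => by rw [← h, C.αα]⟩
  have h2 : (C.α e = C.α d) ↔ (e = d) :=
    ⟨fun h => by rw [← C.αα e, h, C.αα], fun h => by rw [h]⟩
  simp only [Finsupp.add_apply, Finsupp.single_apply, h1, h2, Finsupp.zero_apply]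
  ring

private theorem bd2_TCov (C : Tri F) (e : F × ZMod 3) :
    (bd_TCov C).mkQ (Finsupp.single e 1) + (bd_TCov C).mkQ (Finsupp.single (nxt e) 1) +
      (bd_TCov C).mkQ (Finsupp.single (nxt (nxt e)) 1) = 0 := by
  classical
  rw [← map_add, ← map_add, Submodule.mkQ_apply, Submodule.Quotient.mk_eq_zero]
  refine ⟨Finsupp.single e.1 1, fun d => ?_⟩
  have key : ∀ x : F × ZMod 3, (Finsupp.single e (1 : ℝ) + Finsupp.single (nxt e) 1 +
      Finsupp.single (nxt (nxt e)) 1 : F × ZMod 3 →₀ ℝ) x = Finsupp.single e.1 (1 : ℝ) x.1 := by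
    obtain ⟨f, i⟩ := e
    rintro ⟨f', j⟩
    simp only [Finsupp.add_apply, Finsupp.single_apply, nxt, Prod.mk.injEq]
    by_cases h : f = f'
    · simp only [h, true_and, if_true]
      rcases (by decide : ∀ i j : ZMod 3, (i = j ∧ ¬ i + 1 = j ∧ ¬ i + 1 + 1 = j) ∨
        (¬ i = j ∧ i + 1 = j ∧ ¬ i + 1 + 1 = j) ∨ (¬ i = j ∧ ¬ i + 1 = j ∧ i + 1 + 1 = j)) i j
        with ⟨h1, h2, h3⟩ | ⟨h1, h2, h3⟩ | ⟨h1, h2, h3⟩
      · rw [if_pos h1, if_neg h2, if_neg h3]; ring
      · rw [if_neg h1, if_pos h2, if_neg h3]; ring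
      · rw [if_neg h1, if_neg h2, if_pos h3]; ring
    · simp [h]
  rw [key, key]

/-- the step along a dart -/
private def st_TCov {M : Type} [AddCommGroup M] (s : (F × T.Grp) × ZMod 3 → M)
    (d : F × ZMod 3) : Equiv.Perm (T.Grp × M) where
  toFun p := (p.1 * T.gen d, p.2 + s (T.lift_TCov d p.1))
  invFun p := (p.1 * (T.gen d)⁻¹, p.2 - s (T.lift_TCov d (p.1 * (T.gen d)⁻¹)))
  left_inv p := by simp
  right_inv p := by simp

private theorem st_apply_TCov {M : Type} [AddCommGroup M] (s : (F × T.Grp) × ZMod 3 → M)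
    (d : F × ZMod 3) (p : T.Grp × M) :
    T.st_TCov s d p = (p.1 * T.gen d, p.2 + s (T.lift_TCov d p.1)) := rfl

private theorem pot_TCov {M : Type} [AddCommGroup M] (s : (F × T.Grp) × ZMod 3 → M)
    (h1 : ∀ e, s e + s (T.al_TCov e) = 0)
    (h2 : ∀ e, s e + s (nxt e) + s (nxt (nxt e)) = 0) :
    ∃ P : T.Grp → M, ∀ e, s e = P (T.lab_TCov (T.al_TCov e)) - P (T.lab_TCov e) := by
  have hr : ∀ r ∈ T.rels, FreeGroup.lift (fun d => (T.st_TCov s d)⁻¹) r = 1 := by
    rintro r ⟨d, rfl | rfl⟩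
    · simp only [map_mul, FreeGroup.lift_apply_of]
      rw [← mul_inv_rev, inv_eq_one]
      ext1 p
      rw [Equiv.Perm.mul_apply, st_apply_TCov, st_apply_TCov, ← al_lift_TCov, mul_assoc,
        rel1_TCov, mul_one, add_assoc, h1, add_zero]
      rfl
    · simp only [map_mul, FreeGroup.lift_apply_of]
      rw [← mul_inv_rev, ← mul_inv_rev, inv_eq_one]
      ext1 p
      rw [Equiv.Perm.mul_apply, Equiv.Perm.mul_apply, st_apply_TCov, st_apply_TCov,
        st_apply_TCov]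
      dsimp only
      have h := h2 (T.lift_TCov d p.1)
      rw [nxt_lift_TCov, nxt_lift_TCov] at h
      rw [add_assoc, add_assoc, ← add_assoc (s _), h, add_zero, mul_assoc p.1, mul_assoc p.1,
        rel2_TCov, mul_one]
      rfl
  set ρ : T.Grp →* Equiv.Perm (T.Grp × M) := PresentedGroup.toGroup hr with hρ
  have hgen : ∀ d, ρ (T.gen d) = (T.st_TCov s d)⁻¹ := fun d => PresentedGroup.toGroup.of hr
  let H : Subgroup T.Grp :=
    { carrier := {g | ∀ p : T.Grp × M, ((ρ g)⁻¹ p).1 = p.1 * g}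
      mul_mem' := fun {a b} ha hb p => by
        rw [map_mul, mul_inv_rev, Equiv.Perm.mul_apply, hb, ha, mul_assoc]
      one_mem' := fun p => by simp
      inv_mem' := fun {a} ha p => by
        have h3 := ha (ρ a p)
        rw [← Equiv.Perm.mul_apply, inv_mul_cancel, Equiv.Perm.one_apply] at h3
        rw [map_inv, inv_inv, h3, mul_inv_cancel_right] }
  have hH : ∀ g, g ∈ H := PresentedGroup.generated_by T.rels H fun d p => by
    change ((ρ (T.gen d))⁻¹ p).1 = p.1 * T.gen d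
    rw [hgen, inv_inv, st_apply_TCov]
  refine ⟨fun g => ((ρ g)⁻¹ (1, 0)).2, fun e => ?_⟩
  have h4 := hH (T.lab_TCov e) (1, 0)
  rw [one_mul] at h4
  rw [al_TCov, lab_lift_TCov]
  beta_reduce
  rw [map_mul, mul_inv_rev, Equiv.Perm.mul_apply, hgen, inv_inv,
    st_apply_TCov, h4, lift_lab_TCov]
  simp

private theorem exact_TCov [DecidableEq T.Grp] : T.cov_TCov.Exact T.lab_TCov := by
  intro z hz
  obtain ⟨P, hP⟩ := T.pot_TCov (fun e => (bd_TCov T.cov_TCov).mkQ (Finsupp.single e 1))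
    (bd1_TCov T.cov_TCov) (bd2_TCov T.cov_TCov)
  have h1 : (bd_TCov T.cov_TCov).mkQ =
      Finsupp.linearCombination ℝ (P ∘ fun e => T.lab_TCov (T.al_TCov e)) -
        Finsupp.linearCombination ℝ (P ∘ T.lab_TCov) := by
    refine Finsupp.lhom_ext fun e t => ?_
    rw [LinearMap.sub_apply, Finsupp.linearCombination_single, Finsupp.linearCombination_single,
      ← smul_sub, Function.comp_apply, Function.comp_apply, ← hP, ← map_smul,
      Finsupp.smul_single, smul_eq_mul, mul_one]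
  have h2 : Finsupp.mapDomain (fun e => T.lab_TCov (T.al_TCov e)) z =
      Finsupp.mapDomain T.lab_TCov z := by
    ext x
    simp only [Finsupp.mapDomain, Finsupp.sum_apply, Finsupp.single_apply]
    exact (hz x).symm
  have h3 : (bd_TCov T.cov_TCov).mkQ z = 0 := by
    rw [h1, LinearMap.sub_apply, ← Finsupp.linearCombination_mapDomain,
      ← Finsupp.linearCombination_mapDomain, h2, sub_self]
  rwa [Submodule.mkQ_apply, Submodule.Quotient.mk_eq_zero] at h3

open Classical in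
/-- the universal cover -/
theorem exists_cover : ∃ (C : Tri (F × T.Grp)) (lab : (F × T.Grp) × ZMod 3 → T.Grp),
    (∀ e, ((C.α e).1.1, (C.α e).2) = T.α (e.1.1, e.2)) ∧
    (∀ e, lab (C.α e) = lab e * T.gen (e.1.1, e.2)) ∧
    (∀ e, lab (nxt e) = lab e * T.gen (e.1.1, e.2)) ∧
    (∀ e, lab (C.rot e) = lab e) ∧
    (∀ (d : F × ZMod 3) (γ : T.Grp), ∃ γ', lab ((d.1, γ'), d.2) = γ) ∧
    (∀ (f : F) (i : ZMod 3) (γ γ' : T.Grp), lab ((f, γ), i) = lab ((f, γ'), i) → γ = γ') ∧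
    (∀ c, T.MinDeg c → C.MinDeg c) ∧ C.Exact lab := by
  have hn : ∀ e, T.lab_TCov (nxt e) = T.lab_TCov e * T.gen (e.1.1, e.2) := fun e => by
    conv_lhs => rw [← T.lift_lab_TCov e, nxt_lift_TCov, lab_lift_TCov]
  have ha : ∀ e, T.lab_TCov (T.cov_TCov.α e) = T.lab_TCov e * T.gen (e.1.1, e.2) :=
    fun e => T.lab_lift_TCov _ _
  refine ⟨T.cov_TCov, T.lab_TCov, fun _ => rfl, ha, hn, fun e => ?_,
    fun d γ => ⟨_, T.lab_lift_TCov d γ⟩, fun f i γ γ' h => mul_right_cancel h,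
    fun c hc e n h0 h1 h2 => ?_, T.exact_TCov⟩
  · rw [rot, hn, ha, mul_assoc]
    exact mul_eq_left.mpr (T.rel1_TCov (e.1.1, e.2))
  · have hs : Function.Semiconj (fun x : (F × T.Grp) × ZMod 3 => (x.1.1, x.2))
        T.cov_TCov.rot T.rot := fun _ => rfl
    refine hc (e.1.1, e.2) n h0 h1 ?_
    rw [← hs.iterate_right n e, h2]

end Tri

end Pool.Agent.MP_9a3194_co
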