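import Pool.Agent.MP_9a3194_co.TAux

open Finset

namespace Pool.Agent.MP_9a3194_co

private theorem sym_TCyc {B : Type} [Finite B] {s : B → B} (hs : Function.Injective s) {a b : B}
    (h : ∃ n, s^[n] a = b) : ∃ n, s^[n] b = a := by
  obtain ⟨n, rfl⟩ := h
  obtain ⟨p, hp, h1⟩ := hs.mem_periodicPts a
  refine ⟨p * n - n, ?_⟩
  rw [← Function.iterate_add_apply, Nat.sub_add_cancel (Nat.le_mul_of_pos_left n hp)]
  exact h1.mul_const n

private theorem app_TCyc {B A : Type} {s : B → B} {b : B} {p : ℕ} (hp : s^[p] b = b) (v : B → A)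
    (n : ℕ) : (List.range (p + n)).map (fun i => v (s^[i] b)) =
      (List.range p).map (fun i => v (s^[i] b)) ++ (List.range n).map fun i => v (s^[i] b) := by
  rw [List.range_add, List.map_append, List.map_map]
  congr 1
  refine List.map_congr_left fun i _ => ?_
  rw [Function.comp_apply, add_comm, Function.iterate_add_apply, hp]

private theorem pot_TCyc {B G : Type} [Finite B] [Group G] {s : B → B} (hs : Function.Injective s)
    (v : B → G)
    (h : ∀ b, ((List.range (Function.minimalPeriod s b)).map fun i => v (s^[i] b)).prod = 1) :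
    ∃ g : B → G, ∀ b, g (s b) = g b * v b := by
  let P : B → ℕ → G := fun b n => ((List.range n).map fun i => v (s^[i] b)).prod
  have h1 : ∀ b k r, P b (Function.minimalPeriod s b * k + r) = P b r := by
    intro b k r
    induction k with
    | zero => rw [mul_zero, zero_add]
    | succ k ih =>
      have e : Function.minimalPeriod s b * (k + 1) + r =
          Function.minimalPeriod s b + (Function.minimalPeriod s b * k + r) := by ring
      rw [e, ← ih]
      simp only [P]
      rw [app_TCyc (Function.isPeriodicPt_minimalPeriod s b) v, List.prod_append, h b, one_mul]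
  have h2 : ∀ b n n', s^[n] b = s^[n'] b → P b n = P b n' := by
    intro b n n' e
    have hp := Function.minimalPeriod_pos_of_mem_periodicPts (hs.mem_periodicPts b)
    rw [← Function.iterate_mod_minimalPeriod_eq (n := n),
      ← Function.iterate_mod_minimalPeriod_eq (n := n'),
      Function.iterate_eq_iterate_iff_of_lt_minimalPeriod (Nat.mod_lt _ hp)
        (Nat.mod_lt _ hp)] at e
    rw [← Nat.div_add_mod n (Function.minimalPeriod s b),
      ← Nat.div_add_mod n' (Function.minimalPeriod s b), h1, h1, e]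
  let S : Setoid B := ⟨fun a b => ∃ n, s^[n] a = b, fun a => ⟨0, rfl⟩, sym_TCyc hs,
    fun ⟨n, h3⟩ ⟨m, h4⟩ => ⟨m + n, by rw [Function.iterate_add_apply, h3, h4]⟩⟩
  obtain ⟨r, hr, hr'⟩ : ∃ r : B → B, (∀ b, ∃ n, s^[n] (r b) = b) ∧ ∀ b, r (s b) = r b :=
    ⟨fun b => (Quotient.mk S b).out, fun b => Quotient.mk_out (s := S) b, fun b =>
      congrArg Quotient.out (Quotient.sound (s := S) (a := b) (b := s b) ⟨1, rfl⟩).symm⟩
  choose n hn using hr
  refine ⟨fun b => P (r b) (n b), fun b => ?_⟩
  have e : s^[n (s b)] (r b) = s^[n b + 1] (r b) := by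
    rw [Function.iterate_succ_apply', hn b, ← hr' b, hn]
  simp only [hr' b]
  rw [h2 _ _ _ e]
  simp only [P]
  rw [List.range_succ, List.map_append, List.prod_append, List.map_singleton, List.prod_singleton,
    hn b]

namespace Tri

variable {F : Type} [Fintype F] [DecidableEq F] (T : Tri F)

omit [Fintype F] [DecidableEq F] in
private theorem nxt_inj_TCyc : Function.Injective (nxt : F × ZMod 3 → F × ZMod 3) := by
  intro d e h
  simp only [nxt, Prod.mk.injEq, add_left_inj] at h
  exact Prod.ext h.1 h.2

omit [Fintype F] [DecidableEq F] in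
private theorem rot_inj_TCyc : Function.Injective T.rot := fun d e h => by
  have h1 := congrArg T.α (nxt_inj_TCyc h)
  rwa [T.αα, T.αα] at h1

omit [Fintype F] [DecidableEq F] in
private theorem rot_α_TCyc (d : F × ZMod 3) : T.rot (T.α d) = nxt d := by
  rw [rot, T.αα]

omit [Fintype F] in
private theorem mem_TCyc (X : Finset F) (d : F × ZMod 3) :
    d ∈ T.out X ↔ d.1 ∈ X ∧ (T.α d).1 ∉ X := by
  simp [out]

private theorem first_TCyc (X : Finset F) (d : F × ZMod 3) (hd : d ∈ T.out X) :
    ∃ n, T.rot^[n] (nxt d) ∈ T.out X ∧ ∀ i ≤ n, (T.rot^[i] (nxt d)).1 ∈ X := by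
  classical
  rw [mem_TCyc] at hd
  have h : ∃ m, (T.rot^[m] (nxt d)).1 ∉ X := by
    obtain ⟨m, hm⟩ := sym_TCyc (rot_inj_TCyc T) (a := T.α d) (b := nxt d) ⟨1, rot_α_TCyc T d⟩
    exact ⟨m, hm.symm ▸ hd.2⟩
  have h1 := Nat.find_spec h
  have h2 : ∀ i < Nat.find h, (T.rot^[i] (nxt d)).1 ∈ X := fun i hi =>
    not_not.1 (Nat.find_min h hi)
  generalize Nat.find h = m at h1 h2
  cases m with
  | zero => exact absurd hd.1 h1
  | succ j =>
    refine ⟨j, (mem_TCyc T X _).2 ⟨h2 j (Nat.lt_succ_self j), ?_⟩,
      fun i hi => h2 i (Nat.lt_succ_of_le hi)⟩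
    rw [Function.iterate_succ_apply'] at h1
    exact h1

private theorem tau_TCyc (X : Finset F) : ∃ τ : F × ZMod 3 → F × ZMod 3,
    Function.Injective τ ∧ (∀ d ∈ T.out X, τ d ∈ T.out X ∧ ∃ n, T.rot^[n] (T.α d) = τ d) ∧
      ∀ d ∉ T.out X, τ d = d := by
  choose! n h1 h2 using first_TCyc T X
  have key : ∀ d ∈ T.out X, ∀ d' ∈ T.out X, T.rot^[n d] (nxt d) = T.rot^[n d'] (nxt d') →
      n d ≤ n d' → d = d' := by
    intro d hd d' hd' e hle
    obtain ⟨k, hk⟩ := Nat.exists_eq_add_of_le hle
    rw [hk, Function.iterate_add_apply] at e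
    have e1 := (rot_inj_TCyc T).iterate (n d) e
    cases k with
    | zero => exact nxt_inj_TCyc e1
    | succ k =>
      rw [Function.iterate_succ_apply', ← rot_α_TCyc T d] at e1
      have e2 := h2 d' hd' k (by omega)
      rw [← rot_inj_TCyc T e1] at e2
      exact absurd e2 ((mem_TCyc T X d).1 hd).2
  refine ⟨fun d => if d ∈ T.out X then T.rot^[n d] (nxt d) else d, fun d d' e => ?_,
    fun d hd => ?_, fun d hd => if_neg hd⟩
  · by_cases hd : d ∈ T.out X <;> by_cases hd' : d' ∈ T.out X
    · simp only [if_pos hd, if_pos hd'] at e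
      rcases le_total (n d) (n d') with h | h
      · exact key d hd d' hd' e h
      · exact (key d' hd' d hd e.symm h).symm
    · simp only [if_pos hd, if_neg hd'] at e
      exact absurd (e ▸ h1 d hd) hd'
    · simp only [if_neg hd, if_pos hd'] at e
      exact absurd (e ▸ h1 d' hd') hd
    · simpa only [if_neg hd, if_neg hd'] using e
  · simp only [if_pos hd]
    exact ⟨h1 d hd, n d + 1, by rw [Function.iterate_succ_apply, rot_α_TCyc]⟩

/-- the boundary of a set of triangles splits into short closed walks, which lift -/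
theorem exists_lift {c : ℕ} (hw : ∀ w, T.Closed w → w.length < c → T.Contr w) (X : Finset F)
    (hX : (T.out X).card < c) :
    ∃ (τ : F × ZMod 3 → F × ZMod 3) (g : F × ZMod 3 → T.Grp),
      Set.BijOn τ (T.out X) (T.out X) ∧ ∀ d ∈ T.out X, g (τ d) = g d * T.gen d := by
  obtain ⟨τ, h1, h2, h3⟩ := tau_TCyc T X
  have hm : Set.MapsTo τ (T.out X) (T.out X) := fun d hd => (h2 d hd).1
  have h4 : ∀ b ∈ T.out X, ∀ i, τ^[i] b ∈ T.out X := fun b hb i => hm.iterate i hb
  obtain ⟨g, hg⟩ := pot_TCyc h1 (fun d => if d ∈ T.out X then T.gen d else 1) fun b => by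
    by_cases hb : b ∈ T.out X
    · have hl : Function.minimalPeriod τ b ≤ (T.out X).card := by
        rw [← card_range (Function.minimalPeriod τ b)]
        refine card_le_card_of_injOn (fun i => τ^[i] b) (fun i _ => h4 b hb i) ?_
        rw [coe_range]
        exact Function.iterate_injOn_Iio_minimalPeriod
      have hc := hw ((List.range (Function.minimalPeriod τ b)).map fun i => τ^[i] b) (by
        have e := app_TCyc (Function.isPeriodicPt_minimalPeriod τ b) id
          (Function.minimalPeriod τ b)
        simp only [id] at e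
        rw [Closed, ← e, List.isChain_map, List.isChain_range]
        intro m _
        rw [Function.iterate_succ_apply']
        exact (h2 _ (h4 b hb m)).2) (by
        rw [List.length_map, List.length_range]
        exact hl.trans_lt hX)
      rw [Contr, List.map_map] at hc
      rw [← hc]
      congr 1
      exact List.map_congr_left fun i _ => if_pos (h4 b hb i)
    · refine List.prod_eq_one fun x hx => ?_
      obtain ⟨i, -, rfl⟩ := List.mem_map.1 hx
      rw [Function.iterate_fixed (h3 b hb), if_neg hb]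
  refine ⟨τ, g, ((T.out X).finite_toSet.injOn_iff_bijOn_of_mapsTo hm).1 h1.injOn, fun d hd => ?_⟩
  rw [hg d, if_pos hd]

end Tri

end Pool.Agent.MP_9a3194_co
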