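import Mathlib

/-! Triangulated closed orientable surfaces. -/

namespace Pool.Agent.MP_9a3194_co

/-- Oriented triangles `F` whose sides are glued in pairs, reversing directions. The dart `(f, i)`
is the side of `f` from corner `i` to corner `i + 1`, and `α` sends it to the same edge
traversed backwards as a side of the neighbouring triangle. -/
structure Tri (F : Type) where
  α : F × ZMod 3 → F × ZMod 3
  αα : ∀ d, α (α d) = d
  αne : ∀ d, α d ≠ d

namespace Tri

variable {F : Type} (T : Tri F)

/-- the next side of the same triangle -/
def nxt (d : F × ZMod 3) : F × ZMod 3 := (d.1, d.2 + 1)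

/-- the next dart with the same tail, turning around that vertex -/
def rot (d : F × ZMod 3) : F × ZMod 3 := nxt (T.α d)

/-- the surface is connected -/
def Connected : Prop :=
  ∀ X : Set F, X.Nonempty → Xᶜ.Nonempty → ∃ d, d.1 ∈ X ∧ (T.α d).1 ∉ X

/-- every vertex has degree at least `c` -/
def MinDeg (c : ℕ) : Prop := ∀ d n, 0 < n → n < c → T.rot^[n] d ≠ d

/-- each dart ends at the vertex where the next one starts, cyclically -/
def Closed (w : List (F × ZMod 3)) : Prop :=
  (w ++ w).IsChain fun d e => ∃ n, T.rot^[n] (T.α d) = e

/-- an edge followed by its reverse, and the boundary of a triangle -/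
def rels : Set (FreeGroup (F × ZMod 3)) :=
  {r | ∃ d, r = .of d * .of (T.α d) ∨ r = .of d * .of (nxt d) * .of (nxt (nxt d))}

/-- the word is trivial modulo backtracking and triangles -/
def Contr (w : List (F × ZMod 3)) : Prop :=
  (w.map (PresentedGroup.of (rels := T.rels))).prod = 1

end Tri

end Pool.Agent.MP_9a3194_co
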