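import Pool.Agent.MP_9a3194_co.TIso
import Pool.Agent.MP_9a3194_co.TCov
import Pool.Agent.MP_9a3194_co.TCyc

open Finset

namespace Pool.Agent.MP_9a3194_co

namespace Tri

private theorem mem_out_TDown {F : Type} [DecidableEq F] (T : Tri F) (X : Finset F)
    (d : F × ZMod 3) : d ∈ T.out X ↔ d.1 ∈ X ∧ (T.α d).1 ∉ X := by
  simp [out]

private theorem core_TDown {F G : Type} [Fintype F] [DecidableEq F] {_ : DecidableEq G}
    (T : Tri F) (C : Tri (F × G)) (lab : (F × G) × ZMod 3 → G) {c : ℕ} (hc : 1 ≤ c)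
    (hn : T.Connected) (hα : ∀ e, ((C.α e).1.1, (C.α e).2) = T.α (e.1.1, e.2))
    (hl : ∀ e, lab (C.rot e) = lab e) (hd : C.MinDeg (18 * c)) (he : C.Exact lab)
    (X : Finset F) (hX : X.Nonempty) (hX' : Xᶜ.Nonempty) (hB : (T.out X).card < c)
    (s : F × ZMod 3 → G) (τ : F × ZMod 3 → F × ZMod 3)
    (hτ : Set.BijOn τ (T.out X) (T.out X))
    (hs : ∀ d ∈ T.out X, lab (((τ d).1, s (τ d)), (τ d).2) = lab (C.α ((d.1, s d), d.2))) :
    min X.card Xᶜ.card + 2 ≤ (T.out X).card := by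
  set up : F × ZMod 3 → (F × G) × ZMod 3 := fun d => ((d.1, s d), d.2) with hup
  have hinj : Function.Injective up := fun d d' h => by
    simp only [hup, Prod.mk.injEq] at h
    exact Prod.ext h.1.1 h.2
  set S : Finset ((F × G) × ZMod 3) := (T.out X).image up with hS
  have hSc : S.card ≤ (T.out X).card := card_image_le
  set z : (F × G) × ZMod 3 →₀ ℝ := Finsupp.onFinset S (fun e => if e ∈ S then 1 else 0)
    (fun e h => by by_contra h'; exact h (if_neg h')) with hz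
  have hz' : ∀ e, z e = if e ∈ S then 1 else 0 := fun e => rfl
  have hbal : C.Balanced lab z := fun x => by
    rw [hz, Finsupp.onFinset_sum _ (fun _ => by simp), Finsupp.onFinset_sum _ (fun _ => by simp)]
    have h1 : ∀ f : (F × G) × ZMod 3 → G,
        (∑ e ∈ S, if f e = x then (if e ∈ S then (1 : ℝ) else 0) else 0) =
          ∑ d ∈ T.out X, if f (up d) = x then (1 : ℝ) else 0 := fun f => by
      rw [← Finset.sum_image (s := T.out X) (g := up)
        (f := fun e => if f e = x then (1 : ℝ) else 0) hinj.injOn]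
      exact Finset.sum_congr rfl fun e h => by rw [if_pos h]
    rw [h1 lab, h1 fun e => lab (C.α e)]
    symm
    refine Finset.sum_nbij τ (fun d h => hτ.1 h) hτ.2.1 hτ.2.2 fun d h => ?_
    rw [← hs d h]
  obtain ⟨a, ha⟩ := he z hbal
  have hz0 : ∀ e, 0 ≤ z e := fun e => by
    rw [hz']
    split_ifs <;> norm_num
  have hz1 : ∀ e, 0 < z e → e ∈ S := fun e h => by
    by_contra h'
    rw [hz', if_neg h'] at h
    exact lt_irrefl _ h
  -- the two signed parts
  have hp : ∀ Y : Finset (F × G), Y.Nonempty → (C.out Y).card ≤ (T.out X).card →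
      Y.card + 2 ≤ (T.out X).card := fun Y h1 h2 =>
    (C.iso_sharp (c := 18 * c) (by omega) hd lab hl he Y h1 (by omega)).trans h2
  have hpos : (C.out (a.support.filter fun p => 0 < a p)).card ≤ (T.out X).card := by
    refine le_trans (card_le_card fun e h => ?_) hSc
    rw [mem_out_TDown, mem_filter, mem_filter, Finsupp.mem_support_iff,
      Finsupp.mem_support_iff] at h
    have h1 : a (C.α e).1 ≤ 0 := by
      by_contra h2
      rw [not_le] at h2
      exact h.2 ⟨h2.ne', h2⟩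
    refine hz1 e ?_
    linarith [ha e, hz0 (C.α e), h.1.2]
  have hneg : (C.out (a.support.filter fun p => a p < 0)).card ≤ (T.out X).card := by
    refine le_trans (card_le_card fun e h => ?_) ((card_image_le (s := S) (f := C.α)).trans hSc)
    rw [mem_out_TDown, mem_filter, mem_filter, Finsupp.mem_support_iff,
      Finsupp.mem_support_iff] at h
    have h1 : 0 ≤ a (C.α e).1 := by
      by_contra h2
      rw [not_le] at h2
      exact h.2 ⟨h2.ne, h2⟩
    refine mem_image.2 ⟨C.α e, hz1 _ ?_, C.αα e⟩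
    linarith [ha e, hz0 e, h.1.2]
  -- push forward
  set σ : F × ZMod 3 → G → G := fun d γ => (C.α ((d.1, γ), d.2)).1.2 with hσ
  have hσ1 : ∀ d γ, C.α ((d.1, γ), d.2) = (((T.α d).1, σ d γ), (T.α d).2) := fun d γ => by
    have h1 := congrArg Prod.fst (hα ((d.1, γ), d.2))
    have h2 := congrArg Prod.snd (hα ((d.1, γ), d.2))
    exact Prod.ext (Prod.ext h1 rfl) h2
  have hσ2 : ∀ d γ, σ (T.α d) (σ d γ) = γ := fun d γ => by
    have h1 := C.αα ((d.1, γ), d.2)
    rw [hσ1, hσ1] at h1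
    exact congrArg (fun e => e.1.2) h1
  have hσ3 : ∀ d, Function.Bijective (σ d) := fun d => by
    refine Function.bijective_iff_has_inverse.2 ⟨σ (T.α d), hσ2 d, fun γ => ?_⟩
    have := hσ2 (T.α d) γ
    rwa [T.αα] at this
  have hfa : ∀ f, (Function.support fun γ => a (f, γ)).Finite := fun f =>
    (a.support.image Prod.snd).finite_toSet.subset fun γ h =>
      mem_image.2 ⟨(f, γ), Finsupp.mem_support_iff.2 h, rfl⟩
  have hfz : ∀ d : F × ZMod 3, (Function.support fun γ => z ((d.1, γ), d.2)).Finite := fun d =>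
    (z.support.image fun e => e.1.2).finite_toSet.subset fun γ h =>
      mem_image.2 ⟨((d.1, γ), d.2), Finsupp.mem_support_iff.2 h, rfl⟩
  have hZ : ∀ d : F × ZMod 3, ∑ᶠ γ, z ((d.1, γ), d.2) = if d ∈ T.out X then 1 else 0 := fun d => by
    have h1 : ∀ γ, ((d.1, γ), d.2) ∈ S ↔ d ∈ T.out X ∧ γ = s d := fun γ => by
      rw [hS, mem_image]
      constructor
      · rintro ⟨d', h2, h3⟩
        simp only [hup, Prod.mk.injEq] at h3
        have h4 : d' = d := Prod.ext h3.1.1 h3.2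
        rw [h4] at h2 h3
        exact ⟨h2, h3.1.2.symm⟩
      · rintro ⟨h2, rfl⟩
        exact ⟨d, h2, rfl⟩
    rw [finsum_eq_single _ (s d) fun γ h => by rw [hz', if_neg fun h' => h ((h1 γ).1 h').2], hz']
    simp only [h1, and_true]
  have hb : ∀ d : F × ZMod 3, (if d.1 ∈ X then (1 : ℝ) else 0) - ∑ᶠ γ, a (d.1, γ) =
      (if (T.α d).1 ∈ X then (1 : ℝ) else 0) - ∑ᶠ γ, a ((T.α d).1, γ) := fun d => by
    have h1 : ∑ᶠ γ, a ((T.α d).1, σ d γ) = ∑ᶠ γ, a ((T.α d).1, γ) :=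
      finsum_eq_of_bijective (σ d) (hσ3 d) fun _ => rfl
    have h2 : ∑ᶠ γ, z (((T.α d).1, σ d γ), (T.α d).2) = ∑ᶠ γ, z (((T.α d).1, γ), (T.α d).2) :=
      finsum_eq_of_bijective (σ d) (hσ3 d) fun _ => rfl
    have h3 : (Function.support fun γ => a ((T.α d).1, σ d γ)).Finite :=
      (hfa (T.α d).1).preimage (hσ3 d).1.injOn
    have h4 : (Function.support fun γ => z (((T.α d).1, σ d γ), (T.α d).2)).Finite :=
      (hfz (T.α d)).preimage (hσ3 d).1.injOn
    have h5 : ∑ᶠ γ, z ((d.1, γ), d.2) - ∑ᶠ γ, z (((T.α d).1, σ d γ), (T.α d).2) =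
        ∑ᶠ γ, a (d.1, γ) - ∑ᶠ γ, a ((T.α d).1, σ d γ) := by
      rw [← finsum_sub_distrib (hfz d) h4, ← finsum_sub_distrib (hfa d.1) h3]
      refine finsum_congr fun γ => ?_
      have := ha ((d.1, γ), d.2)
      rwa [hσ1] at this
    rw [h1, h2, hZ, hZ] at h5
    simp only [mem_out_TDown, T.αα] at h5
    by_cases p : d.1 ∈ X <;> by_cases q : (T.α d).1 ∈ X <;> simp [p, q] at h5 ⊢ <;> linarith
  obtain ⟨f0, hf0⟩ := hX
  obtain ⟨κ, hκ⟩ : ∃ κ : ℝ, ∀ f, (if f ∈ X then (1 : ℝ) else 0) - ∑ᶠ γ, a (f, γ) = κ := by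
    refine ⟨(if f0 ∈ X then (1 : ℝ) else 0) - ∑ᶠ γ, a (f0, γ), fun f => ?_⟩
    by_contra h
    obtain ⟨d, h1, h2⟩ := hn {f | (if f ∈ X then (1 : ℝ) else 0) - ∑ᶠ γ, a (f, γ) =
      (if f0 ∈ X then (1 : ℝ) else 0) - ∑ᶠ γ, a (f0, γ)} ⟨f0, rfl⟩ ⟨f, h⟩
    exact h2 ((hb d).symm.trans h1)
  rcases le_or_gt κ 0 with h | h
  · have h1 : ∀ f ∈ X, ∃ γ, (f, γ) ∈ a.support.filter fun p => 0 < a p := fun f hf => by
      by_contra h2
      have h3 : 0 ≤ ∑ᶠ γ, -a (f, γ) := finsum_nonneg fun γ => by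
        by_contra h4
        rw [neg_nonneg, not_le] at h4
        exact h2 ⟨γ, mem_filter.2 ⟨Finsupp.mem_support_iff.2 h4.ne', h4⟩⟩
      rw [finsum_neg_distrib] at h3
      have h5 := hκ f
      rw [if_pos hf] at h5
      linarith
    have h2 : X.card ≤ (a.support.filter fun p => 0 < a p).card := by
      refine le_trans (card_le_card fun f hf => ?_) (card_image_le (f := Prod.fst))
      obtain ⟨γ, hγ⟩ := h1 f hf
      exact mem_image.2 ⟨_, hγ, rfl⟩
    obtain ⟨γ, hγ⟩ := h1 f0 hf0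
    have := hp _ ⟨_, hγ⟩ hpos
    omega
  · have h1 : ∀ f ∈ Xᶜ, ∃ γ, (f, γ) ∈ a.support.filter fun p => a p < 0 := fun f hf => by
      by_contra h2
      have h3 : 0 ≤ ∑ᶠ γ, a (f, γ) := finsum_nonneg fun γ => by
        by_contra h4
        rw [not_le] at h4
        exact h2 ⟨γ, mem_filter.2 ⟨Finsupp.mem_support_iff.2 h4.ne, h4⟩⟩
      have h5 := hκ f
      rw [if_neg (mem_compl.1 hf)] at h5
      linarith
    have h2 : Xᶜ.card ≤ (a.support.filter fun p => a p < 0).card := by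
      refine le_trans (card_le_card fun f hf => ?_) (card_image_le (f := Prod.fst))
      obtain ⟨γ, hγ⟩ := h1 f hf
      exact mem_image.2 ⟨_, hγ, rfl⟩
    obtain ⟨f1, hf1⟩ := hX'
    obtain ⟨γ, hγ⟩ := h1 f1 hf1
    have := hp _ ⟨_, hγ⟩ hneg
    omega

variable {F : Type} [Fintype F] [DecidableEq F] (T : Tri F)

/-- tree-like isoperimetric inequality for the dual graph -/
theorem iso_down {c : ℕ} (hc : 1 ≤ c) (hn : T.Connected) (hd : T.MinDeg (18 * c))
    (hw : ∀ w, T.Closed w → w.length < c → T.Contr w) (X : Finset F) (hX : X.Nonempty)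
    (hX' : Xᶜ.Nonempty) : min c (min X.card Xᶜ.card + 2) ≤ (T.out X).card := by
  rcases le_or_gt c (T.out X).card with h | h
  · exact (min_le_left _ _).trans h
  obtain ⟨τ, g, hτ, hg⟩ := T.exists_lift hw X h
  obtain ⟨C, lab, h1, h2, -, h4, h5, -, h7, h8⟩ := T.exists_cover
  choose s hs using h5
  refine (min_le_right _ _).trans (core_TDown T C lab hc hn h1 h4 (h7 _ hd) h8 X hX hX' h
    (fun d => s d (g d)) τ hτ fun d hd => ?_)
  rw [h2, hs, hs, hg d hd]

end Tri

end Pool.Agent.MP_9a3194_co
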