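import Pool.Agent.MP_9a3194_co.TDown
import Pool.Agent.MP_9a3194_co.Core

open Finset

namespace Pool.Agent.MP_9a3194_co

namespace Tri

private lemma rot_inj_TFin {F : Type} (T : Tri F) : Function.Injective T.rot := by
  intro d e h
  have h1 : T.α d = T.α e := by
    have h2 := congrArg Prod.fst h
    have h3 := congrArg Prod.snd h
    exact Prod.ext h2 (add_right_cancel h3)
  rw [← T.αα d, h1, T.αα]

private lemma card_TFin {F : Type} [Fintype F] (T : Tri F) {c : ℕ} (hd : T.MinDeg c)
    (d : F × ZMod 3) : c ≤ Fintype.card F * 3 := by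
  have key : ∀ m n : ℕ, m < n → n < c → T.rot^[m] d ≠ T.rot^[n] d := fun m n h1 h2 h => by
    obtain ⟨k, rfl⟩ := Nat.exists_eq_add_of_le h1.le
    rw [Function.iterate_add_apply] at h
    exact hd d k (by omega) (by omega) ((rot_inj_TFin T).iterate m h).symm
  have h := Fintype.card_le_of_injective (fun n : Fin c => T.rot^[n] d) fun m n h => by
    rcases lt_trichotomy (m : ℕ) n with h1 | h1 | h1
    · exact absurd h (key _ _ h1 n.2)
    · exact Fin.ext h1
    · exact absurd h.symm (key _ _ h1 m.2)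
  simpa using h

private lemma out_add_TFin {F : Type} [DecidableEq F] (T : Tri F) (X : Finset F)
    (S : Finset (F × ZMod 3)) (hS : ∀ d ∈ S, d.1 ∈ X ∧ (T.α d).1 ∈ X) :
    (T.out X).card + S.card ≤ X.card * 3 := by
  have h1 : Disjoint (T.out X) S := disjoint_left.2 fun d h h' => (mem_filter.1 h).2 (hS d h').2
  have h2 : T.out X ∪ S ⊆ X ×ˢ univ := union_subset (filter_subset _ _) fun d h =>
    mem_product.2 ⟨(hS d h).1, mem_univ _⟩
  have h3 := card_le_card h2
  rw [card_union_of_disjoint h1, card_product] at h3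
  simpa using h3

private lemma sum_TFin (g : ZMod 3 → ℤ) (j : ZMod 3) :
    ∑ i, g i = g j + g (j + 1) + g (j + 1 + 1) := by
  have h : (univ : Finset (ZMod 3)) = {j, j + 1, j + 1 + 1} := by
    revert j
    decide
  have h1 : j ∉ ({j + 1, j + 1 + 1} : Finset (ZMod 3)) := by
    clear h
    revert j
    decide
  have h2 : j + 1 ≠ j + 1 + 1 := by
    clear h h1
    revert j
    decide
  rw [h, sum_insert h1, sum_pair h2, ← add_assoc]

private lemma contr_TFin {F : Type} (T : Tri F) (φ : F × ZMod 3 → ℤ)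
    (h1 : ∀ d, φ (T.α d) = -φ d) (h2 : ∀ t, ∑ i, φ (t, i) = 0) (w : List (F × ZMod 3))
    (hw : T.Contr w) : (w.map φ).sum = 0 := by
  have hr : ∀ r ∈ T.rels, FreeGroup.lift (fun d => Multiplicative.ofAdd (φ d)) r = 1 := by
    rintro r ⟨d, rfl | rfl⟩
    · simp only [map_mul, FreeGroup.lift_apply_of, ← ofAdd_add, h1, add_neg_cancel, ofAdd_zero]
    · have h3 := h2 d.1
      rw [sum_TFin _ d.2] at h3
      simp only [map_mul, FreeGroup.lift_apply_of, ← ofAdd_add]
      exact congrArg Multiplicative.ofAdd h3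
  have h3 := congrArg (PresentedGroup.toGroup hr) hw
  rw [map_list_prod, List.map_map, map_one] at h3
  have h4 : (PresentedGroup.toGroup hr ∘ PresentedGroup.of (rels := T.rels)) =
      Multiplicative.ofAdd ∘ φ := funext fun d => PresentedGroup.toGroup.of hr
  rw [h4, ← List.map_map, ← ofAdd_list_prod] at h3
  exact h3

/-- local tensions on triangulations of large minimum degree and large edge-width -/
theorem tension (p q : ℕ) (hq : 0 < q) (hp : 4 * q < p) : ∃ c : ℕ, ∀ (F : Type) [Fintype F]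
    (T : Tri F), T.Connected → T.MinDeg c → (∀ w, T.Closed w → w.length < c → T.Contr w) →
    ∃ φ : F × ZMod 3 → ℤ, (∀ d, φ (T.α d) = -φ d) ∧
      (∀ d, (q : ℤ) ≤ |φ d| ∧ |φ d| ≤ p - q) ∧
      ∀ w, T.Closed w → T.Contr w → (w.map φ).sum = 0 := by
  classical
  obtain ⟨c₀, hc₀⟩ := core p q hq hp
  refine ⟨18 * max c₀ 4, fun F _ T hn hd hw => ?_⟩
  rcases isEmpty_or_nonempty F with hF | ⟨⟨f₀⟩⟩
  · exact ⟨fun _ => 0, fun d => hF.elim d.1, fun d => hF.elim d.1, fun w _ _ => by simp⟩
  have hcard := card_TFin T hd (f₀, 0)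
  have hI := T.iso_down (c := max c₀ 4) (by omega) hn hd fun w h1 h2 => hw w h1 (by omega)
  have hI' : ∀ X : Finset F, 0 < X.card → X.card ≤ 2 → X.card + 2 ≤ (T.out X).card :=
    fun X h1 h2 => by
      have h3 := card_compl X
      have h4 := hI X (card_pos.1 h1) (card_pos.1 (by omega))
      omega
  have hne : ∀ d, (T.α d).1 ≠ d.1 := fun d h => by
    have h1 := hI' {d.1} (by simp) (by simp)
    have h2 := out_add_TFin T {d.1} {d} (by simp [h])
    simp only [card_singleton] at h1 h2
    omega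
  have hinj : ∀ f, Function.Injective fun i => (T.α (f, i)).1 := fun f i j h => by
    by_contra hij
    have h0 : ({f, (T.α (f, i)).1} : Finset F).card = 2 := card_pair (hne (f, i)).symm
    have h1 := hI' {f, (T.α (f, i)).1} (by omega) (by omega)
    have h' : (T.α (f, j)).1 = (T.α (f, i)).1 := h.symm
    have h2 := out_add_TFin T {f, (T.α (f, i)).1} {(f, i), (f, j), T.α (f, i)}
      (by simp [h', T.αα])
    have h3 : ({(f, i), (f, j), T.α (f, i)} : Finset (F × ZMod 3)).card = 3 :=
      card_eq_three.2 ⟨(f, i), (f, j), T.α (f, i), fun e => hij (congrArg Prod.snd e),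
        fun e => hne (f, i) (congrArg Prod.fst e).symm,
        fun e => hne (f, i) (congrArg Prod.fst e).symm, rfl⟩
    omega
  let G : SimpleGraph F :=
    { Adj := fun f f' => ∃ i, (T.α (f, i)).1 = f'
      symm := ⟨by
        rintro f f' ⟨i, rfl⟩
        exact ⟨(T.α (f, i)).2, by rw [Prod.mk.eta, T.αα]⟩⟩
      loopless := ⟨fun f ⟨i, h⟩ => hne (f, i) h⟩ }
  have hN : ∀ f, G.neighborFinset f = univ.image fun i => (T.α (f, i)).1 := fun f => by
    ext f'
    simp only [SimpleGraph.mem_neighborFinset, mem_image, mem_univ, true_and]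
    rfl
  obtain ⟨f, f1, f2, f3⟩ := hc₀ F G
    (fun v => by
      rw [← SimpleGraph.card_neighborFinset_eq_degree, hN, card_image_of_injective _ (hinj v)]
      simp)
    (by omega) fun X h1 h2 => by
      have h3 := hI X h1 h2
      have h4 : (T.out X).card ≤ (G.interedges X Xᶜ).card :=
        card_le_card_of_injOn (fun d => (d.1, (T.α d).1))
          (fun d hd' => by
            have h5 := mem_filter.1 (mem_coe.1 hd')
            exact mem_coe.2 (G.mem_interedges_iff.2
              ⟨(mem_product.1 h5.1).1, mem_compl.2 h5.2, d.2, rfl⟩))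
          fun ⟨a, i⟩ _ ⟨b, j⟩ _ h => by
            obtain ⟨h5, h6⟩ := Prod.mk.inj h
            obtain rfl : a = b := h5
            exact congrArg _ (hinj a h6)
      omega
  have h1 : ∀ d, f (T.α d).1 (T.α (T.α d)).1 = -f d.1 (T.α d).1 := fun d => by
    rw [T.αα, f1]
  refine ⟨fun d => f d.1 (T.α d).1, h1, fun d => f2 _ _ ⟨d.2, rfl⟩, fun w _ =>
    contr_TFin T _ h1 (fun t => ?_) w⟩
  have h2 := f3 t
  rwa [hN, sum_image fun i _ j _ h => hinj t h] at h2

end Tri

end Pool.Agent.MP_9a3194_co
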