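import Pool.Agent.MP_9a3194_co.TRank

open Finset

namespace Pool.Agent.MP_9a3194_co

namespace Tri

variable {F W : Type} [DecidableEq F] [DecidableEq W] (T : Tri F)

private theorem mem_out_TIso (X : Finset F) (d : F × ZMod 3) :
    d ∈ T.out X ↔ d.1 ∈ X ∧ (T.α d).1 ∉ X := by
  simp [Tri.out, mem_filter, mem_product]

theorem iso_lin {c : ℕ} (hc : 12 ≤ c) (hd : T.MinDeg c) (lab : F × ZMod 3 → W)
    (hl : ∀ d, lab (T.rot d) = lab d) (he : T.Exact lab) (X : Finset F) :
    X.card ≤ 6 * (T.out X).card := by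
  rcases X.eq_empty_or_nonempty with rfl | hX
  · simp
  have h1 := T.rank_ineq lab hl X (X ∪ (T.out X).image fun d => (T.α d).1) hX (by
    intro z _ hz
    obtain ⟨a, ha⟩ := he z hz
    refine ⟨fun f => if f ∈ X ∪ (T.out X).image (fun d => (T.α d).1) then a f else 0, ?_, ?_⟩
    · intro f hf
      exact if_neg hf
    · intro d hd1
      have e1 : d.1 ∈ X ∪ (T.out X).image (fun d => (T.α d).1) := mem_union_left _ hd1
      have e2 : (T.α d).1 ∈ X ∪ (T.out X).image (fun d => (T.α d).1) := by
        by_cases h : (T.α d).1 ∈ X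
        · exact mem_union_left _ h
        · exact mem_union_right _ (mem_image.2 ⟨d, (T.mem_out_TIso X d).2 ⟨hd1, h⟩, rfl⟩)
      simp only [if_pos e1, if_pos e2]
      exact ha d)
  have h2 := (T.card_lab hd lab hl X).1
  have h3 : (X ∪ (T.out X).image fun d => (T.α d).1).card ≤ X.card + (T.out X).card :=
    (card_union_le _ _).trans (Nat.add_le_add_left card_image_le _)
  generalize (X ∪ (T.out X).image fun d => (T.α d).1).card = y at h1 h3
  generalize ((X ×ˢ univ).image lab).card = L at h1 h2
  generalize (T.out X).card = o at h1 h2 h3 ⊢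
  generalize X.card = f at h1 h2 h3 ⊢
  by_contra hcon
  have h4 : 6 * o + 1 ≤ f := by omega
  have h5 : f + 2 ≤ 2 * L + o := by omega
  have h6 : c * (f + 2) ≤ c * (2 * L + o) := Nat.mul_le_mul_left c h5
  have h7 : c * (6 * o + 1) ≤ c * f := Nat.mul_le_mul_left c h4
  have h8 : 12 * f ≤ c * f := Nat.mul_le_mul_right f hc
  nlinarith

theorem iso_sharp {c : ℕ} (hc : 12 ≤ c) (hd : T.MinDeg c) (lab : F × ZMod 3 → W)
    (hl : ∀ d, lab (T.rot d) = lab d) (he : T.Exact lab) (X : Finset F) (hX : X.Nonempty)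
    (ho : 18 * (T.out X).card < c) : X.card + 2 ≤ (T.out X).card := by
  classical
  have hex : ∃ n, ∃ X' : Finset F, X ⊆ X' ∧ T.out X' ⊆ T.out X ∧
      6 * (T.out X).card - X'.card = n := ⟨_, X, Subset.refl _, Subset.refl _, rfl⟩
  obtain ⟨X', hXX, hout, hn⟩ := Nat.find_spec hex
  have hb : ∀ Z : Finset F, T.out Z ⊆ T.out X → Z.card ≤ 6 * (T.out X).card := fun Z hZ =>
    (T.iso_lin hc hd lab hl he Z).trans (Nat.mul_le_mul_left 6 (card_le_card hZ))
  have hmax : ∀ Z : Finset F, X ⊆ Z → T.out Z ⊆ T.out X → Z.card ≤ X'.card := by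
    intro Z h1 h2
    have h3 := Nat.find_min' hex ⟨Z, h1, h2, rfl⟩
    have h4 := hb Z h2
    have h5 := hb X' hout
    omega
  have h1 := T.rank_ineq lab hl X' X' (hX.mono hXX) (by
    intro z hz0 hz
    obtain ⟨a, ha⟩ := he z hz
    refine ⟨a, ?_, fun d _ => ha d⟩
    have key : ∀ s : ℝ, ∀ f ∉ X', ¬ 0 < s * a f := by
      intro s f hf hpos
      have hsub : T.out (X' ∪ a.support.filter fun g => g ∉ X' ∧ 0 < s * a g) ⊆ T.out X' := by
        intro d hdd
        rw [T.mem_out_TIso] at hdd ⊢
        obtain ⟨hd1, hd2⟩ := hdd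
        have hd3 : (T.α d).1 ∉ X' := fun h => hd2 (mem_union_left _ h)
        refine ⟨?_, hd3⟩
        rcases mem_union.1 hd1 with h | h
        · exact h
        · exfalso
          obtain ⟨_, h4, h5⟩ := mem_filter.1 h
          have h6 := ha d
          rw [hz0 d h4, hz0 _ hd3] at h6
          have h7 : a (T.α d).1 = a d.1 := by linarith
          apply hd2
          refine mem_union_right _ (mem_filter.2 ⟨?_, hd3, by rw [h7]; exact h5⟩)
          rw [Finsupp.mem_support_iff, h7]
          intro h0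
          rw [h0, mul_zero] at h5
          exact lt_irrefl _ h5
      have hle := hmax _ (hXX.trans subset_union_left) (hsub.trans hout)
      have heq := eq_of_subset_of_card_le (subset_union_left (s₂ := a.support.filter
        fun g => g ∉ X' ∧ 0 < s * a g)) hle
      apply hf
      rw [heq]
      refine mem_union_right _ (mem_filter.2 ⟨?_, hf, hpos⟩)
      rw [Finsupp.mem_support_iff]
      intro h0
      rw [h0, mul_zero] at hpos
      exact lt_irrefl _ hpos
    intro f hf
    have k1 := key 1 f hf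
    have k2 := key (-1) f hf
    push Not at k1 k2
    linarith)
  have h5 := hb X' hout
  have h2 := (T.card_lab hd lab hl X').2 (by omega)
  have h3 := card_le_card hXX
  have h4 := card_le_card hout
  omega

end Tri

end Pool.Agent.MP_9a3194_co
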