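import Pool.Agent.MP_9a3194_co.TAux

open Finset

namespace Pool.Agent.MP_9a3194_co

namespace Tri

variable {F W : Type} [DecidableEq F] [DecidableEq W] (T : Tri F)

private def ex_TRank {A : Type} [DecidableEq A] (S : Finset A) (a : S → ℝ) (x : A) : ℝ :=
  if h : x ∈ S then a ⟨x, h⟩ else 0

private theorem ex_add_TRank {A : Type} [DecidableEq A] (S : Finset A) (a b : S → ℝ) (x : A) :
    ex_TRank S (a + b) x = ex_TRank S a x + ex_TRank S b x := by
  unfold ex_TRank
  split_ifs <;> simp

private theorem ex_smul_TRank {A : Type} [DecidableEq A] (S : Finset A) (r : ℝ) (a : S → ℝ)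
    (x : A) : ex_TRank S (r • a) x = r * ex_TRank S a x := by
  unfold ex_TRank
  split_ifs <;> simp

private theorem ex_mem_TRank {A : Type} [DecidableEq A] (S : Finset A) (a : S → ℝ) (x : S) :
    ex_TRank S a x = a x := by
  unfold ex_TRank
  rw [dif_pos x.2]

private theorem ex_not_TRank {A : Type} [DecidableEq A] (S : Finset A) (a : S → ℝ) {x : A}
    (h : x ∉ S) : ex_TRank S a x = 0 := by
  unfold ex_TRank
  rw [dif_neg h]

private theorem ex_res_TRank {A : Type} [DecidableEq A] (S : Finset A) (a : A → ℝ)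
    {x : A} (h : x ∈ S) : ex_TRank S (fun y : S => a y) x = a x := by
  unfold ex_TRank
  rw [dif_pos h]

omit [DecidableEq F] [DecidableEq W] in
private theorem lab_alpha_TRank (lab : F × ZMod 3 → W) (hl : ∀ d, lab (T.rot d) = lab d)
    (d : F × ZMod 3) : lab (T.α d) = lab (nxt d) := by
  have := hl (T.α d)
  rw [rot, T.αα] at this
  exact this.symm

private theorem half_TRank (X : Finset F) : ∃ H : Finset (F × ZMod 3),
    2 * H.card + (T.out X).card = 3 * X.card ∧
      ∀ d, d.1 ∈ X → (T.α d).1 ∈ X → d ∉ H → T.α d ∈ H := by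
  classical
  let r : F × ZMod 3 → F × ZMod 3 → Prop := WellOrderingRel
  have htri : ∀ a b, a ≠ b → ¬ r a b → r b a := fun a b hab h => by
    rcases trichotomous_of r a b with h' | h' | h'
    · exact absurd h' h
    · exact absurd h' hab
    · exact h'
  have hasy : ∀ a b, r a b → ¬ r b a := fun a b h h' =>
    irrefl_of r a (trans_of r h h')
  set I : Finset (F × ZMod 3) := (X ×ˢ univ).filter fun d => ¬ (T.α d).1 ∉ X with hI
  have hmem : ∀ d, d ∈ I ↔ d.1 ∈ X ∧ (T.α d).1 ∈ X := fun d => by simp [hI]
  refine ⟨I.filter fun d => r d (T.α d), ?_, ?_⟩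
  · have h1 : (T.out X).card + I.card = (X ×ˢ (univ : Finset (ZMod 3))).card :=
      card_filter_add_card_filter_not _
    have h2 : (I.filter fun d => r d (T.α d)).card + (I.filter fun d => ¬ r d (T.α d)).card =
        I.card := card_filter_add_card_filter_not _
    have h3 : (I.filter fun d => r d (T.α d)).card = (I.filter fun d => ¬ r d (T.α d)).card := by
      refine card_nbij' T.α T.α ?_ ?_ (fun d _ => T.αα d) (fun d _ => T.αα d)
      · intro d hd
        simp only [coe_filter, Set.mem_ofPred_eq, hmem, T.αα] at hd ⊢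
        exact ⟨⟨hd.1.2, hd.1.1⟩, hasy _ _ hd.2⟩
      · intro d hd
        simp only [coe_filter, Set.mem_ofPred_eq, hmem, T.αα] at hd ⊢
        exact ⟨⟨hd.1.2, hd.1.1⟩, htri _ _ (T.αne d).symm hd.2⟩
    rw [card_product, card_univ, ZMod.card] at h1
    omega
  · intro d h1 h2 h3
    simp only [mem_filter, hmem, T.αα] at h3 ⊢
    exact ⟨⟨h2, h1⟩, htri _ _ (T.αne d).symm fun h => h3 ⟨⟨h1, h2⟩, h⟩⟩

/-- Euler inequality by counting dimensions -/
theorem rank_ineq (lab : F × ZMod 3 → W) (hl : ∀ d, lab (T.rot d) = lab d) (X Y : Finset F)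
    (hX : X.Nonempty)
    (hY : ∀ z : F × ZMod 3 →₀ ℝ, (∀ d, d.1 ∉ X → z d = 0) → T.Balanced lab z →
      ∃ a : F → ℝ, (∀ f ∉ Y, a f = 0) ∧ ∀ d, d.1 ∈ X → z d - z (T.α d) = a d.1 - a (T.α d).1) :
    3 * X.card + (T.out X).card + 2 ≤ 2 * ((X ×ˢ univ).image lab).card + 2 * Y.card := by
  obtain ⟨H, hH, hH'⟩ := T.half_TRank X
  set D : Finset (F × ZMod 3) := X ×ˢ univ with hD
  set L : Finset W := D.image lab with hL
  have hmD : ∀ d, d ∈ D ↔ d.1 ∈ X := fun d => by simp [hD]
  have hcD : D.card = 3 * X.card := by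
    rw [hD, card_product, card_univ, ZMod.card, mul_comm]
  have hl1 : ∀ d ∈ D, lab d ∈ L := fun d hd => mem_image_of_mem _ hd
  have hl2 : ∀ d ∈ D, lab (T.α d) ∈ L := fun d hd => by
    rw [T.lab_alpha_TRank lab hl]
    exact mem_image_of_mem _ ((hmD (nxt d)).2 ((hmD d).1 hd))
  let β : (D → ℝ) →ₗ[ℝ] (L → ℝ) :=
    { toFun := fun z x => (∑ d : D, if lab d = x then z d else 0) -
        ∑ d : D, if lab (T.α d) = x then z d else 0
      map_add' := fun z z' => by
        funext x
        simp only [Pi.add_apply, ite_add_zero, sum_add_distrib]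
        ring
      map_smul' := fun r z => by
        funext x
        simp only [Pi.smul_apply, smul_eq_mul, RingHom.id_apply, mul_sub, mul_sum, mul_ite,
          mul_zero] }
  let σ : (L → ℝ) →ₗ[ℝ] ℝ :=
    { toFun := fun y => ∑ x, y x
      map_add' := fun y y' => by simp [sum_add_distrib]
      map_smul' := fun r y => by simp [mul_sum] }
  have hone : ∀ (w : W) (t : ℝ), w ∈ L → (∑ x : L, if w = x then t else 0) = t := by
    intro w t hw
    rw [sum_eq_single (⟨w, hw⟩ : L)]
    · simp
    · intro b _ hb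
      exact if_neg fun e => hb (Subtype.ext e.symm)
    · simp
  have hβσ : LinearMap.range β ≤ LinearMap.ker σ := by
    rintro _ ⟨z, rfl⟩
    change (∑ x : L, ((∑ d : D, if lab d = x then z d else 0) -
        ∑ d : D, if lab (T.α d) = x then z d else 0)) = 0
    rw [sum_sub_distrib, sum_comm, sum_comm (f := fun (x : L) (d : D) =>
      if lab (T.α d) = x then z d else 0), sub_eq_zero]
    refine sum_congr rfl fun d _ => ?_
    rw [hone _ _ (hl1 d d.2), hone _ _ (hl2 d d.2)]
  have hσ : LinearMap.range σ = ⊤ := by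
    obtain ⟨f, hf⟩ := hX
    have hw : lab (f, 0) ∈ L := hl1 _ ((hmD _).2 hf)
    rw [LinearMap.range_eq_top]
    intro t
    exact ⟨fun x => if lab (f, 0) = x then t else 0, hone _ _ hw⟩
  have e1 := LinearMap.finrank_range_add_finrank_ker σ
  rw [hσ, finrank_top, Module.finrank_self, Module.finrank_fintype_fun_eq_card,
    Fintype.card_coe] at e1
  have e2 := LinearMap.finrank_range_add_finrank_ker β
  rw [Module.finrank_fintype_fun_eq_card, Fintype.card_coe] at e2
  have e3 := Submodule.finrank_mono hβσ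
  let G : ((Y → ℝ) × (H → ℝ)) →ₗ[ℝ] (D → ℝ) :=
    { toFun := fun p d => if d.1 ∈ H then ex_TRank H p.2 d else
        ex_TRank Y p.1 d.1.1 - ex_TRank Y p.1 (T.α d).1 +
          if (T.α d).1 ∈ X then ex_TRank H p.2 (T.α d) else 0
      map_add' := fun p p' => by
        funext d
        simp only [Prod.fst_add, Prod.snd_add, ex_add_TRank, Pi.add_apply]
        split_ifs <;> ring
      map_smul' := fun r p => by
        funext d
        simp only [Prod.smul_fst, Prod.smul_snd, ex_smul_TRank, Pi.smul_apply, smul_eq_mul,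
          RingHom.id_apply]
        split_ifs <;> ring }
  have hK : LinearMap.ker β ≤ LinearMap.range G := by
    intro z hz
    let zz : F × ZMod 3 →₀ ℝ := Finsupp.onFinset D (ex_TRank D z)
      fun d h => by_contra fun h' => h (ex_not_TRank D z h')
    have hzz : ∀ d, zz d = ex_TRank D z d := fun d => rfl
    have hsum : ∀ (g : F × ZMod 3 → W) (x : W), (zz.sum fun d t => if g d = x then t else 0) =
        ∑ d : D, if g d = x then z d else 0 := by
      intro g x
      rw [Finsupp.sum_of_support_subset _ (Finsupp.support_onFinset_subset) _ (by simp),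
        ← sum_coe_sort]
      refine sum_congr rfl fun d _ => ?_
      rw [hzz, ex_mem_TRank]
    have hbal : T.Balanced lab zz := by
      intro x
      rw [hsum lab x, hsum (fun d => lab (T.α d)) x]
      by_cases hx : x ∈ L
      · exact sub_eq_zero.1 (congrFun (LinearMap.mem_ker.1 hz) ⟨x, hx⟩)
      · rw [sum_eq_zero fun (d : D) _ => if_neg fun (e : lab d = x) => hx (e ▸ hl1 d d.2),
          sum_eq_zero fun (d : D) _ =>
            if_neg fun (e : lab (T.α d) = x) => hx (e ▸ hl2 d d.2)]
    have hz0 : ∀ d, d.1 ∉ X → zz d = 0 := fun d h =>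
      ex_not_TRank D z fun h' => h ((hmD d).1 h')
    obtain ⟨a, ha, ha'⟩ := hY zz hz0 hbal
    have hexa : ∀ f, ex_TRank Y (fun y : Y => a y) f = a f := fun f => by
      by_cases hf : f ∈ Y
      · exact ex_res_TRank Y a hf
      · rw [ex_not_TRank Y _ hf, ha f hf]
    refine ⟨(fun y => a y, fun e => zz e), ?_⟩
    funext d
    have hd : d.1.1 ∈ X := (hmD _).1 d.2
    have hzd : zz d = z d := by rw [hzz, ex_mem_TRank]
    change (if d.1 ∈ H then ex_TRank H (fun e : H => zz e) d else
        ex_TRank Y (fun y : Y => a y) d.1.1 - ex_TRank Y (fun y : Y => a y) (T.α d).1 +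
          if (T.α d).1 ∈ X then ex_TRank H (fun e : H => zz e) (T.α d) else 0) = z d
    have h1 := ha' d hd
    split_ifs with c1 c2
    · rw [ex_res_TRank H zz c1, hzd]
    · rw [hexa, hexa, ex_res_TRank H zz (hH' d hd c2 c1)]
      linarith
    · rw [hexa, hexa]
      have := hz0 _ c2
      linarith
  have e4 := Submodule.finrank_mono hK
  have e5 := LinearMap.finrank_range_le G
  rw [Module.finrank_prod, Module.finrank_fintype_fun_eq_card, Module.finrank_fintype_fun_eq_card,
    Fintype.card_coe, Fintype.card_coe] at e5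
  omega

omit [DecidableEq F] in
private theorem rot_inj_TRank : Function.Injective T.rot := by
  intro d e h
  have h1 : T.α d = T.α e := by
    simp only [rot, nxt, Prod.mk.injEq, add_left_inj] at h
    exact Prod.ext h.1 h.2
  rw [← T.αα d, h1, T.αα]

/-- a label is carried by an outgoing dart or by many darts -/
theorem card_lab {c : ℕ} (hd : T.MinDeg c) (lab : F × ZMod 3 → W)
    (hl : ∀ d, lab (T.rot d) = lab d) (X : Finset F) :
    c * ((X ×ˢ univ).image lab).card ≤ c * (T.out X).card + 3 * X.card ∧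
      (3 * X.card < c → ((X ×ˢ univ).image lab).card ≤ (T.out X).card) := by
  set D : Finset (F × ZMod 3) := X ×ˢ univ with hD
  have hmD : ∀ d, d ∈ D ↔ d.1 ∈ X := fun d => by simp [hD]
  have hcD : D.card = 3 * X.card := by
    rw [hD, card_product, card_univ, ZMod.card, mul_comm]
  set B : Finset W := D.image lab \ (T.out X).image lab with hB
  have h1 : (D.image lab).card ≤ (T.out X).card + B.card := by
    have : _ ≤ B.card := le_card_sdiff ((T.out X).image lab) (D.image lab)
    have h2 : ((T.out X).image lab).card ≤ (T.out X).card := card_image_le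
    omega
  have hfib : ∀ x ∈ B, c ≤ (D.filter fun d => lab d = x).card := by
    intro x hx
    obtain ⟨hx1, hx2⟩ := mem_sdiff.1 hx
    obtain ⟨d, hdD, rfl⟩ := mem_image.1 hx1
    have hit : ∀ n, T.rot^[n] d ∈ D ∧ lab (T.rot^[n] d) = lab d := by
      intro n
      induction n with
      | zero => exact ⟨hdD, rfl⟩
      | succ n ih =>
        rw [Function.iterate_succ_apply']
        refine ⟨(hmD _).2 ?_, (hl _).trans ih.2⟩
        by_contra hn
        exact hx2 (mem_image.2 ⟨_, mem_filter.2 ⟨ih.1, hn⟩, ih.2⟩)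
    have hlt : ∀ m n, m < n → n < c → T.rot^[m] d ≠ T.rot^[n] d := by
      intro m n hmn hn e
      obtain ⟨k, rfl⟩ := Nat.exists_eq_add_of_lt hmn
      rw [add_assoc, Function.iterate_add_apply] at e
      exact hd d (k + 1) (Nat.succ_pos _) (by omega)
        ((T.rot_inj_TRank.iterate m) e).symm
    rw [← card_range c]
    refine card_le_card_of_injOn (fun n => T.rot^[n] d) (fun n _ => ?_) ?_
    · exact mem_coe.2 (mem_filter.2 (hit n))
    · intro m hm n hn e
      rcases lt_trichotomy m n with h | h | h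
      · exact absurd e (hlt m n h (mem_range.1 hn))
      · exact h
      · exact absurd e.symm (hlt n m h (mem_range.1 hm))
  have h2 : c * B.card ≤ 3 * X.card := by
    calc c * B.card = ∑ _x ∈ B, c := by simp [mul_comm]
      _ ≤ ∑ x ∈ B, (D.filter fun d => lab d = x).card := sum_le_sum hfib
      _ ≤ ∑ x ∈ D.image lab, (D.filter fun d => lab d = x).card :=
          sum_le_sum_of_subset sdiff_subset
      _ = D.card := (card_eq_sum_card_image lab D).symm
      _ = _ := hcD
  refine ⟨?_, fun h => ?_⟩
  · have := Nat.mul_le_mul_left c h1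
    rw [mul_add] at this
    omega
  · have : B.card = 0 := by
      by_contra h0
      have := Nat.mul_le_mul_left c (Nat.one_le_iff_ne_zero.2 h0)
      omega
    omega

end Tri

end Pool.Agent.MP_9a3194_co
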