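import Pool.Agent.MP_9a3194_co.Sel
import Pool.Agent.MP_9a3194_co.Exp

open Finset
open scoped symmDiff

namespace Pool.Agent.MP_9a3194_co

private theorem gam_Thin {e : ℝ} (he : 0 < e) :
    ∃ γ : ℝ, 11 ≤ γ ∧ 256 * γ * Real.exp (1 - 2 * γ) ≤ e ^ 2 := by
  have h := (Real.tendsto_pow_mul_exp_neg_atTop_nhds_zero 1).eventually_le_const
    (show (0 : ℝ) < e ^ 2 / 256 by positivity)
  obtain ⟨γ, h1, h2⟩ := (h.and (Filter.eventually_ge_atTop 11)).exists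
  refine ⟨γ, h2, ?_⟩
  have h3 : Real.exp (1 - 2 * γ) ≤ Real.exp (-γ) := Real.exp_le_exp.2 (by linarith)
  have h4 := mul_le_mul_of_nonneg_left h3 (show 0 ≤ γ by linarith)
  rw [pow_one] at h1
  linarith

private theorem cells_Thin {V : Type} [Fintype V] [DecidableEq V] {S : Str V} {G : Finset V}
    {cell : V → V} {l : ℕ} (hP : S.Part G cell l) (Y H : Finset V) (h : ∀ v ∈ Y, cell v ∈ H) :
    Y.card ≤ 6 * l * (G ∩ H).card := by
  refine card_le_mul_card_image_of_maps_to (f := cell)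
    (fun v hv => mem_inter.2 ⟨hP.mem v, h v hv⟩) _ fun g hg => ?_
  exact (card_le_card (filter_subset_filter _ (subset_univ Y))).trans (hP.hi g (mem_inter.1 hg).1)

private theorem core_Thin {V : Type} [Fintype V] [DecidableEq V] {S : Str V} {G : Finset V}
    {cell : V → V} {l : ℕ} (hP : S.Part G cell l) (X : Finset V) :
    ∃ W ⊆ X, Sat cell W ∧ (X \ W).card ≤ 6 * l * S.b X ∧ W.card ≤ 6 * l * (G ∩ W).card := by
  obtain ⟨W, hW⟩ : ∃ W : Finset V, ∀ v, v ∈ W ↔ ∀ u, cell u = cell v → u ∈ X :=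
    ⟨univ.filter fun v => ∀ u, cell u = cell v → u ∈ X, fun v => by simp⟩
  have hs : Sat cell W := fun u v h => by rw [hW, hW, h]
  refine ⟨W, fun v hv => (hW v).1 hv v rfl, hs, ?_,
    cells_Thin hP W W fun v hv => (hs _ _ (hP.self _ (hP.mem v))).2 hv⟩
  refine (cells_Thin hP (X \ W) ((X \ W).image cell) fun v hv => mem_image_of_mem _ hv).trans
    (Nat.mul_le_mul_left _ ?_)
  refine S.touch _ (fun g => univ.filter fun v => cell v = g)
    (fun g hg => hP.conn g (mem_inter.1 hg).1) (fun g _ g' _ hne => ?_) X fun g hg => ?_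
  · exact disjoint_left.2 fun v h1 h2 => hne ((mem_filter.1 h1).2.symm.trans (mem_filter.1 h2).2)
  · obtain ⟨v, hv, rfl⟩ := mem_image.1 (mem_inter.1 hg).2
    obtain ⟨h1, h2⟩ := mem_sdiff.1 hv
    rw [hW] at h2
    obtain ⟨u, hu⟩ := not_forall.1 h2
    obtain ⟨h3, h4⟩ := Classical.not_imp.1 hu
    exact ⟨⟨v, mem_filter.2 ⟨mem_univ v, rfl⟩, h1⟩, u, mem_filter.2 ⟨mem_univ u, h3⟩, h4⟩

private theorem num_Thin {x w r g bX bW l C : ℝ} (hl : 1 ≤ l) (hC : 0 ≤ C) (hb : 0 ≤ bX)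
    (h1 : x ≤ w + r) (h2 : r ≤ 6 * l * bX) (h3 : w ≤ 6 * l * g) (h4 : g ≤ C * (bW + 1))
    (h5 : bW ≤ bX + 6 * r) : x ≤ (6 + 222 * C) * l ^ 2 * (bX + 1) := by
  have hl0 : 0 ≤ l := by linarith
  have a1 : 1 * bX ≤ l * bX := mul_le_mul_of_nonneg_right hl hb
  have a2 : bW + 1 ≤ 37 * l * (bX + 1) := by linarith
  have a3 : g ≤ C * (37 * l * (bX + 1)) := h4.trans (mul_le_mul_of_nonneg_left a2 hC)
  have a4 := mul_le_mul_of_nonneg_left a3 (show 0 ≤ 6 * l by linarith)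
  have a5 := mul_le_mul_of_nonneg_left a1 hl0
  have a6 : 0 ≤ l ^ 2 := sq_nonneg l
  linarith

/-- a thin net -/
theorem thin {ε : ℝ} (hε : 0 < ε) : ∃ (ω₀ l₀ : ℕ) (A : ℝ), 0 < A ∧
    ∀ {V : Type} [Fintype V] [DecidableEq V] (S : Str V) (c ω l : ℕ) (G : Finset V)
      (Ω : V → Finset V) (cell : V → V), ω₀ ≤ ω → l₀ ≤ l → l + 2 ≤ c → 2 * l ≤ Fintype.card V →
      S.Iso c → S.Part G cell l → S.Trees G Ω ω →
      ∃ T ⊆ G, (∀ X : Finset V, ∑ g ∈ T, (mino (Ω g) X : ℝ) / ω ≤ ε * S.b X) ∧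
        ∀ X : Finset V, Disjoint X T → (X.card : ℝ) ≤ A * l ^ 2 * (S.b X + 1) := by
  obtain ⟨e, he0, he1, heε⟩ : ∃ e : ℝ, 0 < e ∧ e ≤ 1 ∧ e ≤ ε :=
    ⟨min ε 1, lt_min hε one_pos, min_le_right _ _, min_le_left _ _⟩
  obtain ⟨γ, hγ, hγe⟩ := gam_Thin he0
  have hγ0 : 0 < γ := by linarith
  obtain ⟨β, hβ⟩ : ∃ β : ℝ, β = 2 * γ / e := ⟨_, rfl⟩
  have hβ2 : 2 ≤ β := by
    rw [hβ, le_div_iff₀ he0]
    linarith
  obtain ⟨t, ht⟩ : ∃ t : ℝ, t = e / 4 / (4 * β) := ⟨_, rfl⟩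
  have ht0 : 0 < t := by rw [ht]; positivity
  obtain ⟨θ, hθ⟩ : ∃ θ : ℝ, θ = e / 4 * Real.exp (-β / 2) / 4 := ⟨_, rfl⟩
  have hθ0 : 0 < θ := by rw [hθ]; positivity
  have hθ1 : θ ≤ 1 := by
    have h1 : Real.exp (-β / 2) ≤ 1 := Real.exp_le_one_iff.2 (by linarith)
    have h2 := mul_le_mul_of_nonneg_left h1 he0.le
    rw [hθ]
    linarith
  have hlog : 0 ≤ Real.log (4 / θ) := Real.log_nonneg (by rw [le_div_iff₀ hθ0]; linarith)
  have hC : 0 ≤ 2 + 4 / θ * (2 * γ + β + Real.log (4 / θ)) := by positivity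
  refine ⟨⌈4 * (1 - Real.log (θ / 4)) / t⌉₊, max 3 ⌈1152 / θ⌉₊,
    6 + 222 * (2 + 4 / θ * (2 * γ + β + Real.log (4 / θ))), by positivity, ?_⟩
  intro V _ _ S c ω l G Ω cell hω hl hc hV hI hP hT
  have hl3 : 3 ≤ l := (le_max_left _ _).trans hl
  have hl1 : (1 : ℝ) ≤ l := by exact_mod_cast (show 1 ≤ l by omega)
  obtain ⟨T, hTG, hT1, hT2⟩ := select S hT (π := e / 4) hγ0.le hβ2 (by positivity) (by linarith)
  refine ⟨T, hTG, fun X => (hT1 X).trans (mul_le_mul_of_nonneg_right ?_ (Nat.cast_nonneg _)),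
    fun X hX => ?_⟩
  · have h1 : γ / β = e / 2 := by
      rw [hβ]
      field_simp
    linarith
  have h1 : 8 * Real.exp (1 - 2 * γ) ≤ t := by
    have h2 : t = e ^ 2 / (32 * γ) := by
      rw [ht, hβ]
      field_simp
      ring
    rw [h2, le_div_iff₀ (by positivity)]
    linarith
  have h2 : 4 * Real.exp (1 - t * ω / 4) ≤ θ := by
    have h3 := (div_le_iff₀ ht0).1 (Nat.ceil_le.1 hω)
    have h4 : Real.exp (1 - t * ω / 4) ≤ θ / 4 :=
      (Real.le_log_iff_exp_le (by positivity)).1 (by linarith)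
    linarith
  have h3 : 144 * (l : ℝ) ≤ θ * Real.exp (l / 2) := by
    have h4 := (div_le_iff₀ hθ0).1 (Nat.ceil_le.1 ((le_max_right _ _).trans hl))
    have h5 := Real.quadratic_le_exp_of_nonneg (show (0 : ℝ) ≤ l / 2 by linarith)
    have h6 : (l : ℝ) ^ 2 / 8 ≤ Real.exp (l / 2) := by linarith
    have h7 := mul_le_mul_of_nonneg_left h6 hθ0.le
    have h8 := mul_le_mul_of_nonneg_left h4 (show (0 : ℝ) ≤ l by linarith)
    linarith
  obtain ⟨W, hWX, hW, a1, a2⟩ := core_Thin hP X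
  have a3 := expand S hI hc hl3 hV hP hT hγ (le_trans zero_le_two hβ2) ht0 hθ0 hθ1 h1 h2 h3 hTG
    (fun g hg hg' => by
      have h4 := hT2 g hg hg'
      rw [← ht] at h4
      refine le_trans (le_of_eq ?_) h4
      rw [hθ]
      ring) W hW (hX.mono_left hWX)
  have a4 := S.b_le_add W X
  rw [symmDiff_comm, symmDiff_of_ge hWX] at a4
  have a5 : X.card ≤ W.card + (X \ W).card := by
    rw [add_comm, card_sdiff_add_card_eq_card hWX]
  exact num_Thin (r := (X \ W).card) (w := W.card) hl1 hC (Nat.cast_nonneg _)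
    (by exact_mod_cast a5) (by exact_mod_cast a1) (by exact_mod_cast a2) a3 (by exact_mod_cast a4)

end Pool.Agent.MP_9a3194_co
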