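import Pool.Agent.MP_9a3194_co.UAux
import Pool.Agent.MP_9a3194_co.Ball
import Pool.Agent.MP_9a3194_co.Seg

open Finset
open scoped symmDiff

namespace Pool.Agent.MP_9a3194_co

namespace Str

variable {V : Type} {S : Str V} {ι : V → V}

theorem Aut.inj (h : S.Aut ι) : Function.Injective ι := Function.LeftInverse.injective h.inv
theorem Aut.bij (h : S.Aut ι) : Function.Bijective ι := Function.Involutive.bijective h.inv
theorem Aut.pi (h : S.Aut ι) (v : V) : S.π (ι v) = ι (S.π v) := h.step v 1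
theorem Aut.pi_inv (h : S.Aut ι) (v : V) : S.π⁻¹ (ι v) = ι (S.π⁻¹ v) := h.step v 2
theorem Aut.pow (h : S.Aut ι) (i : ℕ) (v : V) : (S.π ^ i) (ι v) = ι ((S.π ^ i) v) := by
  induction i with
  | zero => rfl
  | succ i ih => rw [pow_succ', Equiv.Perm.mul_apply, Equiv.Perm.mul_apply, ih, h.pi]
theorem Aut.inv_pow (h : S.Aut ι) (i : ℕ) (v : V) : (S.π⁻¹ ^ i) (ι v) = ι ((S.π⁻¹ ^ i) v) := by
  induction i with
  | zero => rfl
  | succ i ih => rw [pow_succ', Equiv.Perm.mul_apply, Equiv.Perm.mul_apply, ih, h.pi_inv]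
theorem Aut.hd (h : S.Aut ι) (d : Dt V) : S.hd (ι d.1, d.2) = ι (S.hd d) := h.step d.1 d.2

private theorem dart_UAut (h : S.Aut ι) (a : V) (w : List Bool) :
    S.dart (ι a) w = (ι (S.dart a w).1, (S.dart a w).2) := by
  induction w with
  | nil => rfl
  | cons β w ih => rw [dart, dart, ih, h.hd]

theorem Aut.tip (h : S.Aut ι) (a : V) (w : List Bool) : S.tip (ι a) w = ι (S.tip a w) := by
  rw [Str.tip, Str.tip, dart_UAut h, h.hd]
theorem Aut.idx (h : S.Aut ι) {J : Finset V} (hJ : ∀ v, ι v ∈ J ↔ v ∈ J) (v : V) :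
    S.idx J (ι v) = S.idx J v := by
  simp only [Str.idx, h.inv_pow, hJ]
theorem Aut.seg (h : S.Aut ι) {J : Finset V} (hJ : ∀ v, ι v ∈ J ↔ v ∈ J) (v : V) :
    S.seg J (ι v) = ι (S.seg J v) := by
  rw [Str.seg, Str.seg, h.idx hJ, h.inv_pow]
theorem Aut.y0 (h : S.Aut ι) {J : Finset V} (hJ : ∀ v, ι v ∈ J ↔ v ∈ J) {ω : V → Bool}
    (hω : ∀ v, ω (ι v) = !ω v) (v : V) : S.y0 J ω (ι v) = !S.y0 J ω v := by
  rw [Str.y0, Str.y0, h.idx hJ, h.seg hJ, hω, Bool.not_xor]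

private theorem good_UAut (h : S.Aut ι) {k : ℕ} {y : V → Bool} (hy : ∀ v, y (ι v) = !y v)
    {a : V} {x : Bool} (hg : S.Good k y a x) : S.Good k y (ι a) (!x) := fun w h1 h2 h3 => by
  rw [h.tip, hy]
  exact fun e => hg w h1 h2 h3 (Bool.not_inj e)

theorem Aut.pat (h : S.Aut ι) {k : ℕ} {y : V → Bool} (hy : ∀ v, y (ι v) = !y v) {g : V}
    (hg : S.Pat k y g) : S.Pat k y (ι g) :=
  ⟨fun i hi => by rw [h.pow, hy]; exact good_UAut h hy (hg.1 i hi),
    fun i hi => by rw [h.pow, hy]; exact good_UAut h hy (hg.2 i hi)⟩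

private theorem mem_image_UAut [DecidableEq V] (h : S.Aut ι) (X : Finset V) (v : V) :
    v ∈ X.image ι ↔ ι v ∈ X := by
  rw [mem_image]
  exact ⟨fun ⟨u, hu, e⟩ => by rwa [← e, h.inv], fun hv => ⟨_, hv, h.inv v⟩⟩

theorem Aut.Om [DecidableEq V] (h : S.Aut ι) (r : ℕ) (g : V) :
    S.Om r (ι g) = (S.Om r g).image ι := by
  ext v
  have e : ∀ u, ι u = v ↔ u = ι v := fun u =>
    ⟨fun e => by rw [← e, h.inv], fun e => by rw [e, h.inv]⟩
  rw [mem_image_UAut h, mem_Om, mem_Om]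
  simp only [h.pow, h.tip, e]
theorem Aut.b [Fintype V] [DecidableEq V] (h : S.Aut ι) (X : Finset V) :
    S.b (X.image ι) = S.b X := by
  rw [Str.b, Str.b]
  refine card_nbij' (fun d => (ι d.1, d.2)) (fun d => (ι d.1, d.2)) (fun d hd => ?_)
    (fun d hd => ?_) (fun d _ => by simp [h.inv]) (fun d _ => by simp [h.inv])
  · rw [mem_coe, mem_bd] at hd ⊢
    rwa [h.hd, ← mem_image_UAut h, ← mem_image_UAut h]
  · rw [mem_coe, mem_bd] at hd ⊢
    rwa [h.hd, mem_image_UAut h, mem_image_UAut h, h.inv, h.inv]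
theorem Aut.mino [DecidableEq V] (h : S.Aut ι) (Ω X : Finset V) :
    mino (Ω.image ι) X = mino Ω (X.image ι) := by
  have e1 : Ω.image ι ∩ X = (Ω ∩ X.image ι).image ι := by
    ext v
    simp only [mem_inter, mem_image_UAut h, h.inv]
  have e2 : Ω.image ι \ X = (Ω \ X.image ι).image ι := by
    ext v
    simp only [mem_sdiff, mem_image_UAut h, h.inv]
  rw [Pool.Agent.MP_9a3194_co.mino, Pool.Agent.MP_9a3194_co.mino, e1, e2,
    card_image_of_injective _ h.inj, card_image_of_injective _ h.inj]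
/-- symmetrising a flow -/
theorem Aut.anti (h : S.Aut ι) {f : Dt V → ℝ} (hf : S.Anti f) :
    S.Anti fun d => (f d - f (ι d.1, d.2)) / 2 := by
  intro d
  have e : (ι (S.rv d).1, (S.rv d).2) = S.rv (ι d.1, d.2) := by
    rw [rv, rv, h.hd]
  simp only [e, hf _]
  ring

private theorem pow_add_UAut (i j : ℕ) (v : V) :
    (S.π ^ (i + j)) v = (S.π ^ i) ((S.π ^ j) v) := by
  rw [pow_add]; rfl

private theorem junction_UAut {J : Finset V} {lo hi : ℕ} (h : S.Mark J lo hi) {v : V}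
    (hv : S.π v ∈ J) : lo ≤ S.idx J v + 1 := by
  by_contra hlt
  refine h.1 _ (h.seg_mem v) (S.idx J v + 1) (by omega) (by omega) ?_
  rw [add_comm, pow_add_UAut, pow_seg]
  simpa using hv

/-- repairing the junctions equivariantly -/
theorem colF2 [Fintype V] [DecidableEq V] {J : Finset V} {lo hi W R k : ℕ} (hJ : S.Mark J lo hi)
    (hW : W ≤ lo) (hH : S.HInj (S.tube J W) R) (hk : 2 * k ≤ R) (ω : V → Bool) (t : V → ℕ)
    (hp : ∀ x ∈ J, t x + 10 ≤ W ∧ S.Pat k (S.y0 J ω) ((S.π ^ t x) x)) (h : S.Aut ι)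
    (hJι : ∀ v, ι v ∈ J ↔ v ∈ J) (ht : ∀ v, t (ι v) = t v) (hω : ∀ v, ω (ι v) = !ω v) :
    ∃ (y : V → Bool) (F : Finset V), S.Col k y F ∧ F ⊆ S.tube J W ∧
      (∀ v ∉ S.tube J W, y v = S.y0 J ω v) ∧ (∀ v, y (ι v) = !y v) ∧
      ∀ v, ι v ∈ F ↔ v ∈ F := by
  have htι := ht
  clear ht
  have ht := fun x hx => (hp x hx).1
  have hpat := fun x hx => (hp x hx).2
  clear hp
  set z := S.y0 J ω with hz
  have htv : ∀ v, t (S.seg J v) + 10 ≤ W := fun v => ht _ (hJ.seg_mem v)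
  obtain ⟨m, hm⟩ : ∃ m : V → Prop, ∀ x, m x ↔ z (S.π⁻¹ x) = z x := ⟨_, fun _ => Iff.rfl⟩
  classical
  obtain ⟨y, hy⟩ : ∃ y : V → Bool, ∀ v, y v =
    xor (z v) (decide (m (S.seg J v) ∧ S.idx J v ≤ t (S.seg J v) + 3)) := ⟨_, fun _ => rfl⟩
  obtain ⟨F, hF⟩ : ∃ F : Finset V, ∀ v, v ∈ F ↔ m (S.seg J v) ∧
      (S.idx J v = t (S.seg J v) + 3 ∨ S.idx J v = t (S.seg J v) + 4) :=
    ⟨univ.filter fun v => m (S.seg J v) ∧
      (S.idx J v = t (S.seg J v) + 3 ∨ S.idx J v = t (S.seg J v) + 4), fun v => by simp⟩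
  have key : ∀ v, y (S.π v) = y v ↔ m (S.seg J v) ∧ S.idx J v = t (S.seg J v) + 3 := by
    intro v
    by_cases hv : S.π v ∈ J
    · have h1 := junction_UAut hJ hv
      have h2 := htv v
      obtain ⟨h3, h4⟩ := idx_mem (S := S) hv
      have h5 : ¬ S.idx J v ≤ t (S.seg J v) + 3 := by omega
      have h6 : ¬ S.idx J v = t (S.seg J v) + 3 := by omega
      have h7 := hm (S.π v)
      rw [show S.π⁻¹ (S.π v) = v by simp] at h7
      rw [hy, hy, h3, h4]
      simp only [h5, h6, h7, and_false, iff_false, Nat.zero_le, and_true]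
      cases z v <;> cases z (S.π v) <;> simp
    · obtain ⟨h1, h2⟩ := hJ.idx_succ hv
      rw [hy, hy, h1, h2, hz, hJ.y0_succ ω hv]
      by_cases h3 : m (S.seg J v)
      · rcases lt_trichotomy (S.idx J v) (t (S.seg J v) + 3) with h4 | h4 | h4
        · have h5 : S.idx J v + 1 ≤ t (S.seg J v) + 3 := h4
          simp [h3, h5, h4.le, h4.ne]
        · simp [h3, h4]
        · have h5 : ¬ S.idx J v + 1 ≤ t (S.seg J v) + 3 := by omega
          simp [h3, h5, h4.not_ge, h4.ne']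
      · simp [h3]
  have key2 : ∀ v, y v = y (S.π⁻¹ v) ↔ m (S.seg J v) ∧ S.idx J v = t (S.seg J v) + 4 := by
    intro v
    obtain ⟨u, rfl⟩ := S.π.surjective v
    rw [show S.π⁻¹ (S.π u) = u by simp, key]
    by_cases hv : S.π u ∈ J
    · have h1 := junction_UAut hJ hv
      have h2 := htv u
      have h3 := (idx_mem (S := S) hv).1
      constructor
      · rintro ⟨-, h4⟩
        omega
      · rintro ⟨-, h4⟩
        omega
    · obtain ⟨h1, h2⟩ := hJ.idx_succ hv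
      rw [h1, h2]
      exact and_congr_right fun _ => by omega
  have htube : ∀ v, S.idx J v < W → v ∈ S.tube J W := fun v hv =>
    S.mem_tube.2 ⟨_, hJ.seg_mem v, _, hv, pow_seg v⟩
  have hsub : F ⊆ S.tube J W := fun v hv => htube v (by
    have h1 := ((hF v).1 hv).2
    have h2 := htv v
    omega)
  have hout : ∀ v ∉ S.tube J W, y v = z v := by
    intro v hv
    have h1 : ¬ S.idx J v ≤ t (S.seg J v) + 3 := fun h => hv (htube v (by
      have h2 := htv v
      omega))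
    rw [hy]
    simp [h1]
  have hzι : ∀ v, z (ι v) = !z v := h.y0 hJι hω
  have hmι : ∀ x, m (ι x) ↔ m x := fun x => by
    rw [hm, hm, h.pi_inv, hzι, hzι]
    exact Bool.not_inj_iff
  have hyι : ∀ v, y (ι v) = !y v := fun v => by
    rw [hy, hy, hzι, h.seg hJι, h.idx hJι, htι]
    simp only [hmι, Bool.not_xor]
  have hFι : ∀ v, ι v ∈ F ↔ v ∈ F := fun v => by
    rw [hF, hF, h.seg hJι, h.idx hJι, htι, hmι]
  refine ⟨y, F, ⟨fun v hv => ⟨fun h => ?_, fun h => ?_⟩, fun a ha h => ?_, fun a ha => ?_⟩,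
    hsub, hout, hyι, hFι⟩
  · exact hv ((hF v).2 ⟨((key v).1 h).1, Or.inl ((key v).1 h).2⟩)
  · exact hv ((hF v).2 ⟨((key2 v).1 h.symm).1, Or.inr ((key2 v).1 h.symm).2⟩)
  · obtain ⟨h1, h2 | h2⟩ := (hF a).1 ha
    · have h3 := ((key2 a).1 (((key a).2 ⟨h1, h2⟩).symm.trans h)).2
      omega
    · have h3 := ((key a).1 (h.trans ((key2 a).2 ⟨h1, h2⟩).symm)).2
      omega
  · obtain ⟨h1, h2⟩ := (hF a).1 ha
    have hx := hJ.seg_mem a
    have h3 := htv a
    have h4 := pow_seg (S := S) (J := J) a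
    obtain ⟨h5, h6⟩ := hJ.idx_pow hx (i := t (S.seg J a)) (by omega)
    have h7 : y a = z ((S.π ^ t (S.seg J a)) (S.seg J a)) := by
      rw [hy, hz, y0, y0, h5, h6]
      rcases h2 with h2 | h2
      · rw [h2]
        by_cases ho : Odd (t (S.seg J a)) <;> simp [h1, ho, Nat.odd_add, parity_simps]
      · rw [h2]
        by_cases ho : Odd (t (S.seg J a)) <;> simp [h1, ho, Nat.odd_add, parity_simps]
    have h8 : S.Good k z a (z ((S.π ^ t (S.seg J a)) (S.seg J a))) := by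
      rcases h2 with h2 | h2
      · have h9 := (hpat _ hx).1 3 (by simp)
        rwa [← pow_add_UAut, add_comm, ← h2, h4] at h9
      · have h9 := (hpat _ hx).1 4 (by simp)
        rwa [← pow_add_UAut, add_comm, ← h2, h4] at h9
    intro w hw1 hw2 hw3
    rw [h7, hout _ (hH.2 a (hsub ha) w (by omega))]
    exact h8 w hw1 hw2 hw3

end Str

end Pool.Agent.MP_9a3194_co
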