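import Mathlib

/-! Triangulated closed surfaces, orientable or not. -/

namespace Pool.Agent.MP_9a3194_co

/-- Triangles `F` whose sides are glued in pairs. The side `(f, i)` joins the corners `i` and
`i + 1` of `f`; it is glued to the side `α (f, i)`, preserving the direction from corner `i` to
corner `i + 1` if `tw (f, i)` holds and reversing it otherwise. -/
structure Surf (F : Type) where
  α : F × ZMod 3 → F × ZMod 3
  tw : F × ZMod 3 → Bool
  αα : ∀ d, α (α d) = d
  αne : ∀ d, α d ≠ d
  twα : ∀ d, tw (α d) = tw d

namespace Surf

variable {F : Type} (T : Surf F)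

/-- the next side of the same triangle; also the next corner -/
def nxt (d : F × ZMod 3) : F × ZMod 3 := (d.1, d.2 + 1)

/-- the corner where a directed side starts (`false`: forwards, `true`: backwards) -/
def tail (e : (F × ZMod 3) × Bool) : F × ZMod 3 := if e.2 then nxt e.1 else e.1

/-- the corner where a directed side ends -/
def head (e : (F × ZMod 3) × Bool) : F × ZMod 3 := if e.2 then e.1 else nxt e.1

/-- the same directed edge as a side of the other triangle -/
def mate (e : (F × ZMod 3) × Bool) : (F × ZMod 3) × Bool :=
  (T.α e.1, if T.tw e.1 then e.2 else !e.2)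

/-- two corners lie at the same vertex -/
def Same : F × ZMod 3 → F × ZMod 3 → Prop :=
  Relation.EqvGen fun x y => ∃ e, x = tail e ∧ y = tail (T.mate e)

/-- the surface is connected -/
def Connected : Prop :=
  ∀ X : Set F, X.Nonempty → Xᶜ.Nonempty → ∃ d, d.1 ∈ X ∧ (T.α d).1 ∉ X

/-- every vertex has degree (number of corners) at least `c` -/
def MinDeg (c : ℕ) : Prop := ∀ x, c ≤ {y | T.Same x y}.ncard

/-- each directed edge ends at the vertex where the next one starts, cyclically -/
def Closed (w : List ((F × ZMod 3) × Bool)) : Prop :=
  (w ++ w).IsChain fun e e' => T.Same (head e) (tail e')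

/-- the gluing of two sides, and the boundary of a triangle -/
def rels : Set (FreeGroup (F × ZMod 3)) :=
  {r | ∃ d, r = .of d * (if T.tw d then (.of (T.α d))⁻¹ else .of (T.α d)) ∨
    r = .of d * .of (nxt d) * .of (nxt (nxt d))}

/-- the word is trivial modulo the gluings and the triangles -/
def Contr (w : List ((F × ZMod 3) × Bool)) : Prop :=
  (w.map fun e => if e.2 then (PresentedGroup.of (rels := T.rels) e.1)⁻¹
    else PresentedGroup.of e.1).prod = 1

end Surf

end Pool.Agent.MP_9a3194_co
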