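import Pool.Agent.MP_9a3194_co.Basic
import Pool.Agent.MP_9a3194_co.TAux
import Pool.Agent.MP_9a3194_co.UDefs

open Finset

namespace Pool.Agent.MP_9a3194_co

/-- the deck transformation of a double cover -/
def flipB {V : Type} (x : V × Bool) : V × Bool := (x.1, !x.2)

/-- functions annihilated by the vectors with index in `F` -/
def ann {T E : Type} [Fintype T] (b : E → T → ℤ) (F : Finset E) : Submodule ℝ (T → ℝ) where
  carrier := {φ | ∀ e ∈ F, ∑ t, (b e t : ℝ) * φ t = 0}
  add_mem' := fun {φ ψ} h1 h2 e he => by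
    simp only [Pi.add_apply, mul_add, sum_add_distrib, h1 e he, h2 e he, add_zero]
  zero_mem' := fun e _ => by simp
  smul_mem' := fun r φ h e he => by
    have := h e he
    simp only [Pi.smul_apply, smul_eq_mul, mul_left_comm _ r, ← mul_sum, this, mul_zero]

/-- weighted Gram matrix of integer vectors -/
noncomputable def gram {T E : Type} [Fintype E] (b : E → T → ℤ) (c : E → ℝ) : Matrix T T ℝ :=
  ∑ e, c e • Matrix.vecMulVec (fun t => (b e t : ℝ)) fun t => (b e t : ℝ)

namespace Str

variable {V : Type} (S : Str V)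

/-- a free involutive automorphism -/
structure Aut (ι : V → V) : Prop where
  inv : ∀ v, ι (ι v) = v
  ne : ∀ v, ι v ≠ v
  step : ∀ v i, S.step (ι v) i = ι (S.step v i)

/-- the double cover given by a signature -/
def cov (sg : Dt V → Bool) (hs : ∀ d, sg (S.rv d) = sg d) : Str (V × Bool) where
  π :=
    { toFun := fun x => (S.π x.1, xor x.2 (sg (x.1, 1)))
      invFun := fun x => (S.π⁻¹ x.1, xor x.2 (sg (x.1, 2)))
      left_inv := fun x => by
        have h : sg (S.π x.1, 2) = sg (x.1, 1) := hs (x.1, 1)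
        simp [h]
      right_inv := fun x => by
        have h : sg (S.π⁻¹ x.1, 1) = sg (x.1, 2) := hs (x.1, 2)
        simp only [h]
        simp }
  μ x := (S.μ x.1, xor x.2 (sg (x.1, 0)))
  μμ x := by
    have h : sg (S.μ x.1, 0) = sg (x.1, 0) := hs (x.1, 0)
    simp [h, S.μμ]

/-- the signature after switching at `Y` -/
def typ (sg : Dt V → Bool) (Y : V → Bool) (d : Dt V) : Bool :=
  xor (xor (Y d.1) (Y (S.hd d))) (sg d)

/-- weak isoperimetric inequality -/
def Iso1 [Fintype V] [DecidableEq V] (c : ℕ) : Prop :=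
  ∀ X : Finset V, X.Nonempty → Xᶜ.Nonempty → 2 * min c (min X.card Xᶜ.card + 1) ≤ S.b X

end Str

namespace Surf

variable {F : Type} (T : Surf F)

/-- the directed side of a dart of the orientation cover -/
def toArc (x : (F × Bool) × ZMod 3) : (F × ZMod 3) × Bool :=
  ((x.1.1, if x.1.2 then -x.2 - 1 else x.2), x.1.2)

/-- the dart of the orientation cover of a directed side -/
def ofArc (e : (F × ZMod 3) × Bool) : (F × Bool) × ZMod 3 :=
  ((e.1.1, e.2), if e.2 then -e.1.2 - 1 else e.1.2)

@[simp] theorem toArc_ofArc (e : (F × ZMod 3) × Bool) : toArc (ofArc e) = e := by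
  obtain ⟨⟨f, i⟩, b⟩ := e
  cases b <;> simp [toArc, ofArc]

@[simp] theorem ofArc_toArc (x : (F × Bool) × ZMod 3) : ofArc (toArc x) = x := by
  obtain ⟨⟨f, b⟩, i⟩ := x
  cases b <;> simp [toArc, ofArc]

/-- the orientation double cover -/
def dbl : Tri (F × Bool) where
  α x := ofArc (T.α (toArc x).1, xor (toArc x).2 (T.tw (toArc x).1))
  αα x := by simp [T.αα, T.twα]
  αne x h := by
    have := congrArg (fun y => (toArc y).1) h
    simp only [toArc_ofArc] at this
    exact T.αne _ this

end Surf

end Pool.Agent.MP_9a3194_co
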