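import Pool.Agent.MP_9a3194_co.UPat
import Pool.Agent.MP_9a3194_co.Net

open Finset
open scoped symmDiff

namespace Pool.Agent.MP_9a3194_co

private theorem flip_mem_UNet {V : Type} (J : Finset V) (x : V × Bool) :
    flipB x ∈ J ×ˢ (univ : Finset Bool) ↔ x ∈ J ×ˢ (univ : Finset Bool) := by
  simp [flipB, mem_product]

private theorem lift_UNet {V : Type} {x : V × Bool} {v : V} (h : x.1 = v) (b : Bool) :
    x = (v, b) ∨ flipB x = (v, b) := by
  obtain ⟨u, c⟩ := x
  subst h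
  cases b <;> cases c <;> simp [flipB]

/-- the equivariant configuration on a double cover -/
theorem cfg2 (k r l₀ : ℕ) (A : ℝ) : ∃ R l c : ℕ, 2 * k ≤ R ∧ l₀ ≤ l ∧ A * (l : ℝ) ^ 2 ≤ 2 ^ R ∧
    ∀ {V : Type} [Fintype V] [DecidableEq V] (S : Str V) (sg : Dt V → Bool)
      (hs : ∀ d, sg (S.rv d) = sg d), S.Gir c →
      ∃ (y : V × Bool → Bool) (F G : Finset (V × Bool)) (cell : V × Bool → V × Bool),
        (S.cov sg hs).Cfg k R r l y F G cell ∧ (∀ x, y (flipB x) = !y x) ∧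
        (∀ x, flipB x ∈ F ↔ x ∈ F) ∧ ∀ x, flipB x ∈ G ↔ x ∈ G := by
  obtain ⟨R, M, hM, hR, hl, hA, hn⟩ := num k r l₀ A
  refine ⟨R, lc k r M, 2 * (W2 k r M + 2 * k + 1) + 2 * (6 * loJ M R) + 2 * (10 * M + R + 1) +
    2 * lc k r M + 2 * (10 + r + 1) + 1, by omega, hl, hA, fun {V} _ _ S sg hs hG => ?_⟩
  have hW : 11 * M ≤ W2 k r M := by
    rw [W2, mul_add]
    omega
  have hlo : 10 * M ≤ loJ M R := by
    have h1 := Nat.le_mul_self (10 * M)
    have h2 := Nat.le_mul_of_pos_right (10 * M * (10 * M)) (pow_pos four_pos (2 * R + 2))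
    rw [loJ]
    omega
  obtain ⟨J, -, hJ, hm⟩ := Str.hit (W := 1) (Δ := 10 * M * (10 * M) * 4 ^ (2 * R + 2)) hG
    (show 2 * loJ M R ≤ _ by omega) (fun _ => True) (fun _ => ⟨0, one_pos, trivial⟩)
    (S.TN (10 * M) (10 * M) (2 * R + 2)) (fun _ _ => Str.TN.symm) fun _ _ => Str.card_TN
  change S.Mark J (loJ M R) (6 * loJ M R) at hm
  have hGc := Str.cov_gir (sg := sg) (hs := hs) hG
  have hH := (Str.hinj_tube hGc (by omega) (Str.cov_far (sg := sg) (hs := hs) hG (by omega) hJ)).1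
  choose T hT1 hT2 hT3 hT4 using Str.free (ρ := r + 2 * k + 2) (M := M) hG
    (show W2 k r M ≤ _ by omega) (by omega) hJ
  obtain ⟨ω, hω⟩ := Str.pat2 (k := k) (W := W2 k r M) hG (by omega) hm
    (fun h => if h.2 then T h.1 else (range M).image (10 * ·)) hM
    (fun h t ht => by
      split_ifs at ht
      · exact hT2 _ t ht
      · obtain ⟨i, hi, rfl⟩ := mem_image.1 ht
        have := mem_range.1 hi
        omega)
    (fun h t ht t' ht' hlt => by
      split_ifs at ht ht'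
      · exact hT3 _ t ht t' ht' hlt
      · obtain ⟨i, -, rfl⟩ := mem_image.1 ht
        obtain ⟨j, -, rfl⟩ := mem_image.1 ht'
        omega)
    (fun h => by
      split_ifs
      · exact hT1 _
      · rw [card_image_of_injective _ (mul_right_injective₀ (by norm_num)), card_range]) hn sg hs
  choose τ hτ1 hτ2 using hω
  have hJι := flip_mem_UNet J
  have hωι : ∀ x : V × Bool, xor (ω (flipB x).1) (flipB x).2 = !xor (ω x.1) x.2 := fun x => by
    simp [flipB]
  obtain ⟨y, F, hc, hF, hy, hyι, hFι⟩ := Str.colF2 (Str.cov_mark (sg := sg) (hs := hs) hm) hlo hH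
    (show 2 * k ≤ R by omega) (fun x => xor (ω x.1) x.2) (fun x => τ (x.1, false))
    (fun x _ => by
      refine ⟨?_, hτ2 (x.1, false) x.2⟩
      obtain ⟨i, hi, e⟩ := mem_image.1 (hτ1 (x.1, false))
      have := mem_range.1 hi
      omega) Str.cov_aut hJι (fun _ => rfl) hωι
  obtain ⟨G, hA', hG', hm'⟩ := Str.hit (W := W2 k r M) (Δ := 10 * 10 * 4 ^ (2 * r + 2)) hG
    (show 2 * lc k r M ≤ _ by omega)
    (fun g => (∀ b : Bool, (S.cov sg hs).Pat k
        ((S.cov sg hs).y0 (J ×ˢ univ) fun x => xor (ω x.1) x.2) (g, b)) ∧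
      ∀ x ∈ J, ¬S.TN 10 (10 * M) (r + 2 * k + 2) g x)
    (fun v => by
      have ht : τ (v, true) ∈ T v := hτ1 (v, true)
      refine ⟨τ (v, true), (Nat.lt_add_of_pos_right (by norm_num)).trans_le (hT2 v _ ht),
        fun b => ?_, hT4 v _ ht⟩
      have h1 := hτ2 (v, true) true
      have h2 := Str.cov_aut.pat (Str.cov_aut.y0 hJι hωι) h1
      rcases lift_UNet (Str.cov_pow (S := S) (sg := sg) (hs := hs) (τ (v, true)) (v, true)) b with
        e | e
      · exact e ▸ h1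
      · exact e ▸ h2)
    (S.TN 10 10 (2 * r + 2)) (fun _ _ => Str.TN.symm) fun _ _ => Str.card_TN
  have hK := Str.hinj_tube hGc (by omega) (Str.cov_far (sg := sg) (hs := hs) hG (by omega) hG')
  have key : ∀ g ∈ G ×ˢ (univ : Finset Bool), ∀ i < 10,
      ∀ v ∈ (S.cov sg hs).tube (J ×ˢ univ) (10 * M), ∀ ρ,
      (S.cov sg hs).Near ρ (((S.cov sg hs).π ^ i) g) v → r + 2 * k + 2 < ρ :=
    fun g hg i hi v hv ρ h => by
      obtain ⟨x, hx, j, hj, rfl⟩ := (S.cov sg hs).mem_tube.1 hv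
      exact not_le.1 fun hρ => (hA' g.1 (mem_product.1 hg).1).2 x.1 (mem_product.1 hx).1
        (Str.cov_TN ⟨i, hi, j, hj, h.mono hρ⟩)
  refine ⟨y, F, G ×ˢ univ, (S.cov sg hs).seg (G ×ˢ univ), ⟨hc, hH.mono hF le_rfl, fun g hg => ?_,
    hK.1, hK.2, fun a ha g hg => ⟨fun h => ?_, fun w hw h => ?_⟩, (Str.cov_mark hm').part⟩,
    hyι, hFι, flip_mem_UNet G⟩
  · have hp := (hA' g.1 (mem_product.1 hg).1).1 g.2
    have h0 := hy g fun h =>
      absurd (key g hg 0 (by norm_num) g h 0 (Str.Near.refl 0 g)) (Nat.not_lt_zero _)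
    have h1 : ∀ i < 10, ∀ x, (S.cov sg hs).Good k
        ((S.cov sg hs).y0 (J ×ˢ univ) fun x => xor (ω x.1) x.2) (((S.cov sg hs).π ^ i) g) x →
        (S.cov sg hs).Good k y (((S.cov sg hs).π ^ i) g) x :=
      fun i hi x h w h2 h3 h4 => by
        rw [hy _ fun h5 => absurd (key g hg i hi _ h5 _ (Str.near_tip _ w)) (by omega)]
        exact h w h2 h3 h4
    rw [Str.Pat, h0]
    refine ⟨fun i hi => h1 i ?_ _ (hp.1 i hi), fun i hi => h1 i ?_ _ (hp.2 i hi)⟩
    all_goals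
      simp only [mem_insert, mem_singleton] at hi
      omega
  · obtain ⟨i, hi, h1⟩ := Str.near_Om h
    exact absurd (key g hg i hi a (hF ha) _ h1) (by omega)
  · obtain ⟨i, hi, h1⟩ := Str.near_Om h
    exact absurd (key g hg i hi a (hF ha) _ (h1.trans (Str.near_tip a w).symm)) (by omega)

end Pool.Agent.MP_9a3194_co
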