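import Pool.Agent.MP_9a3194_co.USign
import Pool.Agent.MP_9a3194_co.UNet
import Pool.Agent.MP_9a3194_co.UFlip
import Pool.Agent.MP_9a3194_co.Bal

open Finset
open scoped symmDiff

namespace Pool.Agent.MP_9a3194_co

private theorem anti_UBal {V : Type} {y : V × Bool → Bool} (hy : ∀ x, y (flipB x) = !y x)
    (x : V × Bool) : y x = xor (y (x.1, false)) x.2 := by
  obtain ⟨v, b⟩ := x
  cases b
  · simp
  · simpa [flipB] using hy (v, false)

private theorem card_UBal {V : Type} [Fintype V] {y y' : V × Bool → Bool}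
    (hy : ∀ x, y (flipB x) = !y x) (hy' : ∀ x, y' (flipB x) = !y' x) :
    (univ.filter fun x => y' x ≠ y x).card =
      2 * (univ.filter fun v => y' (v, false) ≠ y (v, false)).card := by
  have : (univ.filter fun x => y' x ≠ y x) =
      (univ.filter fun v => y' (v, false) ≠ y (v, false)) ×ˢ univ := by
    ext x
    rw [mem_filter, anti_UBal hy x, anti_UBal hy' x]
    simp
  rw [this, card_product, card_univ, Fintype.card_bool, mul_comm]

private theorem q_UBal {V : Type} [DecidableEq V] {S : Str V} {ι : V → V} (h : S.Aut ι)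
    {y : V → Bool} (hy : ∀ x, y (ι x) = !y x) {F : Finset V} (hF : ∀ x, ι x ∈ F ↔ x ∈ F)
    (k R : ℕ) (v : V) :
    (∑ a ∈ F, ∑ w ∈ Wd R, if S.tip a w = ι v then sgn (y a) / 2 * amt k w else 0) =
      -∑ a ∈ F, ∑ w ∈ Wd R, if S.tip a w = v then sgn (y a) / 2 * amt k w else 0 := by
  rw [← sum_neg_distrib]
  refine (sum_nbij' ι ι (fun a ha => (hF a).2 ha) (fun a ha => (hF a).2 ha)
    (fun a _ => h.inv a) (fun a _ => h.inv a) fun a _ => ?_).symm
  rw [← sum_neg_distrib]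
  refine sum_congr rfl fun w _ => ?_
  simp only [h.tip, h.inj.eq_iff, hy, sgn_not]
  split_ifs
  · ring
  · exact neg_zero

/-- almost half balanced equivariant colourings with the right parity -/
theorem bal2 {δ : ℝ} (hδ : 0 < δ) : ∃ c : ℕ, ∀ {V : Type} [Fintype V] [DecidableEq V] (S : Str V)
    (sg : Dt V → Bool) (hs : ∀ d, sg (S.rv d) = sg d), (∀ v, S.μ v ≠ v) → c ≤ Fintype.card V →
    (S.cov sg hs).Iso c → ∃ Y : V → Bool,
      4 ∣ (univ.filter fun d => S.typ sg Y d = false).card ∧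
      ∀ X : Finset (V × Bool),
        ∑ x ∈ X, sgn (xor (Y x.1) x.2) ≤ (1 / 4 + δ) * (S.cov sg hs).b X := by
  obtain ⟨k, hk⟩ : ∃ k : ℕ, (1 : ℝ) / 2 ^ (k + 2) ≤ δ / 2 := by
    obtain ⟨n, hn⟩ := exists_pow_lt_of_lt_one hδ (by norm_num : (1 / 2 : ℝ) < 1)
    refine ⟨n, ?_⟩
    rw [one_div_pow] at hn
    have e : (1 : ℝ) / 2 ^ (n + 2) = 1 / 2 ^ n / 4 := by
      rw [pow_add]
      field_simp
      norm_num
    rw [e]
    linarith
  have hK : (1 : ℝ) ≤ 20 * 2 ^ k := by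
    have : (1 : ℝ) ≤ 2 ^ k := one_le_pow₀ (by norm_num)
    linarith
  obtain ⟨ω₀, l₀, A, hA, hsign⟩ := sign2 (half_pos hδ) hK
  obtain ⟨r, hr, hrω⟩ : ∃ r : ℕ, 2 * k ≤ r ∧ ω₀ ≤ 20 * 2 ^ r := by
    refine ⟨2 * k + ω₀, by omega, ?_⟩
    have := Nat.lt_two_pow_self (n := 2 * k + ω₀)
    omega
  obtain ⟨R, l, c₀, -, hl, hAl, hcfg⟩ := cfg2 k r l₀ (2 ^ k * A)
  refine ⟨2 * c₀ + 20 * 2 ^ r + 2 + ⌈A * (l : ℝ) ^ 2⌉₊ + 1, ?_⟩
  intro V _ _ S₀ sg hsg hμ hV hI
  have hG : S₀.Gir c₀ := (Str.cov_iso1 (hI.mono (by omega))).gir hμ (by omega)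
  obtain ⟨y, F, G, cell, h, hyι, hFι, hGι⟩ := hcfg S₀ sg hsg hG
  have hι : (S₀.cov sg hsg).Aut flipB := Str.cov_aut
  obtain ⟨par, hpar⟩ := Str.typ_even hμ hsg fun v => y (v, false)
  generalize S₀.cov sg hsg = S at hI h hι ⊢
  have hs : ∀ (y : V × Bool → Bool) (a : V × Bool), |sgn (y a) / 2| ≤ 1 := fun y a => by
    rw [abs_div, abs_sgn]
    norm_num
  obtain ⟨f₁, hf₁, hd₁, he₁⟩ := Str.push k h.injF fun a => sgn (y a) / 2
  obtain ⟨q, hq⟩ : ∃ q : V × Bool → ℝ, q = fun v => ∑ a ∈ F, ∑ w ∈ Wd R,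
    if S.tip a w = v then sgn (y a) / 2 * amt k w else 0 := ⟨_, rfl⟩
  have hqp : ∀ v, |q v| ≤ 2 ^ k / 2 ^ R := fun v => by
    rw [hq]
    exact Str.leaf_le k h.injF _ (hs y) v
  obtain ⟨z, hz, hzι, hz0, hzX⟩ := hsign S _ (20 * 2 ^ r) l G (S.Om r) cell q (2 ^ k / 2 ^ R)
    flipB par hrω hl (by omega) (by
      have := Nat.le_ceil (A * (l : ℝ) ^ 2)
      have h2 : (0 : ℝ) ≤ ((2 * c₀ + 20 * 2 ^ r + 2 : ℕ) : ℝ) := Nat.cast_nonneg _
      rw [Nat.cast_add, Nat.cast_add _ ⌈A * (l : ℝ) ^ 2⌉₊, Nat.cast_one]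
      linarith) (hV.trans (by rw [Fintype.card_prod, Fintype.card_bool]; omega)) hI h.part
      (Str.om_trees h.injK h.injP) hqp (by
      rw [div_mul_eq_mul_div, div_mul_eq_mul_div, div_le_one (by positivity)]
      exact hAl) hι hGι (fun g _ => hι.Om r g) fun v => by
      rw [hq]
      exact q_UBal hι hyι hFι k R v
  obtain ⟨y', Fc, src, hc, hdj, hFc, hy, hsrc, hφ, hy'ι, hZ⟩ := Str.flip2 h hr z hz hι hyι hzι
  obtain ⟨f₂, hf₂, hd₂, he₂⟩ := Str.push k (h.injK.mono hFc le_rfl) fun a => sgn (y' a) / 2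
  obtain ⟨f, hf⟩ : ∃ f : Dt (V × Bool) → ℝ, f = fun d => S.base y' d + f₁ d + f₂ d := ⟨_, rfl⟩
  have hfa : S.Anti f := fun d => by
    simp only [hf]
    rw [S.base_anti y' d, hf₁ d, hf₂ d]
    ring
  have hfb : ∀ d, |f d| ≤ 1 / 2 + 2 / 2 ^ (k + 2) := fun d => by
    simp only [hf]
    exact bound_Bal h hc hFc hy (he₁ d) (he₂ d)
  have hpt : ∀ v, sgn (y' v) = dv f v + q v + ∑ a ∈ Fc, ∑ w ∈ Wd r,
      if S.tip a w = v then sgn (y' a) / 2 * amt k w else 0 := fun v => by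
    have e : dv f v = dv (S.base y') v + dv f₁ v + dv f₂ v := by
      simp only [hf, dv, sum_add_distrib]
    have e1 := hc.dv_base v
    have e2 : (if v ∈ F ∪ Fc then sgn (y' v) / 2 else 0) =
        (if v ∈ F then sgn (y v) / 2 else 0) + if v ∈ Fc then sgn (y' v) / 2 else 0 := by
      by_cases h1 : v ∈ F
      · rw [if_pos (mem_union_left _ h1), if_pos h1, if_neg (disjoint_left.1 hdj h1), hy v h1,
          add_zero]
      · by_cases h2 : v ∈ Fc
        · rw [if_pos (mem_union_right _ h2), if_neg h1, if_pos h2, zero_add]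
        · rw [if_neg (fun h3 => (mem_union.1 h3).elim h1 h2), if_neg h1, if_neg h2, add_zero]
    rw [e, hd₁ v, hd₂ v]
    simp only [hq]
    linarith
  have hX : ∀ X : Finset (V × Bool), ∑ v ∈ X, sgn (y' v) = ∑ v ∈ X, dv f v +
      (∑ v ∈ X, q v + 2 * ∑ g, (z g : ℝ) * ((∑ a ∈ src g, S.nu k r a X) / 4)) := fun X => by
    rw [sum_congr rfl fun v _ => hpt v, sum_add_distrib, sum_add_distrib,
      Str.leaf_sum k r Fc (fun a => sgn (y' a) / 2) X, hφ fun a => S.nu k r a X, add_assoc]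
  refine ⟨fun v => y' (v, false), ?_, fun X => ?_⟩
  · have e := Str.typ_parity hμ hsg (fun v => y (v, false)) fun v => y' (v, false)
    rw [card_UBal hyι hy'ι] at hZ
    omega
  · have e1 := (le_abs_self _).trans (S.abs_sum_dv_le hfa hfb X)
    have e2 := hzX X (fun g => (∑ a ∈ src g, S.nu k r a X) / 4) fun g hg =>
      avg_Bal (hsrc g hg).1 fun a ha => Str.nu_bounds h.injK k hg ((hsrc g hg).2 ha) X
    have hb : (0 : ℝ) ≤ S.b X := Nat.cast_nonneg _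
    have e3 := mul_le_mul_of_nonneg_right hk hb
    have e4 : (1 / 2 + 2 / 2 ^ (k + 2) : ℝ) / 2 * S.b X =
        1 / 4 * S.b X + 1 / 2 ^ (k + 2) * S.b X := by ring
    rw [← sum_congr rfl fun x _ => congrArg sgn (anti_UBal hy'ι x), hX X]
    linarith

end Pool.Agent.MP_9a3194_co
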