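import Pool.Agent.MP_9a3194_co.UCoreS
import Pool.Agent.MP_9a3194_co.GPet
import Pool.Agent.MP_9a3194_co.GStr

open Finset
open scoped symmDiff

namespace Pool.Agent.MP_9a3194_co

private theorem single_UCore {V : Type} [Fintype V] [DecidableEq V] (G : SimpleGraph V)
    [DecidableRel G.Adj] (hG : G.IsRegularOfDegree 3) {X : Finset V} (hX : X.card = 1) :
    3 ≤ (G.interedges X Xᶜ).card := by
  obtain ⟨v, rfl⟩ := card_eq_one.1 hX
  rw [← hG.degree_eq v, ← G.card_neighborFinset_eq_degree]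
  refine card_le_card_of_injOn (fun w => (v, w)) (fun w hw => ?_) fun w _ w' _ h =>
    (Prod.ext_iff.1 h).2
  have h : G.Adj v w := (G.mem_neighborFinset _ _).1 hw
  exact G.mem_interedges_iff.2 ⟨mem_singleton_self v, mem_compl.2 fun e =>
    h.ne' (mem_singleton.1 e), h⟩

private theorem comm_UCore {V : Type} [Fintype V] [DecidableEq V] (G : SimpleGraph V)
    [DecidableRel G.Adj] (X Y : Finset V) : (G.interedges X Y).card ≤ (G.interedges Y X).card := by
  refine card_le_card_of_injOn Prod.swap (fun z hz => ?_) Prod.swap_injective.injOn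
  obtain ⟨h1, h2, h3⟩ := G.mem_interedges_iff.1 hz
  exact G.mem_interedges_iff.2 ⟨h2, h1, h3.symm⟩

private theorem three_UCore {V : Type} [Fintype V] [DecidableEq V] (G : SimpleGraph V)
    [DecidableRel G.Adj] (sg : V → V → Bool) (hG : G.IsRegularOfDegree 3) {c : ℕ} (hc : 6 ≤ c)
    (hI : ∀ X : Finset (V × Bool), X.Nonempty → Xᶜ.Nonempty → min c (min X.card Xᶜ.card + 2) ≤
      ((X ×ˢ univ).filter fun z : (V × Bool) × V =>
        G.Adj z.1.1 z.2 ∧ (z.2, xor z.1.2 (sg z.1.1 z.2)) ∉ X).card)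
    (X : Finset V) (h1 : X.Nonempty) (h2 : Xᶜ.Nonempty) : 3 ≤ (G.interedges X Xᶜ).card := by
  by_cases a1 : X.card = 1
  · exact single_UCore G hG a1
  by_cases a2 : Xᶜ.card = 1
  · have h := (single_UCore G hG a2).trans (comm_UCore G _ _)
    rwa [compl_compl] at h
  have e : (X ×ˢ (univ : Finset Bool))ᶜ = Xᶜ ×ˢ univ := by
    ext z
    simp
  have h3 := hI (X ×ˢ univ) (h1.product univ_nonempty) (e ▸ h2.product univ_nonempty)
  have h4 : (((X ×ˢ (univ : Finset Bool)) ×ˢ univ).filter fun z : (V × Bool) × V =>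
      G.Adj z.1.1 z.2 ∧ (z.2, xor z.1.2 (sg z.1.1 z.2)) ∉ X ×ˢ (univ : Finset Bool)).card ≤
      (G.interedges X Xᶜ ×ˢ (univ : Finset Bool)).card := by
    refine card_le_card_of_injOn (fun z => ((z.1.1, z.2), z.1.2)) (fun z hz => ?_)
      fun z _ z' _ h => ?_
    · simp only [coe_filter, mem_product, mem_univ, and_true, Set.mem_ofPred_eq] at hz
      exact mem_coe.2 (mem_product.2
        ⟨G.mem_interedges_iff.2 ⟨hz.1, mem_compl.2 hz.2.2, hz.2.1⟩, mem_univ _⟩)
    · simp only [Prod.ext_iff] at h ⊢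
      exact ⟨⟨h.1.1, h.2⟩, h.1.2⟩
  rw [e] at h3
  simp only [card_product, card_univ, Fintype.card_bool] at h3 h4
  have h5 := h1.card_pos
  have h6 := h2.card_pos
  omega

/-- flows on signed cubic graphs whose double cover has the tree-like isoperimetric inequality -/
theorem core2 (p q : ℕ) (hq : 0 < q) (hp : 4 * q < p) : ∃ c : ℕ, ∀ (V : Type) [Fintype V]
    [DecidableEq V] (G : SimpleGraph V) [DecidableRel G.Adj] (sg : V → V → Bool),
    G.IsRegularOfDegree 3 → (∀ u v, sg u v = sg v u) → c ≤ Fintype.card V →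
    (∀ X : Finset (V × Bool), X.Nonempty → Xᶜ.Nonempty → min c (min X.card Xᶜ.card + 2) ≤
      ((X ×ˢ univ).filter fun z : (V × Bool) × V =>
        G.Adj z.1.1 z.2 ∧ (z.2, xor z.1.2 (sg z.1.1 z.2)) ∉ X).card) →
    ∃ f : V → V → ℤ, (∀ u v, G.Adj u v → f v u = if sg u v then f u v else -f u v) ∧
      (∀ u v, G.Adj u v → (q : ℤ) ≤ |f u v| ∧ |f u v| ≤ p - q) ∧
      ∀ u, ∑ v ∈ G.neighborFinset u, f u v = 0 := by
  obtain ⟨c₀, hc₀⟩ := coreS p q hq hp
  refine ⟨max c₀ 6, fun V _ _ G _ sg hG hsg hV hI => ?_⟩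
  obtain ⟨μ, hμ, ha⟩ := petersen G hG (three_UCore G sg hG (le_max_right _ _) hI)
  obtain ⟨S, hi, hs⟩ := exists_str G hG μ hμ ha
  have hr : ∀ d : Dt V, sg (S.rv d).1 (S.hd (S.rv d)) = sg d.1 (S.hd d) := fun d => by
    rw [S.hd_rv, S.rv_fst, hsg]
  have hS : (S.cov (fun d => sg d.1 (S.hd d)) hr).Iso (max c₀ 6) := fun X h1 h2 => by
    rw [Str.b_eq]
    refine Nat.mul_le_mul_left 2 ((hI X h1 h2).trans
      (card_le_card_of_surjOn (fun d => (d.1, S.step d.1.1 d.2)) fun z hz => ?_))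
    simp only [coe_filter, mem_product, mem_univ, and_true, Set.mem_ofPred_eq] at hz
    obtain ⟨i, e⟩ := (hs _ _).1 hz.2.1
    refine ⟨(z.1, i), mem_coe.2 ((Str.mem_out _).2 ⟨hz.1, ?_⟩), Prod.ext rfl e⟩
    rw [Str.hd, Str.cov_step]
    change (S.step z.1.1 i, xor z.1.2 (sg z.1.1 (S.step z.1.1 i))) ∉ X
    rw [e]
    exact hz.2.2
  obtain ⟨f, f1, f2, f3⟩ := hc₀ S _ hr hi (fun u i => ((hs _ _).2 ⟨i, rfl⟩).ne')
    ((le_max_left _ _).trans hV) (hS.mono (le_max_left _ _))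
  obtain ⟨g, hg⟩ : ∃ g : V → V → ℤ, ∀ u i, g u (S.step u i) = f (u, i) := by
    refine ⟨fun u v => ∑ i, if S.step u i = v then f (u, i) else 0, fun u i => ?_⟩
    simp only [(hi u).eq_iff, sum_ite_eq', mem_univ, if_true]
  refine ⟨g, fun u v h => ?_, fun u v h => ?_, fun u => ?_⟩
  · obtain ⟨i, rfl⟩ := (hs u v).1 h
    have h4 := hg (S.step u i) (rd i)
    rw [S.step_step] at h4
    rw [h4, hg]
    exact f1 (u, i)
  · obtain ⟨i, rfl⟩ := (hs u v).1 h
    rw [hg]
    exact f2 _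
  · have e : G.neighborFinset u = univ.image (S.step u) := by
      ext v
      simp [hs]
    rw [e, sum_image fun i _ j _ e => hi u e]
    simp only [hg]
    exact f3 u

end Pool.Agent.MP_9a3194_co
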