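import Pool.Agent.MP_9a3194_co.UAux
import Pool.Agent.MP_9a3194_co.Ball
import Pool.Agent.MP_9a3194_co.Seg

open Finset
open scoped symmDiff

namespace Pool.Agent.MP_9a3194_co

namespace Str

variable {V : Type} {S : Str V} {sg : Dt V → Bool} {hs : ∀ d, sg (S.rv d) = sg d}

theorem cov_step (x : V × Bool) (i : Fin 3) :
    (S.cov sg hs).step x i = (S.step x.1 i, xor x.2 (sg (x.1, i))) := by
  fin_cases i <;> rfl

private theorem act_UCov (x : V × Bool) (u : List (Fin 3)) :
    ((S.cov sg hs).act x u).1 = S.act x.1 u := by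
  induction u generalizing x with
  | nil => rfl
  | cons d u ih => rw [act, act, ih, cov_step]

private theorem del_UCov {W : Type} (T : Str W) (v : W) (l l' : List (Fin 3)) (a : Fin 3) :
    T.act v (l ++ a :: rd a :: l') = T.act v (l ++ l') := by
  rw [act_append, act_append, act, act, step_step]

private theorem rd_fix_UCov : ∀ i : Fin 3, rd i = i → i = 0 := by decide

private theorem rv_ne_UCov (hμ : ∀ v, S.μ v ≠ v) (d : Dt V) : S.rv d ≠ d := fun h => by
  have h1 : S.step d.1 d.2 = d.1 := congrArg Prod.fst h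
  rw [rd_fix_UCov d.2 (congrArg Prod.snd h)] at h1
  exact hμ _ h1

private theorem even_UCov (hμ : ∀ v, S.μ v ≠ v) (A : Finset (Dt V))
    (hA : ∀ d ∈ A, S.rv d ∈ A) : Even A.card := by
  have h := sum_involution (s := A) (f := fun _ => (1 : ZMod 2)) (fun d _ => S.rv d)
    (fun _ _ => rfl) (fun d _ _ => rv_ne_UCov hμ d) hA fun d _ => S.rv_rv d
  rw [sum_const, nsmul_eq_mul, mul_one] at h
  exact ZMod.natCast_eq_zero_iff_even.1 h

theorem cov_aut : (S.cov sg hs).Aut flipB :=
  ⟨fun v => by simp [flipB], fun v h => by simpa [flipB] using congrArg Prod.snd h,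
    fun v i => by simp [cov_step, flipB]⟩

theorem cov_pow (i : ℕ) (x : V × Bool) : (((S.cov sg hs).π ^ i) x).1 = (S.π ^ i) x.1 := by
  rw [← act_rep_one, act_UCov, act_rep_one]

theorem cov_inv_pow (i : ℕ) (x : V × Bool) :
    (((S.cov sg hs).π⁻¹ ^ i) x).1 = (S.π⁻¹ ^ i) x.1 := by
  rw [← act_rep_two, act_UCov, act_rep_two]

theorem cov_act (x : V × Bool) (u : List (Fin 3)) :
    ((S.cov sg hs).act x u).1 = S.act x.1 u := act_UCov x u

theorem cov_tip (x : V × Bool) (w : List Bool) : ((S.cov sg hs).tip x w).1 = S.tip x.1 w := by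
  rw [← act_dirs, act_UCov, act_dirs]

theorem cov_idx (J : Finset V) (x : V × Bool) :
    (S.cov sg hs).idx (J ×ˢ univ) x = S.idx J x.1 := by
  simp only [idx, mem_product, mem_univ, and_true, cov_inv_pow]

theorem cov_seg (J : Finset V) (x : V × Bool) :
    ((S.cov sg hs).seg (J ×ˢ univ) x).1 = S.seg J x.1 := by
  rw [seg, seg, cov_inv_pow, cov_idx]

theorem cov_mark {J : Finset V} {lo hi : ℕ} (h : S.Mark J lo hi) :
    (S.cov sg hs).Mark (J ×ˢ univ) lo hi := by
  simp only [Mark, mem_product, mem_univ, and_true, cov_inv_pow, cov_pow]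
  exact ⟨fun x hx => h.1 x.1 hx, fun v => h.2 v.1⟩

theorem cov_gir {c : ℕ} (h : S.Gir c) : (S.cov sg hs).Gir c := fun v w h1 h2 h3 h4 =>
  h v.1 w h1 h2 h3 (by rw [← act_UCov (hs := hs), h4])

theorem cov_TN {κ κ' ρ : ℕ} {x x' : V × Bool} (h : (S.cov sg hs).TN κ κ' ρ x x') :
    S.TN κ κ' ρ x.1 x'.1 := by
  obtain ⟨i, hi, j, hj, w, hw, e⟩ := h
  exact ⟨i, hi, j, hj, w, hw, by rw [← cov_pow (hs := hs), ← cov_pow (hs := hs), ← e, cov_act]⟩

/-- short closed walks lift to closed walks -/
theorem cov_closed {c : ℕ} (h : S.Gir c) (u : List (Fin 3)) (hu : u.length < c) (x : V × Bool)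
    (hx : S.act x.1 u = x.1) : (S.cov sg hs).act x u = x := by
  induction hn : u.length using Nat.strong_induction_on generalizing u with
  | _ n ih =>
    by_cases hr : Red u
    · by_cases h0 : u = []
      · rw [h0]
        rfl
      · exact absurd hx (h _ u hr h0 hu)
    · rw [Red, List.isChain_iff_forall_rel_of_append_cons_cons] at hr
      push Not at hr
      obtain ⟨a, b, l, l', rfl, rfl⟩ := hr
      rw [del_UCov] at hx ⊢
      simp only [List.length_append, List.length_cons] at hu hn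
      refine ih _ ?_ _ ?_ hx rfl <;> rw [List.length_append] <;> omega

theorem cov_far {c κ ρ : ℕ} (h : S.Gir c) (hc : 2 * κ + ρ < c) {J : Finset V}
    (hJ : ∀ x ∈ J, ∀ x' ∈ J, x ≠ x' → ¬ S.TN κ κ ρ x x') :
    ∀ x ∈ J ×ˢ (univ : Finset Bool), ∀ x' ∈ J ×ˢ (univ : Finset Bool), x ≠ x' →
      ¬ (S.cov sg hs).TN κ κ ρ x x' := by
  intro x hx x' hx' hne hT
  by_cases h1 : x.1 = x'.1
  · obtain ⟨i, hi, j, hj, w, hw, e⟩ := hT
    have h2 : (S.cov sg hs).act x (List.replicate i 1 ++ w ++ List.replicate j 2) = x' := by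
      rw [act_append, act_append, act_rep_one, e, act_rep_two, ← Equiv.Perm.mul_apply, inv_pow,
        inv_mul_cancel, Equiv.Perm.one_apply]
    refine hne ((cov_closed h _ ?_ x ?_).symm.trans h2)
    · simp only [List.length_append, List.length_replicate]
      omega
    · rw [← cov_act (hs := hs), h2, h1]
  · exact hJ _ (mem_product.1 hx).1 _ (mem_product.1 hx').1 h1 (cov_TN hT)

variable [Fintype V] [DecidableEq V]

theorem cov_b (X : Finset V) : (S.cov sg hs).b (X ×ˢ univ) = 2 * S.b X := by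
  have h : ((S.cov sg hs).bd (X ×ˢ univ)).card = (S.bd X ×ˢ (univ : Finset Bool)).card :=
    card_nbij' (fun d => ((d.1.1, d.2), d.1.2)) (fun e => ((e.1.1, e.2), e.1.2))
      (fun d h => by
        simpa only [mem_coe, mem_bd, hd, cov_step, mem_product, mem_univ, and_true] using h)
      (fun d h => by
        simpa only [mem_coe, mem_bd, hd, cov_step, mem_product, mem_univ, and_true] using h)
      (fun _ _ => rfl) fun _ _ => rfl
  rw [b, h, card_product, card_univ, Fintype.card_bool, mul_comm, b]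

theorem cov_iso1 {c : ℕ} (h : (S.cov sg hs).Iso (2 * c)) : S.Iso1 c := fun X h1 h2 => by
  have h3 : (X ×ˢ (univ : Finset Bool))ᶜ = Xᶜ ×ˢ univ := by
    ext x
    simp
  have h4 := h (X ×ˢ univ) (h1.product univ_nonempty) (h3 ▸ h2.product univ_nonempty)
  rw [h3, cov_b, card_product, card_product, card_univ, Fintype.card_bool] at h4
  omega

theorem Iso1.mono {c c' : ℕ} (h : S.Iso1 c) (hc : c' ≤ c) : S.Iso1 c' := fun X h1 h2 =>
  (Nat.mul_le_mul_left 2 (min_le_min_right _ hc)).trans (h X h1 h2)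

/-- a small set has a vertex with at most one dart into the set -/
private theorem leaf_UCov {c : ℕ} (h : S.Iso1 c) {X : Finset V} (h0 : X.Nonempty)
    (hX : X.card < c) (hX' : X.card ≤ Xᶜ.card) :
    ∃ v ∈ X, ∀ i j, S.step v i ∈ X → S.step v j ∈ X → i = j := by
  by_contra hc
  push Not at hc
  have h1 := h X h0 (card_pos.1 (h0.card_pos.trans_le hX'))
  rw [b_eq] at h1
  have h2 : (S.out X).card ≤ X.card := by
    refine card_le_card_of_injOn Prod.fst (fun d hd => (S.mem_out.1 hd).1) fun d hd e he h3 => ?_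
    obtain ⟨i, j, hi, hj, hij⟩ := hc d.1 (S.mem_out.1 hd).1
    have h4 : ∀ i, S.step d.1 i ∈ X → d.2 ≠ i ∧ e.2 ≠ i := fun i hi =>
      ⟨fun h5 => (S.mem_out.1 hd).2 (by rwa [Str.hd, h5]),
        fun h5 => (S.mem_out.1 he).2 (by rwa [Str.hd, h5, ← h3])⟩
    have h5 := h4 i hi
    have h6 := h4 j hj
    exact Prod.ext h3 (by omega)
  omega

omit [Fintype V] [DecidableEq V] in
private theorem take_UCov (v : V) (w : List (Fin 3)) (i : ℕ) (hi : i < w.length) :
    S.act v (w.take (i + 1)) = S.step (S.act v (w.take i)) w[i] := by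
  rw [List.take_succ_eq_append_getElem hi, act_append]
  rfl

private theorem cyc_UCov {c : ℕ} (h : S.Iso1 c) (hV : 2 * c ≤ Fintype.card V) {v : V}
    {w : List (Fin 3)} (hr : Red w) (hL : 0 < w.length) (hl : w.length < c) (hc : S.act v w = v) :
    w[0] = rd w[w.length - 1] := by
  by_contra hB
  set X : Finset V := (range w.length).image fun i => S.act v (w.take i) with hX
  have hmem : ∀ i ≤ w.length, S.act v (w.take i) ∈ X := by
    intro i hi
    rcases hi.eq_or_lt with rfl | hi
    · rw [List.take_length, hc]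
      exact mem_image.2 ⟨0, mem_range.2 hL, rfl⟩
    · exact mem_image.2 ⟨i, mem_range.2 hi, rfl⟩
  have hcard : X.card ≤ w.length := card_image_le.trans_eq (card_range _)
  have hco : Xᶜ.card = Fintype.card V - X.card := card_compl X
  obtain ⟨u, hu, h1⟩ := leaf_UCov h ⟨v, hmem 0 (Nat.zero_le _)⟩ (by omega) (by omega)
  obtain ⟨i, hi, rfl⟩ := mem_image.1 hu
  have hi' := mem_range.1 hi
  have h2 : S.step (S.act v (w.take i)) w[i] ∈ X := by
    rw [← take_UCov]
    exact hmem _ hi'
  have h3 : ∀ j (hj : j < w.length), S.step (S.act v (w.take (j + 1))) (rd w[j]) ∈ X := by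
    intro j hj
    rw [take_UCov v w j hj, step_step]
    exact hmem _ hj.le
  cases i with
  | zero =>
    have h4 := h3 (w.length - 1) (by omega)
    rw [List.take_of_length_le (by omega), hc] at h4
    exact hB (h1 _ _ h2 h4)
  | succ i => exact List.isChain_iff_getElem.1 hr i hi' (h1 _ _ h2 (h3 i (by omega)))

theorem Iso1.gir {c : ℕ} (h : S.Iso1 c) (hμ : ∀ v, S.μ v ≠ v) (hV : 2 * c ≤ Fintype.card V) :
    S.Gir c := by
  intro v w hr hne hl hc
  induction hn : w.length using Nat.strong_induction_on generalizing v w with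
  | _ n ih =>
    have h1 := cyc_UCov h hV hr (List.length_pos_iff.2 hne) hl hc
    obtain ⟨d, t, rfl⟩ := List.exists_cons_of_ne_nil hne
    rcases t.eq_nil_or_concat' with rfl | ⟨w', e, rfl⟩
    · obtain rfl := rd_fix_UCov d h1.symm
      exact hμ v hc
    · obtain rfl : d = rd e := by simpa using h1
      rw [act, act_append] at hc
      simp only [List.length_append, List.length_cons] at hl hn
      refine ih _ (by omega) (S.step v (rd e)) w' (List.isChain_append.1 hr.tail).1 ?_ (by omega)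
        ?_ rfl
      · rintro rfl
        exact (List.isChain_cons_cons.1 hr).1 (rd_rd e).symm
      · rw [← S.step_step (S.act _ w') e]
        exact congrArg (fun u => S.step u (rd e)) hc

/-- every signature is balanced on a small set -/
theorem Iso1.two_col {c : ℕ} (h : S.Iso1 c) (hμ : ∀ v, S.μ v ≠ v) (t : Dt V → Bool)
    (ht : ∀ d, t (S.rv d) = t d) (X : Finset V) (hX : X.card < c) (hX' : X.card ≤ Xᶜ.card) :
    ∃ χ : V → Bool, ∀ d : Dt V, d.1 ∈ X → S.hd d ∈ X → χ (S.hd d) = xor (χ d.1) (t d) := by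
  induction hn : X.card generalizing X with
  | zero =>
    rw [card_eq_zero.1 hn]
    exact ⟨fun _ => true, fun d hd => absurd hd (notMem_empty _)⟩
  | succ n ih =>
    obtain ⟨v, hv, h1⟩ := leaf_UCov h (card_pos.1 (by omega)) hX hX'
    have h2 := card_erase_of_mem hv
    have h3 := card_compl X
    have h4 := card_compl (X.erase v)
    obtain ⟨χ, hχ⟩ := ih (X.erase v) (by omega) (by omega) (by omega)
    have h5 : ∀ i, S.step v i ≠ v := fun i e => by
      have h6 := S.step_step v i
      rw [e] at h6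
      rw [rd_fix_UCov i (h1 _ _ (h6.symm ▸ hv) (e.symm ▸ hv))] at e
      exact hμ v e
    obtain ⟨β, hβ⟩ : ∃ β : Bool, ∀ i, S.step v i ∈ X → β = xor (χ (S.step v i)) (t (v, i)) := by
      by_cases h6 : ∃ i, S.step v i ∈ X
      · obtain ⟨i, hi⟩ := h6
        exact ⟨_, fun j hj => by rw [h1 j i hj hi]⟩
      · exact ⟨true, fun i hi => absurd ⟨i, hi⟩ h6⟩
    refine ⟨Function.update χ v β, fun d hd hd' => ?_⟩
    by_cases e : d.1 = v
    · obtain ⟨u, i⟩ := d
      obtain rfl : u = v := e
      rw [Str.hd, Function.update_of_ne (h5 i), Function.update_self, hβ i hd']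
      simp
    · by_cases e' : S.hd d = v
      · have h6 : S.step v (rd d.2) = d.1 := e' ▸ S.hd_rv d
        rw [e', Function.update_self, Function.update_of_ne e, hβ (rd d.2) (h6 ▸ hd), h6, ← e']
        exact congrArg _ (ht d)
      · rw [Function.update_of_ne e, Function.update_of_ne e']
        exact hχ d (mem_erase.2 ⟨e, hd⟩) (mem_erase.2 ⟨e', hd'⟩)

theorem typ_rv (hs : ∀ d, sg (S.rv d) = sg d) (Y : V → Bool) (d : Dt V) :
    S.typ sg Y (S.rv d) = S.typ sg Y d := by
  rw [typ, typ, hd_rv, rv_fst, hs, Bool.xor_comm (Y d.1)]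

theorem typ_even (hμ : ∀ v, S.μ v ≠ v) (hs : ∀ d, sg (S.rv d) = sg d) (Y : V → Bool) :
    Even (univ.filter fun d => S.typ sg Y d = false).card :=
  even_UCov hμ _ fun d h => by
    rw [mem_filter] at h ⊢
    exact ⟨mem_univ _, (typ_rv hs Y d).trans h.2⟩

theorem typ_parity (hμ : ∀ v, S.μ v ≠ v) (hs : ∀ d, sg (S.rv d) = sg d) (Y Y' : V → Bool) :
    (4 : ℤ) ∣ ((univ.filter fun d => S.typ sg Y' d = false).card : ℤ) -
      (univ.filter fun d => S.typ sg Y d = false).card -
      2 * (univ.filter fun v => Y' v ≠ Y v).card := by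
  set Φ := univ.filter fun v => Y' v ≠ Y v with hΦ
  set A := univ.filter fun d => S.typ sg Y d = false with hA
  have h1 : (univ.filter fun d => S.typ sg Y' d = false) = A \ S.bd Φ ∪ S.bd Φ \ A := by
    ext d
    simp only [hA, hΦ, typ, mem_filter, mem_univ, true_and, mem_union, mem_sdiff, mem_bd]
    generalize Y d.1 = a, Y (S.hd d) = a', Y' d.1 = e, Y' (S.hd d) = e', sg d = s
    revert a a' e e' s
    decide
  have h2 := card_sdiff_add_card_inter A (S.bd Φ)
  have h3 := card_sdiff_add_card_inter (S.bd Φ) A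
  obtain ⟨m, hm⟩ := even_UCov hμ (A ∩ S.bd Φ) fun d h => by
    rw [mem_inter, hA, mem_filter] at h ⊢
    exact ⟨⟨mem_univ _, (typ_rv hs Y d).trans h.1.2⟩, S.rv_mem_bd.2 h.2⟩
  obtain ⟨n, hn⟩ := even_UCov hμ ((Φ ×ˢ univ).filter fun d => S.hd d ∈ Φ) fun d h => by
    simp only [mem_filter (s := Φ ×ˢ univ), mem_product, mem_univ, and_true, hd_rv, rv_fst]
      at h ⊢
    exact h.symm
  have h4 := card_filter_add_card_filter_not (s := Φ ×ˢ (univ : Finset (Fin 3)))
    fun d => S.hd d ∈ Φ
  have h5 : ((Φ ×ˢ univ).filter fun d => ¬ S.hd d ∈ Φ) = S.out Φ := by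
    ext d
    simp only [mem_filter (s := Φ ×ˢ univ), mem_product, mem_univ, and_true, mem_out]
  have h6 : (S.bd Φ).card = 2 * (S.out Φ).card := S.b_eq Φ
  rw [h5, card_product, card_univ, Fintype.card_fin, hn] at h4
  rw [inter_comm] at h3
  rw [h1, card_union_of_disjoint disjoint_sdiff_sdiff]
  omega

end Str

end Pool.Agent.MP_9a3194_co
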