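import Pool.Agent.MP_9a3194_co.UBm
import Pool.Agent.MP_9a3194_co.UCov

open Finset
open scoped symmDiff

namespace Pool.Agent.MP_9a3194_co

variable {V : Type} [Fintype V] [DecidableEq V] (S : Str V)

section abs

variable {D W : Type} [Fintype D] [Fintype W] [DecidableEq W]

private theorem ori_URound (r : D → D) (h1 : ∀ d, r (r d) = d) (h2 : ∀ d, r d ≠ d) :
    ∃ o : D → Bool, ∀ d, o (r d) = !o d := by
  refine ⟨fun d => decide (Fintype.equivFin D d < Fintype.equivFin D (r d)), fun d => ?_⟩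
  have := (Fintype.equivFin D).injective.ne (h2 d)
  simp only
  rw [h1, ← decide_not, decide_eq_decide, not_lt]
  exact ⟨le_of_lt, fun h => lt_of_le_of_ne h this⟩

private theorem half_URound (r : D → D) (h1 : ∀ d, r (r d) = d) (o : D → Bool)
    (ho : ∀ d, o (r d) = !o d) (t : D → Bool) (ht : ∀ d, t (r d) = t d) :
    (univ.filter fun d => t d = false).card =
      2 * (univ.filter fun d => t d = false ∧ o d = true).card := by
  rw [← card_filter_add_card_filter_not (s := univ.filter fun d => t d = false)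
    fun d => o d = true, filter_filter, filter_filter, two_mul]
  congr 1
  refine card_bij' (fun d _ => r d) (fun d _ => r d) ?_ ?_ (fun d _ => h1 d) fun d _ => h1 d <;>
    simp [ho, ht]

private theorem sum_pair_URound (p q : D → W) (c : D → ℝ) (A B : Finset W) :
    ∑ u ∈ A, ∑ v ∈ B, ∑ d, (if p d = u ∧ q d = v then c d else 0) =
      ∑ d, if p d ∈ A ∧ q d ∈ B then c d else 0 := by
  simp only [sum_comm (t := (univ : Finset D))]
  refine sum_congr rfl fun d _ => ?_
  simp [ite_and]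

private theorem graph_URound (p q : D → W) (c : D → ℝ) (hc : ∀ d, 0 ≤ c d) (hpq : ∀ d, p d ≠ q d)
    (bb : W → ℕ)
    (hb : ∀ w, ∑ d, ((if p d = w then c d else 0) + if q d = w then c d else 0) = bb w)
    (hK : ∀ K : Finset W, Odd (∑ u ∈ K, bb u) → 1 ≤ crs p q c K) :
    ∃ n : W → W → ℕ, (∀ u v, n u v = n v u) ∧
      (∀ u v, n u v ≠ 0 → ∃ d, (p d = u ∧ q d = v) ∨ (q d = u ∧ p d = v)) ∧
      ∀ u, ∑ v, n u v = bb u := by
  obtain ⟨n, h1, h2, h3⟩ := bmatch bb (fun u v => ∑ d, (if p d = u ∧ q d = v then c d else 0) +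
    ∑ d, if q d = u ∧ p d = v then c d else 0)
    (fun u v => by simp only [and_comm (a := q _ = _)]; exact add_comm _ _)
    (fun u v => add_nonneg (sum_nonneg fun d _ => ite_nonneg (hc d) le_rfl)
      (sum_nonneg fun d _ => ite_nonneg (hc d) le_rfl))
    (fun u => by
      rw [sum_eq_zero fun d _ => if_neg fun h => hpq d (h.1.trans h.2.symm),
        sum_eq_zero fun d _ => if_neg fun h => hpq d (h.2.trans h.1.symm), add_zero])
    (fun u => by
      have e1 := sum_pair_URound p q c {u} univ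
      have e2 := sum_pair_URound q p c {u} univ
      simp only [sum_singleton, mem_singleton, mem_univ, and_true] at e1 e2
      rw [sum_add_distrib, e1, e2, ← sum_add_distrib, hb])
    (fun K h => (hK K h).trans (le_of_eq (by
      simp only [sum_add_distrib]
      rw [sum_pair_URound, sum_pair_URound, ← sum_add_distrib]
      refine sum_congr rfl fun d _ => ?_
      by_cases h1 : p d ∈ K <;> by_cases h2 : q d ∈ K <;> simp [h1, h2])))
  refine ⟨n, h1, fun u v h => ?_, h3⟩
  by_contra h4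
  simp only [not_exists, not_or] at h4
  refine h (h2 u v ?_)
  rw [sum_eq_zero fun d _ => if_neg (h4 d).1, sum_eq_zero fun d _ => if_neg (h4 d).2, add_zero]

omit [Fintype W] in
private theorem par_URound (p q : D → W) (c : D → ℝ) (hc : ∀ d, 0 ≤ c d) (bb : W → ℕ)
    (hb : ∀ w, ∑ d, ((if p d = w then c d else 0) + if q d = w then c d else 0) = bb w)
    (K : Finset W) (hK : Odd (∑ u ∈ K, bb u)) (χ : W → Bool)
    (hχ : ∀ d, p d ∈ K → q d ∈ K → χ (p d) ≠ χ (q d)) : 1 ≤ crs p q c K := by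
  have h1 : Odd (∑ u ∈ K, if χ u then (bb u : ℤ) else -bb u) := by
    have e : ∑ u ∈ K, (if χ u then (bb u : ℤ) else -bb u) =
        ((∑ u ∈ K, bb u : ℕ) : ℤ) - 2 * ∑ u ∈ K, if χ u then 0 else (bb u : ℤ) := by
      rw [Nat.cast_sum, mul_sum, ← sum_sub_distrib]
      refine sum_congr rfl fun u _ => ?_
      split_ifs <;> ring
    rw [e]
    exact (hK.natCast (R := ℤ)).sub_even (even_two_mul _)
  have h2 : (1 : ℝ) ≤ |∑ u ∈ K, sgn (χ u) * bb u| := by
    have h3 := Int.one_le_abs fun h => Int.not_odd_zero (h ▸ h1)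
    have e : ∑ u ∈ K, sgn (χ u) * bb u =
        ((∑ u ∈ K, if χ u then (bb u : ℤ) else -bb u : ℤ) : ℝ) := by
      push_cast
      refine sum_congr rfl fun u _ => ?_
      cases χ u <;> simp [sgn]
    rw [e]
    exact_mod_cast h3
  refine h2.trans ?_
  simp only [← hb, mul_sum]
  rw [sum_comm]
  refine (abs_sum_le_sum_abs _ _).trans (sum_le_sum fun d _ => ?_)
  simp only [mul_add, sum_add_distrib, mul_ite, mul_zero, sum_ite_eq]
  by_cases h1 : p d ∈ K <;> by_cases h2 : q d ∈ K
  · simp [h1, h2, sgn_of_ne (hχ d h1 h2)]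
  all_goals simp [h1, h2, abs_mul, abs_sgn, abs_of_nonneg (hc d)]

end abs

/-- the second end of the edge of a dart in the subdivided graph -/
private def nb_URound (t o : Dt V → Bool) (d : Dt V) : V ⊕ Dt V :=
  if t d then .inl (S.hd d) else .inr (if o d then d else S.rv d)

omit [Fintype V] [DecidableEq V] in
private theorem nb_inl_URound {t o : Dt V → Bool} {d : Dt V} {v : V} :
    nb_URound S t o d = .inl v ↔ t d = true ∧ S.hd d = v := by
  unfold nb_URound
  split_ifs with h <;> simp [h]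

omit [Fintype V] [DecidableEq V] in
private theorem nb_inr_URound {t o : Dt V → Bool} (ht : ∀ d, t (S.rv d) = t d)
    (ho : ∀ d, o (S.rv d) = !o d) {d e : Dt V} :
    nb_URound S t o d = .inr e ↔ (t e = false ∧ o e = true) ∧ (d = e ∨ d = S.rv e) := by
  unfold nb_URound
  constructor
  · intro h
    split_ifs at h with h1 h2 <;> obtain rfl := Sum.inr.inj h
    · simp [h1, h2]
    · simp [h1, h2, ht, ho, S.rv_rv]
  · rintro ⟨⟨h1, h2⟩, rfl | rfl⟩ <;> simp [h1, h2, ht, ho, S.rv_rv]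

omit [Fintype V] [DecidableEq V] in
private theorem nb_rv_URound {t o : Dt V → Bool} (ht : ∀ d, t (S.rv d) = t d)
    (ho : ∀ d, o (S.rv d) = !o d) {d : Dt V} (h : t d = false) :
    ∃ e, (t e = false ∧ o e = true) ∧ (e = d ∨ e = S.rv d) ∧ nb_URound S t o d = .inr e ∧
      nb_URound S t o (S.rv d) = .inr e := by
  cases h1 : o d
  · exact ⟨S.rv d, by simp [ht, ho, h, h1], Or.inr rfl, by simp [nb_URound, h, h1],
      by simp [nb_URound, h, h1, ht, ho]⟩
  · exact ⟨d, ⟨h, h1⟩, Or.inl rfl, by simp [nb_URound, h, h1],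
      by simp [nb_URound, h, h1, ht, ho, S.rv_rv]⟩

omit [DecidableEq V] in
private theorem sum_rv_URound (f : Dt V → ℝ) : ∑ d, f (S.rv d) = ∑ d, f d :=
  (Function.Involutive.bijective S.rv_rv).sum_comp f

private theorem big_URound {t o : Dt V → Bool} (ht : ∀ d, t (S.rv d) = t d)
    (ho : ∀ d, o (S.rv d) = !o d) {m : ℕ} {x : Dt V → ℝ} (hx0 : ∀ d, 0 < x d)
    (hx : ∀ d, 1 ≤ m * x d) (h1 : ∀ d, t d = true → x (S.rv d) = x d) (K : Finset (V ⊕ Dt V)) :
    (S.b (univ.filter fun v => Sum.inl v ∈ K) : ℝ) ≤ m * (2 * crs (fun d : Dt V => Sum.inl d.1)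
      (nb_URound S t o) (fun d => if t d then x d / 2 else x d) K) := by
  rw [two_mul, crs]
  nth_rw 2 [← sum_rv_URound S]
  rw [← sum_add_distrib, mul_sum, Str.b, Str.bd, card_filter]
  push_cast
  refine sum_le_sum fun d _ => ?_
  have h2 := hx d
  have h3 := hx (S.rv d)
  have h4 := hx0 d
  have h5 := hx0 (S.rv d)
  simp only [mem_filter, mem_univ, true_and, S.rv_fst, ht]
  cases h : t d
  · obtain ⟨e, -, -, e1, e2⟩ := nb_rv_URound S ht ho h
    rw [e1, e2]
    by_cases k1 : Sum.inl d.1 ∈ K <;> by_cases k2 : Sum.inl (S.hd d) ∈ K <;>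
      by_cases k3 : Sum.inr e ∈ K <;> simp [k1, k2, k3, h2, h3] <;> positivity
  · rw [(nb_inl_URound S).2 ⟨h, rfl⟩, (nb_inl_URound S).2 ⟨(ht d).trans h, S.hd_rv d⟩, h1 d h]
    by_cases k1 : Sum.inl d.1 ∈ K <;> by_cases k2 : Sum.inl (S.hd d) ∈ K <;> simp [k1, k2, h2]

private theorem col_URound {t o : Dt V → Bool} (ht : ∀ d, t (S.rv d) = t d)
    (ho : ∀ d, o (S.rv d) = !o d) {m : ℕ} (hI : S.Iso1 m) (hμ : ∀ v, S.μ v ≠ v)
    (K : Finset (V ⊕ Dt V)) {X : Finset V} (hX : ∀ v, v ∈ X ↔ Sum.inl v ∈ K) (h1 : X.card < m)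
    (h2 : X.card ≤ Xᶜ.card) : ∃ χ : V ⊕ Dt V → Bool, ∀ d : Dt V, Sum.inl d.1 ∈ K →
      nb_URound S t o d ∈ K → χ (Sum.inl d.1) ≠ χ (nb_URound S t o d) := by
  obtain ⟨χ, h⟩ := hI.two_col hμ t ht X h1 h2
  refine ⟨Sum.elim χ fun e => !χ (if e.1 ∈ X then e.1 else S.hd e), fun d k1 k2 => ?_⟩
  rw [← hX] at k1
  cases k : t d
  · obtain ⟨e, -, rfl | rfl, e1, -⟩ := nb_rv_URound S ht ho k
    · simp [e1, k1]
    · by_cases k3 : S.hd d ∈ X
      · simp [e1, S.rv_fst, k3, h d k1 k3, k]
      · simp [e1, S.rv_fst, k3, S.hd_rv]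
  · rw [(nb_inl_URound S).2 ⟨k, rfl⟩] at k2 ⊢
    simp [h d k1 ((hX _).2 k2), k]

/-- rounding on a signed cubic graph -/
theorem round (hi : ∀ u, Function.Injective (S.step u)) (hl : ∀ u i, S.step u i ≠ u)
    (t : Dt V → Bool) (ht : ∀ d, t (S.rv d) = t d) (a b m : ℕ) (hI : S.Iso1 m)
    (x : Dt V → ℝ) (hx0 : ∀ d, 0 < x d) (hx : ∀ d, 1 ≤ m * x d) (hs : ∀ v, ∑ i, x (v, i) = a)
    (h1 : ∀ d, t d = true → x (S.rv d) = x d) (h2 : ∀ d, t d = false → x d + x (S.rv d) = b)
    (hp : 4 ∣ (univ.filter fun d => t d = false).card) :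
    ∃ n : Dt V → ℕ, (∀ v, ∑ i, n (v, i) = a) ∧ (∀ d, t d = true → n (S.rv d) = n d) ∧
      ∀ d, t d = false → n d + n (S.rv d) = b := by
  rcases isEmpty_or_nonempty V with hV | ⟨⟨v₀⟩⟩
  · exact ⟨0, fun v => isEmptyElim v, fun d => isEmptyElim d.1, fun d => isEmptyElim d.1⟩
  have hm : 0 < m := Nat.pos_of_ne_zero fun h => by
    have := hx (v₀, 0)
    rw [h, Nat.cast_zero, zero_mul] at this
    exact absurd this (by norm_num)
  have hμ : ∀ v, S.μ v ≠ v := fun v => hl v 0
  have hrv : ∀ d, S.rv d ≠ d := fun d h => hl d.1 d.2 (congrArg Prod.fst h)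
  obtain ⟨o, ho⟩ := ori_URound S.rv S.rv_rv hrv
  obtain ⟨o', ho'⟩ := ori_URound S.μ S.μμ hμ
  let bb : V ⊕ Dt V → ℕ := Sum.elim (fun _ => a) fun e => if t e = false ∧ o e = true then b else 0
  have hev : Even (∑ w, bb w) := by
    have e1 := half_URound S.μ S.μμ o' ho' (fun _ => false) fun _ => rfl
    have e2 := half_URound S.rv S.rv_rv o ho t ht
    rw [Fintype.sum_sum_type]
    simp only [bb, Sum.elim_inl, Sum.elim_inr, ← sum_filter, sum_const, smul_eq_mul]
    rw [filter_true_of_mem fun _ _ => rfl] at e1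
    exact Even.add (Even.mul_right ⟨_, e1.trans (two_mul _)⟩ _)
      (Even.mul_right (even_iff_two_dvd.2 (by omega)) _)
  have hc : ∀ d, 0 ≤ if t d then x d / 2 else x d := fun d => by
    have := hx0 d
    positivity
  have hb : ∀ w, ∑ d : Dt V, ((if Sum.inl d.1 = w then (if t d then x d / 2 else x d) else 0) +
      if nb_URound S t o d = w then (if t d then x d / 2 else x d) else 0) = bb w := by
    rintro (v | e)
    · rw [sum_add_distrib]
      nth_rw 2 [← sum_rv_URound S]
      rw [← sum_add_distrib]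
      have e : ∑ d : Dt V, (if d.1 = v then x d else 0) = a := by
        rw [Fintype.sum_prod_type, sum_eq_single v (fun u _ h => by simp [h]) (by simp), ← hs v]
        simp
      refine Eq.trans (sum_congr rfl fun d _ => ?_) e
      simp only [Sum.inl.injEq, nb_inl_URound, ht, S.hd_rv]
      cases k : t d
      · simp
      · rw [h1 d k]
        split_ifs <;> simp_all
    · simp only [reduceCtorEq, if_false, zero_add, nb_inr_URound S ht ho, bb, Sum.elim_inr]
      split_ifs with k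
      · rw [← sum_filter, filter_congr (q := fun d => d ∈ ({e, S.rv e} : Finset _))
          (fun d _ => by simp [k]), filter_mem_eq_inter, univ_inter, sum_pair (hrv e).symm]
        simp [ht, k.1, h2 e k.1]
      · simp [k]
  obtain ⟨n, n1, n2, n3⟩ := graph_URound (fun d : Dt V => Sum.inl d.1) (nb_URound S t o) _ hc
    (fun d h => hl d.1 d.2 ((nb_inl_URound S).1 h.symm).2) bb hb fun K hK => by
      have hbig := big_URound S ht ho hx0 hx h1 K
      set X := univ.filter fun v => Sum.inl v ∈ K with hX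
      by_cases k : 2 * m ≤ S.b X
      · have k1 : (2 * m : ℝ) ≤ S.b X := by exact_mod_cast k
        have k2 : (0 : ℝ) < m := by exact_mod_cast hm
        nlinarith
      have k1 : min X.card Xᶜ.card < m := by
        rcases X.eq_empty_or_nonempty with h | h
        · simp [h, hm]
        rcases Xᶜ.eq_empty_or_nonempty with h' | h'
        · simp [h', hm]
        have := hI X h h'
        omega
      rcases le_total X.card Xᶜ.card with k2 | k2
      · obtain ⟨χ, hχ⟩ := col_URound S ht ho hI hμ K (X := X) (by simp [hX]) (by omega) k2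
        exact par_URound _ _ _ hc bb hb K hK χ hχ
      · obtain ⟨χ, hχ⟩ := col_URound S ht ho hI hμ Kᶜ (X := Xᶜ) (by simp [hX]) (by omega)
          (by rwa [compl_compl])
        refine (par_URound _ _ _ hc bb hb Kᶜ ?_ χ hχ).trans (le_of_eq ?_)
        · rw [← sum_add_sum_compl K] at hev
          exact Nat.not_even_iff_odd.1 fun h =>
            Nat.not_even_iff_odd.2 hK ((Nat.even_add.1 hev).2 h)
        · simp only [crs, mem_compl, not_iff_not]
  refine ⟨fun d => n (.inl d.1) (nb_URound S t o d), fun v => ?_, fun d k => ?_, fun d k => ?_⟩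
  · have inj : Function.Injective fun i => nb_URound S t o (v, i) := by
      intro i j h
      cases k : t (v, j)
      · obtain ⟨e, -, -, e1, -⟩ := nb_rv_URound S ht ho k
        obtain ⟨-, a1⟩ := (nb_inr_URound S ht ho).1 (h.trans e1)
        obtain ⟨-, a2⟩ := (nb_inr_URound S ht ho).1 e1
        rcases a1 with a1 | a1 <;> rcases a2 with a2 | a2
        · exact congrArg Prod.snd (a1.trans a2.symm)
        · exact absurd (congrArg Prod.fst (a1 ▸ a2)).symm (hl v i)
        · exact absurd (congrArg Prod.fst (a2 ▸ a1)).symm (hl v j)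
        · exact congrArg Prod.snd (a1.trans a2.symm)
      · exact hi v ((nb_inl_URound S).1 (h.trans ((nb_inl_URound S).2 ⟨k, rfl⟩))).2
    refine Eq.trans ?_ (n3 (.inl v))
    refine sum_of_injOn (fun i => nb_URound S t o (v, i)) inj.injOn (fun _ _ => mem_univ _)
      (fun w _ hw => ?_) fun _ _ => rfl
    by_contra h
    obtain ⟨d, ⟨k1, k2⟩ | ⟨k1, k2⟩⟩ := n2 _ _ h
    · obtain rfl := Sum.inl.inj k1
      exact hw ⟨d.2, mem_coe.2 (mem_univ _), k2⟩
    · obtain ⟨k3, rfl⟩ := (nb_inl_URound S).1 k1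
      exact hw ⟨(S.rv d).2, mem_coe.2 (mem_univ _),
        ((nb_inl_URound S).2 ⟨(ht d).trans k3, S.hd_rv d⟩).trans k2⟩
  · simp only
    rw [(nb_inl_URound S).2 ⟨k, rfl⟩, (nb_inl_URound S).2 ⟨(ht d).trans k, S.hd_rv d⟩, n1,
      S.rv_fst]
  · obtain ⟨e, e0, e3, e1, e2⟩ := nb_rv_URound S ht ho k
    have h3 : ∑ w, n (.inr e) w = b := (n3 _).trans (if_pos e0)
    simp only
    rw [e1, e2, n1, n1 _ (.inr e), ← h3, ← sum_pair (f := n (.inr e))
      (b := .inl (S.rv d).1) fun h => hl d.1 d.2 (Sum.inl.inj h).symm]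
    refine sum_subset (subset_univ _) fun w _ hw => ?_
    by_contra h
    obtain ⟨d', ⟨k1, -⟩ | ⟨k1, rfl⟩⟩ := n2 _ _ h
    · exact Sum.inl_ne_inr k1
    · apply hw
      rcases ((nb_inr_URound S ht ho).1 k1).2 with rfl | rfl <;> rcases e3 with rfl | rfl <;>
        simp [S.rv_rv]

end Pool.Agent.MP_9a3194_co
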