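import Pool.Agent.MP_9a3194_co.UBal
import Pool.Agent.MP_9a3194_co.URound
import Pool.Agent.MP_9a3194_co.Gale

open Finset
open scoped symmDiff

namespace Pool.Agent.MP_9a3194_co

/-- the symmetrised real solution -/
theorem real_phi {V : Type} [Fintype V] [DecidableEq V] (S : Str V) (sg : Dt V → Bool)
    (hs : ∀ d, sg (S.rv d) = sg d) (Y : V → Bool) {η : ℝ} (hη : 0 ≤ η)
    (h : ∀ X : Finset (V × Bool), ∑ x ∈ X, sgn (xor (Y x.1) x.2) ≤ η / 2 * (S.cov sg hs).b X) :
    ∃ ψ : Dt V → ℝ, (∀ d, |ψ d| ≤ η) ∧ (∀ v, ∑ i, ψ (v, i) = -1) ∧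
      ∀ d, ψ (S.rv d) = if S.typ sg Y d then ψ d else -ψ d := by
  have hA : (S.cov sg hs).Aut flipB := Str.cov_aut
  obtain ⟨f, f1, f2, f3⟩ := gale (S.cov sg hs) ∅ (fun x => sgn (xor (Y x.1) x.2)) η hη
    fun X _ => by
      refine abs_le.2 ⟨?_, h X⟩
      have h1 := h (X.image flipB)
      rw [hA.b, sum_image hA.inj.injOn] at h1
      have h2 : ∑ x ∈ X, sgn (xor (Y (flipB x).1) (flipB x).2) =
          -∑ x ∈ X, sgn (xor (Y x.1) x.2) := by
        rw [← sum_neg_distrib]
        refine sum_congr rfl fun x _ => ?_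
        rw [← sgn_not]
        simp [flipB]
      linarith
  have f4 := hA.anti f1
  refine ⟨fun d => (f ((d.1, Y d.1), d.2) - f ((d.1, !Y d.1), d.2)) / 2, fun d => ?_,
    fun v => ?_, fun d => ?_⟩
  · have h1 := abs_le.1 (f2 ((d.1, Y d.1), d.2))
    have h2 := abs_le.1 (f2 ((d.1, !Y d.1), d.2))
    exact abs_le.2 ⟨by linarith [h1.1, h2.2], by linarith [h1.2, h2.1]⟩
  · have h1 := f3 (v, Y v) (notMem_empty _)
    have h2 := f3 (v, !Y v) (notMem_empty _)
    simp only [dv] at h1 h2
    rw [← sum_div, sum_sub_distrib, h1, h2]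
    cases Y v <;> norm_num [sgn]
  · have h1 := f4 ((d.1, Y d.1), d.2)
    have h2 : (S.cov sg hs).rv ((d.1, Y d.1), d.2) =
        ((S.hd d, xor (Y d.1) (sg d)), rd d.2) := by
      rw [Str.rv, Str.hd, Str.cov_step]
      rfl
    simp only [h2, flipB] at h1
    simp only [Str.rv, Str.typ]
    generalize Y (S.hd d) = b1 at h1 ⊢
    generalize sg d = b2 at h1 ⊢
    generalize Y d.1 = b3 at h1 ⊢
    cases b1 <;> cases b2 <;> cases b3 <;> simp at h1 ⊢ <;> linarith

/-- flows on signed cubic structures -/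
theorem coreS (p q : ℕ) (hq : 0 < q) (hp : 4 * q < p) : ∃ c : ℕ, ∀ {V : Type} [Fintype V]
    [DecidableEq V] (S : Str V) (sg : Dt V → Bool) (hs : ∀ d, sg (S.rv d) = sg d),
    (∀ u, Function.Injective (S.step u)) → (∀ u i, S.step u i ≠ u) → c ≤ Fintype.card V →
    (S.cov sg hs).Iso c → ∃ f : Dt V → ℤ, (∀ d, f (S.rv d) = if sg d then f d else -f d) ∧
      (∀ d, (q : ℤ) ≤ |f d| ∧ |f d| ≤ p - q) ∧ ∀ v, ∑ i, f (v, i) = 0 := by
  have hp0 : 0 < p := by omega
  have hpR : (0 : ℝ) < p := by exact_mod_cast hp0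
  have hpq : (4 * q + 1 : ℝ) ≤ p := by exact_mod_cast hp
  have hqR : (1 : ℝ) ≤ q := by exact_mod_cast hq
  have hδ : (0 : ℝ) < 1 / (20 * p) := by positivity
  obtain ⟨c₀, hc₀⟩ := bal2 hδ
  refine ⟨max c₀ (2 * p), fun {V} _ _ S sg hs hi hl hV hI => ?_⟩
  obtain ⟨Y, hY, hb⟩ := hc₀ S sg hs (fun v => hl v 0) ((le_max_left _ _).trans hV)
    (hI.mono (le_max_left _ _))
  have hI1 : S.Iso1 p := Str.cov_iso1 (hI.mono (le_max_right _ _))
  obtain ⟨ψ, p1, p2, p3⟩ := real_phi S sg hs Y (η := 1 / 2 + 2 * (1 / (20 * p))) (by positivity)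
    fun X => (hb X).trans_eq (by ring)
  have ht := Str.typ_rv hs Y
  have hx : ∀ d, 1 / 5 ≤ (p : ℝ) / 2 * (1 + ψ d) - q := fun d => by
    have h1 := mul_le_mul_of_nonneg_left (abs_le.1 (p1 d)).1 hpR.le
    have h2 : (p : ℝ) * (1 / (20 * p)) = 1 / 20 := by field_simp
    nlinarith
  obtain ⟨n, n1, n2, n3⟩ := round S hi hl (S.typ sg Y) ht (p - 3 * q) (p - 2 * q) p hI1
    (fun d => (p : ℝ) / 2 * (1 + ψ d) - q) (fun d => by linarith [hx d])
    (fun d => by nlinarith [hx d])
    (fun v => by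
      have h := p2 v
      rw [Fin.sum_univ_three] at h ⊢
      rw [Nat.cast_sub (by omega)]
      push_cast
      linear_combination (p : ℝ) / 2 * h)
    (fun d hd => by simp only [p3 d, hd, if_true])
    (fun d hd => by
      rw [Nat.cast_sub (by omega), p3 d, hd]
      push_cast
      ring) hY
  obtain ⟨z, z1, z2, z3⟩ := round S hi hl (S.typ sg Y) ht 1 1 p hI1
    (fun d => ((n d : ℝ) + q) / p) (fun d => by positivity)
    (fun d => by
      rw [mul_div_cancel₀ _ hpR.ne']
      linarith [(Nat.cast_nonneg (n d) : (0 : ℝ) ≤ n d)])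
    (fun v => by
      have h := n1 v
      rw [Fin.sum_univ_three] at h ⊢
      have h' : n (v, 0) + n (v, 1) + n (v, 2) + 3 * q = p := by omega
      have h'' : (n (v, 0) : ℝ) + n (v, 1) + n (v, 2) + 3 * q = p := by exact_mod_cast h'
      field_simp
      push_cast
      linarith)
    (fun d hd => by simp only [n2 d hd])
    (fun d hd => by
      have h := n3 d hd
      have h' : n d + n (S.rv d) + 2 * q = p := by omega
      have h'' : (n d : ℝ) + n (S.rv d) + 2 * q = p := by exact_mod_cast h'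
      field_simp
      push_cast
      linarith) hY
  have hn : ∀ d, n d + 3 * q ≤ p := fun d => by
    have h := single_le_sum (f := fun i => n (d.1, i)) (fun _ _ => Nat.zero_le _) (mem_univ d.2)
    rw [n1] at h
    have h' : n d ≤ p - 3 * q := h
    omega
  have hz : ∀ d, z d ≤ 1 := fun d => by
    have h := single_le_sum (f := fun i => z (d.1, i)) (fun _ _ => Nat.zero_le _) (mem_univ d.2)
    rw [z1] at h
    exact h
  have hF : ∀ d, (n (S.rv d) : ℤ) + q - p * z (S.rv d) =
      if S.typ sg Y d then (n d : ℤ) + q - p * z d else -((n d : ℤ) + q - p * z d) := fun d => by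
    cases hd : S.typ sg Y d
    · have h1 := n3 d hd
      have h2 : (z d : ℤ) + z (S.rv d) = 1 := by exact_mod_cast z3 d hd
      have h3 : (n d : ℤ) + n (S.rv d) + 2 * q = p := by omega
      simp only [Bool.false_eq_true, if_false]
      linear_combination h3 - p * h2
    · rw [n2 d hd, z2 d hd, if_pos rfl]
  refine ⟨fun d => if Y d.1 then -((n d : ℤ) + q - p * z d) else (n d : ℤ) + q - p * z d,
    fun d => ?_, fun d => ?_, fun v => ?_⟩
  · have key : ∀ (a b c : Bool) (F : ℤ), (if a then -(if xor (xor c a) b then F else -F) else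
        if xor (xor c a) b then F else -F) =
        if b then (if c then -F else F) else -(if c then -F else F) := by
      intro a b c F
      cases a <;> cases b <;> cases c <;> simp
    simp only [hF]
    exact key (Y (S.hd d)) (sg d) (Y d.1) _
  · have h1 := hn d
    have h2 : (q : ℤ) ≤ |(n d : ℤ) + q - p * z d| ∧ |(n d : ℤ) + q - p * z d| ≤ p - q := by
      rcases Nat.le_one_iff_eq_zero_or_eq_one.1 (hz d) with h | h
      · rw [h, abs_of_nonneg (by omega)]
        omega
      · rw [h, abs_of_nonpos (by omega)]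
        omega
    simp only []
    split_ifs
    · rwa [abs_neg]
    · exact h2
  · have h1 := n1 v
    have h2 := z1 v
    rw [Fin.sum_univ_three] at h1 h2 ⊢
    have h3 : (n (v, 0) : ℤ) + n (v, 1) + n (v, 2) + 3 * q = p := by omega
    have h4 : (z (v, 0) : ℤ) + z (v, 1) + z (v, 2) = 1 := by exact_mod_cast h2
    simp only []
    split_ifs
    · linear_combination p * h4 - h3
    · linear_combination h3 - p * h4

end Pool.Agent.MP_9a3194_co
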