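import Pool.Agent.MP_9a3194_co.ULatD
import Pool.Agent.MP_9a3194_co.Split

open Finset
open scoped symmDiff

namespace Pool.Agent.MP_9a3194_co

private theorem cut_ULatE {T : Type} [Fintype T] [DecidableEq T] (w : T → T → ℕ) (A : Finset T) :
    cutw w A = ∑ s, ∑ t, if s ∈ A ∧ t ∉ A then w s t else 0 := by
  simp only [cutw, ite_and, sum_ite_irrel, sum_const_zero, sum_ite_mem, univ_inter, ← mem_compl]

private theorem sub_ULatE {T : Type} [Fintype T] [DecidableEq T] (w : T → T → ℕ)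
    (hs : ∀ s t, w s t = w t s) (Tm : Finset T) (hz : ∀ s t, s ∉ Tm → s ≠ t → w s t = 0)
    (A : Finset T) (B : Finset {t // t ∈ Tm}) (hB : ∀ t, t ∈ B ↔ t.1 ∈ A) :
    cutw (fun s t : {t // t ∈ Tm} => w s t) B = cutw w A := by
  have hF : ∀ s t, s ∉ Tm ∨ t ∉ Tm → (if s ∈ A ∧ t ∉ A then w s t else 0) = 0 := by
    intro s t h
    split_ifs with h1
    · have hst : s ≠ t := fun e => h1.2 (e ▸ h1.1)
      exact h.elim (fun h => hz s t h hst) fun h => (hs s t).trans (hz t s h hst.symm)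
    · rfl
  rw [cut_ULatE, cut_ULatE, ← sum_subset (subset_univ Tm)
    (fun s _ hsT => sum_eq_zero fun t _ => hF s t (Or.inl hsT)), ← sum_coe_sort Tm]
  refine sum_congr rfl fun s _ => ?_
  rw [← sum_subset (subset_univ Tm) fun t _ ht => hF s t (Or.inr ht), ← sum_coe_sort Tm]
  simp only [hB]

private theorem inv_ULatE {T : Type} [Fintype T] [DecidableEq T] {ι : T → T}
    (hι : ∀ t, ι (ι t) = t) (w : T → T → ℕ) (A : Finset T) :
    cutw (fun s t => w (ι s) (ι t)) A = cutw w (univ.filter fun t => ι t ∈ A) := by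
  have h : Function.Bijective ι := Function.Involutive.bijective hι
  rw [cut_ULatE, cut_ULatE]
  refine Fintype.sum_bijective ι h _ _ fun s => Fintype.sum_bijective ι h _ _ fun t => ?_
  simp [hι]

/-- the symmetric lattice lemma with Steiner vertices -/
theorem steiner2 {T : Type} [Fintype T] [DecidableEq T] (ι : T → T) (hι : ∀ t, ι (ι t) = t)
    (hne : ∀ t, ι t ≠ t) (w : T → T → ℕ) (hs : ∀ s t, w s t = w t s)
    (hw : ∀ s t, w (ι s) (ι t) = w s t) (Tm : Finset T) (hT : Tm.Nonempty)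
    (hTι : ∀ t, ι t ∈ Tm ↔ t ∈ Tm) (lam : ℕ) (h0 : 0 < lam)
    (hl : Even lam) (hev : ∀ A, Even (cutw w A))
    (hc : ∀ A : Finset T, (∃ s ∈ Tm, s ∈ A) → (∃ t ∈ Tm, t ∉ A) → lam ≤ cutw w A)
    (q : T → ℝ) (hq : ∀ t ∈ Tm, q (ι t) = -q t) (par : ℤ) :
    ∃ z : T → ℤ, (∀ t ∉ Tm, z t = 0) ∧ (∀ t, z (ι t) = -z t) ∧
      (4 : ℤ) ∣ ∑ t ∈ Tm, |z t| - 2 * par ∧
      ∀ A : Finset T, ∑ t ∈ Tm ∩ A, (q t + 2 * z t) ≤ 3 / lam * cutw w A := by
  obtain ⟨w', hs', hle, hc', hz⟩ := split w hs Tm lam hl hev hc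
  obtain ⟨o, ho⟩ := hT
  have hlam : (0 : ℝ) < lam := by exact_mod_cast h0
  have key : ∀ (A : Finset T) (B : Finset {t // t ∈ Tm}), (∀ t, t ∈ B ↔ t.1 ∈ A) →
      cutw (fun s t : {t // t ∈ Tm} => w' s t + w' (ι s) (ι t)) B =
        cutw w' A + cutw w' (univ.filter fun t => ι t ∈ A) := fun A B hB => by
    rw [← sub_ULatE w' hs' Tm hz A B hB, ← inv_ULatE hι,
      ← sub_ULatE (fun s t => w' (ι s) (ι t)) (fun s t => hs' _ _) Tm (fun s t h1 h2 =>
        hz _ _ (fun h => h1 ((hTι s).1 h)) fun e => h2 (by rw [← hι s, e, hι])) A B hB]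
    simp only [cutw, sum_add_distrib]
  obtain ⟨z, z1, z2, z3⟩ := symlat (T := {t // t ∈ Tm}) (fun t => ⟨ι t, (hTι t).2 t.2⟩)
    (fun t => Subtype.ext (hι t)) (fun t e => hne t (congrArg Subtype.val e))
    (fun s t => w' s t + w' (ι s) (ι t)) (fun s t => by rw [hs' s, hs' (ι s)])
    (fun s t => by simp only [hι, add_comm]) (2 * lam) (by omega)
    (by
      rintro B ⟨s, hsB⟩ ⟨t, htB⟩
      have hB : ∀ t, t ∈ B ↔ t.1 ∈ B.map (Function.Embedding.subtype _) := fun t =>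
        (mem_map' (Function.Embedding.subtype _)).symm
      have h1 := (hB s).1 hsB
      have h2 := fun h => mem_compl.1 htB ((hB t).2 h)
      rw [key _ B hB, two_mul]
      exact add_le_add (hc' _ ⟨s.1, s.2, h1⟩ ⟨t.1, t.2, h2⟩) (hc' _
        ⟨ι s, (hTι _).2 s.2, mem_filter.2 ⟨mem_univ _, by rwa [hι]⟩⟩
        ⟨ι t, (hTι _).2 t.2, fun h => h2 (by simpa only [hι] using (mem_filter.1 h).2)⟩))
    ⟨o, ho⟩ (fun t => q t) (fun t => hq t t.2) par
  refine ⟨fun t => if h : t ∈ Tm then z ⟨t, h⟩ else 0, fun t ht => by simp [ht], fun t => ?_, ?_,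
    fun A => ?_⟩
  · by_cases h : t ∈ Tm
    · simp only [dif_pos h, dif_pos ((hTι t).2 h)]
      exact z1 ⟨t, h⟩
    · simp [h, hTι]
  · rw [← sum_coe_sort Tm]
    simpa using z2
  · have h := z3 (univ.filter fun t => t.1 ∈ A)
    rw [key A _ (by simp)] at h
    have h1 : (cutw w' A : ℝ) ≤ cutw w A := by exact_mod_cast hle A
    have h2 := hle (univ.filter fun t => ι t ∈ A)
    rw [← inv_ULatE hι w] at h2
    simp only [hw] at h2
    have h3 : (cutw w' (univ.filter fun t => ι t ∈ A) : ℝ) ≤ cutw w A := by exact_mod_cast h2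
    have e : ∑ t ∈ Tm ∩ A, (q t + 2 * ((if h : t ∈ Tm then z ⟨t, h⟩ else 0 : ℤ) : ℝ)) =
        ∑ t ∈ univ.filter (fun t : {t // t ∈ Tm} => t.1 ∈ A), (q t.1 + 2 * (z t : ℝ)) := by
      rw [← filter_mem_eq_inter, sum_filter, sum_filter, ← sum_coe_sort Tm]
      exact sum_congr rfl fun t _ => by simp
    rw [e]
    refine h.trans (le_of_le_of_eq (b := (3 / (2 * lam) * (cutw w A + cutw w A) : ℝ)) ?_ ?_)
    · push_cast
      gcongr
    · field_simp
      ring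

end Pool.Agent.MP_9a3194_co
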