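import Pool.Agent.MP_9a3194_co.UAut
import Pool.Agent.MP_9a3194_co.ULatE
import Pool.Agent.MP_9a3194_co.Ctr

open Finset
open scoped symmDiff

namespace Pool.Agent.MP_9a3194_co

variable {V : Type} [Fintype V] [DecidableEq V] (S : Str V)

theorem rho_UCtr {ω : ℕ} {T : Finset V} {Ω : V → Finset V} (hT : S.Trees T Ω ω) {ι : V → V}
    (hι : S.Aut ι) (hTι : ∀ v, ι v ∈ T ↔ v ∈ T) (hΩ : ∀ g ∈ T, Ω (ι g) = (Ω g).image ι) (v : V) :
    rho_Ctr T Ω (ι v) = ι (rho_Ctr T Ω v) := by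
  by_cases h : ∃ g ∈ T, v ∈ Ω g
  · obtain ⟨g, hg, hv⟩ := h
    rw [rho_mem_Ctr hT hg hv]
    refine rho_mem_Ctr hT ((hTι g).2 hg) ?_
    rw [hΩ g hg]
    exact mem_image_of_mem _ hv
  · rw [rho_not_Ctr h]
    refine rho_not_Ctr ?_
    rintro ⟨g, hg, hv⟩
    refine h ⟨ι g, (hTι g).2 hg, ?_⟩
    rw [hΩ g hg]
    exact mem_image.2 ⟨ι v, hv, hι.inv v⟩

theorem w_UCtr {ω : ℕ} {T : Finset V} {Ω : V → Finset V} (hT : S.Trees T Ω ω) {ι : V → V}
    (hι : S.Aut ι) (hTι : ∀ v, ι v ∈ T ↔ v ∈ T) (hΩ : ∀ g ∈ T, Ω (ι g) = (Ω g).image ι) (s t : V) :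
    w_Ctr S T Ω (ι s) (ι t) = w_Ctr S T Ω s t := by
  have hh : ∀ d : Dt V, S.hd (ι d.1, d.2) = ι (S.hd d) := fun d => hι.step d.1 d.2
  unfold w_Ctr
  congr 1
  refine Finset.card_bij' (fun d _ => (ι d.1, d.2)) (fun d _ => (ι d.1, d.2)) ?_ ?_ ?_ ?_
  · intro d hd
    simp only [mem_filter, mem_univ, true_and] at hd ⊢
    rw [hh, rho_UCtr S hT hι hTι hΩ, rho_UCtr S hT hι hTι hΩ, hd.1, hd.2, hι.inv, hι.inv]
    exact ⟨rfl, rfl⟩
  · intro d hd
    simp only [mem_filter, mem_univ, true_and] at hd ⊢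
    rw [hh, rho_UCtr S hT hι hTι hΩ, rho_UCtr S hT hι hTι hΩ, hd.1, hd.2]
    exact ⟨rfl, rfl⟩
  · intro d _
    exact Prod.ext (hι.inv d.1) rfl
  · intro d _
    exact Prod.ext (hι.inv d.1) rfl

/-- the symmetric lattice lemma after contracting the trees -/
theorem contract2 {c ω : ℕ} {T : Finset V} {Ω : V → Finset V} (hI : S.Iso c) (hc : ω + 2 ≤ c)
    (hT : S.Trees T Ω ω) (hne : T.Nonempty) {ι : V → V} (hι : S.Aut ι)
    (hTι : ∀ v, ι v ∈ T ↔ v ∈ T) (hΩ : ∀ g ∈ T, Ω (ι g) = (Ω g).image ι) (q : V → ℝ)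
    (hq : ∀ g ∈ T, q (ι g) = -q g) (par : ℤ) :
    ∃ z : V → ℤ, (∀ g ∉ T, z g = 0) ∧ (∀ g, z (ι g) = -z g) ∧
      (4 : ℤ) ∣ ∑ g ∈ T, |z g| - 2 * par ∧ (∀ g ∈ T, |q g + 2 * z g| ≤ 3) ∧
      ∀ X : Finset V, ∑ g ∈ T.filter (fun g => (Ω g \ X).card ≤ (Ω g ∩ X).card), (q g + 2 * z g) ≤
        3 / (2 * (ω + 2)) * (S.b X + 6 * ∑ g ∈ T, (mino (Ω g) X : ℝ)) := by
  classical
  obtain ⟨z, hz0, hz1, hzp, hz2⟩ := steiner2 ι hι.inv hι.ne (w_Ctr S T Ω) (w_symm_Ctr T Ω)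
    (w_UCtr S hT hι hTι hΩ) T hne hTι (2 * (ω + 2))
    (by omega) (even_two_mul _)
    (fun A => by rw [cutw_Ctr, S.b_eq]; exact even_two_mul _)
    (by
      rintro A ⟨s, hs, hsA⟩ ⟨t, ht, htA⟩
      rw [cutw_Ctr]
      have h1 : Ω s ⊆ pre_Ctr T Ω A := fun v hv => by
        rw [mem_pre_Ctr, rho_mem_Ctr hT hs hv]
        exact hsA
      have h2 : Ω t ⊆ (pre_Ctr T Ω A)ᶜ := fun v hv => by
        rw [mem_compl, mem_pre_Ctr, rho_mem_Ctr hT ht hv]
        exact htA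
      have c1 := card_le_card h1
      have c2 := card_le_card h2
      rw [hT.card s hs] at c1
      rw [hT.card t ht] at c2
      have := hI (pre_Ctr T Ω A) ⟨s, h1 (hT.mem s hs)⟩ ⟨t, h2 (hT.mem t ht)⟩
      omega) q hq par
  have hpos : (0 : ℝ) < 2 * (ω + 2) := by positivity
  have hz3 : ∀ A : Finset V, ∑ t ∈ T ∩ A, (q t + 2 * z t) ≤
      3 / (2 * (ω + 2)) * (S.b (pre_Ctr T Ω A) : ℝ) := by
    intro A
    have := hz2 A
    rw [cutw_Ctr] at this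
    push_cast at this
    exact this
  refine ⟨z, hz0, hz1, hzp, ?_, ?_⟩
  · intro g hg
    have hb : (S.b (Ω g) : ℝ) ≤ 2 * (ω + 2) := by exact_mod_cast hT.bdy g hg
    have hb3 : 3 / (2 * (ω + 2)) * (S.b (Ω g) : ℝ) ≤ 3 := by
      rw [div_mul_eq_mul_div, div_le_iff₀ hpos]
      linarith
    have a1 := hz3 {g}
    rw [pre_single_Ctr hT hg, inter_singleton_of_mem hg, sum_singleton] at a1
    have hg' : ι g ∈ T := (hTι g).2 hg
    have hb' : (S.b (Ω (ι g)) : ℝ) ≤ 2 * (ω + 2) := by exact_mod_cast hT.bdy _ hg'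
    have hb4 : 3 / (2 * (ω + 2)) * (S.b (Ω (ι g)) : ℝ) ≤ 3 := by
      rw [div_mul_eq_mul_div, div_le_iff₀ hpos]
      linarith
    have a2 := hz3 {ι g}
    rw [pre_single_Ctr hT hg', inter_singleton_of_mem hg', sum_singleton, hq g hg, hz1 g] at a2
    push_cast at a2
    rw [abs_le]
    constructor <;> linarith
  · intro X
    set M := T.filter (fun g => (Ω g \ X).card ≤ (Ω g ∩ X).card) with hM
    set A := M ∪ X.filter (fun v => ¬ ∃ g ∈ T, v ∈ Ω g) with hA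
    have e : T ∩ A = M := by
      ext v
      simp only [hA, mem_inter, mem_union]
      constructor
      · rintro ⟨hv, h | h⟩
        · exact h
        · exact absurd ⟨v, hv, hT.mem v hv⟩ (mem_filter.1 h).2
      · intro h
        exact ⟨(mem_filter.1 h).1, Or.inl h⟩
    have hsub : pre_Ctr T Ω A ∆ X ⊆
        T.biUnion fun g => if g ∈ M then Ω g \ X else Ω g ∩ X := by
      intro v hv
      rw [mem_symmDiff, mem_pre_Ctr] at hv
      by_cases hx : ∃ g ∈ T, v ∈ Ω g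
      · obtain ⟨g, hg, hvg⟩ := hx
        rw [rho_mem_Ctr hT hg hvg] at hv
        have hgA : g ∈ A ↔ g ∈ M := by
          rw [← e, mem_inter]
          exact ⟨fun h => ⟨hg, h⟩, fun h => h.2⟩
        rw [hgA] at hv
        refine mem_biUnion.2 ⟨g, hg, ?_⟩
        rcases hv with ⟨h1, h2⟩ | ⟨h1, h2⟩
        · rw [if_pos h1]
          exact mem_sdiff.2 ⟨hvg, h2⟩
        · rw [if_neg h2]
          exact mem_inter.2 ⟨hvg, h1⟩
      · rw [rho_not_Ctr hx] at hv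
        exfalso
        rcases hv with ⟨h1, h2⟩ | ⟨h1, h2⟩
        · rcases mem_union.1 h1 with h | h
          · have hv := (mem_filter.1 h).1
            exact hx ⟨v, hv, hT.mem v hv⟩
          · exact h2 (mem_filter.1 h).1
        · exact h2 (mem_union.2 (Or.inr (mem_filter.2 ⟨h1, hx⟩)))
    have hcard : (pre_Ctr T Ω A ∆ X).card ≤ ∑ g ∈ T, mino (Ω g) X := by
      refine (card_le_card hsub).trans (card_biUnion_le.trans (sum_le_sum fun g hg => ?_))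
      unfold mino
      split_ifs with h
      · have := (mem_filter.1 h).2
        omega
      · have : ¬ (Ω g \ X).card ≤ (Ω g ∩ X).card := fun h' => h (mem_filter.2 ⟨hg, h'⟩)
        omega
    have hb : S.b (pre_Ctr T Ω A) ≤ S.b X + 6 * ∑ g ∈ T, mino (Ω g) X :=
      (S.b_le_add _ X).trans (by omega)
    have hb' : (S.b (pre_Ctr T Ω A) : ℝ) ≤ S.b X + 6 * ∑ g ∈ T, (mino (Ω g) X : ℝ) := by
      exact_mod_cast hb
    have a1 := hz3 A
    rw [e] at a1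
    exact a1.trans (mul_le_mul_of_nonneg_left hb' (by positivity))

end Pool.Agent.MP_9a3194_co
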