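import Pool.Agent.MP_9a3194_co.UAux

open Finset
open scoped symmDiff

namespace Pool.Agent.MP_9a3194_co

namespace Surf

variable {F : Type} (T : Surf F)

/-- the dart with the same tail corner on the other sheet -/
def kap (x : (F × Bool) × ZMod 3) : (F × Bool) × ZMod 3 := ((x.1.1, !x.1.2), -x.2)

private theorem kap_kap_UDbl (x : (F × Bool) × ZMod 3) : kap (kap x) = x := by
  simp [kap]

private theorem arc_alpha_UDbl (x : (F × Bool) × ZMod 3) :
    toArc (T.dbl.α x) = T.mate ((toArc x).1, !(toArc x).2) := by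
  simp only [dbl, toArc_ofArc, mate]
  cases T.tw (toArc x).1 <;> simp

private theorem arc_kap_UDbl (x : (F × Bool) × ZMod 3) :
    toArc (kap (Tri.nxt x)) = ((toArc x).1, !(toArc x).2) := by
  obtain ⟨⟨f, b⟩, j⟩ := x
  cases b <;> simp [toArc, kap, Tri.nxt]
  ring

private theorem mate_mate_UDbl (e : (F × ZMod 3) × Bool) : T.mate (T.mate e) = e := by
  simp only [mate, T.αα, T.twα]
  cases T.tw e.1 <;> simp

private theorem arc_inj_UDbl {x y : (F × Bool) × ZMod 3} (h : toArc x = toArc y) : x = y := by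
  rw [← ofArc_toArc x, h, ofArc_toArc]

private theorem rot_inj_UDbl {G : Type} (C : Tri G) : Function.Injective C.rot := fun d e h => by
  have h1 : C.α d = C.α e := by
    simp only [Tri.rot, Tri.nxt, Prod.mk.injEq, add_left_inj] at h
    exact Prod.ext h.1 h.2
  rw [← C.αα d, h1, C.αα]

theorem tail_kap (x : (F × Bool) × ZMod 3) : tail (toArc (kap x)) = tail (toArc x) := by
  obtain ⟨⟨f, b⟩, j⟩ := x
  cases b <;> simp [toArc, kap, tail, nxt]
theorem tail_nxt (x : (F × Bool) × ZMod 3) : tail (toArc (Tri.nxt x)) = head (toArc x) := by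
  obtain ⟨⟨f, b⟩, j⟩ := x
  cases b <;> simp [toArc, Tri.nxt, tail, head, nxt]
  ring
theorem same_alpha (x : (F × Bool) × ZMod 3) :
    T.Same (head (toArc x)) (tail (toArc (T.dbl.α x))) := by
  refine Relation.EqvGen.rel _ _ ⟨((toArc x).1, !(toArc x).2), ?_, by rw [arc_alpha_UDbl]⟩
  simp only [head, tail]
  cases (toArc x).2 <;> simp
theorem same_rot (x : (F × Bool) × ZMod 3) :
    T.Same (tail (toArc x)) (tail (toArc (T.dbl.rot x))) := by
  have h := T.same_alpha (T.dbl.α x)
  rw [T.dbl.αα] at h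
  rw [Tri.rot, tail_nxt]
  exact h.symm
theorem rot_kap_rot (x : (F × Bool) × ZMod 3) : T.dbl.rot (kap (T.dbl.rot x)) = kap x := by
  have h : T.dbl.α (kap (T.dbl.rot x)) = kap (Tri.nxt x) := by
    refine arc_inj_UDbl ?_
    rw [arc_alpha_UDbl, Tri.rot, arc_kap_UDbl, arc_kap_UDbl, Bool.not_not, arc_alpha_UDbl,
      mate_mate_UDbl]
  rw [Tri.rot, h]
  simp [Tri.nxt, kap]
theorem dbl_closed {w : List ((F × Bool) × ZMod 3)} (h : T.dbl.Closed w) :
    T.Closed (w.map toArc) := by
  rw [Closed, ← List.map_append, List.isChain_map]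
  refine List.IsChain.imp ?_ h
  rintro d _ ⟨n, rfl⟩
  induction n with
  | zero => exact T.same_alpha d
  | succ n ih =>
    rw [Function.iterate_succ_apply']
    exact ih.trans _ _ _ (T.same_rot _)

private theorem tail_two_UDbl {y z : (F × Bool) × ZMod 3} (h : tail (toArc y) = tail (toArc z)) :
    y = z ∨ y = kap z := by
  obtain ⟨⟨f, b⟩, j⟩ := y
  obtain ⟨⟨g, c⟩, i⟩ := z
  cases b <;> cases c <;> simp [toArc, kap, tail, nxt] at h ⊢
  · exact h
  · exact h
  · exact ⟨h.1, by rw [← h.2, neg_neg]⟩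
  · exact h

private theorem tail_mate_UDbl (y : (F × Bool) × ZMod 3) :
    tail (T.mate (toArc y)) = tail (toArc (T.dbl.rot y)) := by
  rw [Tri.rot, tail_nxt, arc_alpha_UDbl]
  simp only [mate, tail, head]
  cases T.tw (toArc y).1 <;> cases (toArc y).2 <;> simp

theorem dbl_minDeg {c : ℕ} (h : T.MinDeg c) : T.dbl.MinDeg c := by
  classical
  intro x n hn hc hx
  have h1 : ∀ e, (∃ i, tail e = tail (toArc (T.dbl.rot^[i] x))) →
      ∃ i, tail (T.mate e) = tail (toArc (T.dbl.rot^[i] x)) := by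
    rintro e ⟨i, hi⟩
    rw [← toArc_ofArc e] at hi ⊢
    rw [tail_mate_UDbl]
    rcases tail_two_UDbl hi with e1 | e1
    · exact ⟨i + 1, by rw [e1, Function.iterate_succ_apply']⟩
    · obtain ⟨m, rfl⟩ := Nat.exists_eq_add_one_of_ne_zero hn.ne'
      refine ⟨i + m, ?_⟩
      have h2 : T.dbl.rot^[i] x = T.dbl.rot (T.dbl.rot^[i + m] x) := by
        rw [← Function.iterate_succ_apply' T.dbl.rot, Nat.succ_eq_add_one, add_assoc,
          Function.iterate_add_apply, hx]
      rw [e1, h2, rot_kap_rot, tail_kap]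
  have h2 : ∀ a b, T.Same a b → ((∃ i, a = tail (toArc (T.dbl.rot^[i] x))) ↔
      ∃ i, b = tail (toArc (T.dbl.rot^[i] x))) := by
    intro a b hab
    induction hab with
    | rel a b hab =>
      obtain ⟨e, rfl, rfl⟩ := hab
      exact ⟨h1 e, fun h3 => by simpa only [mate_mate_UDbl] using h1 _ h3⟩
    | refl => rfl
    | symm _ _ _ ih => exact ih.symm
    | trans _ _ _ _ _ ih ih' => exact ih.trans ih'
  have h3 : {y | T.Same (tail (toArc x)) y} ⊆
      ((range n).image fun i => tail (toArc (T.dbl.rot^[i] x)) : Finset _) := by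
    intro y hy
    obtain ⟨i, rfl⟩ := (h2 _ _ hy).1 ⟨0, rfl⟩
    refine mem_coe.2 (mem_image.2 ⟨i % n, mem_range.2 (Nat.mod_lt _ hn), ?_⟩)
    rw [Function.IsPeriodicPt.iterate_mod_apply hx]
  have h4 := (h _).trans (Set.ncard_le_ncard h3 (Finset.finite_toSet _))
  rw [Set.ncard_coe_finset] at h4
  have h5 := h4.trans card_image_le
  rw [card_range] at h5
  omega

private theorem rot_ne_UDbl (n : ℕ) : ∀ x, T.dbl.rot^[n] x ≠ kap x := by
  induction n using Nat.twoStepInduction with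
  | zero =>
    intro x h
    simpa [kap] using congrArg (fun y => y.1.2) h
  | one =>
    intro x h
    have h1 := arc_kap_UDbl (T.dbl.α x)
    rw [show Tri.nxt (T.dbl.α x) = kap x from h, kap_kap_UDbl, arc_alpha_UDbl] at h1
    exact T.αne _ (congrArg Prod.fst h1).symm
  | more n ih _ =>
    intro x h
    rw [Function.iterate_succ_apply', Function.iterate_succ_apply, ← T.rot_kap_rot x] at h
    exact ih _ (rot_inj_UDbl _ h)

/-- local orientations at the vertices -/
theorem exists_sheet [Finite F] : ∃ σ : (F × Bool) × ZMod 3 → Bool,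
    (∀ x, σ (T.dbl.rot x) = σ x) ∧ ∀ x, σ (kap x) = !σ x := by
  let ρ : Equiv.Perm ((F × Bool) × ZMod 3) :=
    Equiv.ofBijective _ (Finite.injective_iff_bijective.1 (rot_inj_UDbl T.dbl))
  let s := Equiv.Perm.SameCycle.setoid ρ
  obtain ⟨idx, hidx⟩ := exists_injective_nat (Quotient s)
  have h1 : ∀ x, Quotient.mk s (T.dbl.rot x) = Quotient.mk s x := fun x =>
    Quotient.sound (Equiv.Perm.SameCycle.symm ⟨1, rfl⟩)
  have h2 : ∀ x, idx (Quotient.mk s x) ≠ idx (Quotient.mk s (kap x)) := fun x h => by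
    obtain ⟨n, hn⟩ := Equiv.Perm.SameCycle.exists_nat_pow_eq (f := ρ) (Quotient.exact (hidx h))
    rw [Equiv.Perm.coe_pow] at hn
    exact rot_ne_UDbl T n x hn
  refine ⟨fun x => decide (idx (Quotient.mk s x) < idx (Quotient.mk s (kap x))), fun x => ?_,
    fun x => ?_⟩
  · simp only [h1, ← h1 (kap (T.dbl.rot x)), rot_kap_rot]
  · have := h2 x
    simp only [kap_kap_UDbl, ← decide_not, decide_eq_decide]
    omega
/-- a disconnected orientation cover gives an orientation -/
theorem exists_orient (hn : T.Connected) (h : ¬ T.dbl.Connected) :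
    ∃ o : F → Bool, ∀ d, o (T.α d).1 = xor (o d.1) (T.tw d) := by
  classical
  simp only [Tri.Connected, not_forall, not_exists, not_and, not_not] at h
  obtain ⟨X, ⟨p, hp⟩, ⟨q, hq⟩, hX⟩ := h
  have h1 : ∀ d b, (d.1, b) ∈ X → ((T.α d).1, xor b (T.tw d)) ∈ X := fun d b hb => by
    have := hX (ofArc (d, b)) hb
    simp only [dbl, toArc_ofArc] at this
    exact this
  have h2 : ∀ d b, ((T.α d).1, b) ∈ X → (d.1, xor b (T.tw d)) ∈ X := fun d b hb => by
    simpa only [T.αα, T.twα] using h1 (T.α d) b hb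
  have h3 : ∀ f, ¬ ∀ b, (f, b) ∈ X := fun f hf => by
    obtain ⟨d, h4, h5⟩ := hn {f | ∀ b, (f, b) ∈ X} ⟨f, hf⟩ ⟨q.1, fun e => hq (e q.2)⟩
    refine h5 fun b => ?_
    simpa using h1 d _ (h4 (xor b (T.tw d)))
  have h4 : ∀ f, ¬ ∀ b, (f, b) ∉ X := fun f hf => by
    obtain ⟨d, h4, h5⟩ := hn {f | ∀ b, (f, b) ∉ X} ⟨f, hf⟩ ⟨p.1, fun e => e p.2 hp⟩
    exact h5 fun b hb => h4 _ (h2 d b hb)
  have h5 : ∀ f b, (f, b) ∈ X ↔ decide ((f, true) ∈ X) = b := fun f b => by
    have a1 := h3 f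
    have a2 := h4 f
    rw [Bool.forall_bool] at a1 a2
    cases b <;> simp only [decide_eq_false_iff_not, decide_eq_true_eq] <;> tauto
  exact ⟨fun f => decide ((f, true) ∈ X), fun d => (h5 _ _).1 (h1 d _ ((h5 _ _).2 rfl))⟩
/-- heights vanish along contractible words -/
theorem height_zero (φ : F × ZMod 3 → ℤ) (h1 : ∀ d, φ (T.α d) = if T.tw d then φ d else -φ d)
    (h2 : ∀ f, ∑ i, φ (f, i) = 0) (w : List ((F × ZMod 3) × Bool)) (hw : T.Contr w) :
    (w.map fun e => if e.2 then -φ e.1 else φ e.1).sum = 0 := by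
  have h3 : ∀ r ∈ T.rels, FreeGroup.lift (fun d => Multiplicative.ofAdd (φ d)) r = 1 := by
    rintro r ⟨d, rfl | rfl⟩
    · have := h1 d
      cases h : T.tw d <;> simp [h] at this ⊢ <;> rw [this] <;> simp
    · have h4 := h2 d.1
      rw [← Equiv.sum_comp (Equiv.addLeft d.2)] at h4
      have h5 : φ (d.1, d.2 + 0) + φ (d.1, d.2 + 1) + φ (d.1, d.2 + (1 + 1)) = 0 :=
        (Fin.sum_univ_three fun i : Fin 3 => φ (d.1, d.2 + (show ZMod 3 from i))).symm.trans h4
      simp only [map_mul, FreeGroup.lift_apply_of, ← ofAdd_add, ofAdd_eq_one, nxt]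
      rwa [add_zero, ← add_assoc] at h5
  have h4 := congrArg (PresentedGroup.toGroup h3) hw
  rw [map_one, map_list_prod, List.map_map] at h4
  have h5 : ∀ w : List ((F × ZMod 3) × Bool), (w.map (PresentedGroup.toGroup h3 ∘ fun e =>
      if e.2 then (PresentedGroup.of (rels := T.rels) e.1)⁻¹ else PresentedGroup.of e.1)).prod =
      Multiplicative.ofAdd (w.map fun e => if e.2 then -φ e.1 else φ e.1).sum := by
    intro w
    induction w with
    | nil => rfl
    | cons e w ih =>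
      rw [List.map_cons, List.prod_cons, ih, List.map_cons, List.sum_cons, ofAdd_add]
      congr 1
      cases h : e.2 <;> simp [h]
  rw [h5] at h4
  exact ofAdd_eq_one.1 h4

end Surf

end Pool.Agent.MP_9a3194_co
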