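import Pool.Agent.MP_9a3194_co.UDbl
import Pool.Agent.MP_9a3194_co.TFin

open Finset
open scoped symmDiff

namespace Pool.Agent.MP_9a3194_co

namespace Surf

private def sw_UOri {F : Type} (o : F → Bool) (d : F × ZMod 3) : F × ZMod 3 :=
  (d.1, if o d.1 then -d.2 - 1 else d.2)

private lemma swsw_UOri {F : Type} (o : F → Bool) (d : F × ZMod 3) :
    sw_UOri o (sw_UOri o d) = d := by
  obtain ⟨f, i⟩ := d
  cases h : o f <;> simp [sw_UOri, h]

private def ori_UOri {F : Type} (T : Surf F) (o : F → Bool) : Tri F where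
  α x := sw_UOri o (T.α (sw_UOri o x))
  αα x := by rw [swsw_UOri, T.αα, swsw_UOri]
  αne x h := T.αne (sw_UOri o x) (by
    have h1 := congrArg (sw_UOri o) h
    rwa [swsw_UOri] at h1)

private def em_UOri {F : Type} (o : F → Bool) (x : F × ZMod 3) : (F × Bool) × ZMod 3 :=
  ((x.1, o x.1), x.2)

private lemma em_alpha_UOri {F : Type} (T : Surf F) (o : F → Bool)
    (ho : ∀ d, o (T.α d).1 = xor (o d.1) (T.tw d)) (x : F × ZMod 3) :
    em_UOri o ((ori_UOri T o).α x) = T.dbl.α (em_UOri o x) := by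
  have h : xor (o x.1) (T.tw (sw_UOri o x)) = o (T.α (sw_UOri o x)).1 := (ho (sw_UOri o x)).symm
  change _ = ofArc (T.α (sw_UOri o x), xor (o x.1) (T.tw (sw_UOri o x)))
  rw [h]
  rfl

private lemma em_rot_UOri {F : Type} (T : Surf F) (o : F → Bool)
    (ho : ∀ d, o (T.α d).1 = xor (o d.1) (T.tw d)) (n : ℕ) (x : F × ZMod 3) :
    em_UOri o ((ori_UOri T o).rot^[n] x) = T.dbl.rot^[n] (em_UOri o x) := by
  have h : Function.Semiconj (em_UOri o) (ori_UOri T o).rot T.dbl.rot := fun y => by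
    unfold Tri.rot
    rw [← em_alpha_UOri T o ho]
    rfl
  exact h.iterate_right n x

private lemma back_UOri {F : Type} (P : Tri F) (x : F × ZMod 3) :
    (PresentedGroup.of (P.α x) : PresentedGroup P.rels) = (PresentedGroup.of x)⁻¹ := by
  have h : (PresentedGroup.mk P.rels) (.of x * .of (P.α x)) = 1 :=
    PresentedGroup.one_of_mem ⟨x, Or.inl rfl⟩
  rw [map_mul] at h
  exact eq_inv_of_mul_eq_one_right h

private lemma tri_UOri {F : Type} (P : Tri F) (x : F × ZMod 3) :
    (PresentedGroup.of x : PresentedGroup P.rels) * PresentedGroup.of (Tri.nxt x) *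
      PresentedGroup.of (Tri.nxt (Tri.nxt x)) = 1 := by
  have h : (PresentedGroup.mk P.rels) (.of x * .of (Tri.nxt x) * .of (Tri.nxt (Tri.nxt x))) = 1 :=
    PresentedGroup.one_of_mem ⟨x, Or.inr rfl⟩
  rw [map_mul, map_mul] at h
  exact h

private lemma contr_UOri {F : Type} (T : Surf F) (o : F → Bool)
    (ho : ∀ d, o (T.α d).1 = xor (o d.1) (T.tw d)) (w : List (F × ZMod 3))
    (hw : T.Contr ((w.map (em_UOri o)).map toArc)) : (ori_UOri T o).Contr w := by
  let g : F × ZMod 3 → PresentedGroup (ori_UOri T o).rels := fun d =>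
    if o d.1 then (PresentedGroup.of (sw_UOri o d))⁻¹ else PresentedGroup.of (sw_UOri o d)
  have hr : ∀ r ∈ T.rels, FreeGroup.lift g r = 1 := by
    rintro r ⟨d, rfl | rfl⟩
    · have h1 := back_UOri (ori_UOri T o) (sw_UOri o d)
      have h2 : (ori_UOri T o).α (sw_UOri o d) = sw_UOri o (T.α d) := by
        change sw_UOri o (T.α (sw_UOri o (sw_UOri o d))) = _
        rw [swsw_UOri]
      rw [h2] at h1
      have h3 := ho d
      cases h4 : o d.1 <;> cases h5 : T.tw d <;> rw [h4, h5] at h3 <;>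
        simp [g, h1, h3, h4]
    · obtain ⟨f, i⟩ := d
      cases h4 : o f
      · have h1 := tri_UOri (ori_UOri T o) (f, i)
        simpa [g, h4, sw_UOri, nxt, Tri.nxt] using h1
      · have h1 := tri_UOri (ori_UOri T o) (f, -(i + 1 + 1) - 1)
        have e1 : -(i + 1 + 1) - 1 + 1 = -(i + 1) - 1 := by ring
        have e2 : -(i + 1) - 1 + 1 = -i - 1 := by ring
        simp only [Tri.nxt, e1, e2] at h1
        simp only [g, h4, sw_UOri, nxt, map_mul, FreeGroup.lift_apply_of, if_true]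
        rw [← mul_inv_rev, ← mul_inv_rev, ← mul_assoc, h1, inv_one]
  have h3 := congrArg (PresentedGroup.toGroup hr) hw
  rw [map_list_prod, List.map_map, List.map_map, List.map_map, map_one] at h3
  unfold Tri.Contr
  rw [← h3]
  congr 1
  refine List.map_congr_left fun x _ => ?_
  have h4 : toArc (em_UOri o x) = (sw_UOri o x, o x.1) := rfl
  have h5 : (sw_UOri o x).1 = x.1 := rfl
  simp only [Function.comp_apply, h4]
  cases h6 : o x.1 <;> simp [g, h5, h6, swsw_UOri]

private lemma sum_UOri {F : Type} (P : Tri F) (φ : F × ZMod 3 → ℤ)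
    (h : ∀ w, P.Closed w → P.Contr w → (w.map φ).sum = 0) (f : F) :
    φ (f, 0) + φ (f, 1) + φ (f, 2) = 0 := by
  have h0 : ∀ d : F × ZMod 3, ∃ n, P.rot^[n] (P.α d) = Tri.nxt d := fun d =>
    ⟨1, by simp [Tri.rot, P.αα]⟩
  have h1 := h [(f, 0), Tri.nxt (f, 0), Tri.nxt (Tri.nxt (f, 0))] (by
      have h2 := h0 (Tri.nxt (Tri.nxt (f, 0)))
      have h3 : Tri.nxt (Tri.nxt (Tri.nxt (f, (0 : ZMod 3)))) = (f, 0) :=
        Prod.ext rfl (show (0 + 1 + 1 + 1 : ZMod 3) = 0 by decide)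
      rw [h3] at h2
      simp only [Tri.Closed, List.cons_append, List.nil_append, List.isChain_cons_cons,
        List.isChain_singleton, and_true]
      exact ⟨h0 _, h0 _, h2, h0 _, h0 _⟩)
    (by
      have h2 := tri_UOri P (f, 0)
      simpa [Tri.Contr, mul_assoc] using h2)
  simp only [List.map_cons, List.map_nil, List.sum_cons, List.sum_nil, add_zero] at h1
  rw [add_assoc]
  exact h1

/-- the orientable case -/
theorem tension_ori (p q : ℕ) (hq : 0 < q) (hp : 4 * q < p) : ∃ c : ℕ, ∀ (F : Type) [Fintype F]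
    (T : Surf F) (o : F → Bool), (∀ d, o (T.α d).1 = xor (o d.1) (T.tw d)) → T.Connected →
    T.MinDeg c → (∀ w, T.Closed w → w.length < c → T.Contr w) →
    ∃ φ : F × ZMod 3 → ℤ, (∀ d, φ (T.α d) = if T.tw d then φ d else -φ d) ∧
      (∀ d, (q : ℤ) ≤ |φ d| ∧ |φ d| ≤ p - q) ∧ ∀ f, ∑ i, φ (f, i) = 0 := by
  obtain ⟨c, hc⟩ := Tri.tension p q hq hp
  refine ⟨c, fun F _ T o ho hn hd hw => ?_⟩
  have hα : ∀ d, (ori_UOri T o).α (sw_UOri o d) = sw_UOri o (T.α d) := fun d => by
    change sw_UOri o (T.α (sw_UOri o (sw_UOri o d))) = _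
    rw [swsw_UOri]
  obtain ⟨ψ, h1, h2, h3⟩ := hc F (ori_UOri T o)
    (fun X hX hX' => by
      obtain ⟨d, d1, d2⟩ := hn X hX hX'
      exact ⟨sw_UOri o d, d1, by rw [hα]; exact d2⟩)
    (fun d n n1 n2 h => T.dbl_minDeg hd (em_UOri o d) n n1 n2 (by
      rw [← em_rot_UOri T o ho, h]))
    (fun w w1 w2 => contr_UOri T o ho w (hw _ (T.dbl_closed (by
      unfold Tri.Closed at w1 ⊢
      rw [← List.map_append, List.isChain_map]
      refine w1.imp fun a b ⟨n, hn⟩ => ⟨n, ?_⟩
      rw [← em_alpha_UOri T o ho, ← em_rot_UOri T o ho, hn])) (by simpa using w2)))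
  refine ⟨fun d => if o d.1 then -ψ (sw_UOri o d) else ψ (sw_UOri o d), fun d => ?_,
    fun d => ?_, fun f => ?_⟩
  · have h4 := h1 (sw_UOri o d)
    rw [hα] at h4
    have h5 := ho d
    cases h6 : o d.1 <;> cases h7 : T.tw d <;> rw [h6, h7] at h5 <;> simp [h4, h5, h6]
  · have h4 := h2 (sw_UOri o d)
    cases h6 : o d.1 <;> simpa [h6] using h4
  · have h4 := sum_UOri _ ψ h3 f
    have h5 : ∀ g : ZMod 3 → ℤ, ∑ i, g i = g 0 + g 1 + g 2 := fun g => Fin.sum_univ_three g
    rw [h5]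
    cases h6 : o f
    · simpa [h6, sw_UOri] using h4
    · have e0 : (-0 - 1 : ZMod 3) = 2 := by decide
      have e1 : (-1 - 1 : ZMod 3) = 1 := by decide
      have e2 : (-2 - 1 : ZMod 3) = 0 := by decide
      simp only [h6, sw_UOri, if_true, e0, e1, e2]
      omega

end Surf

end Pool.Agent.MP_9a3194_co
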