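import Pool.Agent.MP_9a3194_co.ULift
import Pool.Agent.MP_9a3194_co.UOri
import Pool.Agent.MP_9a3194_co.UCore
import Pool.Agent.MP_9a3194_co.TDown

open Finset
open scoped symmDiff

namespace Pool.Agent.MP_9a3194_co

namespace Surf

private lemma out_add_UFin {F : Type} [DecidableEq F] (T : Surf F) (X : Finset F)
    (S : Finset (F × ZMod 3)) (hS : ∀ d ∈ S, d.1 ∈ X ∧ (T.α d).1 ∈ X) :
    (T.dbl.out (X ×ˢ univ)).card + S.card * 2 ≤ X.card * 6 := by
  set O : Finset (F × ZMod 3) := (X ×ˢ univ).filter fun d => (T.α d).1 ∉ X with hO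
  have h1 : Disjoint O S := disjoint_left.2 fun d h h' => (mem_filter.1 h).2 (hS d h').2
  have h2 : O ∪ S ⊆ X ×ˢ univ := union_subset (filter_subset _ _) fun d h =>
    mem_product.2 ⟨(hS d h).1, mem_univ _⟩
  have h3 := card_le_card h2
  rw [card_union_of_disjoint h1, card_product] at h3
  have h4 : (T.dbl.out (X ×ˢ univ)).card ≤ (O ×ˢ (univ : Finset Bool)).card :=
    card_le_card_of_injOn toArc
      (fun x hx => by
        have h5 := mem_filter.1 (mem_coe.1 hx)
        have h6 := (mem_product.1 (mem_product.1 h5.1).1).1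
        refine mem_coe.2 (mem_product.2 ⟨mem_filter.2 ⟨mem_product.2 ⟨h6, mem_univ _⟩, ?_⟩,
          mem_univ _⟩)
        exact fun h7 => h5.2 (mem_product.2 ⟨h7, mem_univ _⟩))
      fun x _ y _ h => by rw [← ofArc_toArc x, h, ofArc_toArc]
  rw [card_product] at h4
  simp only [card_univ, ZMod.card, Fintype.card_bool] at h3 h4
  omega

/-- the case of a connected orientation cover -/
theorem tension_non (p q : ℕ) (hq : 0 < q) (hp : 4 * q < p) : ∃ c : ℕ, ∀ (F : Type) [Fintype F]
    (T : Surf F), T.dbl.Connected → T.MinDeg c → (∀ w, T.Closed w → w.length < c → T.Contr w) →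
    ∃ φ : F × ZMod 3 → ℤ, (∀ d, φ (T.α d) = if T.tw d then φ d else -φ d) ∧
      (∀ d, (q : ℤ) ≤ |φ d| ∧ |φ d| ≤ p - q) ∧ ∀ f, ∑ i, φ (f, i) = 0 := by
  classical
  obtain ⟨c₀, hc₀⟩ := core2 p q hq hp
  refine ⟨18 * max c₀ 6, fun F _ T hn hd hw => ?_⟩
  rcases isEmpty_or_nonempty F with hF | ⟨⟨f₀⟩⟩
  · exact ⟨fun _ => 0, fun d => hF.elim d.1, fun d => hF.elim d.1, fun f => hF.elim f⟩
  have hcard : 18 * max c₀ 6 ≤ Fintype.card F * 3 := by
    have h1 := (hd (f₀, 0)).trans (Set.ncard_le_card _)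
    simpa using h1
  have hI := T.dbl.iso_down (c := max c₀ 6) (by omega) hn (T.dbl_minDeg hd) fun w h1 h2 =>
    T.dbl_contr h1 (hw _ (T.dbl_closed h1) (by rw [List.length_map]; omega))
  have hI' : ∀ X : Finset F, 0 < X.card → X.card ≤ 2 →
      X.card * 2 + 2 ≤ (T.dbl.out (X ×ˢ univ)).card := fun X h1 h2 => by
    have h3 := card_compl (X ×ˢ (univ : Finset Bool))
    have h5 : (X ×ˢ (univ : Finset Bool)).card = X.card * 2 := by simp
    rw [h5, Fintype.card_prod, Fintype.card_bool] at h3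
    have h4 := hI (X ×ˢ univ) (card_pos.1 (by omega)) (card_pos.1 (by omega))
    omega
  have hne : ∀ d, (T.α d).1 ≠ d.1 := fun d h => by
    have h1 := hI' {d.1} (by simp) (by simp)
    have h2 := out_add_UFin T {d.1} {d, T.α d} (by simp [h, T.αα])
    rw [card_pair (T.αne d).symm] at h2
    simp only [card_singleton] at h1 h2
    omega
  have hinj : ∀ f, Function.Injective fun i => (T.α (f, i)).1 := fun f i j h => by
    by_contra hij
    have h0 : ({f, (T.α (f, i)).1} : Finset F).card = 2 := card_pair (hne (f, i)).symm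
    have h1 := hI' {f, (T.α (f, i)).1} (by omega) (by omega)
    have h' : (T.α (f, j)).1 = (T.α (f, i)).1 := h.symm
    have h2 := out_add_UFin T {f, (T.α (f, i)).1} {(f, i), (f, j), T.α (f, i), T.α (f, j)}
      (by simp [h', T.αα])
    have e1 : ∀ a b, (f, a) ≠ T.α (f, b) := fun a b e => hne (f, b) (congrArg Prod.fst e).symm
    have e2 : T.α (f, i) ≠ T.α (f, j) := fun e => hij (by
      have := congrArg T.α e
      rw [T.αα, T.αα] at this
      exact congrArg Prod.snd this)
    have h3 : ({(f, i), (f, j), T.α (f, i), T.α (f, j)} : Finset (F × ZMod 3)).card = 4 := by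
      rw [card_insert_of_notMem (by simp [hij, e1]), card_insert_of_notMem (by simp [e1]),
        card_pair e2]
    omega
  let G : SimpleGraph F :=
    { Adj := fun f f' => ∃ i, (T.α (f, i)).1 = f'
      symm := ⟨by
        rintro f f' ⟨i, rfl⟩
        exact ⟨(T.α (f, i)).2, by rw [Prod.mk.eta, T.αα]⟩⟩
      loopless := ⟨fun f ⟨i, h⟩ => hne (f, i) h⟩ }
  have hN : ∀ f, G.neighborFinset f = univ.image fun i => (T.α (f, i)).1 := fun f => by
    ext f'
    simp only [SimpleGraph.mem_neighborFinset, mem_image, mem_univ, true_and]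
    rfl
  let sg : F → F → Bool := fun f f' => decide (∃ i, (T.α (f, i)).1 = f' ∧ T.tw (f, i) = true)
  have hsg : ∀ d, sg d.1 (T.α d).1 = T.tw d := fun d => by
    rw [Bool.eq_iff_iff, decide_eq_true_iff]
    constructor
    · rintro ⟨i, h1, h2⟩
      obtain rfl : i = d.2 := hinj d.1 h1
      exact h2
    · exact fun h => ⟨d.2, rfl, h⟩
  have hsym : ∀ u v, sg u v = true → sg v u = true := fun u v h => by
    obtain ⟨i, rfl, h2⟩ := decide_eq_true_iff.1 h
    have h3 := hsg (T.α (u, i))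
    rw [T.αα, T.twα, h2] at h3
    exact h3
  obtain ⟨f, f1, f2, f3⟩ := hc₀ F G sg
    (fun v => by
      rw [← SimpleGraph.card_neighborFinset_eq_degree, hN, card_image_of_injective _ (hinj v)]
      simp)
    (fun u v => Bool.eq_iff_iff.2 ⟨hsym u v, hsym v u⟩) (by omega) fun X h1 h2 => by
      have h3 := hI X h1 h2
      have h4 : (T.dbl.out X).card ≤ ((X ×ˢ univ).filter fun z : (F × Bool) × F =>
          G.Adj z.1.1 z.2 ∧ (z.2, xor z.1.2 (sg z.1.1 z.2)) ∉ X).card :=
        card_le_card_of_injOn (fun x => (x.1, (T.α (toArc x).1).1))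
          (fun x hx => by
            have h5 := mem_filter.1 (mem_coe.1 hx)
            refine mem_coe.2 (mem_filter.2 ⟨mem_product.2 ⟨(mem_product.1 h5.1).1, mem_univ _⟩,
              ⟨(toArc x).1.2, rfl⟩, ?_⟩)
            have h6 : sg x.1.1 (T.α (toArc x).1).1 = T.tw (toArc x).1 := hsg (toArc x).1
            simp only [h6]
            exact h5.2)
          fun x _ y _ h => by
            obtain ⟨h5, h6⟩ := Prod.mk.inj h
            have h7 : (toArc x).1.1 = (toArc y).1.1 := (congrArg Prod.fst h5 : x.1.1 = y.1.1)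
            have h8 : (toArc x).2 = (toArc y).2 := (congrArg Prod.snd h5 : x.1.2 = y.1.2)
            have h9 : (toArc x).1.2 = (toArc y).1.2 := hinj (toArc x).1.1 (by
              simp only [Prod.mk.eta]
              rw [h7]
              exact h6)
            rw [← ofArc_toArc x, Prod.ext (Prod.ext h7 h9) h8, ofArc_toArc]
      omega
  refine ⟨fun d => f d.1 (T.α d).1, fun d => ?_, fun d => f2 _ _ ⟨d.2, rfl⟩, fun t => ?_⟩
  · have h1 := f1 d.1 (T.α d).1 ⟨d.2, rfl⟩
    rw [hsg] at h1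
    simp only [T.αα]
    exact h1
  · have h2 := f3 t
    rwa [hN, sum_image fun i _ j _ h => hinj t h] at h2

theorem MinDeg.mono {F : Type} {T : Surf F} {c c' : ℕ} (h : T.MinDeg c) (hc : c' ≤ c) :
    T.MinDeg c' := fun x => hc.trans (h x)

/-- local tensions on all surfaces -/
theorem tension (p q : ℕ) (hq : 0 < q) (hp : 4 * q < p) : ∃ c : ℕ, ∀ (F : Type) [Fintype F]
    (T : Surf F), T.Connected → T.MinDeg c → (∀ w, T.Closed w → w.length < c → T.Contr w) →
    ∃ φ : F × ZMod 3 → ℤ, (∀ d, φ (T.α d) = if T.tw d then φ d else -φ d) ∧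
      (∀ d, (q : ℤ) ≤ |φ d| ∧ |φ d| ≤ p - q) ∧
      ∀ w, T.Closed w → T.Contr w →
        (w.map fun e => if e.2 then -φ e.1 else φ e.1).sum = 0 := by
  obtain ⟨c₁, h₁⟩ := tension_ori p q hq hp
  obtain ⟨c₂, h₂⟩ := tension_non p q hq hp
  refine ⟨max c₁ c₂, fun F _ T hn hd hw => ?_⟩
  have key : ∃ φ : F × ZMod 3 → ℤ, (∀ d, φ (T.α d) = if T.tw d then φ d else -φ d) ∧
      (∀ d, (q : ℤ) ≤ |φ d| ∧ |φ d| ≤ p - q) ∧ ∀ f, ∑ i, φ (f, i) = 0 := by
    by_cases h : T.dbl.Connected
    · exact h₂ F T h (hd.mono (le_max_right _ _)) fun w h1 h2 =>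
        hw w h1 (h2.trans_le (le_max_right _ _))
    · obtain ⟨o, ho⟩ := T.exists_orient hn h
      exact h₁ F T o ho hn (hd.mono (le_max_left _ _)) fun w h1 h2 =>
        hw w h1 (h2.trans_le (le_max_left _ _))
  obtain ⟨φ, h1, h2, h3⟩ := key
  exact ⟨φ, h1, h2, fun w _ hw => T.height_zero φ h1 h3 w hw⟩

end Surf

end Pool.Agent.MP_9a3194_co
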