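import Pool.Agent.MP_9a3194_co.UAux

open Finset
open scoped symmDiff

namespace Pool.Agent.MP_9a3194_co

variable {T E : Type} [Fintype T] [DecidableEq T] [Fintype E] [DecidableEq E]

omit [DecidableEq E] in
private theorem basis_ULatA (b : E → T → ℤ) (h : ann b univ = ⊥) :
    ∃ B : T → E, (Matrix.of fun s t => (b (B s) t : ℝ)).det ≠ 0 := by
  have h1 : Submodule.span ℝ (Set.range fun e t => (b e t : ℝ)) = ⊤ := by
    by_contra h2
    obtain ⟨f, f0, hf⟩ := Submodule.exists_dual_map_eq_bot_of_lt_top (Ne.lt_top h2) inferInstance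
    have h3 : (fun t => f fun j => if t = j then 1 else 0) ∈ ann b univ := fun e _ => by
      have : f (fun t => (b e t : ℝ)) = 0 := by
        rw [← Submodule.mem_bot ℝ, ← hf]
        exact Submodule.mem_map_of_mem (Submodule.subset_span ⟨e, rfl⟩)
      rwa [LinearMap.pi_apply_eq_sum_univ] at this
    rw [h, Submodule.mem_bot] at h3
    refine f0 (LinearMap.ext fun x => ?_)
    rw [LinearMap.pi_apply_eq_sum_univ]
    exact Finset.sum_eq_zero fun t _ => by rw [congrFun h3 t, Pi.zero_apply, smul_zero]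
  obtain ⟨κ, c, -, h2, h3⟩ := exists_linearIndependent' ℝ fun e t => (b e t : ℝ)
  rw [h1] at h2
  let e := (Pi.basisFun ℝ T).indexEquiv (Module.Basis.mk h3 h2.ge)
  refine ⟨fun t => c (e t), ?_⟩
  have h4 := h3.comp e e.injective
  exact ((Matrix.isUnit_iff_isUnit_det _).1
    (Matrix.linearIndependent_rows_iff_isUnit.1 h4)).ne_zero

/-- a cheap basis -/
theorem prim2 (b : E → T → ℤ) (a : E → ℝ) (ha : ∀ e, 0 ≤ a e)
    (hr : ∀ F : Finset E, (Module.finrank ℝ (ann b F) : ℝ) ≤ ∑ e ∈ Fᶜ, a e) (k : E → ℕ) :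
    ∃ B : T → E, (Matrix.of fun s t => b (B s) t).det ≠ 0 ∧
      ∑ t, (k (B t) : ℝ) ≤ ∑ e, a e * k e := by
  classical
  have h0 : ann b univ = ⊥ := by
    have := hr univ
    rw [compl_univ, sum_empty] at this
    exact Submodule.finrank_eq_zero.1 (by exact_mod_cast le_antisymm this (Nat.cast_nonneg _))
  obtain ⟨B₀, hB₀⟩ := basis_ULatA b h0
  obtain ⟨B, hB, hmin⟩ := Finset.exists_min_image
    (univ.filter fun B : T → E => (Matrix.of fun s t => (b (B s) t : ℝ)).det ≠ 0)
    (fun B => ∑ t, k (B t)) ⟨B₀, by simpa using hB₀⟩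
  obtain ⟨M, hM⟩ : ∃ M : Matrix T T ℝ, M = Matrix.of fun s t => (b (B s) t : ℝ) := ⟨_, rfl⟩
  have hd : M.det ≠ 0 := hM ▸ (mem_filter.1 hB).2
  refine ⟨B, fun h => hd ?_, ?_⟩
  · have := Int.cast_det (R := ℝ) (Matrix.of fun s t => b (B s) t)
    rw [h, Int.cast_zero] at this
    rw [hM]
    exact this.symm
  have ex : ∀ e t, ∑ s, (b e s : ℝ) * M⁻¹ s t ≠ 0 → k (B t) ≤ k e := fun e t h => by
    have h1 : (fun s => (b e s : ℝ)) = ∑ u, (∑ s, (b e s : ℝ) * M⁻¹ s u) • M u := by
      have := Matrix.vecMul_vecMul (fun s => (b e s : ℝ)) M⁻¹ M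
      rw [Matrix.nonsing_inv_mul _ hd.isUnit, Matrix.vecMul_one, Matrix.vecMul_eq_sum] at this
      exact this.symm
    have h2 : (Matrix.of fun s u => (b (Function.update B t e s) u : ℝ)) =
        M.updateRow t fun s => (b e s : ℝ) := by
      ext s u
      by_cases hs : s = t
      · simp [hs]
      · simp [hs, hM]
    have h3 := hmin (Function.update B t e) (by
      rw [mem_filter, h2, h1, Matrix.det_updateRow_sum]
      exact ⟨mem_univ _, smul_ne_zero h hd⟩)
    have h4 : ∑ s, k (Function.update B t e s) =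
        ∑ s, Function.update (fun s => k (B s)) t (k e) s :=
      Finset.sum_congr rfl fun s _ => by by_cases hs : s = t <;> simp [hs]
    rw [h4, Finset.sum_update_of_mem (mem_univ t), ← Finset.add_sum_erase _ _ (mem_univ t),
      sdiff_singleton_eq_erase] at h3
    omega
  have key : ∀ j : ℕ, ∑ t, (if j < k (B t) then (1 : ℝ) else 0) ≤
      ∑ e, a e * (if j < k e then 1 else 0) := fun j => by
    have h1 : ∀ t : {t // j < k (B t)}, M⁻¹.col t.1 ∈ ann b (univ.filter fun e => j < k e)ᶜ :=
      fun t e he => by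
        by_contra h
        have h2 := ex e t.1 h
        have h3 := t.2
        simp only [mem_compl, mem_filter, mem_univ, true_and] at he
        omega
    have h2 : LinearIndependent ℝ fun t : {t // j < k (B t)} =>
        (⟨_, h1 t⟩ : ann b (univ.filter fun e => j < k e)ᶜ) :=
      LinearIndependent.of_comp (Submodule.subtype _)
        ((Matrix.linearIndependent_cols_iff_isUnit.2 (Matrix.isUnit_nonsing_inv_iff.2
          ((Matrix.isUnit_iff_isUnit_det _).2 hd.isUnit))).comp _ Subtype.val_injective)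
    have h3 := h2.fintype_card_le_finrank
    have h4 := hr (univ.filter fun e => j < k e)ᶜ
    rw [Fintype.card_subtype] at h3
    rw [compl_compl, sum_filter] at h4
    rw [Finset.sum_boole]
    refine ((Nat.cast_le.2 h3).trans h4).trans (le_of_eq ?_)
    simp
  obtain ⟨K, hK⟩ : ∃ K, ∀ e, k e ≤ K := ⟨univ.sup k, fun e => Finset.le_sup (f := k) (mem_univ e)⟩
  have hk : ∀ e, (k e : ℝ) = ∑ j ∈ range K, if j < k e then (1 : ℝ) else 0 := fun e => by
    rw [Finset.sum_boole]
    have : ((range K).filter fun j => j < k e) = range (k e) := by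
      ext j
      have := hK e
      simp only [mem_filter, mem_range]
      omega
    rw [this, card_range]
  simp only [hk, Finset.mul_sum]
  rw [Finset.sum_comm, Finset.sum_comm (s := (univ : Finset E))]
  exact Finset.sum_le_sum fun j _ => key j

end Pool.Agent.MP_9a3194_co
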