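import Pool.Agent.MP_9a3194_co.UAux
import Pool.Agent.MP_9a3194_co.LatB

open Finset
open scoped symmDiff

namespace Pool.Agent.MP_9a3194_co

open Matrix

variable {T E : Type} [Fintype T] [DecidableEq T] [Fintype E] [DecidableEq E]

private theorem det_rank_one_ULatB {A : Matrix T T ℝ} (hA : IsUnit A.det) (c : ℝ) (b : T → ℝ) :
    (A + c • vecMulVec b b).det = A.det * (1 + c * (b ⬝ᵥ A⁻¹ *ᵥ b)) := by
  have h1 : c • vecMulVec b b = replicateCol Unit (c • b) * replicateRow Unit b := by
    rw [← vecMulVec_eq]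
    ext i j
    simp [vecMulVec_apply, mul_assoc]
  rw [h1, det_add_replicateCol_mul_replicateRow hA, det_unique (n := Unit), Matrix.add_apply,
    Matrix.one_apply_eq, Matrix.mul_assoc, ← replicateCol_mulVec,
    replicateRow_mul_replicateCol_apply, mulVec_smul, dotProduct_smul, smul_eq_mul]

omit [DecidableEq T] in
private theorem psd_ULatB {c : ℝ} (hc : 0 ≤ c) (b : T → ℝ) : (c • vecMulVec b b).PosSemidef := by
  have h := posSemidef_vecMulVec_self_star b
  rw [star_trivial] at h
  exact h.smul hc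

omit [Fintype E] in
private theorem add_edges_ULatB {A : Matrix T T ℝ} (hA : A.PosDef) (c : E → ℝ)
    (hc : ∀ e, 0 < c e) (b : E → T → ℝ) (s : Finset E) :
    (A + ∑ e ∈ s, c e • vecMulVec (b e) (b e)).PosDef ∧
      A.det ≤ (A + ∑ e ∈ s, c e • vecMulVec (b e) (b e)).det := by
  induction s using Finset.induction_on with
  | empty => simpa using hA
  | insert e s he ih =>
    rw [Finset.sum_insert he, add_comm (c e • _), ← add_assoc]
    refine ⟨ih.1.add_posSemidef (psd_ULatB (hc e).le _), ih.2.trans ?_⟩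
    rw [det_rank_one_ULatB (isUnit_iff_ne_zero.2 ih.1.det_pos.ne')]
    have h1 := ih.1.inv.posSemidef.dotProduct_mulVec_nonneg (b e)
    rw [star_trivial] at h1
    have h2 := mul_nonneg (hc e).le h1
    exact le_mul_of_one_le_right ih.1.det_pos.le (by linarith)

theorem gram_basis (b : E → T → ℤ) (c : E → ℝ) (hc : ∀ e, 0 < c e) (B : T → E)
    (hB : (Matrix.of fun s t => b (B s) t).det ≠ 0) :
    (gram b c).PosDef ∧ ∏ t, c (B t) ≤ (gram b c).det := by
  have hinj : Function.Injective B := fun s t e => by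
    by_contra hne
    exact hB (det_zero_of_row_eq hne (funext fun x => by simp [e]))
  let M : Matrix T T ℝ := Matrix.of fun s t => (b (B s) t : ℝ)
  have hM : M.det = ((Matrix.of fun s t => b (B s) t).det : ℤ) := by
    rw [Int.cast_det]
    rfl
  have h1 : 1 ≤ M.det * M.det := by
    rw [hM, ← Int.cast_mul]
    exact_mod_cast Int.add_one_le_of_lt (mul_self_pos.2 hB)
  have hBu : IsUnit M := (isUnit_iff_isUnit_det M).2 (isUnit_iff_ne_zero.2 fun h => by
    rw [h] at h1
    norm_num at h1)
  have hP : (Mᴴ * diagonal (fun t => c (B t)) * M).PosDef :=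
    (PosDef.diagonal fun t => hc (B t)).conjTranspose_mul_mul_same
      (mulVec_injective_iff_isUnit.2 hBu)
  have hD : ∏ t, c (B t) ≤ (Mᴴ * diagonal (fun t => c (B t)) * M).det := by
    rw [det_mul, det_mul, det_conjTranspose, star_trivial, det_diagonal, mul_right_comm]
    exact le_mul_of_one_le_left (Finset.prod_nonneg fun t _ => (hc _).le) h1
  have hS : Mᴴ * diagonal (fun t => c (B t)) * M =
      ∑ s, c (B s) • vecMulVec (fun t => (b (B s) t : ℝ)) fun t => (b (B s) t : ℝ) := by
    ext i j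
    rw [Matrix.mul_apply, Matrix.sum_apply]
    refine Finset.sum_congr rfl fun t _ => ?_
    rw [mul_diagonal, conjTranspose_apply, star_trivial, Matrix.smul_apply, vecMulVec_apply,
      smul_eq_mul]
    simp only [M, of_apply]
    ring
  have hL : gram b c = Mᴴ * diagonal (fun t => c (B t)) * M + ∑ e ∈ (univ.image B)ᶜ,
      c e • vecMulVec (fun t => (b e t : ℝ)) fun t => (b e t : ℝ) := by
    rw [hS, gram, ← Finset.sum_add_sum_compl (univ.image B), Finset.sum_image hinj.injOn]
  have := add_edges_ULatB hP c hc (fun e t => (b e t : ℝ)) (univ.image B)ᶜ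
  rw [hL]
  exact ⟨this.1, hD.trans this.2⟩

theorem gram_half (b : E → T → ℤ) (c : E → ℝ) (h : (gram b c).PosDef) (e : E) :
    (gram b (Function.update c e (c e / 2))).det = (gram b c).det *
      (1 - c e / 2 * ((fun t => (b e t : ℝ)) ⬝ᵥ (gram b c)⁻¹ *ᵥ fun t => (b e t : ℝ))) := by
  have h1 : gram b (Function.update c e (c e / 2)) = gram b c +
      (-(c e / 2)) • vecMulVec (fun t => (b e t : ℝ)) fun t => (b e t : ℝ) := by
    rw [gram, gram, ← Finset.add_sum_erase _ _ (Finset.mem_univ e),
      ← Finset.add_sum_erase _ _ (Finset.mem_univ e), Function.update_self, add_right_comm,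
      ← add_smul, show c e + -(c e / 2) = c e / 2 by ring]
    congr 1
    exact Finset.sum_congr rfl fun x hx => by rw [Function.update_of_ne (Finset.ne_of_mem_erase hx)]
  rw [h1, det_rank_one_ULatB (isUnit_iff_ne_zero.2 h.det_pos.ne'), neg_mul, ← sub_eq_add_neg]

omit [DecidableEq T] [DecidableEq E] in
theorem gram_mulVec (b : E → T → ℤ) (c : E → ℝ) (φ : T → ℝ) (t : T) :
    (gram b c *ᵥ φ) t = ∑ e, c e * (∑ s, (b e s : ℝ) * φ s) * b e t := by
  have h0 : ∀ (a : T → ℝ) (s : T), (vecMulVec a a *ᵥ φ) s = (a ⬝ᵥ φ) * a s := by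
    intro a s
    rw [vecMulVec_mulVec]
    simp [mul_comm]
  simp only [gram, sum_mulVec, smul_mulVec, Finset.sum_apply, Pi.smul_apply, h0, smul_eq_mul,
    mul_assoc, dotProduct]

end Pool.Agent.MP_9a3194_co
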