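import Pool.Agent.MP_9a3194_co.ULatA
import Pool.Agent.MP_9a3194_co.ULatB

open Finset
open scoped symmDiff

namespace Pool.Agent.MP_9a3194_co

open Matrix

variable {T E : Type} [Fintype T] [DecidableEq T] [Fintype E] [DecidableEq E]

omit [Fintype E] [DecidableEq E] [DecidableEq T] in
private lemma symm_ULatC (M : Matrix T T ℝ) (hM : M.IsHermitian) (x y : T → ℝ) :
    x ⬝ᵥ M *ᵥ y = y ⬝ᵥ M *ᵥ x := by
  have h : Mᵀ = M := by
    have := hM.eq
    rwa [conjTranspose_eq_transpose_of_trivial] at this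
  rw [dotProduct_mulVec, ← mulVec_transpose, h, dotProduct_comm]

omit [Fintype T] [DecidableEq T] [DecidableEq E] in
private lemma delta_ULatC (a : E → ℝ) (ha : ∀ e, 0 < a e) :
    ∃ δ : ℝ, 0 < δ ∧ ∀ e, δ ≤ 0.2 * a e := by
  rcases isEmpty_or_nonempty E with h | h
  · exact ⟨1, one_pos, fun e => (h.false e).elim⟩
  · obtain ⟨e₀, he₀⟩ := Finite.exists_min a
    refine ⟨0.2 * a e₀, by have := ha e₀; positivity, fun e => ?_⟩
    have := he₀ e
    linarith

omit [Fintype E] [DecidableEq E] [DecidableEq T] in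
private lemma expand_ULatC (M : Matrix T T ℝ) (hM : M.IsHermitian) (y b : T → ℝ) (s : ℝ) :
    (y + s • b) ⬝ᵥ M *ᵥ (y + s • b) =
      y ⬝ᵥ M *ᵥ y + 2 * s * (b ⬝ᵥ M *ᵥ y) + s ^ 2 * (b ⬝ᵥ M *ᵥ b) := by
  rw [mulVec_add, mulVec_smul, add_dotProduct, dotProduct_add, dotProduct_add, smul_dotProduct,
    smul_dotProduct, dotProduct_smul, dotProduct_smul, symm_ULatC M hM y b]
  simp only [smul_eq_mul]
  ring

theorem weights2 (b : E → T → ℤ) (a : E → ℝ) (ha : ∀ e, 0 < a e)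
    (hr : ∀ F : Finset E, (Module.finrank ℝ (ann b F) : ℝ) ≤ ∑ e ∈ Fᶜ, a e) :
    ∃ c : E → ℝ, (∀ e, 0 < c e ∧ c e ≤ 1) ∧ (gram b c).PosDef ∧
      ∀ e, c e * ((fun t => (b e t : ℝ)) ⬝ᵥ (gram b c)⁻¹ *ᵥ fun t => (b e t : ℝ)) ≤
        1.45 * a e := by
  let c : (E → ℕ) → E → ℝ := fun k e => (1 / 2) ^ k e
  have hc0 : ∀ k e, 0 < c k e := fun k e => by positivity
  let Φ : (E → ℕ) → ℝ := fun k => Real.log (gram b (c k)).det + Real.log 2 * ∑ e, a e * k e
  have h2 : 0 < Real.log 2 := Real.log_pos one_lt_two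
  have key : ∀ k, (gram b (c k)).PosDef ∧ 0 ≤ Φ k := fun k => by
    obtain ⟨par, hp, hs⟩ := prim2 b a (fun e => (ha e).le) hr k
    obtain ⟨h1, h3⟩ := gram_basis b (c k) (hc0 k) par hp
    refine ⟨h1, ?_⟩
    have h4 := Real.log_le_log (Finset.prod_pos fun t _ => hc0 k (par t)) h3
    rw [Real.log_prod fun t _ => (hc0 k (par t)).ne'] at h4
    have h5 : ∑ t, Real.log (c k (par t)) = -(Real.log 2 * ∑ t, (k (par t) : ℝ)) := by
      rw [Finset.mul_sum, ← Finset.sum_neg_distrib]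
      refine Finset.sum_congr rfl fun t _ => ?_
      simp only [c]
      rw [Real.log_pow, one_div, Real.log_inv]
      ring
    have h6 := mul_le_mul_of_nonneg_left hs h2.le
    simp only [Φ]
    linarith
  obtain ⟨ε, hε, hεa⟩ : ∃ ε : ℝ, 0 < ε ∧ ∀ e, ε ≤ 0.03 * a e := by
    rcases isEmpty_or_nonempty E with h | h
    · exact ⟨1, one_pos, fun e => (h.false e).elim⟩
    · obtain ⟨e₀, he₀⟩ := Finite.exists_min a
      exact ⟨0.03 * a e₀, by have := ha e₀; positivity, fun e => by have := he₀ e; linarith⟩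
  have hb : BddBelow (Set.range Φ) := ⟨0, by rintro _ ⟨k, rfl⟩; exact (key k).2⟩
  obtain ⟨k, hk⟩ := exists_lt_of_ciInf_lt (show iInf Φ < iInf Φ + ε by linarith)
  refine ⟨c k, fun e => ⟨hc0 k e, pow_le_one₀ (by norm_num) (by norm_num)⟩, (key k).1,
    fun e => ?_⟩
  have h3 := ciInf_le hb (Function.update k e (k e + 1))
  have h4 : c (Function.update k e (k e + 1)) = Function.update (c k) e (c k e / 2) := by
    funext e'
    by_cases h : e' = e
    · subst h
      simp only [c, Function.update_self, pow_succ]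
      ring
    · simp only [c, Function.update_of_ne h]
  have h5 := gram_half b (c k) (key k).1 e
  have h6 := (key (Function.update k e (k e + 1))).1.det_pos
  have h7 := (key k).1.det_pos
  have h8 : ∑ e', a e' * ((Function.update k e (k e + 1) e' : ℕ) : ℝ) =
      ∑ e', a e' * k e' + a e := by
    have : ∀ e', a e' * ((Function.update k e (k e + 1) e' : ℕ) : ℝ) =
        a e' * k e' + if e' = e then a e else 0 := fun e' => by
      by_cases h : e' = e
      · subst h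
        simp [mul_add]
      · simp [h]
    simp only [this, Finset.sum_add_distrib, Finset.sum_ite_eq', Finset.mem_univ, if_true]
  simp only [Φ] at h3 hk
  rw [h4] at h6
  rw [h4, h8, h5] at h3
  rw [h5] at h6
  set x := (fun t => (b e t : ℝ)) ⬝ᵥ (gram b (c k))⁻¹ *ᵥ fun t => (b e t : ℝ)
  have h9 : 0 < 1 - c k e / 2 * x := (pos_iff_pos_of_mul_pos h6).1 h7
  rw [Real.log_mul h7.ne' h9.ne'] at h3
  have h10 := Real.log_le_sub_one_of_pos h9
  have h11 := mul_le_mul_of_nonneg_right Real.log_two_lt_d9.le (ha e).le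
  have h12 := hεa e
  have h13 := ha e
  nlinarith

/-- every coset of twice the lattice has a point with small coefficients -/
theorem lattice2 (b : E → T → ℤ) (a : E → ℝ) (ha : ∀ e, 0 < a e)
    (hr : ∀ F : Finset E, (Module.finrank ℝ (ann b F) : ℝ) ≤ ∑ e ∈ Fᶜ, a e) (y : T → ℝ) :
    ∃ (m : E → ℤ) (cur : E → ℝ), (∀ e, |cur e| ≤ 3 / 2 * a e) ∧
      ∀ t, y t + 2 * ∑ e, (m e : ℝ) * b e t = ∑ e, cur e * b e t := by
  obtain ⟨c, hc1, hL, hlev⟩ := weights2 b a ha hr
  obtain ⟨δ, hδ, hδa⟩ := delta_ULatC a ha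
  set L := gram b c with hLdef
  have hI : (L⁻¹).PosDef := hL.inv
  have hH : (L⁻¹).IsHermitian := hI.isHermitian
  let Y : (E → ℤ) → T → ℝ := fun m t => y t + 2 * ∑ e, (m e : ℝ) * b e t
  let En : (E → ℤ) → ℝ := fun m => Y m ⬝ᵥ L⁻¹ *ᵥ Y m
  have hEn : ∀ z, 0 ≤ En z := fun z => by
    have := hI.posSemidef.dotProduct_mulVec_nonneg (Y z)
    simpa using this
  have hb : BddBelow (Set.range En) := ⟨0, by rintro _ ⟨k, rfl⟩; exact hEn k⟩
  obtain ⟨z, hz⟩ := exists_lt_of_ciInf_lt (show iInf En < iInf En + δ by linarith)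
  have hmin : ∀ z' : E → ℤ, En z ≤ En z' + δ := fun z' => by
    have := ciInf_le hb z'
    linarith
  set φ : T → ℝ := L⁻¹ *ᵥ Y z with hφ
  have hLφ : L *ᵥ φ = Y z := by
    rw [hφ, mulVec_mulVec, mul_nonsing_inv _ (isUnit_iff_ne_zero.mpr hL.det_pos.ne'), one_mulVec]
  refine ⟨z, fun e => c e * ∑ s, (b e s : ℝ) * φ s, fun e => ?_, fun t => ?_⟩
  · set β : T → ℝ := fun t => (b e t : ℝ) with hβ
    have key : ∀ s : ℤ, En z ≤ En z + 2 * (2 * s) * (β ⬝ᵥ φ) +
        (2 * s) ^ 2 * (β ⬝ᵥ L⁻¹ *ᵥ β) + δ := by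
      intro s
      have hy : Y (z + Pi.single e s) = Y z + (2 * s : ℝ) • β := by
        funext t
        have h0 : ∑ e', (((Pi.single e s : E → ℤ) e' : ℤ) : ℝ) * b e' t = s * b e t := by
          rw [Finset.sum_eq_single e] <;> simp +contextual
        simp only [Y, hβ, Pi.add_apply, Pi.smul_apply, smul_eq_mul, Int.cast_add, add_mul,
          Finset.sum_add_distrib, h0]
        ring
      have h1 := hmin (z + Pi.single e s)
      have h2 : En (z + Pi.single e s) =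
          En z + 2 * (2 * s) * (β ⬝ᵥ φ) + (2 * s) ^ 2 * (β ⬝ᵥ L⁻¹ *ᵥ β) := by
        simp only [En]
        rw [hy, expand_ULatC _ hH]
      linarith
    have k1 := key 1
    have k2 := key (-1)
    push_cast at k1 k2
    have habs : |β ⬝ᵥ φ| ≤ β ⬝ᵥ L⁻¹ *ᵥ β + δ / 4 := by
      rw [abs_le]
      constructor <;> linarith
    have h3 := hlev e
    have h4 := hδa e
    obtain ⟨h5, h6⟩ := hc1 e
    have h7 := mul_le_mul_of_nonneg_left habs h5.le
    have h8 : c e * (δ / 4) ≤ δ / 4 := by nlinarith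
    rw [mul_add] at h7
    have h9 : |c e * ∑ s, (b e s : ℝ) * φ s| = c e * |β ⬝ᵥ φ| := by
      rw [abs_mul, abs_of_pos h5]
      rfl
    rw [h9]
    linarith
  · have h := gram_mulVec b c φ t
    rw [← hLdef, hLφ] at h
    exact h

end Pool.Agent.MP_9a3194_co
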