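import Pool.Agent.MP_9a3194_co.ULatC

open Finset
open scoped symmDiff

namespace Pool.Agent.MP_9a3194_co

private lemma half_ULatD {X : Type} (σ : X → X) (hσ : ∀ x, σ (σ x) = x) :
    ∃ P : X → Prop, ∀ x, σ x ≠ x → (P x ↔ ¬ P (σ x)) := by
  obtain ⟨_, -⟩ := exists_wellFoundedLT X
  refine ⟨fun x => x < σ x, fun x hx => ?_⟩
  simp only [hσ]
  exact ⟨fun h => not_lt.2 h.le, fun h => lt_of_le_of_ne (not_lt.1 h) hx.symm⟩

section

variable {T : Type} [Fintype T] [DecidableEq T]

private lemma cls_ULatD {X : Type} [DecidableEq X] (w : T → T → ℕ) (ev : T → X) (D : Finset X) :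
    ∑ f ∈ D, cutw w (univ.filter fun s => ev s = f) ≤
      ∑ p : T × T, if ev p.1 = ev p.2 then 0 else w p.1 p.2 := by
  have h1 : ∀ f ∈ D, cutw w (univ.filter fun s => ev s = f) =
      ∑ s ∈ univ.filter fun s => ev s = f, ∑ t, if ev s = ev t then 0 else w s t := by
    intro f _
    refine sum_congr rfl fun s hs => ?_
    rw [compl_filter, sum_filter]
    refine sum_congr rfl fun t _ => ?_
    rw [(mem_filter.1 hs).2, ite_not]
    simp only [eq_comm]
  rw [sum_congr rfl h1, sum_fiberwise_eq_sum_filter, Fintype.sum_prod_type]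
  exact sum_le_sum_of_subset (filter_subset _ _)

private lemma cross_ULatD (w : T → T → ℕ) (hs : ∀ s t, w s t = w t s) (A : Finset T) :
    ∑ p : T × T, (w p.1 p.2 : ℝ) * |(if p.1 ∈ A then 1 else 0) - (if p.2 ∈ A then 1 else 0)| =
      2 * cutw w A := by
  have h1 : (cutw w A : ℝ) = ∑ s, ∑ t, if s ∈ A ∧ t ∉ A then (w s t : ℝ) else 0 := by
    rw [cutw]
    push_cast
    rw [← sum_ite_mem_eq A]
    refine sum_congr rfl fun s _ => ?_
    rw [← sum_ite_mem_eq Aᶜ]
    by_cases h : s ∈ A <;> simp [h]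
  have h2 : (cutw w A : ℝ) = ∑ s, ∑ t, if t ∈ A ∧ s ∉ A then (w s t : ℝ) else 0 := by
    rw [h1, sum_comm]
    simp only [hs]
  rw [two_mul, Fintype.sum_prod_type]
  nth_rewrite 1 [h1]
  rw [h2, ← sum_add_distrib]
  refine sum_congr rfl fun s _ => ?_
  rw [← sum_add_distrib]
  refine sum_congr rfl fun t _ => ?_
  by_cases h : s ∈ A <;> by_cases h' : t ∈ A <;> simp [h, h']

private lemma rank_ULatD {W : Type} [AddCommGroup W] [Module ℝ W] (ι : T → T) (w : T → T → ℕ)
    (lam : ℕ) (hc : ∀ A : Finset T, A.Nonempty → Aᶜ.Nonempty → lam ≤ cutw w A)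
    (ev : T → Module.Dual ℝ W) (h1 : ∀ s, ev (ι s) = -ev s)
    (h2 : ∀ φ, (∀ s, ev s φ = 0) → φ = 0) (F : Finset (T × T))
    (hF : ∀ p ∈ F, w p.1 p.2 ≠ 0 → ev p.1 = ev p.2) :
    2 * Module.finrank ℝ W * lam ≤ ∑ p ∈ Fᶜ, w p.1 p.2 := by
  classical
  obtain ⟨P, hP⟩ := half_ULatD (fun f : Module.Dual ℝ W => -f) neg_neg
  have hn : ∀ f : Module.Dual ℝ W, f ≠ 0 → -f ≠ f := fun f hf h => hf (by
    have : (2 : ℝ) • f = 0 := by rw [two_smul]; nth_rewrite 1 [← h]; exact neg_add_cancel f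
    exact (smul_eq_zero.1 this).resolve_left two_ne_zero)
  set D := (univ.image ev).erase 0 with hD
  have hDn : ∀ f ∈ D, -f ∈ D := fun f hf => by
    obtain ⟨h3, h4⟩ := mem_erase.1 hf
    obtain ⟨s, -, rfl⟩ := mem_image.1 h4
    exact mem_erase.2 ⟨neg_ne_zero.2 h3, mem_image.2 ⟨ι s, mem_univ _, h1 s⟩⟩
  have c1 : (D.filter P).card ≤ (D.filter fun f => ¬ P f).card := by
    refine card_le_card_of_injOn (fun f => -f) (fun f hf => ?_) neg_injective.injOn
    obtain ⟨h3, h4⟩ := mem_filter.1 hf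
    exact mem_filter.2 ⟨hDn f h3, (hP f (hn f (mem_erase.1 h3).1)).1 h4⟩
  have c2 := card_filter_add_card_filter_not (s := D) P
  have c3 : Module.finrank ℝ W ≤ (D.filter P).card := by
    have := LinearMap.finrank_le_finrank_of_injective
      (f := LinearMap.pi fun f : D.filter P => f.1) ((injective_iff_map_eq_zero _).2 fun φ h => by
        refine h2 φ fun s => ?_
        by_cases h0 : ev s = 0
        · rw [h0, LinearMap.zero_apply]
        have h3 : ev s ∈ D := mem_erase.2 ⟨h0, mem_image_of_mem _ (mem_univ _)⟩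
        by_cases h4 : P (ev s)
        · exact congrFun h ⟨_, mem_filter.2 ⟨h3, h4⟩⟩
        · have h5 : (-ev s) φ = 0 := congrFun h ⟨_, mem_filter.2 ⟨hDn _ h3,
            not_not.1 fun h5 => h4 ((hP _ (hn _ h0)).2 h5)⟩⟩
          simpa using h5)
    rwa [Module.finrank_fintype_fun_eq_card, Fintype.card_coe] at this
  have c4 : D.card * lam ≤ ∑ f ∈ D, cutw w (univ.filter fun s => ev s = f) := by
    refine card_nsmul_le_sum D _ lam fun f hf => ?_
    obtain ⟨h3, h4⟩ := mem_erase.1 hf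
    obtain ⟨s, -, rfl⟩ := mem_image.1 h4
    exact hc _ ⟨s, by simp⟩ ⟨ι s, by simpa [h1] using hn _ h3⟩
  refine (Nat.mul_le_mul_right lam (by omega)).trans (c4.trans ((cls_ULatD w ev D).trans ?_))
  rw [← sum_ite_mem_eq Fᶜ]
  refine sum_le_sum fun p _ => ?_
  by_cases h3 : ev p.1 = ev p.2
  · simp [h3]
  by_cases h4 : w p.1 p.2 = 0
  · simp [h4]
  · rw [if_neg h3, if_pos (mem_compl.2 fun h => h3 (hF p h h4))]

private lemma main_ULatD {U : Type} [Fintype U] [DecidableEq U] (ι : T → T)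
    (hι : ∀ t, ι (ι t) = t) (hne : ∀ t, ι t ≠ t) (inc : U → T) (rep : T → U) (sg : T → ℤ)
    (r1 : ∀ t, rep (ι t) = rep t) (r2 : ∀ t, sg (ι t) = -sg t) (r3 : ∀ u, rep (inc u) = u)
    (r4 : ∀ u, sg (inc u) = 1) (r5 : ∀ t, t = inc (rep t) ∨ t = ι (inc (rep t)))
    (w : T → T → ℕ) (hs : ∀ s t, w s t = w t s)
    (hw : ∀ s t, w (ι s) (ι t) = w s t) (lam : ℕ) (h0 : 0 < lam)
    (hc : ∀ A : Finset T, A.Nonempty → Aᶜ.Nonempty → lam ≤ cutw w A) (t₀ : T) (q : T → ℝ)
    (hq : ∀ t, q (ι t) = -q t) (par : ℤ) :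
    ∃ z : T → ℤ, (∀ t, z (ι t) = -z t) ∧ (4 : ℤ) ∣ ∑ t, |z t| - 2 * par ∧
      ∀ A : Finset T, ∑ t ∈ A, (q t + 2 * z t) ≤ 3 / lam * cutw w A := by
  have hl : (0 : ℝ) < lam := by exact_mod_cast h0
  have s1 : ∀ t, sg t = 1 ∨ sg t = -1 := fun t => by
    rcases r5 t with h | h
    · left; rw [h, r4]
    · right; rw [h, r2, r4]
  have s2 : ∀ s t, rep s = rep t → t = s ∨ t = ι s := fun s t h => by
    rcases r5 s with h1 | h1 <;> rcases r5 t with h2 | h2 <;> rw [← h] at h2
    · exact Or.inl (h2.trans h1.symm)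
    · exact Or.inr (h2.trans (congrArg ι h1.symm))
    · exact Or.inr (by rw [h2]; nth_rewrite 2 [h1]; rw [hι])
    · exact Or.inl (h2.trans h1.symm)
  have s3 : ∀ s t, sg t * (if rep s = rep t then sg s else 0) =
      (if t = s then 1 else 0) - (if t = ι s then 1 else 0) := fun s t => by
    by_cases h1 : t = s
    · subst h1
      rcases s1 t with h | h <;> simp [h, (hne t).symm]
    by_cases h2 : t = ι s
    · subst h2
      rcases s1 s with h | h <;> simp [h, r1, r2, hne s]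
    · rw [if_neg fun h => (s2 s t h).elim h1 h2, if_neg h1, if_neg h2]
      simp
  have s4 : ∀ t, q t = sg t * q (inc (rep t)) := fun t => by
    rcases r5 t with h | h
    · rw [← h]; nth_rewrite 2 [h]; simp [r4]
    · nth_rewrite 1 [h]; nth_rewrite 2 [h]; simp [r2, r4, hq]
  let b : T × T → U → ℤ := fun p u => if w p.1 p.2 = 0 then 0 else
    (if rep p.1 = u then sg p.1 else 0) - (if rep p.2 = u then sg p.2 else 0)
  let a : T × T → ℝ := fun p => if w p.1 p.2 = 0 then 1 else w p.1 p.2 / (2 * lam)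
  have ha : ∀ p, 0 < a p := fun p => by
    simp only [a]
    split_ifs with h
    · exact one_pos
    · have : (0 : ℝ) < w p.1 p.2 := by exact_mod_cast Nat.pos_of_ne_zero h
      positivity
  obtain ⟨m, cur, hcur, hm⟩ := lattice2 b a ha (fun F => by
    have h1 := rank_ULatD ι w lam hc
      (fun s => (sg s : ℝ) • (LinearMap.proj (rep s) ∘ₗ (ann b F).subtype))
      (fun s => by ext φ; simp [r1, r2]) (fun φ h => by
        ext u
        simpa [r3, r4] using h (inc u)) F (fun p hp h => by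
        ext φ
        have h2 := φ.2 p hp
        simp only [b, if_neg h, Int.cast_sub, Int.cast_ite, Int.cast_zero, sub_mul, ite_mul,
          zero_mul, sum_sub_distrib, sum_ite_eq, mem_univ, if_true] at h2
        simpa using sub_eq_zero.1 h2)
    have h2 : (2 * Module.finrank ℝ (ann b F) * lam : ℝ) ≤ ∑ p ∈ Fᶜ, (w p.1 p.2 : ℝ) := by
      exact_mod_cast h1
    calc (Module.finrank ℝ (ann b F) : ℝ) ≤ (∑ p ∈ Fᶜ, (w p.1 p.2 : ℝ)) / (2 * lam) := by
          rw [le_div_iff₀ (by positivity)]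
          linarith
      _ ≤ _ := by
          rw [sum_div]
          refine sum_le_sum fun p _ => ?_
          simp only [a]
          split_ifs with h
          · simp [h]
          · exact le_rfl) (fun u => q (inc u) + 2 * (if rep t₀ = u then par else 0 : ℤ))
  let z : U → ℤ := fun u => (if rep t₀ = u then par else 0) + ∑ p, m p * b p u
  refine ⟨fun t => sg t * z (rep t), fun t => by simp [r1, r2], ?_, fun A => ?_⟩
  · have h1 : ∀ t, |sg t * z (rep t)| =
        ∑ u, ((if t = inc u then |z u| else 0) + if t = ι (inc u) then |z u| else 0) := fun t => by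
      rw [sum_eq_single (rep t) (fun u _ hu => by
        rw [if_neg fun h => hu (by rw [h, r3]), if_neg fun h => hu (by rw [h, r1, r3]), add_zero])
        (by simp), abs_mul]
      have h2 : |sg t| = 1 := by rcases s1 t with h | h <;> simp [h]
      rw [h2, one_mul]
      rcases r5 t with h | h
      · rw [if_pos h, if_neg fun h' => hne _ (h'.symm.trans h), add_zero]
      · rw [if_pos h, if_neg fun h' => hne _ (h.symm.trans h'), zero_add]
    have h2 : ∑ t, |sg t * z (rep t)| = 2 * ∑ u, |z u| := by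
      simp only [h1]
      rw [sum_comm]
      simp [sum_add_distrib, two_mul]
    have h3 : (2 : ℤ) ∣ ∑ u, (|z u| - z u) := dvd_sum fun u _ => by
      rcases abs_choice (z u) with h | h <;> rw [h] <;> omega
    have h4 : (2 : ℤ) ∣ ∑ p, m p * ∑ u, b p u := dvd_sum fun p _ => Dvd.dvd.mul_left (by
      simp only [b]
      split_ifs
      · simp
      · simp only [sum_sub_distrib, sum_ite_eq, mem_univ, if_true]
        rcases s1 p.1 with h | h <;> rcases s1 p.2 with h' | h' <;> simp [h, h']) _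
    have h5 : ∑ u, z u = par + ∑ p, m p * ∑ u, b p u := by
      simp only [z, sum_add_distrib, sum_ite_eq, mem_univ, if_true, mul_sum]
      rw [sum_comm]
    rw [sum_sub_distrib, h5] at h3
    rw [h2]
    omega
  · have h1 : ∀ t, q t + 2 * ((sg t * z (rep t) : ℤ) : ℝ) =
        ∑ p, cur p * ((sg t * b p (rep t) : ℤ) : ℝ) := fun t => by
      have h2 := hm (rep t)
      have h3 : ∑ p, cur p * ((sg t * b p (rep t) : ℤ) : ℝ) =
          sg t * ∑ p, cur p * (b p (rep t) : ℝ) := by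
        rw [mul_sum]
        refine sum_congr rfl fun p _ => ?_
        push_cast
        ring
      rw [h3, ← h2, s4 t]
      simp only [z]
      push_cast
      ring
    simp only [h1]
    rw [sum_comm]
    have h2 := cross_ULatD w hs A
    have h3 : ∑ p : T × T, (w p.1 p.2 : ℝ) *
        |(if ι p.1 ∈ A then 1 else 0) - (if ι p.2 ∈ A then 1 else 0)| = 2 * cutw w A := by
      rw [← h2]
      exact Fintype.sum_bijective (Prod.map ι ι) ((Function.Involutive.bijective hι).prodMap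
        (Function.Involutive.bijective hι)) _ _ fun p => by simp [hw]
    have h4 : (3 / lam * cutw w A : ℝ) = 3 / (4 * lam) * (2 * cutw w A + 2 * cutw w A) := by
      field_simp
      ring
    rw [h4]
    nth_rewrite 1 [← h2]
    rw [← h3, ← sum_add_distrib, mul_sum]
    refine sum_le_sum fun p _ => ?_
    have h5 := hcur p
    rw [← mul_sum]
    simp only [a, b] at h5 ⊢
    by_cases h : w p.1 p.2 = 0
    · simp [h]
    simp only [if_neg h, mul_sub, s3] at h5 ⊢
    push_cast
    simp only [sum_sub_distrib, sum_ite_eq']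
    generalize (if p.1 ∈ A then (1 : ℝ) else 0) = x1
    generalize (if p.2 ∈ A then (1 : ℝ) else 0) = x2
    generalize (if ι p.1 ∈ A then (1 : ℝ) else 0) = x3
    generalize (if ι p.2 ∈ A then (1 : ℝ) else 0) = x4
    have h6 : |x1 - x3 - (x2 - x4)| ≤ |x1 - x2| + |x3 - x4| :=
      le_trans (le_of_eq (by congr 1; ring)) (abs_sub _ _)
    calc _ ≤ |cur p| * |x1 - x3 - (x2 - x4)| := by rw [← abs_mul]; exact le_abs_self _
      _ ≤ 3 / 2 * (w p.1 p.2 / (2 * lam)) * (|x1 - x2| + |x3 - x4|) := by gcongr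
      _ = _ := by field_simp; ring

end

/-- the lattice lemma on a graph with a free involution -/
theorem symlat {T : Type} [Fintype T] [DecidableEq T] (ι : T → T) (hι : ∀ t, ι (ι t) = t)
    (hne : ∀ t, ι t ≠ t) (w : T → T → ℕ) (hs : ∀ s t, w s t = w t s)
    (hw : ∀ s t, w (ι s) (ι t) = w s t) (lam : ℕ) (h0 : 0 < lam)
    (hc : ∀ A : Finset T, A.Nonempty → Aᶜ.Nonempty → lam ≤ cutw w A) (t₀ : T) (q : T → ℝ)
    (hq : ∀ t, q (ι t) = -q t) (par : ℤ) :
    ∃ z : T → ℤ, (∀ t, z (ι t) = -z t) ∧ (4 : ℤ) ∣ ∑ t, |z t| - 2 * par ∧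
      ∀ A : Finset T, ∑ t ∈ A, (q t + 2 * z t) ≤ 3 / lam * cutw w A := by
  classical
  obtain ⟨P, hP⟩ := half_ULatD ι hι
  have h1 : ∀ t, ¬ P t → P (ι t) := fun t h => not_not.1 fun h' => h ((hP t (hne t)).2 h')
  have h2 : ∀ t, P t → ¬ P (ι t) := fun t => (hP t (hne t)).1
  refine main_ULatD (U := {t // P t}) ι hι hne Subtype.val
    (fun t => if h : P t then ⟨t, h⟩ else ⟨ι t, h1 t h⟩) (fun t => if P t then 1 else -1)
    (fun t => ?_) (fun t => ?_) (fun u => ?_) (fun u => ?_) (fun t => ?_) w hs hw lam h0 hc t₀ q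
    hq par
  · by_cases h : P t
    · simp [h, h2 t h, hι]
    · simp [h, h1 t h]
  · by_cases h : P t
    · simp [h, h2 t h]
    · simp [h, h1 t h]
  · simp [u.2]
  · simp [u.2]
  · by_cases h : P t <;> simp [h, hι]

end Pool.Agent.MP_9a3194_co
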