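import Pool.Agent.MP_9a3194_co.UDbl

open Finset
open scoped symmDiff

namespace Pool.Agent.MP_9a3194_co

namespace Surf

variable {F : Type} (T : Surf F)

/-- the same side traversed backwards on the other sheet -/
private def bar_ULift (x : (F × Bool) × ZMod 3) : (F × Bool) × ZMod 3 := kap (Tri.nxt x)

private theorem nxt_bar_ULift (x : (F × Bool) × ZMod 3) : Tri.nxt (bar_ULift x) = kap x := by
  obtain ⟨⟨f, b⟩, i⟩ := x
  simp [bar_ULift, kap, Tri.nxt]

private theorem bar_bar_ULift (x : (F × Bool) × ZMod 3) : bar_ULift (bar_ULift x) = x := by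
  obtain ⟨⟨f, b⟩, i⟩ := x
  simp [bar_ULift, kap, Tri.nxt]

private theorem nnn_ULift (x : (F × Bool) × ZMod 3) : Tri.nxt (Tri.nxt (Tri.nxt x)) = x := by
  obtain ⟨f, i⟩ := x
  have : ∀ i : ZMod 3, i + 1 + 1 + 1 = i := by decide
  simp only [Tri.nxt, this]

private theorem bar_ofArc_ULift (d : F × ZMod 3) (b : Bool) :
    bar_ULift (ofArc (d, b)) = ofArc (d, !b) := by
  obtain ⟨f, i⟩ := d
  have : ∀ i : ZMod 3, -1 + -i = -i - 1 := by decide
  cases b <;> simp [bar_ULift, kap, Tri.nxt, ofArc, this]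

private theorem alpha_ofArc_ULift (d : F × ZMod 3) (b : Bool) :
    T.dbl.α (ofArc (d, b)) = ofArc (T.α d, xor b (T.tw d)) := by
  simp only [dbl, toArc_ofArc]

private theorem alpha_bar_ULift (x : (F × Bool) × ZMod 3) :
    T.dbl.α (bar_ULift x) = bar_ULift (T.dbl.α x) := by
  rw [← ofArc_toArc x]
  generalize toArc x = e
  obtain ⟨d, b⟩ := e
  rw [bar_ofArc_ULift, alpha_ofArc_ULift, alpha_ofArc_ULift, bar_ofArc_ULift, Bool.not_xor]

private theorem rel1_ULift (x : (F × Bool) × ZMod 3) : T.dbl.gen x * T.dbl.gen (T.dbl.α x) = 1 :=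
  PresentedGroup.one_of_mem (rels := T.dbl.rels) ⟨x, Or.inl rfl⟩

private theorem rel2_ULift (x : (F × Bool) × ZMod 3) :
    T.dbl.gen x * T.dbl.gen (Tri.nxt x) * T.dbl.gen (Tri.nxt (Tri.nxt x)) = 1 :=
  PresentedGroup.one_of_mem (rels := T.dbl.rels) ⟨x, Or.inr rfl⟩

/-- walking along the lift of a directed side -/
private noncomputable def go_ULift (σ : (F × Bool) × ZMod 3 → Bool) (x : (F × Bool) × ZMod 3)
    (p : T.dbl.Grp × Bool) : T.dbl.Grp × Bool :=
  if p.2 = σ x then (p.1 * T.dbl.gen x, σ (Tri.nxt x))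
  else (p.1 * (T.dbl.gen (bar_ULift x))⁻¹, !σ (Tri.nxt x))

private theorem go_pos_ULift (σ : (F × Bool) × ZMod 3 → Bool) (x : (F × Bool) × ZMod 3)
    (g : T.dbl.Grp) : T.go_ULift σ x (g, σ x) = (g * T.dbl.gen x, σ (Tri.nxt x)) := if_pos rfl

private theorem go_neg_ULift (σ : (F × Bool) × ZMod 3 → Bool) (x : (F × Bool) × ZMod 3)
    (g : T.dbl.Grp) : T.go_ULift σ x (g, !σ x) =
      (g * (T.dbl.gen (bar_ULift x))⁻¹, !σ (Tri.nxt x)) := if_neg (by simp)

private theorem go_bar_ULift {σ : (F × Bool) × ZMod 3 → Bool} (h2 : ∀ x, σ (kap x) = !σ x)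
    (x : (F × Bool) × ZMod 3) (p : T.dbl.Grp × Bool) :
    T.go_ULift σ (bar_ULift x) (T.go_ULift σ x p) = p := by
  obtain ⟨g, s⟩ := p
  have e1 : σ (bar_ULift x) = !σ (Tri.nxt x) := h2 _
  have e2 : σ (Tri.nxt (bar_ULift x)) = !σ x := by rw [nxt_bar_ULift, h2]
  rcases Bool.eq_or_eq_not s (σ x) with rfl | rfl
  · rw [go_pos_ULift, ← Bool.not_not (σ (Tri.nxt x)), ← e1, go_neg_ULift, bar_bar_ULift, e2,
      Bool.not_not, mul_inv_cancel_right]
  · rw [go_neg_ULift, ← e1, go_pos_ULift, e2, inv_mul_cancel_right]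

private theorem go_alpha_ULift {σ : (F × Bool) × ZMod 3 → Bool}
    (h1 : ∀ x, σ (T.dbl.rot x) = σ x) (x : (F × Bool) × ZMod 3) (p : T.dbl.Grp × Bool) :
    T.go_ULift σ (T.dbl.α x) (T.go_ULift σ x p) = p := by
  obtain ⟨g, s⟩ := p
  have e1 : σ (Tri.nxt x) = σ (T.dbl.α x) := by
    rw [← h1 (T.dbl.α x), Tri.rot, T.dbl.αα]
  have e2 : σ (Tri.nxt (T.dbl.α x)) = σ x := h1 x
  rcases Bool.eq_or_eq_not s (σ x) with rfl | rfl
  · rw [go_pos_ULift, e1, go_pos_ULift, e2, mul_assoc, rel1_ULift, mul_one]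
  · have := T.rel1_ULift (T.dbl.α (bar_ULift x))
    rw [T.dbl.αα] at this
    rw [go_neg_ULift, e1, go_neg_ULift, e2, ← alpha_bar_ULift, mul_assoc, ← mul_inv_rev, this,
      inv_one, mul_one]

private theorem go_tri_ULift (σ : (F × Bool) × ZMod 3 → Bool) (x : (F × Bool) × ZMod 3)
    (p : T.dbl.Grp × Bool) :
    T.go_ULift σ (Tri.nxt (Tri.nxt x)) (T.go_ULift σ (Tri.nxt x) (T.go_ULift σ x p)) = p := by
  obtain ⟨g, s⟩ := p
  rcases Bool.eq_or_eq_not s (σ x) with rfl | rfl
  · rw [go_pos_ULift, go_pos_ULift, go_pos_ULift, nnn_ULift, mul_assoc g, mul_assoc g, rel2_ULift,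
      mul_one]
  · have := T.rel2_ULift (bar_ULift (Tri.nxt (Tri.nxt x)))
    rw [nxt_bar_ULift, show kap (Tri.nxt (Tri.nxt x)) = bar_ULift (Tri.nxt x) from rfl,
      nxt_bar_ULift, show kap (Tri.nxt x) = bar_ULift x from rfl] at this
    rw [go_neg_ULift, go_neg_ULift, go_neg_ULift, nnn_ULift, mul_assoc g, mul_assoc g,
      ← mul_inv_rev, ← mul_inv_rev, ← mul_assoc, this, inv_one, mul_one]

/-- contractible closed walks are contractible in the orientation cover -/
theorem dbl_contr [Finite F] {w : List ((F × Bool) × ZMod 3)} (h : T.dbl.Closed w)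
    (hw : T.Contr (w.map toArc)) : T.dbl.Contr w := by
  obtain ⟨σ, h1, h2⟩ := T.exists_sheet
  let W : (F × Bool) × ZMod 3 → Equiv.Perm (T.dbl.Grp × Bool) := fun x =>
    ⟨T.go_ULift σ x, T.go_ULift σ (bar_ULift x), T.go_bar_ULift h2 x, fun p => by
      have := T.go_bar_ULift h2 (bar_ULift x) p
      rwa [bar_bar_ULift] at this⟩
  have hb : ∀ x, W (bar_ULift x) = (W x)⁻¹ := fun x => Equiv.ext fun _ => rfl
  have ha : ∀ x, W (T.dbl.α x) = (W x)⁻¹ := fun x =>
    eq_inv_of_mul_eq_one_left (Equiv.ext fun p => T.go_alpha_ULift h1 x p)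
  have ht : ∀ x, W (Tri.nxt (Tri.nxt x)) * W (Tri.nxt x) * W x = 1 := fun x =>
    Equiv.ext fun p => T.go_tri_ULift σ x p
  have hr : ∀ r ∈ T.rels, FreeGroup.lift (fun d => (W (ofArc (d, false)))⁻¹) r = 1 := by
    rintro r ⟨d, rfl | rfl⟩
    · have e := ha (ofArc (d, false))
      rw [alpha_ofArc_ULift] at e
      cases ht : T.tw d
      · rw [ht] at e
        simp only [Bool.false_eq_true, if_false, map_mul, FreeGroup.lift_apply_of]
        rw [show ofArc (T.α d, false) = ofArc (T.α d, xor false false) from rfl, e, inv_inv,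
          inv_mul_cancel]
      · rw [ht, show ofArc (T.α d, xor false true) = ofArc (T.α d, !false) from rfl,
          ← bar_ofArc_ULift, hb] at e
        simp only [if_true, map_mul, map_inv, FreeGroup.lift_apply_of]
        rw [e, mul_inv_cancel]
    · simp only [map_mul, FreeGroup.lift_apply_of]
      rw [← mul_inv_rev, ← mul_inv_rev, ← mul_assoc, inv_eq_one]
      exact ht (ofArc (d, false))
  let ρ : PresentedGroup T.rels →* Equiv.Perm (T.dbl.Grp × Bool) := PresentedGroup.toGroup hr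
  have hl : ∀ x, ρ (if (toArc x).2 then (PresentedGroup.of (rels := T.rels) (toArc x).1)⁻¹
      else PresentedGroup.of (toArc x).1) = (W x)⁻¹ := by
    intro x
    conv_rhs => rw [← ofArc_toArc x]
    generalize toArc x = e
    obtain ⟨d, b⟩ := e
    have e0 : ρ (PresentedGroup.of d) = (W (ofArc (d, false)))⁻¹ := PresentedGroup.toGroup.of hr
    cases b
    · exact e0
    · rw [if_pos rfl, map_inv, e0, ← hb, bar_ofArc_ULift]
      rfl
  have hp : (w.map fun x => (W x)⁻¹).prod = 1 := by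
    have := congrArg ρ hw
    rw [map_one, map_list_prod, List.map_map, List.map_map] at this
    rw [← this]
    exact congrArg List.prod (List.map_congr_left fun x _ => (hl x).symm)
  have hrot : ∀ n x, σ (T.dbl.rot^[n] x) = σ x := by
    intro n x
    induction n with
    | zero => rfl
    | succ n ih => rw [Function.iterate_succ_apply', h1, ih]
  have key : ∀ (l : List ((F × Bool) × ZMod 3)) (x : (F × Bool) × ZMod 3) (g : T.dbl.Grp),
      ((x :: l).IsChain fun d e => ∃ n, T.dbl.rot^[n] (T.dbl.α d) = e) →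
      (((x :: l).map fun x => (W x)⁻¹).prod⁻¹ (g, σ x)).1 = g * ((x :: l).map T.dbl.gen).prod := by
    intro l
    induction l with
    | nil =>
      intro x g _
      simp only [List.map_cons, List.map_nil, List.prod_cons, List.prod_nil, mul_one, inv_inv]
      exact congrArg Prod.fst (T.go_pos_ULift σ x g)
    | cons y l ih =>
      intro x g hc
      rw [List.isChain_cons_cons] at hc
      obtain ⟨⟨n, hn⟩, hc⟩ := hc
      have e : σ (Tri.nxt x) = σ y := by
        rw [← hn, hrot, ← h1 (T.dbl.α x), Tri.rot, T.dbl.αα]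
      rw [List.map_cons, List.prod_cons, mul_inv_rev, inv_inv, Equiv.Perm.mul_apply,
        show W x (g, σ x) = _ from T.go_pos_ULift σ x g, e, ih y _ hc, mul_assoc]
      rfl
  cases w with
  | nil => rfl
  | cons x l =>
    have := key l x 1 (List.IsChain.left_of_append h)
    rw [hp, inv_one, one_mul] at this
    exact this.symm

end Surf

end Pool.Agent.MP_9a3194_co
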