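import Pool.Agent.MP_9a3194_co.UCov
import Pool.Agent.MP_9a3194_co.UAut
import Pool.Agent.MP_9a3194_co.Pat

open Finset
open scoped symmDiff

namespace Pool.Agent.MP_9a3194_co

open Pool.Agent.MP_ee574f_co

private def WS_UPat (k : ℕ) : Finset (List Bool) := (range (2 * k)).biUnion Wd

private theorem mem_WS_UPat {k : ℕ} {w : List Bool} : w ∈ WS_UPat k ↔ w.length < 2 * k := by
  simp [WS_UPat, mem_Wd]

private theorem card_WS_UPat (k : ℕ) : (WS_UPat k).card ≤ 4 ^ k := by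
  refine card_biUnion_le.trans ?_
  simp only [card_Wd]
  have h := Nat.geomSum_lt (m := 2) (s := range (2 * k)) (n := 2 * k) le_rfl
    (fun _ h => mem_range.1 h)
  rw [pow_mul] at h
  exact h.le

open Classical in
private noncomputable def GW_UPat (k : ℕ) : Finset (List Bool) :=
  (WS_UPat k).filter fun w => Even w.length ∧ amt k w ≠ 0

private theorem mem_GW_UPat {k : ℕ} {w : List Bool} :
    w ∈ GW_UPat k ↔ w.length < 2 * k ∧ Even w.length ∧ amt k w ≠ 0 := by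
  simp [GW_UPat, mem_WS_UPat]

private theorem card_GW_UPat (k : ℕ) : (GW_UPat k).card ≤ 4 ^ k :=
  (card_filter_le _ _).trans (card_WS_UPat k)

private def I8_UPat : Finset ℕ := {0, 1, 3, 4, 5, 6, 8, 9}

private theorem I8_le_UPat {i : ℕ} (h : i ∈ I8_UPat) : i ≤ 9 := by
  simp only [I8_UPat, mem_insert, mem_singleton] at h
  omega

namespace Str

variable {V : Type} [Fintype V] [DecidableEq V] {S : Str V}

omit [Fintype V] [DecidableEq V] in
private theorem pat_iff_UPat {k : ℕ} {y : V → Bool} {v : V} {t : ℕ} :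
    S.Pat k y ((S.π ^ t) v) ↔ ∀ i ∈ I8_UPat, ∀ w ∈ GW_UPat k,
      y (S.tip ((S.π ^ (i + t)) v) w) =
        if i ≤ 4 then !y ((S.π ^ t) v) else y ((S.π ^ t) v) := by
  have e : ∀ i, (S.π ^ i) ((S.π ^ t) v) = (S.π ^ (i + t)) v := fun i => by
    rw [pow_add, Equiv.Perm.mul_apply]
  constructor
  · rintro ⟨ha, hb⟩ i hi w hw
    obtain ⟨w1, w2, w3⟩ := mem_GW_UPat.1 hw
    split_ifs with h4
    · have hi' : i ∈ ({0, 1, 3, 4} : Finset ℕ) := by
        simp only [I8_UPat, mem_insert, mem_singleton] at hi ⊢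
        omega
      have := ha i hi' w w2 w1 w3
      rw [e] at this
      exact Bool.eq_not_iff.2 this
    · have hi' : i ∈ ({5, 6, 8, 9} : Finset ℕ) := by
        simp only [I8_UPat, mem_insert, mem_singleton] at hi ⊢
        omega
      have := hb i hi' w w2 w1 w3
      rw [e] at this
      revert this
      cases y (S.tip ((S.π ^ (i + t)) v) w) <;> cases y ((S.π ^ t) v) <;> simp
  · intro h
    refine ⟨fun i hi w w2 w1 w3 => ?_, fun i hi w w2 w1 w3 => ?_⟩
    · simp only [mem_insert, mem_singleton] at hi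
      have := h i (by simp only [I8_UPat, mem_insert, mem_singleton]; omega) w
        (mem_GW_UPat.2 ⟨w1, w2, w3⟩)
      rw [if_pos (by omega)] at this
      rw [e, this]
      simp
    · simp only [mem_insert, mem_singleton] at hi
      have := h i (by simp only [I8_UPat, mem_insert, mem_singleton]; omega) w
        (mem_GW_UPat.2 ⟨w1, w2, w3⟩)
      rw [if_neg (by omega)] at this
      rw [e, this]
      simp

private def ok_UPat (S : Str V) (k : ℕ) (J : Finset V) (θ : V → ℕ → ℕ → List Bool → Bool)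
    (ω : V → Bool) (v : V) (t : ℕ) : Prop :=
  ∀ i ∈ I8_UPat, ∀ w ∈ GW_UPat k, ω (S.seg J (S.tip ((S.π ^ (i + t)) v) w)) =
    xor (ω (S.seg J ((S.π ^ t) v))) (θ v t i w)

omit [Fintype V] [DecidableEq V] in
private theorem pat_congr_UPat {k : ℕ} {J : Finset V} {θ : V → ℕ → ℕ → List Bool → Bool}
    {ω ω' : V → Bool} {v : V} {t : ℕ}
    (h0 : ω (S.seg J ((S.π ^ t) v)) = ω' (S.seg J ((S.π ^ t) v)))
    (h1 : ∀ i ∈ I8_UPat, ∀ w ∈ GW_UPat k, ω (S.seg J (S.tip ((S.π ^ (i + t)) v) w)) =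
      ω' (S.seg J (S.tip ((S.π ^ (i + t)) v) w)))
    (h : ok_UPat S k J θ ω v t) : ok_UPat S k J θ ω' v t := by
  intro i hi w hw
  rw [← h0, ← h1 i hi w hw]
  exact h i hi w hw

omit [Fintype V] [DecidableEq V] in
private theorem segA_UPat {c k W lo hi : ℕ} (hG : S.Gir c)
    (hc : 2 * (W + 2 * k + 1) + 2 * hi < c) {J : Finset V} (hJ : S.Mark J lo hi) {v : V}
    {j j' : ℕ} (hj : j < W) (hj' : j' < W) {w w' : List Bool} (hw : w ∈ GW_UPat k)
    (hw' : w' ∈ GW_UPat k)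
    (he : S.seg J (S.tip ((S.π ^ j) v) w) = S.seg J (S.tip ((S.π ^ j') v) w')) :
    j = j' ∧ w = w' := by
  obtain ⟨a1, a2, a3⟩ := mem_GW_UPat.1 hw
  obtain ⟨b1, b2, b3⟩ := mem_GW_UPat.1 hw'
  have da := dir_eq_zero a2 a1.le a3
  have db := dir_eq_zero b2 b1.le b3
  obtain ⟨n, hn, h | h⟩ := hJ.same_seg he
  · exact hG.pow_tip_inj da db (by omega) h
  · obtain ⟨e1, e2⟩ := hG.pow_tip_inj db da (by omega) h
    exact ⟨e1.symm, e2.symm⟩

omit [Fintype V] [DecidableEq V] in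
private theorem segB_UPat {c k W lo hi : ℕ} (hG : S.Gir c)
    (hc : 2 * (W + 2 * k + 1) + 2 * hi < c) {J : Finset V} (hJ : S.Mark J lo hi) {v : V}
    {j t : ℕ} (hj : j < W) (ht : t < W) {w : List Bool} (hw : w ∈ GW_UPat k) :
    S.seg J (S.tip ((S.π ^ j) v) w) ≠ S.seg J ((S.π ^ t) v) := by
  intro he
  obtain ⟨a1, a2, a3⟩ := mem_GW_UPat.1 hw
  have da := dir_eq_zero a2 a1.le a3
  obtain ⟨n, hn, h | h⟩ := hJ.same_seg he
  · exact hG.pow_tip_ne da (by omega) h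
  · rw [← Equiv.Perm.mul_apply, ← pow_add] at h
    exact hG.tip_ne_pow (by omega) h.symm

private theorem cnt_UPat {c k W lo hi : ℕ} (hG : S.Gir c)
    (hc : 2 * (W + 2 * k + 1) + 2 * hi < c) {J : Finset V} (hJ : S.Mark J lo hi) (v : V)
    (θ : V → ℕ → ℕ → List Bool → Bool) (T : Finset ℕ)
    (h1 : ∀ t ∈ T, t + 10 ≤ W) (h2 : ∀ t ∈ T, ∀ t' ∈ T, t < t' → t + 10 ≤ t') :
    (LLL.cnt (fun ω : V → Bool => ∀ t ∈ T, ¬ ok_UPat S k J θ ω v t) : ℝ) ≤
      (1 - 1 / 2 ^ (8 * 4 ^ k)) ^ T.card * Fintype.card (V → Bool) := by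
  classical
  let f : ℕ → ℕ × List Bool → V := fun t p => S.tip ((S.π ^ (p.1 + t)) v) p.2
  let priv : ℕ → Finset V := fun t => (I8_UPat ×ˢ GW_UPat k).image fun p => S.seg J (f t p)
  have hB : ∀ s ∈ T, ∀ t ∈ T, S.seg J ((S.π ^ t) v) ∉ priv s := by
    intro s hs t ht hm
    obtain ⟨p, hp, e⟩ := mem_image.1 hm
    obtain ⟨p1, p2⟩ := mem_product.1 hp
    have := I8_le_UPat p1
    have := h1 s hs
    have := h1 t ht
    exact segB_UPat hG hc hJ (j := p.1 + s) (by omega) (by omega) p2 e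
  refine cnt_blocks T priv (fun t ω => ok_UPat S k J θ ω v t) (8 * 4 ^ k)
    (fun t _ => ?_) (fun s hs t ht hst ω ω' he hok => ?_) (fun t ht ω => ?_)
  · refine card_image_le.trans ?_
    rw [card_product]
    exact Nat.mul_le_mul (by decide) (card_GW_UPat k)
  · refine pat_congr_UPat (he _ (hB s hs t ht)) (fun i hi w hw => he _ fun hm => ?_) hok
    obtain ⟨p, hp, e⟩ := mem_image.1 hm
    obtain ⟨p1, p2⟩ := mem_product.1 hp
    have := I8_le_UPat p1
    have := I8_le_UPat hi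
    have := h1 s hs
    have := h1 t ht
    have e' := (segA_UPat hG hc hJ (j := p.1 + s) (j' := i + t) (by omega) (by omega) p2 hw e).1
    rcases lt_or_gt_of_ne hst with hl | hl
    · have := h2 s hs t ht hl
      omega
    · have := h2 t ht s hs hl
      omega
  · let g : ℕ × List Bool → Bool := fun p =>
      xor (ω (S.seg J ((S.π ^ t) v))) (θ v t p.1 p.2)
    let ω' : V → Bool := fun x =>
      if hx : ∃ p ∈ I8_UPat ×ˢ GW_UPat k, S.seg J (f t p) = x then g hx.choose else ω x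
    have hoff : ∀ x ∉ priv t, ω' x = ω x := fun x hx => dif_neg fun h => hx (mem_image.2 h)
    refine ⟨ω', hoff, ?_⟩
    intro i hi w hw
    have hx : ∃ p ∈ I8_UPat ×ˢ GW_UPat k, S.seg J (f t p) = S.seg J (f t (i, w)) :=
      ⟨(i, w), mem_product.2 ⟨hi, hw⟩, rfl⟩
    have hch : hx.choose = (i, w) := by
      obtain ⟨hp, e⟩ := hx.choose_spec
      obtain ⟨p1, p2⟩ := mem_product.1 hp
      have := I8_le_UPat p1
      have := I8_le_UPat hi
      have := h1 t ht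
      obtain ⟨e1, e2⟩ := segA_UPat hG hc hJ (j := hx.choose.1 + t) (j' := i + t) (by omega)
        (by omega) p2 hw e
      exact Prod.ext (by omega) e2
    have e : ω' (S.seg J (f t (i, w))) = g (i, w) := by
      have : ω' (S.seg J (f t (i, w))) = g hx.choose := dif_pos hx
      rw [this, hch]
    rw [hoff _ (hB t ht t ht)]
    exact e

private noncomputable def SS_UPat (S : Str V) (J : Finset V) (k W : ℕ) (v : V) : Finset V :=
  (range W).image (fun j => S.seg J ((S.π ^ j) v)) ∪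
    (range W ×ˢ WS_UPat k).image fun p => S.seg J (S.tip ((S.π ^ p.1) v) p.2)

omit [Fintype V] in
private theorem card_SS_UPat (J : Finset V) (k W : ℕ) (v : V) :
    (SS_UPat S J k W v).card ≤ W * (1 + 4 ^ k) := by
  refine (card_union_le _ _).trans ?_
  rw [mul_add, mul_one]
  refine Nat.add_le_add (card_image_le.trans (card_range W).le) (card_image_le.trans ?_)
  rw [card_product, card_range]
  exact Nat.mul_le_mul_left _ (card_WS_UPat k)

private theorem card_inv_UPat {lo hi : ℕ} {J : Finset V} (hJ : S.Mark J lo hi) (k W : ℕ) (x : V) :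
    (univ.filter fun g : V × Bool => x ∈ SS_UPat S J k W g.1).card ≤
      hi * (W * (1 + 4 ^ k)) * 2 := by
  let N : V → Finset V := fun u => (range W).biUnion fun j =>
    (univ.filter fun v => (S.π ^ j) v = u) ∪
      (WS_UPat k).biUnion fun w => univ.filter fun v => S.tip ((S.π ^ j) v) w = u
  have hN : ∀ u, (N u).card ≤ W * (1 + 4 ^ k) := by
    intro u
    refine (card_biUnion_le_card_mul _ _ (1 + 4 ^ k) fun j _ => ?_).trans (by rw [card_range])
    refine (card_union_le _ _).trans (Nat.add_le_add ?_ ?_)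
    · refine card_le_one.2 fun a ha b hb => (S.π ^ j).injective ?_
      rw [(mem_filter.1 ha).2, (mem_filter.1 hb).2]
    · refine (card_biUnion_le_card_mul _ _ 1 fun w _ => ?_).trans
        (by rw [mul_one]; exact card_WS_UPat k)
      refine card_le_one.2 fun a ha b hb => (S.π ^ j).injective (tip_left_inj (S := S) w ?_)
      exact (mem_filter.1 ha).2.trans (mem_filter.1 hb).2.symm
  have hsub : (univ.filter fun g : V × Bool => x ∈ SS_UPat S J k W g.1) ⊆
      ((univ.filter fun u => S.seg J u = x).biUnion N) ×ˢ (univ : Finset Bool) := by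
    intro g hg
    refine mem_product.2 ⟨?_, mem_univ _⟩
    rcases mem_union.1 (mem_filter.1 hg).2 with h | h
    · obtain ⟨j, hj, e⟩ := mem_image.1 h
      exact mem_biUnion.2 ⟨_, mem_filter.2 ⟨mem_univ _, e⟩, mem_biUnion.2 ⟨j, hj,
        mem_union_left _ (mem_filter.2 ⟨mem_univ _, rfl⟩)⟩⟩
    · obtain ⟨p, hp, e⟩ := mem_image.1 h
      obtain ⟨p1, p2⟩ := mem_product.1 hp
      exact mem_biUnion.2 ⟨_, mem_filter.2 ⟨mem_univ _, e⟩, mem_biUnion.2 ⟨p.1, p1,
        mem_union_right _ (mem_biUnion.2 ⟨p.2, p2, mem_filter.2 ⟨mem_univ _, rfl⟩⟩)⟩⟩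
  refine (card_le_card hsub).trans ?_
  rw [card_product, card_univ, Fintype.card_bool]
  refine Nat.mul_le_mul_right _ ?_
  exact (card_biUnion_le_card_mul _ _ _ fun u _ => hN u).trans
    (Nat.mul_le_mul_right _ (hJ.card_seg x))

/-- prescribed relative bits in all windows -/
theorem pat_abs {c k W lo hi M : ℕ} (hG : S.Gir c) (hc : 2 * (W + 2 * k + 1) + 2 * hi < c)
    {J : Finset V} (hJ : S.Mark J lo hi) (Tof : V × Bool → Finset ℕ) (hM : 0 < M)
    (h1 : ∀ h, ∀ t ∈ Tof h, t + 10 ≤ W) (h2 : ∀ h, ∀ t ∈ Tof h, ∀ t' ∈ Tof h, t < t' → t + 10 ≤ t')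
    (h3 : ∀ h, M ≤ (Tof h).card)
    (hn : (8 * hi * W ^ 2 * (1 + 4 ^ k) ^ 2 : ℝ) * (1 - 1 / 2 ^ (8 * 4 ^ k)) ^ M ≤ 1)
    (θ : V → ℕ → ℕ → List Bool → Bool) :
    ∃ ω : V → Bool, ∀ h, ∃ t ∈ Tof h, ∀ i ∈ ({0, 1, 3, 4, 5, 6, 8, 9} : Finset ℕ),
      ∀ w : List Bool, Even w.length → w.length < 2 * k → amt k w ≠ 0 →
        ω (S.seg J (S.tip ((S.π ^ (i + t)) h.1) w)) =
          xor (ω (S.seg J ((S.π ^ t) h.1))) (θ h.1 t i w) := by
  rcases isEmpty_or_nonempty V with hV | ⟨⟨v0⟩⟩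
  · exact ⟨fun _ => true, fun h => hV.elim h.1⟩
  have hhi : 1 ≤ hi := by
    have := hJ.idx_lt v0
    omega
  have hW : 1 ≤ W := by
    obtain ⟨t, ht⟩ := card_pos.1 (hM.trans_le (h3 (v0, true)))
    have := h1 _ t ht
    omega
  set q : ℝ := 1 - 1 / 2 ^ (8 * 4 ^ k) with hq
  have hq0 : 0 ≤ q := by
    rw [hq, sub_nonneg, div_le_one (by positivity)]
    exact one_le_pow₀ (by norm_num)
  have hq1 : q ≤ 1 := by
    rw [hq]
    exact sub_le_self _ (by positivity)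
  have hp0 : 0 ≤ q ^ M := pow_nonneg hq0 M
  have hbig : (8 : ℝ) ≤ 8 * hi * W ^ 2 * (1 + 4 ^ k) ^ 2 := by
    have a1 : (1 : ℝ) ≤ hi := by exact_mod_cast hhi
    have a2 : (1 : ℝ) ≤ W ^ 2 := one_le_pow₀ (by exact_mod_cast hW)
    have a3 : (1 : ℝ) ≤ (1 + 4 ^ k) ^ 2 :=
      one_le_pow₀ (le_add_of_nonneg_right (by positivity))
    calc (8 : ℝ) = 8 * 1 * 1 * 1 := by norm_num
      _ ≤ _ := by gcongr
  suffices H : ∃ ω : V → Bool, ∀ h : V × Bool,
      ¬ ∀ t ∈ Tof h, ¬ ok_UPat S k J θ ω h.1 t by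
    obtain ⟨ω, hω⟩ := H
    refine ⟨ω, fun h => ?_⟩
    have := hω h
    push Not at this
    obtain ⟨t, ht, hok⟩ := this
    exact ⟨t, ht, fun i hi w w2 w1 w3 => hok i hi w (mem_GW_UPat.2 ⟨w1, w2, w3⟩)⟩
  refine LLL.lll (ι := V) (η := V × Bool)
    (fun h ω => ∀ t ∈ Tof h, ¬ ok_UPat S k J θ ω h.1 t)
    (fun h => SS_UPat S J k W h.1) (fun h ω ω' he hω t ht hp => ?_) (q ^ M)
    (W * (1 + 4 ^ k) * (hi * (W * (1 + 4 ^ k)) * 2)) hp0 (by nlinarith) ?_ (fun h => ?_)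
    (fun h => ?_)
  · have := h1 h t ht
    refine hω t ht (pat_congr_UPat (he _ ?_).symm (fun i hi w hw => (he _ ?_).symm) hp)
    · exact mem_union_left _ (mem_image.2 ⟨t, mem_range.2 (by omega), rfl⟩)
    · have := I8_le_UPat hi
      exact mem_union_right _ (mem_image.2 ⟨(i + t, w), mem_product.2
        ⟨mem_range.2 (by simp only; omega), mem_WS_UPat.2 (mem_GW_UPat.1 hw).1⟩, rfl⟩)
  · refine le_of_eq_of_le ?_ hn
    push_cast
    ring
  · refine (cnt_UPat hG hc hJ h.1 θ (Tof h) (h1 h) (h2 h)).trans ?_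
    exact mul_le_mul_of_nonneg_right (pow_le_pow_of_le_one hq0 hq1 (h3 h)) (by positivity)
  · have hsub : (univ.filter fun g : V × Bool =>
        ¬ Disjoint (SS_UPat S J k W h.1) (SS_UPat S J k W g.1)) ⊆
        (SS_UPat S J k W h.1).biUnion fun x =>
          univ.filter fun g : V × Bool => x ∈ SS_UPat S J k W g.1 := by
      intro g hg
      obtain ⟨x, x1, x2⟩ := not_disjoint_iff.1 (mem_filter.1 hg).2
      exact mem_biUnion.2 ⟨x, x1, mem_filter.2 ⟨mem_univ _, x2⟩⟩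
    refine (card_le_card hsub).trans ?_
    exact (card_biUnion_le_card_mul _ _ _ fun x _ => card_inv_UPat hJ k W x).trans
      (Nat.mul_le_mul_right _ (card_SS_UPat J k W h.1))

/-- good patterns on both sheets of the double cover -/
theorem pat2 {c k W lo hi M : ℕ} (hG : S.Gir c) (hc : 2 * (W + 2 * k + 1) + 2 * hi < c)
    {J : Finset V} (hJ : S.Mark J lo hi) (Tof : V × Bool → Finset ℕ) (hM : 0 < M)
    (h1 : ∀ h, ∀ t ∈ Tof h, t + 10 ≤ W) (h2 : ∀ h, ∀ t ∈ Tof h, ∀ t' ∈ Tof h, t < t' → t + 10 ≤ t')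
    (h3 : ∀ h, M ≤ (Tof h).card)
    (hn : (8 * hi * W ^ 2 * (1 + 4 ^ k) ^ 2 : ℝ) * (1 - 1 / 2 ^ (8 * 4 ^ k)) ^ M ≤ 1)
    (sg : Dt V → Bool) (hs : ∀ d, sg (S.rv d) = sg d) :
    ∃ ω : V → Bool, ∀ h, ∃ t ∈ Tof h, ∀ b : Bool,
      (S.cov sg hs).Pat k ((S.cov sg hs).y0 (J ×ˢ univ) fun x => xor (ω x.1) x.2)
        (((S.cov sg hs).π ^ t) (h.1, b)) := by
  set C := S.cov sg hs with hC
  let tw : V × Bool → Bool := fun u =>
    xor (C.seg (J ×ˢ univ) u).2 (decide (Odd (C.idx (J ×ˢ univ) u)))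
  obtain ⟨ω, hω⟩ := pat_abs hG hc hJ Tof hM h1 h2 h3 hn fun v t i w =>
    xor (xor (tw ((C.π ^ t) (v, false))) (tw (C.tip ((C.π ^ (i + t)) (v, false)) w)))
      (decide (i ≤ 4))
  have hy : ∀ u, C.y0 (J ×ˢ univ) (fun x => xor (ω x.1) x.2) u =
      xor (ω (S.seg J u.1)) (tw u) := fun u => by
    simp only [y0, tw, hC, cov_seg, Bool.xor_assoc]
  refine ⟨ω, fun h => ?_⟩
  obtain ⟨t, ht, hok⟩ := hω h
  have hf : C.Pat k (C.y0 (J ×ˢ univ) fun x => xor (ω x.1) x.2) ((C.π ^ t) (h.1, false)) := by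
    rw [pat_iff_UPat]
    intro i hi w hw
    obtain ⟨w1, w2, w3⟩ := mem_GW_UPat.1 hw
    have e := hok i hi w w2 w1 w3
    have e1 : (C.tip ((C.π ^ (i + t)) (h.1, false)) w).1 = S.tip ((S.π ^ (i + t)) h.1) w := by
      rw [hC, cov_tip, cov_pow]
    have e2 : ((C.π ^ t) (h.1, false)).1 = (S.π ^ t) h.1 := cov_pow t _
    rw [hy, hy, e1, e2, e]
    generalize ω (S.seg J ((S.π ^ t) h.1)) = a
    generalize tw ((C.π ^ t) (h.1, false)) = b
    generalize tw (C.tip ((C.π ^ (i + t)) (h.1, false)) w) = d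
    by_cases h4 : i ≤ 4 <;> cases a <;> cases b <;> cases d <;> simp [h4]
  refine ⟨t, ht, fun b => ?_⟩
  cases b
  · exact hf
  · have hA : C.Aut flipB := cov_aut
    have e : (C.π ^ t) (h.1, true) = flipB ((C.π ^ t) (h.1, false)) := hA.pow t (h.1, false)
    rw [e]
    exact hA.pat (hA.y0 (fun v => by simp [flipB]) fun v => by simp [flipB]) hf

end Str

end Pool.Agent.MP_9a3194_co
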