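import Pool.Agent.MP_9a3194_co.UCtr
import Pool.Agent.MP_9a3194_co.Sign

open Finset
open scoped symmDiff

namespace Pool.Agent.MP_9a3194_co

private theorem thin_USign {ε : ℝ} (hε : 0 < ε) : ∃ (ω₀ l₀ : ℕ) (A : ℝ), 0 < A ∧
    ∀ {V : Type} [Fintype V] [DecidableEq V] (S : Str V) (c ω l : ℕ) (G : Finset V)
      (Ω : V → Finset V) (cell : V → V) (ι : V → V), ω₀ ≤ ω → l₀ ≤ l → l + 2 ≤ c →
      2 * l ≤ Fintype.card V → S.Iso c → S.Part G cell l → S.Trees G Ω ω → S.Aut ι →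
      (∀ v, ι v ∈ G ↔ v ∈ G) → (∀ g ∈ G, Ω (ι g) = (Ω g).image ι) →
      ∃ T ⊆ G, (∀ v, ι v ∈ T ↔ v ∈ T) ∧
        (∀ X : Finset V, ∑ g ∈ T, (mino (Ω g) X : ℝ) / ω ≤ ε * S.b X) ∧
        ∀ X : Finset V, Disjoint X T → (X.card : ℝ) ≤ A * l ^ 2 * (S.b X + 1) := by
  obtain ⟨ω₀, l₀, A, hA, h⟩ := thin (half_pos hε)
  refine ⟨ω₀, l₀, A, hA, ?_⟩
  intro V _ _ S c ω l G Ω cell ι hω hl hc hV hI hP hT hι hG hΩ
  obtain ⟨T, hTG, h1, h2⟩ := h S c ω l G Ω cell hω hl hc hV hI hP hT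
  have hm : ∀ v, v ∈ T.image ι ↔ ι v ∈ T := fun v => by
    rw [mem_image]
    exact ⟨fun ⟨u, hu, e⟩ => by rwa [← e, hι.inv], fun hv => ⟨_, hv, hι.inv v⟩⟩
  refine ⟨T ∪ T.image ι, union_subset hTG fun v hv => (hG v).1 (hTG ((hm v).1 hv)), fun v => ?_,
    fun X => ?_, fun X hX => h2 X (hX.mono_right subset_union_left)⟩
  · rw [mem_union, mem_union, hm, hm, hι.inv, or_comm]
  · have e1 := sum_union_inter (s₁ := T) (s₂ := T.image ι) (f := fun g => (mino (Ω g) X : ℝ) / ω)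
    have e2 : 0 ≤ ∑ g ∈ T ∩ T.image ι, (mino (Ω g) X : ℝ) / ω :=
      sum_nonneg fun _ _ => by positivity
    have e3 : ∑ g ∈ T.image ι, (mino (Ω g) X : ℝ) / ω =
        ∑ g ∈ T, (mino (Ω g) (X.image ι) : ℝ) / ω := by
      rw [sum_image hι.inj.injOn]
      exact sum_congr rfl fun g hg => by rw [hΩ g (hTG hg), hι.mino]
    have e4 := h1 (X.image ι)
    rw [hι.b] at e4
    linarith [h1 X]

private theorem gale_USign {V : Type} [Fintype V] [DecidableEq V] {S : Str V} {ι : V → V}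
    {T : Finset V} {q : V → ℝ} {η : ℝ} (hι : S.Aut ι) (hT : ∀ v, ι v ∈ T ↔ v ∈ T)
    (hq : ∀ v, q (ι v) = -q v) (hη : 0 ≤ η)
    (h : ∀ X : Finset V, Disjoint X T → |∑ v ∈ X, q v| ≤ η / 2 * S.b X) :
    ∃ f : Dt V → ℝ, S.Anti f ∧ (∀ d, |f d| ≤ η) ∧ (∀ v ∉ T, dv f v = q v) ∧
      ∀ v, dv f (ι v) = -dv f v := by
  obtain ⟨f, hf, h1, h2⟩ := gale S T q η hη h
  have e : ∀ v, dv (fun d => (f d - f (ι d.1, d.2)) / 2) v = (dv f v - dv f (ι v)) / 2 :=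
    fun v => by simp only [dv, ← sum_div, sum_sub_distrib]
  refine ⟨_, hι.anti hf, fun d => ?_, fun v hv => ?_, fun v => ?_⟩
  · have e1 := abs_le.1 (h1 d)
    have e2 := abs_le.1 (h1 (ι d.1, d.2))
    exact abs_le.2 ⟨by linarith [e1.1, e2.2], by linarith [e1.2, e2.1]⟩
  · rw [e, h2 v hv, h2 _ fun h => hv ((hT v).1 h), hq]
    ring
  · rw [e, e, hι.inv]
    ring

/-- small antisymmetric charges are cancelled by pairs of controllers of prescribed parity -/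
theorem sign2 {δ K : ℝ} (hδ : 0 < δ) (hK : 1 ≤ K) : ∃ (ω₀ l₀ : ℕ) (A : ℝ), 0 < A ∧
    ∀ {V : Type} [Fintype V] [DecidableEq V] (S : Str V) (c ω l : ℕ) (G : Finset V)
      (Ω : V → Finset V) (cell : V → V) (q : V → ℝ) (p : ℝ) (ι : V → V) (par : ℤ), ω₀ ≤ ω →
      l₀ ≤ l → ω + 2 ≤ c → A * l ^ 2 < c → c ≤ Fintype.card V → S.Iso c → S.Part G cell l →
      S.Trees G Ω ω → (∀ v, |q v| ≤ p) → p * A * l ^ 2 ≤ 1 → S.Aut ι →
      (∀ v, ι v ∈ G ↔ v ∈ G) → (∀ g ∈ G, Ω (ι g) = (Ω g).image ι) → (∀ v, q (ι v) = -q v) →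
      ∃ z : V → ℤ, (∀ g, z g = 0 ∨ g ∈ G ∧ (z g = 1 ∨ z g = -1)) ∧ (∀ g, z (ι g) = -z g) ∧
        (4 : ℤ) ∣ ((univ.filter fun g => z g ≠ 0).card : ℤ) - 2 * par ∧
        ∀ (X : Finset V) (t : V → ℝ), (∀ g ∈ G, 0 ≤ t g ∧ t g ≤ 1 ∧
          t g ≤ K * (Ω g ∩ X).card / ω ∧ 1 - t g ≤ K * (Ω g \ X).card / ω) →
          ∑ v ∈ X, q v + 2 * ∑ g, z g * t g ≤ δ * S.b X := by
  classical
  obtain ⟨ε, hε, hεK⟩ : ∃ ε : ℝ, 0 < ε ∧ (2 * K + 9) * ε = δ / 4 :=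
    ⟨δ / (4 * (2 * K + 9)), by positivity, by field_simp⟩
  obtain ⟨ω₁, l₁, A₀, hA₀, hthin⟩ := thin_USign hε
  obtain ⟨μ, hμ, hμ1, hμδ⟩ : ∃ μ : ℝ, 0 < μ ∧ μ ≤ 1 ∧ μ ≤ δ :=
    ⟨min 1 δ, lt_min one_pos hδ, min_le_left _ _, min_le_right _ _⟩
  obtain ⟨A, hA, hAμ⟩ : ∃ A : ℝ, 0 < A ∧ A * μ = 100 * (A₀ + 1) :=
    ⟨100 * (A₀ + 1) / μ, by positivity, by field_simp⟩
  have hA1 : 100 * (A₀ + 1) ≤ A := hAμ ▸ mul_le_of_le_one_right hA.le hμ1
  refine ⟨max ω₁ ⌈6 / δ⌉₊, max l₁ 1, A, hA, ?_⟩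
  intro V _ _ S c ω l G Ω cell q p ι par hω hl hc hAc hcV hI hP hT hq hp hι hG hΩ hqι
  have hl1 : (1 : ℝ) ≤ l := by exact_mod_cast (le_max_right _ _).trans hl
  have hl2 : (l : ℝ) ≤ l ^ 2 := by nlinarith
  have hcV' : (c : ℝ) ≤ Fintype.card V := by exact_mod_cast hcV
  have hA3 : 3 * (l : ℝ) ^ 2 ≤ A * l ^ 2 := mul_le_mul_of_nonneg_right (by linarith) (by positivity)
  have hA4 : A₀ * (l : ℝ) ^ 2 ≤ A * l ^ 2 :=
    mul_le_mul_of_nonneg_right (by linarith) (by positivity)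
  have hc0 : 0 < c := by omega
  have hp0 : 0 ≤ p := by
    obtain ⟨v⟩ := Fintype.card_pos_iff.1 (hc0.trans_le hcV)
    exact (abs_nonneg _).trans (hq v)
  obtain ⟨T, hTG, hTι, hT1, hT2⟩ := hthin S c ω l G Ω cell ι ((le_max_left _ _).trans hω)
    ((le_max_left _ _).trans hl) (by exact_mod_cast (by linarith : (l : ℝ) + 2 ≤ c))
    (by exact_mod_cast (by linarith : 2 * (l : ℝ) ≤ Fintype.card V)) hI hP hT hι hG hΩ
  have hne : T.Nonempty := by
    rw [nonempty_iff_ne_empty]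
    rintro rfl
    have := hT2 univ (disjoint_empty_right _)
    rw [S.b_univ, card_univ, Nat.cast_zero, zero_add, mul_one] at this
    linarith
  obtain ⟨η, hη⟩ : ∃ η : ℝ, η = 4 * p * A₀ * l ^ 2 := ⟨_, rfl⟩
  have hη0 : 0 ≤ η := by rw [hη]; positivity
  have hsm : p + 4 * η ≤ μ / 2 := by
    have e1 : p * A ≤ 1 :=
      (le_mul_of_one_le_right (mul_nonneg hp0 hA.le) (hl1.trans hl2)).trans hp
    have e2 : η * A ≤ 4 * A₀ := by
      have := mul_le_mul_of_nonneg_left hp (by positivity : 0 ≤ 4 * A₀)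
      rw [hη]
      linarith
    refine le_of_mul_le_mul_right ?_ hA
    linarith
  obtain ⟨f, hf, hfη, hfq, hfι⟩ := gale_USign hι hTι hqι hη0 fun X hX => by
    rcases X.eq_empty_or_nonempty with rfl | hXn
    · rw [sum_empty, abs_zero]
      positivity
    · obtain ⟨g, hg⟩ := hne
      have hb : (1 : ℝ) ≤ S.b X := by
        exact_mod_cast hI.b_pos hc0 hXn ⟨g, mem_compl.2 fun h => disjoint_left.1 hX h hg⟩
      have e1 : |∑ v ∈ X, q v| ≤ X.card * p := by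
        refine (abs_sum_le_sum_abs _ _).trans ((sum_le_sum fun v _ => hq v).trans_eq ?_)
        rw [sum_const, nsmul_eq_mul]
      have e2 : (X.card : ℝ) ≤ A₀ * l ^ 2 * (2 * S.b X) :=
        (hT2 X hX).trans (mul_le_mul_of_nonneg_left (by linarith) (by positivity))
      have e3 := mul_le_mul_of_nonneg_right e2 hp0
      rw [hη]
      linarith
  have hq' : ∀ g, |q g - dv f g| ≤ p + 3 * η := fun g => by
    have e1 : |dv f g| ≤ 3 * η := by
      refine (abs_sum_le_sum_abs _ _).trans ((sum_le_sum fun i _ => hfη (g, i)).trans_eq ?_)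
      simp
    exact (abs_sub _ _).trans (add_le_add (hq g) e1)
  have hsum : ∀ X : Finset V, ∑ v ∈ X, q v =
      ∑ v ∈ X, dv f v + ∑ g ∈ T, if g ∈ X then q g - dv f g else 0 := fun X => by
    rw [sum_ite_mem, inter_comm, ← sum_ite_mem, ← sum_add_distrib]
    refine sum_congr rfl fun v _ => ?_
    split_ifs with hv
    · ring
    · rw [hfq v hv, add_zero]
  have hTT : S.Trees T Ω ω := ⟨fun g hg => hT.mem g (hTG hg), fun g hg => hT.conn g (hTG hg),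
    fun g hg => hT.card g (hTG hg), fun g hg g' hg' => hT.disj g (hTG hg) g' (hTG hg'),
    fun g hg => hT.bdy g (hTG hg)⟩
  obtain ⟨z, hz0, hzι, hz1, hz2, hz3⟩ := contract2 S hI hc hTT hne hι hTι
    (fun g hg => hΩ g (hTG hg)) (fun g => q g - dv f g)
    (fun g _ => by rw [hqι, hfι]; ring) par
  have hz : ∀ g ∈ T, z g = 0 ∨ z g = 1 ∨ z g = -1 := fun g hg => by
    have e1 := abs_le.1 (hz2 g hg)
    have e2 := abs_le.1 (hq' g)
    have e3 : (z g : ℝ) < 2 := by linarith [e1.2, e2.1]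
    have e4 : (-2 : ℝ) < z g := by linarith [e1.1, e2.2]
    have e5 : z g < 2 := by exact_mod_cast e3
    have e6 : -2 < z g := by exact_mod_cast e4
    omega
  have hzs : ∀ t : V → ℝ, ∑ g, z g * t g = ∑ g ∈ T, z g * t g := fun t =>
    (sum_subset (subset_univ T) fun g _ hg => by rw [hz0 g hg, Int.cast_zero, zero_mul]).symm
  refine ⟨z, fun g => ?_, hzι, ?_, fun X t ht => ?_⟩
  · by_cases hg : g ∈ T
    · exact (hz g hg).imp_right fun h => ⟨hTG hg, h⟩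
    · exact Or.inl (hz0 g hg)
  · have e : ((univ.filter fun g => z g ≠ 0).card : ℤ) = ∑ g ∈ T, |z g| := by
      rw [card_filter, Nat.cast_sum, ← sum_subset (subset_univ T) fun g _ hg => by simp [hz0 g hg]]
      refine sum_congr rfl fun g hg => ?_
      rcases hz g hg with h | h | h <;> simp [h]
    rwa [e]
  · have hω6 : 6 / δ ≤ ω := Nat.ceil_le.1 ((le_max_right _ _).trans hω)
    have hω0 : (0 : ℝ) < ω := lt_of_lt_of_le (by positivity) hω6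
    have hb0 : (0 : ℝ) ≤ S.b X := Nat.cast_nonneg _
    have e1 := (le_abs_self _).trans (S.abs_sum_dv_le hf hfη X)
    have e2 := sum_le_sum (s := T) fun g hg => point_Sign (X := X) (hTT.mem g hg) (hq' g) (hz g hg)
      (ht g (hTG hg)).1 (ht g (hTG hg)).2.1 (ht g (hTG hg)).2.2.1 (ht g (hTG hg)).2.2.2
    rw [sum_add_distrib, sum_add_distrib, sum_add_distrib, ← mul_sum, ← mul_sum, ← sum_filter,
      ← sum_filter (p := fun g => (Ω g \ X).card ≤ (Ω g ∩ X).card),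
      ← sum_filter (p := fun g => (∃ u ∈ Ω g, u ∈ X) ∧ ∃ v ∈ Ω g, v ∉ X), sum_const,
      nsmul_eq_mul] at e2
    have e3 : ((T.filter fun g => (∃ u ∈ Ω g, u ∈ X) ∧ ∃ v ∈ Ω g, v ∉ X).card : ℝ) ≤ S.b X := by
      exact_mod_cast S.touch _ Ω (fun g hg => hTT.conn g (mem_filter.1 hg).1)
        (fun g hg g' hg' => hTT.disj g (mem_filter.1 hg).1 g' (mem_filter.1 hg').1) X
        fun g hg => (mem_filter.1 hg).2
    have e4 := mul_le_mul_of_nonneg_right e3 (by linarith : 0 ≤ p + 3 * η)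
    have e5 := mul_le_mul_of_nonneg_left (hT1 X) (by linarith : 0 ≤ 2 * K)
    have e6 : 3 / (2 * ((ω : ℝ) + 2)) * (S.b X + 6 * ∑ g ∈ T, (mino (Ω g) X : ℝ)) ≤
        (δ / 4 + 9 * ε) * S.b X := by
      have k1 : ∑ g ∈ T, (mino (Ω g) X : ℝ) ≤ ε * S.b X * ω := by
        have := hT1 X
        rwa [← sum_div, div_le_iff₀ hω0] at this
      have k2 : 6 ≤ δ * ω := by
        rw [div_le_iff₀ hδ] at hω6
        linarith
      have k3 := mul_le_mul_of_nonneg_right k2 hb0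
      have k4 : 0 ≤ δ * S.b X := by positivity
      have k5 : 0 ≤ ε * S.b X := by positivity
      rw [div_mul_eq_mul_div, div_le_iff₀ (by positivity)]
      linarith
    have e7 := (hz3 X).trans e6
    have e8 := mul_le_mul_of_nonneg_right (hsm.trans (by linarith : μ / 2 ≤ δ / 2)) hb0
    have e9 := congrArg (· * (S.b X : ℝ)) hεK
    have e10 : 0 ≤ η * S.b X := by positivity
    rw [hsum X, hzs t, ← sum_filter]
    linarith

end Pool.Agent.MP_9a3194_co
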