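import Pool.Agent.MP_9a3194_co.Basic

open Finset
open scoped symmDiff

namespace Pool.Agent.MP_9a3194_co

theorem length_dirs (w : List Bool) : (dirs w).length = w.length + 1 := by
  induction w with
  | nil => rfl
  | cons β w ih => rw [dirs, List.length_append, ih]; rfl

private theorem last_dirs_Words (w : List Bool) : (dirs w).getLast? = some (dir w) := by
  cases w with
  | nil => rfl
  | cons β w => rw [dirs, dir, List.getLast?_append]; rfl

private theorem head_dirs_Words (w : List Bool) : ∃ t, dirs w = 0 :: t := by
  induction w with
  | nil => exact ⟨[], rfl⟩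
  | cons β w ih =>
    obtain ⟨t, ht⟩ := ih
    exact ⟨t ++ [kid (dir w) β], by rw [dirs, ht]; rfl⟩

private theorem kid_ne_Words (d : Fin 3) (β : Bool) : kid d β ≠ rd d := by
  revert d β
  decide

private theorem kid_inj_Words (d : Fin 3) (β β' : Bool) (h : kid d β = kid d β') : β = β' := by
  revert d β β'
  decide

theorem red_dirs (w : List Bool) : Red (dirs w) := by
  induction w with
  | nil => exact List.isChain_singleton _
  | cons β w ih =>
    rw [dirs]
    refine List.isChain_append.2 ⟨ih, List.isChain_singleton _, fun x hx y hy => ?_⟩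
    rw [last_dirs_Words] at hx
    obtain rfl : dir w = x := Option.some.inj hx
    obtain rfl : kid (dir w) β = y := Option.some.inj hy
    exact kid_ne_Words _ _

private theorem dirs_inj_Words {w w' : List Bool} (h : dirs w = dirs w') : w = w' := by
  induction w generalizing w' with
  | nil =>
    have := congrArg List.length h
    rw [length_dirs, length_dirs] at this
    exact (List.length_eq_zero_iff.1 (by simpa using this.symm)).symm
  | cons β w ih =>
    cases w' with
    | nil =>
      have := congrArg List.length h
      rw [length_dirs, length_dirs] at this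
      simp at this
    | cons β' w' =>
      rw [dirs, dirs] at h
      obtain ⟨h1, h2⟩ := List.append_inj' h rfl
      obtain rfl := ih h1
      rw [kid_inj_Words _ _ _ (List.singleton_inj.1 h2)]

private theorem rep_dirs_inj_Words {i i' : ℕ} {w w' : List Bool}
    (h : List.replicate i (1 : Fin 3) ++ dirs w = List.replicate i' 1 ++ dirs w') :
    i = i' ∧ w = w' := by
  induction i generalizing i' with
  | zero =>
    cases i' with
    | zero => exact ⟨rfl, dirs_inj_Words h⟩
    | succ i' =>
      obtain ⟨t, ht⟩ := head_dirs_Words w
      rw [ht, List.replicate_succ] at h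
      exact absurd (List.cons.inj h).1 (by decide)
  | succ i ih =>
    cases i' with
    | zero =>
      obtain ⟨t, ht⟩ := head_dirs_Words w'
      rw [ht, List.replicate_succ] at h
      exact absurd (List.cons.inj h).1 (by decide)
    | succ i' =>
      rw [List.replicate_succ, List.replicate_succ] at h
      obtain ⟨h1, h2⟩ := ih (List.cons.inj h).2
      exact ⟨by rw [h1], h2⟩

private theorem red_rep_Words (i : ℕ) : Red (List.replicate i 1) := by
  induction i with
  | zero => exact List.isChain_nil
  | succ i ih =>
    cases i with
    | zero => exact List.isChain_singleton _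
    | succ i =>
      rw [List.replicate_succ, List.replicate_succ]
      rw [List.replicate_succ] at ih
      exact List.isChain_cons_cons.2 ⟨by decide, ih⟩

private theorem red_rep_dirs_Words (i : ℕ) (w : List Bool) :
    Red (List.replicate i 1 ++ dirs w) := by
  refine List.isChain_append.2 ⟨red_rep_Words i, red_dirs w, fun x hx y hy => ?_⟩
  obtain ⟨t, ht⟩ := head_dirs_Words w
  rw [ht] at hy
  obtain rfl : 0 = y := Option.some.inj hy
  rw [List.eq_of_mem_replicate (List.mem_of_mem_getLast? hx)]
  decide

private theorem last_rep_dirs_Words (i : ℕ) (w : List Bool) :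
    (List.replicate i (1 : Fin 3) ++ dirs w).getLast? = some (dir w) := by
  rw [List.getLast?_append, last_dirs_Words]
  rfl

private theorem red_rep_dirs_rep_Words (i n : ℕ) {w : List Bool} (hw : dir w = 0) :
    Red (List.replicate i 1 ++ dirs w ++ List.replicate n 1) := by
  refine List.isChain_append.2 ⟨red_rep_dirs_Words i w, red_rep_Words n, fun x hx y hy => ?_⟩
  rw [last_rep_dirs_Words, hw] at hx
  obtain rfl : 0 = x := Option.some.inj hx
  rw [List.eq_of_mem_replicate (List.mem_of_mem_head? hy)]
  decide

private theorem red_rev_Words {u : List (Fin 3)} (h : Red u) : Red (u.reverse.map rd) := by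
  unfold Red at *
  rw [List.isChain_map, List.isChain_reverse]
  refine h.imp fun a b hab he => hab ?_
  rw [rd_rd] at he
  exact he.symm

namespace Str

variable {V : Type} {S : Str V} {c : ℕ}

theorem act_append (v : V) (u w : List (Fin 3)) : S.act v (u ++ w) = S.act (S.act v u) w := by
  induction u generalizing v with
  | nil => rfl
  | cons d u ih => exact ih _

theorem act_rep_one (v : V) (i : ℕ) : S.act v (List.replicate i 1) = (S.π ^ i) v := by
  induction i generalizing v with
  | zero => rfl
  | succ i ih => rw [List.replicate_succ, act, ih, pow_succ]; rfl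

theorem act_rep_two (v : V) (i : ℕ) : S.act v (List.replicate i 2) = (S.π⁻¹ ^ i) v := by
  induction i generalizing v with
  | zero => rfl
  | succ i ih => rw [List.replicate_succ, act, ih, pow_succ]; rfl

theorem act_dirs (a : V) (w : List Bool) : S.act a (dirs w) = S.tip a w := by
  induction w with
  | nil => rfl
  | cons β w ih =>
    rw [dirs, act_append, ih, ← S.dart_snd a w]
    rfl

theorem act_rev (v : V) (u : List (Fin 3)) : S.act (S.act v u) (u.reverse.map rd) = v := by
  induction u generalizing v with
  | nil => rfl
  | cons d u ih =>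
    rw [List.reverse_cons, List.map_append, act_append, act, ih]
    exact S.step_step v d

theorem tip_left_inj (w : List Bool) : Function.Injective fun a => S.tip a w := by
  intro a a' h
  have h' : S.tip a w = S.tip a' w := h
  rw [← act_rev (S := S) a (dirs w), act_dirs, h', ← act_dirs, act_rev]

/-- short reduced walks with the same ends are equal -/
theorem Gir.uq (h : S.Gir c) {v : V} {u u' : List (Fin 3)} (hu : Red u) (hu' : Red u')
    (he : S.act v u = S.act v u') (hl : u.length + u'.length < c) : u = u' := by
  induction u generalizing v u' with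
  | nil =>
    by_contra hne
    exact h v u' hu' (Ne.symm hne) (by omega) he.symm
  | cons d u ih =>
    cases u' with
    | nil => exact absurd he (h v _ hu (List.cons_ne_nil _ _) (by omega))
    | cons d' u' =>
      by_cases hd : d = d'
      · subst hd
        rw [ih (v := S.step v d) (u' := u') hu.tail hu'.tail he
          (by simp only [List.length_cons] at hl; omega)]
      · exfalso
        refine h (S.act v (d' :: u')) ((d' :: u').reverse.map rd ++ d :: u) ?_ (by simp)
          (by simp only [List.length_append, List.length_map, List.length_reverse]; omega) ?_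
        · refine List.isChain_append.2 ⟨red_rev_Words hu', hu, fun x hx y hy => ?_⟩
          obtain rfl : d = y := Option.some.inj hy
          rw [List.reverse_cons, List.map_append, List.getLast?_append] at hx
          obtain rfl : rd d' = x := Option.some.inj hx
          rwa [rd_rd]
        · rw [act_append, act_rev, he]

theorem Gir.pow_inj (h : S.Gir c) {v : V} {i j : ℕ} (hi : i < c) (hj : j < c)
    (he : (S.π ^ i) v = (S.π ^ j) v) : i = j := by
  wlog hij : i ≤ j generalizing i j
  · exact (this hj hi he.symm (by omega)).symm
  obtain ⟨n, rfl⟩ := Nat.exists_eq_add_of_le hij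
  by_contra hne
  refine h ((S.π ^ i) v) (List.replicate n 1) (red_rep_Words n) ?_
    (by rw [List.length_replicate]; omega) ?_
  · intro h0
    have := congrArg List.length h0
    rw [List.length_replicate, List.length_nil] at this
    omega
  · rw [act_rep_one, ← Equiv.Perm.mul_apply, ← pow_add, add_comm, ← he]

private theorem act_rep_dirs_Words (v : V) (i : ℕ) (w : List Bool) :
    S.act v (List.replicate i 1 ++ dirs w) = S.tip ((S.π ^ i) v) w := by
  rw [act_append, act_rep_one, act_dirs]

private theorem act_rep_dirs_rep_Words (v : V) (i n : ℕ) (w : List Bool) :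
    S.act v (List.replicate i 1 ++ dirs w ++ List.replicate n 1) =
      (S.π ^ n) (S.tip ((S.π ^ i) v) w) := by
  rw [act_append, act_rep_dirs_Words, act_rep_one]

theorem Gir.tip_inj (h : S.Gir c) {v : V} {i i' : ℕ} {w w' : List Bool}
    (hl : i + w.length + 1 + (i' + w'.length + 1) < c)
    (he : S.tip ((S.π ^ i) v) w = S.tip ((S.π ^ i') v) w') : i = i' ∧ w = w' := by
  refine rep_dirs_inj_Words (h.uq (v := v) (red_rep_dirs_Words i w) (red_rep_dirs_Words i' w')
    (by rw [act_rep_dirs_Words, act_rep_dirs_Words, he]) ?_)
  simp only [List.length_append, List.length_replicate, length_dirs]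
  omega

theorem Gir.tip_ne_pow (h : S.Gir c) {v : V} {i j : ℕ} {w : List Bool}
    (hl : i + w.length + 1 + j < c) : S.tip ((S.π ^ i) v) w ≠ (S.π ^ j) v := by
  intro he
  have h1 := h.uq (v := v) (red_rep_dirs_Words i w) (red_rep_Words j)
    (by rw [act_rep_dirs_Words, act_rep_one, he])
    (by simp only [List.length_append, List.length_replicate, length_dirs]; omega)
  obtain ⟨t, ht⟩ := head_dirs_Words w
  have h2 : (0 : Fin 3) ∈ List.replicate j (1 : Fin 3) := by
    rw [← h1, ht]
    simp
  exact absurd (List.eq_of_mem_replicate h2) (by decide)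

theorem Gir.pow_tip_inj (h : S.Gir c) {v : V} {n i i' : ℕ} {w w' : List Bool} (hw : dir w = 0)
    (hw' : dir w' = 0) (hl : n + i + w.length + 1 + (i' + w'.length + 1) < c)
    (he : (S.π ^ n) (S.tip ((S.π ^ i) v) w) = S.tip ((S.π ^ i') v) w') : i = i' ∧ w = w' := by
  have h1 := h.uq (v := v) (red_rep_dirs_rep_Words i n hw) (red_rep_dirs_Words i' w')
    (by rw [act_rep_dirs_rep_Words, act_rep_dirs_Words, he])
    (by simp only [List.length_append, List.length_replicate, length_dirs]; omega)
  cases n with
  | zero =>
    rw [List.replicate_zero, List.append_nil] at h1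
    exact rep_dirs_inj_Words h1
  | succ n =>
    exfalso
    have h2 := congrArg List.getLast? h1
    rw [last_rep_dirs_Words, hw', List.replicate_succ', ← List.append_assoc,
      List.getLast?_append] at h2
    exact absurd (Option.some.inj h2) (by decide)

theorem Gir.pow_tip_ne (h : S.Gir c) {v : V} {n i j : ℕ} {w : List Bool} (hw : dir w = 0)
    (hl : n + i + w.length + 1 + j < c) :
    (S.π ^ n) (S.tip ((S.π ^ i) v) w) ≠ (S.π ^ j) v := by
  intro he
  have h1 := h.uq (v := v) (red_rep_dirs_rep_Words i n hw) (red_rep_Words j)
    (by rw [act_rep_dirs_rep_Words, act_rep_one, he])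
    (by simp only [List.length_append, List.length_replicate, length_dirs]; omega)
  obtain ⟨t, ht⟩ := head_dirs_Words w
  have h2 : (0 : Fin 3) ∈ List.replicate j (1 : Fin 3) := by
    rw [← h1, ht]
    simp
  exact absurd (List.eq_of_mem_replicate h2) (by decide)

theorem Gir.mu_ne (h : S.Gir c) (hc : 1 < c) (v : V) : S.μ v ≠ v :=
  h v [0] (List.isChain_singleton _) (List.cons_ne_nil _ _) hc

private theorem act_take_succ_Words (v : V) (w : List (Fin 3)) (i : ℕ) (hi : i < w.length) :
    S.act v (w.take (i + 1)) = S.step (S.act v (w.take i)) w[i] := by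
  rw [List.take_succ_eq_append_getElem hi, act_append]
  rfl

/-- the isoperimetric inequality forces large girth -/
theorem Iso.gir [Fintype V] [DecidableEq V] (h : S.Iso (c + 1)) (hV : 2 * c ≤ Fintype.card V) :
    S.Gir c := by
  intro v w hr hne hl hc
  have hL : 0 < w.length := List.length_pos_iff.2 hne
  set X : Finset V := (range w.length).image fun i => S.act v (w.take i) with hX
  have hmem : ∀ i ≤ w.length, S.act v (w.take i) ∈ X := by
    intro i hi
    rcases hi.eq_or_lt with rfl | hi
    · rw [List.take_length, hc]
      exact mem_image.2 ⟨0, mem_range.2 hL, rfl⟩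
    · exact mem_image.2 ⟨i, mem_range.2 hi, rfl⟩
  have hv : v ∈ X := hmem 0 (Nat.zero_le _)
  have hcard : X.card ≤ w.length := card_image_le.trans_eq (card_range _)
  have hco : Xᶜ.card = Fintype.card V - X.card := card_compl X
  have h1 := h X ⟨v, hv⟩ (card_pos.1 (by omega))
  rw [b_eq] at h1
  have h2 : X.card + 2 ≤ (S.out X).card := by omega
  have h3 : (S.out X).card = ∑ u ∈ X, ((S.out X).filter fun d => d.1 = u).card :=
    card_eq_sum_card_fiberwise fun d hd => (S.mem_out.1 hd).1
  have h4 : ∀ u (D : Finset (Fin 3)), (∀ e ∈ D, S.step u e ∈ X) →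
      ((S.out X).filter fun d => d.1 = u).card + D.card ≤ 3 := by
    intro u D hD
    have h5 : ((S.out X).filter fun d => d.1 = u).card ≤ Dᶜ.card := by
      refine card_le_card_of_injOn Prod.snd (fun d hd => ?_) fun d hd d' hd' he => ?_
      · obtain ⟨hd1, rfl⟩ := mem_filter.1 hd
        exact mem_compl.2 fun hm => (S.mem_out.1 hd1).2 (hD _ hm)
      · exact Prod.ext ((mem_filter.1 hd).2.trans (mem_filter.1 hd').2.symm) he
    have h6 := card_add_card_compl D
    rw [Fintype.card_fin] at h6
    omega
  have h5 : ∀ u ∈ X, ((S.out X).filter fun d => d.1 = u).card ≤ 1 + if u = v then 1 else 0 := by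
    intro u hu
    obtain ⟨i, hi, rfl⟩ := mem_image.1 hu
    have hi' := mem_range.1 hi
    have h6 : S.step (S.act v (w.take i)) w[i] ∈ X := by
      rw [← act_take_succ_Words]
      exact hmem _ hi'
    cases i with
    | zero =>
      have h7 := h4 _ {w[0]} fun e he => by rw [mem_singleton.1 he]; exact h6
      rw [card_singleton] at h7
      rw [if_pos (show S.act v (w.take 0) = v from rfl)]
      omega
    | succ i =>
      have h7 : S.step (S.act v (w.take (i + 1))) (rd w[i]) ∈ X := by
        rw [act_take_succ_Words v w i (by omega), step_step]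
        exact hmem _ (by omega)
      have h8 : w[i + 1] ≠ rd w[i] := List.isChain_iff_getElem.1 hr i hi'
      have h9 := h4 _ {w[i + 1], rd w[i]} fun e he => by
        rcases mem_insert.1 he with rfl | he
        · exact h6
        · rw [mem_singleton.1 he]
          exact h7
      rw [card_pair h8] at h9
      omega
  have h6 := sum_le_sum h5
  rw [← h3, sum_add_distrib, sum_const, smul_eq_mul, mul_one, sum_ite_eq', if_pos hv] at h6
  omega

end Str

end Pool.Agent.MP_9a3194_co
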